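import Pool.Agent.EC.Gr

/-!
# The Euler characteristic of the complement of an arrangement of hyperplanes

The Euler characteristic of the complement of an affine arrangement over an algebraically closed
field, by inclusion and exclusion; its expression by ranks (beta invariant of the arrangement); the
beta invariant is a constructible function of a matrix.
-/

namespace EC

open MvPolynomial Classical

variable {K : Type*} [Field K]

/-! ### Inclusion and exclusion -/

lemma ind_one {α : Type*} {S : Set α} {x : α} (h : x ∈ S) : ind S x = 1 := if_pos h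

lemma ind_zero {α : Type*} {S : Set α} {x : α} (h : x ∉ S) : ind S x = 0 := if_neg h

lemma ind_ne_eq_sum {α A : Type*} [Fintype A] (l : A → α → K) (x : α) :
    ind {x | ∀ a, l a x ≠ 0} x =
      ∑ I : Finset A, (-1) ^ I.card * ind {x | ∀ a ∈ I, l a x = 0} x := by
  have h1 : ind {x | ∀ a, l a x ≠ 0} x = ∏ a : A, (-ind {x | l a x = 0} x + 1) := by
    by_cases h : ∀ a, l a x ≠ 0
    · rw [ind_one (S := {x | ∀ a, l a x ≠ 0}) h]
      symm
      refine Finset.prod_eq_one fun a _ => ?_
      rw [ind_zero (S := {x | l a x = 0}) (h a)]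
      rfl
    · rw [ind_zero (S := {x | ∀ a, l a x ≠ 0}) h]
      push Not at h
      obtain ⟨a, ha⟩ := h
      symm
      refine Finset.prod_eq_zero (Finset.mem_univ a) ?_
      rw [ind_one (S := {x | l a x = 0}) ha]
      rfl
  rw [h1, Finset.prod_add, Finset.powerset_univ]
  refine Finset.sum_congr rfl fun I _ => ?_
  rw [Finset.prod_const_one, mul_one]
  by_cases h : ∀ a ∈ I, l a x = 0
  · rw [ind_one (S := {x | ∀ a ∈ I, l a x = 0}) h, mul_one,
      Finset.prod_congr rfl (g := fun _ => (-1 : ℤ)), Finset.prod_const]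
    intro a ha
    rw [ind_one (S := {x | l a x = 0}) (h a ha)]
  · rw [ind_zero (S := {x | ∀ a ∈ I, l a x = 0}) h, mul_zero]
    push Not at h
    obtain ⟨a, ha, ha'⟩ := h
    refine Finset.prod_eq_zero ha ?_
    rw [ind_zero (S := {x | l a x = 0}) ha']
    rfl

/-- The Euler characteristic of an intersection of affine hyperplanes. -/
lemma EI_flat [Infinite K] {d : ℕ} {A : Type*} (c : A → K) (g : A → ((Fin d → K) →ₗ[K] K))
    (I : Finset A) : EI d (ind {x | ∀ a ∈ I, c a + g a x = 0}) =
      if ∃ x, ∀ a ∈ I, c a + g a x = 0 then 1 else 0 := by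
  by_cases h : ∃ x, ∀ a ∈ I, c a + g a x = 0
  · rw [if_pos h]
    obtain ⟨x₀, hx₀⟩ := h
    have h1 : {x | ∀ a ∈ I, c a + g a x = 0} = {x | x - x₀ ∈ ⨅ a ∈ I, LinearMap.ker (g a)} := by
      ext x
      simp only [Set.mem_setOf_eq, Submodule.mem_iInf, LinearMap.mem_ker, map_sub]
      refine forall_congr' fun a => forall_congr' fun ha => ?_
      have h2 := hx₀ a ha
      constructor
      · intro h3
        linear_combination h3 - h2
      · intro h3
        linear_combination h3 + h2
    rw [h1]
    exact EI_affine d _ _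
  · rw [if_neg h]
    push Not at h
    have h1 : ind {x | ∀ a ∈ I, c a + g a x = 0} = fun _ => 0 := by
      ext x
      refine if_neg fun h2 => ?_
      obtain ⟨a, ha, h3⟩ := h x
      exact h3 (h2 a ha)
    rw [h1, EI_const]

lemma cons_flat {d : ℕ} {A : Type*} (c : A → K) (g : A → ((Fin d → K) →ₗ[K] K))
    (I : Finset A) : Cons {x | ∀ a ∈ I, c a + g a x = 0} := by
  have h1 : {x | ∀ a ∈ I, c a + g a x = 0} = ⋂ a ∈ I, {x | c a + g a x = 0} := by
    ext x
    simp
  rw [h1]
  refine Cons.biInter _ fun a _ => ?_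
  obtain ⟨p, hp⟩ := linear_eval (g a)
  have h2 := Cons.zero (C (c a) + p)
  simpa [hp] using h2

/-- The Euler characteristic of the complement of an affine arrangement. -/
theorem chi_arr [IsAlgClosed K] {d : ℕ} {A : Type*} [Fintype A] (c : A → K)
    (g : A → ((Fin d → K) →ₗ[K] K)) : chi d {x | ∀ a, c a + g a x ≠ 0} =
      ∑ I : Finset A, (-1) ^ I.card * (if ∃ x, ∀ a ∈ I, c a + g a x = 0 then 1 else 0) := by
  have : Infinite K := IsAlgClosed.instInfinite
  have h1 : ind {x | ∀ a, c a + g a x ≠ 0} = fun x => ∑ I : Finset A, (-1) ^ I.card *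
      ind {x | ∀ a ∈ I, c a + g a x = 0} x := by
    ext x
    exact ind_ne_eq_sum (fun a x => c a + g a x) x
  have ht : ∀ I : Finset A, Tame d (ind {x | ∀ a ∈ I, c a + g a x = 0}) :=
    fun I => (cons_flat c g I).tame
  rw [chi, h1, EI_sum _ fun I _ => ((ht I).mul_and _).1]
  refine Finset.sum_congr rfl fun I _ => ?_
  rw [EI_mul _ (ht I), EI_flat]

/-! ### Ranks -/

/-- The coordinate functionals and their sum. -/
noncomputable def fn (K : Type*) [Field K] (m : ℕ) : Option (Fin m) → ((Fin m → K) →ₗ[K] K)
  | none => ∑ i, LinearMap.proj i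
  | some i => LinearMap.proj i

/-- The rank of a set of functionals on `L`: the dimension of the image of `L`. -/
noncomputable def rk {m : ℕ} (L : Submodule K (Fin m → K)) (J : Finset (Option (Fin m))) : ℕ :=
  Module.finrank K (L.map (LinearMap.pi fun j : {j // j ∈ J} => fn K m j))

/-- The beta invariant of the arrangement of the coordinate hyperplanes and of the hyperplane where
the sum of the coordinates vanishes, restricted to `L`. -/
noncomputable def beta {m : ℕ} (L : Submodule K (Fin m → K)) : ℤ :=
  (-1) ^ Module.finrank K L * ∑ J : Finset (Option (Fin m)), (-1) ^ J.card * (rk L J : ℤ)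

/-- The subspace of `L` where the functionals in `J` vanish. -/
noncomputable def zs {m : ℕ} (L : Submodule K (Fin m → K)) (J : Finset (Option (Fin m))) :
    Submodule K (Fin m → K) :=
  L ⊓ LinearMap.ker (LinearMap.pi fun j : {j // j ∈ J} => fn K m j)

lemma mem_zs {m : ℕ} {L : Submodule K (Fin m → K)} {J : Finset (Option (Fin m))}
    {x : Fin m → K} : x ∈ zs L J ↔ x ∈ L ∧ ∀ a ∈ J, fn K m a x = 0 := by
  rw [zs, Submodule.mem_inf, LinearMap.mem_ker]
  refine and_congr_right fun _ => ?_
  rw [funext_iff]
  simp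

lemma finrank_map_add {V W : Type*} [AddCommGroup V] [Module K V] [FiniteDimensional K V]
    [AddCommGroup W] [Module K W] (L : Submodule K V) (f : V →ₗ[K] W) :
    Module.finrank K (L.map f) + Module.finrank K (L ⊓ LinearMap.ker f : Submodule K V) =
      Module.finrank K L := by
  have h1 := LinearMap.finrank_range_add_finrank_ker (f.domRestrict L)
  rw [LinearMap.range_domRestrict, LinearMap.ker_domRestrict] at h1
  rw [← h1]
  congr 1
  have h2 := LinearEquiv.finrank_eq (Submodule.equivMapOfInjective L.subtype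
    (Submodule.injective_subtype L) ((LinearMap.ker f).comap L.subtype))
  rw [h2, Submodule.map_comap_subtype]

lemma rk_add {m : ℕ} (L : Submodule K (Fin m → K)) (J : Finset (Option (Fin m))) :
    rk L J + Module.finrank K (zs L J) = Module.finrank K L := finrank_map_add L _

lemma rk_insert {m : ℕ} (L : Submodule K (Fin m → K)) (I : Finset (Option (Fin m)))
    (a : Option (Fin m)) : (rk L (insert a I) : ℤ) = rk L I +
      if ∃ p ∈ L, fn K m a p = 1 ∧ ∀ b ∈ I, fn K m b p = 0 then 1 else 0 := by
  have h1 := rk_add L I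
  have h2 := rk_add L (insert a I)
  have h3 := finrank_map_add (zs L I) (fn K m a)
  have h4 : (zs L I ⊓ LinearMap.ker (fn K m a) : Submodule K (Fin m → K)) =
      zs L (insert a I) := by
    ext x
    rw [Submodule.mem_inf, mem_zs, mem_zs, LinearMap.mem_ker]
    simp only [Finset.mem_insert, forall_eq_or_imp]
    tauto
  rw [h4] at h3
  have h5 : Module.finrank K ((zs L I).map (fn K m a)) =
      if ∃ p ∈ L, fn K m a p = 1 ∧ ∀ b ∈ I, fn K m b p = 0 then 1 else 0 := by
    by_cases h : ∃ p ∈ L, fn K m a p = 1 ∧ ∀ b ∈ I, fn K m b p = 0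
    · rw [if_pos h]
      obtain ⟨p, hp, hp1, hp2⟩ := h
      have h6 : (zs L I).map (fn K m a) = ⊤ := by
        rw [Submodule.eq_top_iff']
        intro t
        refine ⟨t • p, (zs L I).smul_mem t (mem_zs.2 ⟨hp, hp2⟩), ?_⟩
        rw [map_smul, hp1, smul_eq_mul, mul_one]
      rw [h6, finrank_top, Module.finrank_self]
    · rw [if_neg h]
      have h6 : (zs L I).map (fn K m a) = ⊥ := by
        rw [Submodule.eq_bot_iff]
        rintro _ ⟨p, hp, rfl⟩
        by_contra h7
        refine h ⟨(fn K m a p)⁻¹ • p, L.smul_mem _ (mem_zs.1 hp).1, ?_, ?_⟩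
        · rw [map_smul, smul_eq_mul, inv_mul_cancel₀ h7]
        · intro b hb
          rw [map_smul, (mem_zs.1 hp).2 b hb, smul_zero]
      rw [h6, finrank_bot]
  have h6 : rk L (insert a I) = rk L I + Module.finrank K ((zs L I).map (fn K m a)) := by omega
  rw [h6, h5]
  push_cast
  rfl

/-- An alternating sum over all sets of a function which ignores the element `a` vanishes. -/
lemma sum_insert_eq_zero {A : Type*} [Fintype A] [DecidableEq A] (a : A) (F : Finset A → ℤ) :
    ∑ I : Finset A, (-1) ^ I.card * F (insert a I) = 0 := by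
  have h1 : (Finset.univ : Finset (Finset A)) = (insert a (Finset.univ.erase a)).powerset := by
    rw [Finset.insert_erase (Finset.mem_univ a), Finset.powerset_univ]
  have ha : a ∉ (Finset.univ.erase a : Finset A) := Finset.notMem_erase a _
  rw [h1, Finset.sum_powerset_insert ha, ← Finset.sum_add_distrib]
  refine Finset.sum_eq_zero fun I hI => ?_
  have h2 : a ∉ I := fun h => ha (Finset.mem_powerset.1 hI h)
  rw [Finset.insert_idem, Finset.card_insert_of_notMem h2, pow_succ]
  ring

/-- The Euler characteristic of the complement of the arrangement in the projective space of `L`, in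
terms of an affine parametrisation of the chart where a functional is one. -/
theorem chi_beta [IsAlgClosed K] {m d : ℕ} (L : Submodule K (Fin m → K)) (a : Option (Fin m))
    (p₀ : Fin m → K) (ψ : (Fin d → K) →ₗ[K] (Fin m → K))
    (h : ∀ p, (p ∈ L ∧ fn K m a p = 1) ↔ ∃ x, p₀ + ψ x = p) :
    chi d {x | ∀ b, fn K m b (p₀ + ψ x) ≠ 0} = -(-1) ^ Module.finrank K L * beta L := by
  have h1 : {x | ∀ b, fn K m b (p₀ + ψ x) ≠ 0} =
      {x | ∀ b, fn K m b p₀ + (fn K m b ∘ₗ ψ) x ≠ 0} := by
    ext x
    simp
  rw [h1, chi_arr]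
  have h2 : ∀ I : Finset (Option (Fin m)), (if ∃ x, ∀ b ∈ I, fn K m b p₀ + (fn K m b ∘ₗ ψ) x = 0
      then (1 : ℤ) else 0) = rk L (insert a I) - rk L I := by
    intro I
    rw [rk_insert, add_sub_cancel_left]
    congr 1
    apply propext
    constructor
    · rintro ⟨x, hx⟩
      obtain ⟨h3, h4⟩ := (h _).2 ⟨x, rfl⟩
      refine ⟨_, h3, h4, fun b hb => ?_⟩
      rw [map_add]
      exact hx b hb
    · rintro ⟨p, h3, h4, h5⟩
      obtain ⟨x, rfl⟩ := (h p).1 ⟨h3, h4⟩
      refine ⟨x, fun b hb => ?_⟩
      rw [← h5 b hb, map_add]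
      rfl
  simp only [h2, mul_sub, Finset.sum_sub_distrib]
  rw [sum_insert_eq_zero a (fun J => (rk L J : ℤ)), beta, neg_mul, ← mul_assoc, ← pow_add,
    ← two_mul, pow_mul, neg_one_sq, one_pow, one_mul, zero_sub]

/-! ### Constructibility -/

lemma cons_indep [IsAlgClosed K] {κ A : Type*} [Finite κ] [Finite A] {k : ℕ}
    (Q : Fin k → A → MvPolynomial κ K) :
    Cons {x : κ → K | LinearIndependent K (fun (i : Fin k) (a : A) => eval x (Q i a))} := by
  have h1 : Cons ((⋃ i, {w : κ ⊕ Fin k → K | eval w (X (Sum.inr i)) ≠ 0}) ∩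
      ⋂ a, {w : κ ⊕ Fin k → K | eval w (∑ i, X (Sum.inr i) * rename Sum.inl (Q i a)) = 0}) :=
    (Cons.iUnion fun i => Cons.ne _).inter (Cons.iInter fun a => Cons.zero _)
  have h2 := h1.proj.compl
  convert h2 using 1
  ext x
  rw [Set.mem_compl_iff, Set.mem_setOf_eq, Set.mem_setOf_eq, Fintype.linearIndependent_iff,
    not_exists]
  refine forall_congr' fun z => ?_
  simp only [Set.mem_inter_iff, Set.mem_iUnion, Set.mem_iInter, Set.mem_setOf_eq, map_sum,
    map_mul, eval_X, eval_rename, Sum.elim_inr, Sum.elim_comp_inl, not_and, ne_eq]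
  rw [funext_iff]
  simp only [Finset.sum_apply, Pi.smul_apply, smul_eq_mul, Pi.zero_apply]
  constructor
  · rintro h3 ⟨i, hi⟩ h4
    exact hi (h3 h4 i)
  · intro h3 h4 i
    by_contra hi
    exact h3 ⟨i, hi⟩ h4

lemma cons_le_finrank [IsAlgClosed K] {κ A : Type*} [Finite κ] [Finite A] {r : ℕ}
    (P : Fin r → A → MvPolynomial κ K) (k : ℕ) :
    Cons {x : κ → K | k ≤ Module.finrank K
      (Submodule.span K (Set.range (fun (j : Fin r) (a : A) => eval x (P j a))))} := by
  have h1 := (cons_indep (κ := κ ⊕ (Fin k × Fin r)) (K := K) (fun (i : Fin k) (a : A) =>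
    ∑ j, X (Sum.inr (i, j)) * rename Sum.inl (P j a))).proj
  convert h1 using 1
  ext x
  simp only [Set.mem_setOf_eq, map_sum, map_mul, eval_X, eval_rename, Sum.elim_inr,
    Sum.elim_comp_inl]
  set v : Fin r → A → K := fun j a => eval x (P j a) with hv
  constructor
  · intro h
    obtain ⟨f, hf⟩ := exists_linearIndependent_of_le_finrank h
    have h2 : ∀ i, ∃ c : Fin r → K, ∑ j, c j • v j = (f i : A → K) := by
      intro i
      exact (Submodule.mem_span_range_iff_exists_fun K).1 (f i).2
    choose c hc using h2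
    refine ⟨fun ij => c ij.1 ij.2, ?_⟩
    have h3 : (fun (i : Fin k) (a : A) => ∑ j, c i j * v j a) = fun i => (f i : A → K) := by
      ext i a
      rw [← hc i, Finset.sum_apply]
      rfl
    rw [h3]
    exact hf.map' (Submodule.subtype _) (Submodule.ker_subtype _)
  · rintro ⟨z, hz⟩
    have h3 : ∀ i, (fun a : A => ∑ j, z (i, j) * v j a) ∈ Submodule.span K (Set.range v) := by
      intro i
      rw [Submodule.mem_span_range_iff_exists_fun]
      refine ⟨fun j => z (i, j), ?_⟩
      ext a
      rw [Finset.sum_apply]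
      rfl
    have h4 : LinearIndependent K (fun i => (⟨_, h3 i⟩ : Submodule.span K (Set.range v))) :=
      LinearIndependent.of_comp (Submodule.subtype _) hz
    have := Fintype.ofFinite A
    simpa using h4.fintype_card_le_finrank

lemma cf_finrank [IsAlgClosed K] {κ A : Type*} [Finite κ] [Finite A] {r : ℕ}
    (P : Fin r → A → MvPolynomial κ K) :
    CF (fun x : κ → K => (Module.finrank K
      (Submodule.span K (Set.range (fun (j : Fin r) (a : A) => eval x (P j a)))) : ℤ)) := by
  have hle : ∀ x : κ → K, Module.finrank K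
      (Submodule.span K (Set.range (fun (j : Fin r) (a : A) => eval x (P j a)))) ≤ r := by
    intro x
    have h1 := finrank_range_le_card (R := K) (fun (j : Fin r) (a : A) => eval x (P j a))
    rw [Fintype.card_fin] at h1
    exact h1
  refine ⟨((Finset.range (r + 1)).finite_toSet.image (fun j : ℕ => (j : ℤ))).subset ?_,
    fun b => ?_⟩
  · rintro _ ⟨x, rfl⟩
    refine ⟨_, ?_, rfl⟩
    have := hle x
    simp only [Finset.coe_range, Set.mem_Iio]
    omega
  · rcases lt_or_ge b 0 with hb | hb
    · convert Cons.empty (K := K) (ι := κ) using 1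
      ext x
      simp only [Set.mem_setOf_eq, Set.mem_empty_iff_false, iff_false]
      omega
    · obtain ⟨k, rfl⟩ := Int.eq_ofNat_of_zero_le hb
      have h1 := (cons_le_finrank P k).diff (cons_le_finrank P (k + 1))
      convert h1 using 1
      ext x
      simp only [Set.mem_setOf_eq, Set.mem_diff]
      omega

lemma fn_eval {m : ℕ} (a : Option (Fin m)) : ∃ p : MvPolynomial (Fin m) K,
    ∀ x, eval x p = fn K m a x := linear_eval _

/-- The rank is a constructible function of the matrix. -/
lemma cf_rk [IsAlgClosed K] {r m : ℕ} (J : Finset (Option (Fin m))) :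
    CF (fun q : Fin r × Fin m → K => (rk (rspan q) J : ℤ)) := by
  choose p hp using fun a : Option (Fin m) => fn_eval (K := K) a
  have h1 := cf_finrank (κ := Fin r × Fin m) (A := {j // j ∈ J}) (K := K)
    (fun (j : Fin r) a => rename (fun i => (j, i)) (p a))
  convert h1 using 1
  ext q
  have h2 : (fun j : Fin r => (LinearMap.pi fun a : {j // j ∈ J} => fn K m a) (row q j)) =
      fun j => fun a : {j // j ∈ J} => eval q (rename (fun i => (j, i)) (p a)) := by
    ext j a
    rw [eval_rename, hp]
    rfl
  rw [rk, rspan, Submodule.map_span, ← Set.range_comp, ← h2]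
  rfl

/-- The dimension is a constructible function of the matrix. -/
lemma cf_finrank_rspan [IsAlgClosed K] {r m : ℕ} :
    CF (fun q : Fin r × Fin m → K => (Module.finrank K (rspan q) : ℤ)) := by
  have h1 := cf_finrank (κ := Fin r × Fin m) (A := Fin m) (K := K)
    (fun (j : Fin r) i => X (j, i))
  convert h1 using 1
  ext q
  have h2 : (fun (j : Fin r) (i : Fin m) => eval q (X (j, i))) = row q := by
    ext j i
    rw [eval_X]
    rfl
  rw [h2]
  rfl

/-- The beta invariant is a constructible function of the matrix. -/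
theorem cf_beta [IsAlgClosed K] {r m : ℕ} :
    CF (fun q : Fin r × Fin m → K => beta (rspan q)) := by
  have h1 : CF (fun q : Fin r × Fin m → K => ∑ J : Finset (Option (Fin m)),
      (-1) ^ J.card * (rk (rspan q) J : ℤ)) :=
    CF.sum _ fun J _ => (cf_rk J).comp₁ (fun b => (-1) ^ J.card * b)
  have h2 := cf_finrank_rspan.comp₂ h1 (fun a b => (-1) ^ a.natAbs * b)
  simpa [beta] using h2

/-- The form for the integrals over normalised frames. -/
theorem cf_beta_Fr [IsAlgClosed K] {r m : ℕ} (hFr : Cons (Fr K r m)) (φ : ℤ → ℤ) :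
    CF (fun q : Fin r × Fin m → K => ind (Fr K r m) q * φ (beta (rspan q))) :=
  (CF.of_cons hFr).comp₂ (cf_beta.comp₁ φ) (fun a b => a * b)

end EC
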