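import Pool.Agent.EC.Gr

/-!
# Integration over normalised frames and over the Grassmannian
-/

namespace EC

open MvPolynomial Classical

variable {K : Type*} [Field K] {m r : ℕ}

lemma cons_coord_eq {ι : Type*} (i : ι) (c : K) : Cons {x : ι → K | x i = c} := by
  have := Cons.zero (X i - C c : MvPolynomial ι K)
  simpa [sub_eq_zero] using this

lemma cons_NV (i : Fin m) : Cons (NV K m i) := by
  have : NV K m i = {x | x i = 1} ∩ ⋂ j : {j : Fin m // j < i}, {x | x j.1 = 0} := by
    ext x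
    simp only [NV, Set.mem_setOf_eq, Set.mem_inter_iff, Set.mem_iInter, Subtype.forall]
  rw [this]
  exact (cons_coord_eq i 1).inter (Cons.iInter fun j => cons_coord_eq _ _)

lemma cons_Fr : Cons (Fr K r m) := by
  have : Fr K r m = ⋃ p : Fin r → Fin m, ⋂ j : Fin r,
      ({q | q (j, p j) = 1} ∩ ((⋂ i : {i : Fin m // i < p j}, {q | q (j, i.1) = 0}) ∩
        ⋂ l : {l : Fin r // l < j}, {q | q (j, p l.1) = 0})) := by
    ext x
    simp only [Fr, Set.mem_setOf_eq, Set.mem_iUnion, Set.mem_inter_iff, Set.mem_iInter,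
      Subtype.forall]
  rw [this]
  exact Cons.iUnion fun p => Cons.iInter fun j => (cons_coord_eq _ 1).inter
    ((Cons.iInter fun i => cons_coord_eq _ _).inter (Cons.iInter fun l => cons_coord_eq _ _))

/-- Reduced echelon matrices with given pivots. -/
def REp (K : Type*) [Field K] (r m : ℕ) (p : Fin r → Fin m) : Set (Fin r × Fin m → K) :=
  {q | StrictMono p ∧ ∀ j, q (j, p j) = 1 ∧ (∀ i < p j, q (j, i) = 0) ∧
    ∀ l, l ≠ j → q (j, p l) = 0}

lemma cons_REp (p : Fin r → Fin m) : Cons (REp K r m p) := by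
  by_cases hp : StrictMono p
  · have : REp K r m p = ⋂ j : Fin r,
        ({q | q (j, p j) = 1} ∩ ((⋂ i : {i : Fin m // i < p j}, {q | q (j, i.1) = 0}) ∩
          ⋂ l : {l : Fin r // l ≠ j}, {q | q (j, p l.1) = 0})) := by
      ext x
      simp only [REp, Set.mem_setOf_eq, Set.mem_inter_iff, Set.mem_iInter,
        Subtype.forall, hp, true_and]
    rw [this]
    exact Cons.iInter fun j => (cons_coord_eq _ 1).inter
      ((Cons.iInter fun i => cons_coord_eq _ _).inter (Cons.iInter fun l => cons_coord_eq _ _))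
  · have : REp K r m p = ∅ := by
      ext x
      simp [REp, hp]
    rw [this]
    exact Cons.empty

lemma cons_frames (L : Submodule K (Fin m → K)) :
    Cons {q : Fin r × Fin m → K | q ∈ Fr K r m ∧ ∀ j, row q j ∈ L} := by
  have h3 : {q : Fin r × Fin m → K | q ∈ Fr K r m ∧ ∀ j, row q j ∈ L} =
      Fr K r m ∩ ⋂ j, {q | q ∘ (fun i => (j, i)) ∈ {x | x ∈ L}} := by
    ext q
    simp only [Set.mem_setOf_eq, Set.mem_inter_iff, Set.mem_iInter]
    rfl
  rw [h3]
  exact cons_Fr.inter (Cons.iInter fun j => (cons_submodule L).reindex _)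

lemma RE_eq : RE K r m = ⋃ p, REp K r m p := by
  ext x
  simp only [RE, REp, Set.mem_setOf_eq, Set.mem_iUnion]

lemma cons_RE : Cons (RE K r m) := by
  rw [RE_eq]
  exact Cons.iUnion fun p => cons_REp p

lemma NV_unique {x : Fin m → K} {i j : Fin m} (hi : x ∈ NV K m i) (hj : x ∈ NV K m j) : i = j := by
  by_contra h
  rcases lt_or_gt_of_ne h with h | h
  · have := hj.2 i h
    rw [hi.1] at this
    exact one_ne_zero this
  · have := hi.2 j h
    rw [hj.1] at this
    exact one_ne_zero this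

/-- The hyperplane section. -/
def hyp (L : Submodule K (Fin m → K)) (i : Fin m) : Submodule K (Fin m → K) :=
  L ⊓ LinearMap.ker (LinearMap.proj i : (Fin m → K) →ₗ[K] K)

lemma mem_hyp {L : Submodule K (Fin m → K)} {i : Fin m} {x : Fin m → K} :
    x ∈ hyp L i ↔ x ∈ L ∧ x i = 0 := by
  unfold hyp
  rw [Submodule.mem_inf, LinearMap.mem_ker, LinearMap.proj_apply]

lemma finrank_hyp {L : Submodule K (Fin m → K)} {i : Fin m} (hi : i ∈ piv L) :
    Module.finrank K (hyp L i) + 1 = Module.finrank K L := by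
  set φ : L →ₗ[K] K := (LinearMap.proj i : (Fin m → K) →ₗ[K] K).comp L.subtype with hφ
  have h1 : LinearMap.range φ = ⊤ := by
    obtain ⟨x, hx, h1, _⟩ := mem_piv.1 hi
    rw [LinearMap.range_eq_top]
    intro c
    refine ⟨c • ⟨x, hx⟩, ?_⟩
    rw [map_smul]
    show c • x i = c
    rw [h1, smul_eq_mul, mul_one]
  have h2 := LinearMap.finrank_range_add_finrank_ker φ
  rw [h1, finrank_top, Module.finrank_self] at h2
  have h3 : (LinearMap.ker φ).map L.subtype = hyp L i := by
    ext x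
    rw [Submodule.mem_map, mem_hyp]
    constructor
    · rintro ⟨y, hy, rfl⟩
      exact ⟨y.2, hy⟩
    · rintro ⟨h4, h5⟩
      exact ⟨⟨x, h4⟩, h5, rfl⟩
  have h4 : Module.finrank K (hyp L i) = Module.finrank K (LinearMap.ker φ) := by
    rw [← h3]
    exact Submodule.finrank_map_subtype_eq L _
  omega

section
variable [IsAlgClosed K] (h2 : Swap2 K)
include h2

/-- The Euler characteristic of the vectors of `L` with first nonzero coordinate `1` at `i`. -/
lemma E_NV {L : Submodule K (Fin m → K)} {i : Fin m} (hi : i ∈ piv L) :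
    E (fun x : Fin m → K => ind {x | x ∈ L ∧ x ∈ NV K m i} x) = 1 := by
  have hinf : Infinite K := IsAlgClosed.instInfinite
  obtain ⟨a, ha, ha'⟩ := mem_piv.1 hi
  set L' : Submodule K (Fin m → K) := L ⊓ ⨅ j : {j : Fin m // j ≤ i},
    LinearMap.ker (LinearMap.proj j.1 : (Fin m → K) →ₗ[K] K) with hL'
  have h1 : {x : Fin m → K | x ∈ L ∧ x ∈ NV K m i} = {x | x - a ∈ L'} := by
    ext x
    simp only [hL', Submodule.mem_inf, Submodule.mem_iInf, LinearMap.mem_ker,
      LinearMap.proj_apply, Set.mem_setOf_eq, Subtype.forall, Pi.sub_apply, sub_eq_zero]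
    constructor
    · rintro ⟨h3, h4, h5⟩
      refine ⟨L.sub_mem h3 ha, fun j hj => ?_⟩
      rcases eq_or_lt_of_le hj with h | h
      · rw [h, h4, ha'.1]
      · rw [h5 j h, ha'.2 j h]
    · rintro ⟨h3, h4⟩
      refine ⟨by simpa using L.add_mem h3 ha, ?_, fun j hj => ?_⟩
      · rw [h4 i le_rfl, ha'.1]
      · rw [h4 j hj.le, ha'.2 j hj]
  rw [h1, E_fin h2 (CF.of_cons _)]
  · exact EI_affine m L' a
  · rw [← h1]
    exact (cons_submodule L).inter (cons_NV i)

/-- Frames inside `L`. -/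
lemma E_frames : ∀ (r : ℕ) (L : Submodule K (Fin m → K)), Module.finrank K L = r →
    E (fun q : Fin r × Fin m → K => ind {q | q ∈ Fr K r m ∧ ∀ j, row q j ∈ L} q) =
      (r.factorial : ℤ)
  | 0, L, _ => by
    have h1 : (fun q : Fin 0 × Fin m → K => ind {q | q ∈ Fr K 0 m ∧ ∀ j, row q j ∈ L} q) =
        fun _ => 1 := by
      ext q
      exact if_pos ⟨⟨fun j => j.elim0, fun j => j.elim0⟩, fun j => j.elim0⟩
    rw [h1, E_const]
    simp
  | r + 1, L, hL => by
    set e : Fin m ⊕ (Fin r × Fin m) ≃ Fin (r + 1) × Fin m :=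
      { toFun := Sum.elim (fun i => (0, i)) (fun ji => (ji.1.succ, ji.2))
        invFun := fun ji => Fin.cases (Sum.inl ji.2) (fun j => Sum.inr (j, ji.2)) ji.1
        left_inv := by
          rintro (i | ⟨j, i⟩) <;> simp
        right_inv := by
          rintro ⟨j, i⟩
          refine Fin.cases ?_ (fun j => ?_) j <;> simp } with he
    set f : (Fin m ⊕ (Fin r × Fin m) → K) → ℤ := fun w => ∑ i ∈ piv L,
      (fun x => ind {x | x ∈ L ∧ x ∈ NV K m i} x) (w ∘ Sum.inl) *
      (fun q => ind {q | q ∈ Fr K r m ∧ ∀ j, row q j ∈ hyp L i} q) (w ∘ Sum.inr) with hf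
    have hc1 : ∀ i, CF (fun x => ind {x | x ∈ L ∧ x ∈ NV K m i} x) := fun i =>
      CF.of_cons ((cons_submodule L).inter (cons_NV i))
    have hc2 : ∀ i, CF (fun q : Fin r × Fin m → K =>
        ind {q | q ∈ Fr K r m ∧ ∀ j, row q j ∈ hyp L i} q) := by
      intro i
      exact CF.of_cons (cons_frames (hyp L i))
    have hc3 : ∀ i, CF (fun w : Fin m ⊕ (Fin r × Fin m) → K =>
      (fun x => ind {x | x ∈ L ∧ x ∈ NV K m i} x) (w ∘ Sum.inl) *
      (fun q => ind {q | q ∈ Fr K r m ∧ ∀ j, row q j ∈ hyp L i} q) (w ∘ Sum.inr)) := fun i =>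
      ((hc1 i).reindex Sum.inl).comp₂ ((hc2 i).reindex Sum.inr) (fun a b => a * b)
    have hcf : CF f := CF.sum _ fun i _ => hc3 i
    have h1 : (fun q : Fin (r + 1) × Fin m → K =>
        ind {q | q ∈ Fr K (r + 1) m ∧ ∀ j, row q j ∈ L} q) = fun q => f (q ∘ e) := by
      ext q
      have hl : (q ∘ e) ∘ Sum.inl = row q 0 := rfl
      have hr : ∀ j, row ((q ∘ e) ∘ Sum.inr) j = row q j.succ := fun j => rfl
      have key : ∀ i, (((q ∘ e) ∘ Sum.inl ∈ L ∧ (q ∘ e) ∘ Sum.inl ∈ NV K m i) ∧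
          ((q ∘ e) ∘ Sum.inr ∈ Fr K r m ∧ ∀ j, row ((q ∘ e) ∘ Sum.inr) j ∈ hyp L i)) →
          (q ∈ Fr K (r + 1) m ∧ ∀ j, row q j ∈ L) := by
        rintro i ⟨⟨h3, h4⟩, ⟨p, h5⟩, h6⟩
        rw [hl] at h3 h4
        refine ⟨⟨Fin.cons i p, fun j => ?_⟩, fun j => ?_⟩
        · refine Fin.cases ?_ (fun j => ?_) j
          · refine ⟨h4.1, h4.2, fun l hl => absurd hl (by simp)⟩
          · refine ⟨(h5 j).1, (h5 j).2.1, fun l hl => ?_⟩
            revert hl
            refine Fin.cases ?_ (fun l => ?_) l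
            · intro _
              exact (mem_hyp.1 (h6 j)).2
            · intro hl
              exact (h5 j).2.2 l (Fin.succ_lt_succ_iff.1 hl)
        · refine Fin.cases h3 (fun j => ?_) j
          exact (mem_hyp.1 (h6 j)).1
      by_cases hq : q ∈ Fr K (r + 1) m ∧ ∀ j, row q j ∈ L
      · obtain ⟨⟨p, hp⟩, hrow⟩ := hq
        have h0 : row q 0 ∈ NV K m (p 0) := ⟨(hp 0).1, (hp 0).2.1⟩
        have h3 : ind {q : Fin (r + 1) × Fin m → K | q ∈ Fr K (r + 1) m ∧ ∀ j, row q j ∈ L} q = 1 :=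
          if_pos ⟨⟨p, hp⟩, hrow⟩
        rw [h3, hf]
        symm
        show ∑ i ∈ piv L, _ = _
        rw [Finset.sum_eq_single (p 0)]
        · have h4 : ind {x | x ∈ L ∧ x ∈ NV K m (p 0)} ((q ∘ e) ∘ Sum.inl) = 1 :=
            if_pos ⟨hrow 0, h0⟩
          have h5 : ind {q : Fin r × Fin m → K | q ∈ Fr K r m ∧ ∀ j, row q j ∈ hyp L (p 0)}
              ((q ∘ e) ∘ Sum.inr) = 1 := by
            refine if_pos ⟨⟨fun j => p j.succ, fun j => ⟨(hp j.succ).1, (hp j.succ).2.1,
              fun l hl => (hp j.succ).2.2 l.succ (Fin.succ_lt_succ_iff.2 hl)⟩⟩, fun j => ?_⟩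
            rw [hr]
            exact mem_hyp.2 ⟨hrow _, (hp j.succ).2.2 0 (Fin.succ_pos _)⟩
          show ind {x | x ∈ L ∧ x ∈ NV K m (p 0)} ((q ∘ e) ∘ Sum.inl) *
            ind {q : Fin r × Fin m → K | q ∈ Fr K r m ∧ ∀ j, row q j ∈ hyp L (p 0)}
              ((q ∘ e) ∘ Sum.inr) = 1
          rw [h4, h5, mul_one]
        · intro i _ hi
          have h4 : ind {x | x ∈ L ∧ x ∈ NV K m i} ((q ∘ e) ∘ Sum.inl) = 0 :=
            if_neg fun h => hi (NV_unique h.2 h0)
          show ind {x | x ∈ L ∧ x ∈ NV K m i} ((q ∘ e) ∘ Sum.inl) * _ = 0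
          rw [h4, zero_mul]
        · intro h
          exact absurd (mem_piv.2 ⟨_, hrow 0, h0⟩) h
      · have h3 : ind {q : Fin (r + 1) × Fin m → K | q ∈ Fr K (r + 1) m ∧ ∀ j, row q j ∈ L} q = 0 :=
          if_neg hq
        rw [h3, hf]
        symm
        refine Finset.sum_eq_zero fun i _ => ?_
        by_cases h4 : (q ∘ e) ∘ Sum.inl ∈ L ∧ (q ∘ e) ∘ Sum.inl ∈ NV K m i
        · have h5 : ind {q : Fin r × Fin m → K | q ∈ Fr K r m ∧ ∀ j, row q j ∈ hyp L i}
              ((q ∘ e) ∘ Sum.inr) = 0 := if_neg fun h => hq (key i ⟨h4, h⟩)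
          show _ * ind {q : Fin r × Fin m → K | q ∈ Fr K r m ∧ ∀ j, row q j ∈ hyp L i}
              ((q ∘ e) ∘ Sum.inr) = 0
          rw [h5, mul_zero]
        · have h5 : ind {x | x ∈ L ∧ x ∈ NV K m i} ((q ∘ e) ∘ Sum.inl) = 0 := if_neg h4
          show ind {x | x ∈ L ∧ x ∈ NV K m i} ((q ∘ e) ∘ Sum.inl) * _ = 0
          rw [h5, zero_mul]
    rw [h1, E_equiv h2 e hcf, hf, E_fsum _ fun i _ => hc3 i]
    have h3 : ∀ i ∈ piv L, E (fun w : Fin m ⊕ (Fin r × Fin m) → K =>
        (fun x => ind {x | x ∈ L ∧ x ∈ NV K m i} x) (w ∘ Sum.inl) *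
        (fun q => ind {q | q ∈ Fr K r m ∧ ∀ j, row q j ∈ hyp L i} q) (w ∘ Sum.inr)) =
        (r.factorial : ℤ) := by
      intro i hi
      rw [E_prod h2 (hc1 i) (hc2 i), E_NV h2 hi, E_frames r (hyp L i) (by
        have := finrank_hyp hi
        omega), one_mul]
    rw [Finset.sum_congr rfl h3, Finset.sum_const, card_piv, hL, Nat.factorial_succ]
    push_cast
    ring

/-- Integration over normalised frames is `r!` times integration over the Grassmannian. -/
theorem E_frames_gr {g : Submodule K (Fin m → K) → ℤ}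
    (hg : CF (fun q : Fin r × Fin m → K => ind (Fr K r m) q * g (rspan q))) :
    E (fun q : Fin r × Fin m → K => ind (Fr K r m) q * g (rspan q)) =
      (r.factorial : ℤ) * E (fun A : Fin r × Fin m → K => ind (RE K r m) A * g (rspan A)) := by
  set f : (Fin r × Fin m → K) → ℤ := fun q => ind (Fr K r m) q * g (rspan q) with hf
  set Γ : Set ((Fin r × Fin m) ⊕ (Fin r × Fin m) → K) :=
    {w | w ∘ Sum.inr ∈ RE K r m ∧ ∃ p : Fin r → Fin m, w ∘ Sum.inr ∈ REp K r m p ∧
      ∀ j i, w (Sum.inl (j, i)) = ∑ l, w (Sum.inl (j, p l)) * w (Sum.inr (l, i))} with hΓ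
  have hΓc : Cons Γ := by
    have h1 : Γ = {w | w ∘ Sum.inr ∈ RE K r m} ∩ ⋃ p : Fin r → Fin m,
        ({w | w ∘ Sum.inr ∈ REp K r m p} ∩ ⋂ j : Fin r, ⋂ i : Fin m,
          {w : (Fin r × Fin m) ⊕ (Fin r × Fin m) → K |
            eval w (X (Sum.inl (j, i)) - ∑ l, X (Sum.inl (j, p l)) * X (Sum.inr (l, i)) :
              MvPolynomial _ K) = 0}) := by
      ext w
      simp only [hΓ, Set.mem_setOf_eq, Set.mem_inter_iff, Set.mem_iUnion, Set.mem_iInter,
        map_sub, map_sum, map_mul, eval_X, sub_eq_zero]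
    rw [h1]
    exact (cons_RE.reindex Sum.inr).inter (Cons.iUnion fun p => ((cons_REp p).reindex
      Sum.inr).inter (Cons.iInter fun j => Cons.iInter fun i => Cons.zero _))
  -- membership in `Γ`
  have hmem : ∀ (q A : Fin r × Fin m → K), q ∈ Fr K r m → (Sum.elim q A ∈ Γ ↔
      A ∈ RE K r m ∧ rspan A = rspan q) := by
    intro q A hq
    have hq' := finrank_rspan hq
    constructor
    · rintro ⟨h3, p, _, h4⟩
      rw [Sum.elim_comp_inr] at h3
      refine ⟨h3, Eq.symm ((rspan_eq_iff hq (finrank_rspan (RE_subset_Fr h3))).2 ?_)⟩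
      intro j
      have h5 : row q j = ∑ l, q (j, p l) • row A l := by
        ext i
        rw [Finset.sum_apply]
        exact h4 j i
      rw [h5]
      exact Submodule.sum_mem _ fun l _ => Submodule.smul_mem _ _ (Submodule.subset_span ⟨l, rfl⟩)
    · rintro ⟨h3, h4⟩
      have h3' := h3
      obtain ⟨p, hp⟩ := h3
      refine ⟨h3', p, hp, fun j i => ?_⟩
      have h5 : row q j ∈ rspan A := by
        rw [h4]
        exact Submodule.subset_span ⟨j, rfl⟩
      unfold rspan at h5
      rw [Submodule.mem_span_range_iff_exists_fun] at h5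
      obtain ⟨c, hc⟩ := h5
      have h6 : ∀ i, q (j, i) = ∑ l, c l * A (l, i) := by
        intro i
        have := congrFun hc i
        rw [Finset.sum_apply] at this
        exact this.symm
      have h7 : ∀ l, q (j, p l) = c l := by
        intro l
        rw [h6, Finset.sum_eq_single l]
        · rw [(hp.2 l).1, mul_one]
        · intro l' _ hl'
          rw [(hp.2 l').2.2 l hl'.symm, mul_zero]
        · intro h
          exact absurd (Finset.mem_univ l) h
      show q (j, i) = ∑ l, q (j, p l) * A (l, i)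
      simp only [h7]
      exact h6 i
  have h1 : ∀ q, f q ≠ 0 → ∃! A, Sum.elim q A ∈ Γ := by
    intro q hq0
    have hq : q ∈ Fr K r m := by
      by_contra hc
      refine hq0 ?_
      show ind (Fr K r m) q * _ = 0
      unfold ind
      rw [if_neg hc, zero_mul]
    obtain ⟨A, hA, hu⟩ := RE_unique (finrank_rspan hq)
    exact ⟨A, (hmem q A hq).2 hA, fun B hB => hu B ((hmem q B hq).1 hB)⟩
  rw [E_fib h2 hΓc hg h1]
  have hgr : CF (fun A : Fin r × Fin m → K => ind (RE K r m) A * g (rspan A)) := by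
    have h3 := (CF.of_cons (cons_RE (K := K) (r := r) (m := m))).comp₂ hg (fun a b => a * b)
    convert h3 using 1
    ext A
    show _ = ind (RE K r m) A * (ind (Fr K r m) A * g (rspan A))
    by_cases hA : A ∈ RE K r m
    · have h4 : ind (Fr K r m) A = 1 := if_pos (RE_subset_Fr hA)
      rw [h4, one_mul]
    · have h4 : ind (RE K r m) A = 0 := if_neg hA
      rw [h4, zero_mul, zero_mul]
  rw [← E_mul _ hgr]
  congr 1
  ext A
  by_cases hA : A ∈ RE K r m
  · have h3 : ind (RE K r m) A = 1 := if_pos hA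
    rw [h3, one_mul]
    have hfr : Module.finrank K (rspan A) = r := finrank_rspan (RE_subset_Fr hA)
    have h4 : (fun q => ind Γ (Sum.elim q A) * f q) = fun q => g (rspan A) *
        ind {q | q ∈ Fr K r m ∧ ∀ j, row q j ∈ rspan A} q := by
      ext q
      by_cases hq : q ∈ Fr K r m
      · by_cases hqA : rspan q = rspan A
        · have e1 : ind Γ (Sum.elim q A) = 1 := if_pos ((hmem q A hq).2 ⟨hA, hqA.symm⟩)
          have e2 : ind {q | q ∈ Fr K r m ∧ ∀ j, row q j ∈ rspan A} q = 1 :=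
            if_pos ⟨hq, (rspan_eq_iff hq hfr).1 hqA⟩
          have e3 : f q = g (rspan A) := by
            show ind (Fr K r m) q * g (rspan q) = _
            unfold ind
            rw [if_pos hq, one_mul, hqA]
          rw [e1, e2, e3]
          ring
        · have e1 : ind Γ (Sum.elim q A) = 0 :=
            if_neg fun h => hqA ((hmem q A hq).1 h).2.symm
          have e2 : ind {q | q ∈ Fr K r m ∧ ∀ j, row q j ∈ rspan A} q = 0 :=
            if_neg fun h => hqA ((rspan_eq_iff hq hfr).2 h.2)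
          rw [e1, e2]
          ring
      · have e3 : f q = 0 := by
          show ind (Fr K r m) q * g (rspan q) = 0
          unfold ind
          rw [if_neg hq, zero_mul]
        have e2 : ind {q | q ∈ Fr K r m ∧ ∀ j, row q j ∈ rspan A} q = 0 :=
          if_neg fun h => hq h.1
        rw [e2, e3]
        ring
    have h5 : CF (fun q : Fin r × Fin m → K =>
        ind {q | q ∈ Fr K r m ∧ ∀ j, row q j ∈ rspan A} q) := by
      exact CF.of_cons (cons_frames (rspan A))
    rw [h4, E_mul _ h5, E_frames h2 r (rspan A) hfr]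
    ring
  · have h3 : ind (RE K r m) A = 0 := if_neg hA
    rw [h3, zero_mul, mul_zero]
    have h4 : (fun q => ind Γ (Sum.elim q A) * f q) = fun _ => (0 : ℤ) := by
      ext q
      have e1 : ind Γ (Sum.elim q A) = 0 := if_neg fun h => hA h.1
      rw [e1, zero_mul]
    rw [h4, E_const]

end

end EC
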