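import Pool.Agent.EC.Arr
import Pool.Agent.EC.Frames

/-!
# Charts for the arrangement in a subspace, and sums over the values of the beta invariant
-/

namespace EC

open MvPolynomial Classical

variable {K : Type*} [Field K] {m r d : ℕ}

/-- The complement of the arrangement in a chart given by a linear parametrisation of `L`. -/
theorem chi_param [IsAlgClosed K] (L : Submodule K (Fin m → K))
    (e : (Fin (d + 1) → K) →ₗ[K] (Fin m → K)) (he : LinearMap.range e = L) (a : Option (Fin m))
    (ha : ∀ x, fn K m a (e x) = x 0) :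
    chi d {y | ∀ b, fn K m b (e (Fin.cons 1 y)) ≠ 0} = -(-1) ^ Module.finrank K L * beta L := by
  let ψ : (Fin d → K) →ₗ[K] (Fin m → K) :=
    { toFun := fun y => e (Fin.cons 0 y)
      map_add' := by
        intro x y
        rw [← map_add]
        congr 1
        ext i
        refine Fin.cases ?_ (fun j => ?_) i <;> simp
      map_smul' := by
        intro c y
        rw [RingHom.id_apply, ← map_smul]
        congr 1
        ext i
        refine Fin.cases ?_ (fun j => ?_) i <;> simp }
  have hψ : ∀ y, e (Fin.cons 1 0) + ψ y = e (Fin.cons 1 y) := by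
    intro y
    change e (Fin.cons 1 0) + e (Fin.cons 0 y) = e (Fin.cons 1 y)
    rw [← map_add]
    congr 1
    ext i
    refine Fin.cases ?_ (fun j => ?_) i <;> simp
  have h1 := chi_beta L a (e (Fin.cons 1 0)) ψ (by
    intro p
    constructor
    · rintro ⟨hp, hp1⟩
      rw [← he] at hp
      obtain ⟨x, rfl⟩ := hp
      rw [ha] at hp1
      refine ⟨Fin.tail x, ?_⟩
      rw [hψ, ← hp1]
      congr 1
      exact Fin.cons_self_tail x
    · rintro ⟨y, rfl⟩
      rw [hψ, ha, ← he]
      exact ⟨⟨_, rfl⟩, rfl⟩)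
  simp only [hψ] at h1
  exact h1

/-- The linear combinations of the rows. -/
noncomputable def comb (q : Fin r × Fin m → K) : (Fin r → K) →ₗ[K] (Fin m → K) :=
  ∑ j, (LinearMap.proj j).smulRight (row q j)

lemma comb_apply (q : Fin r × Fin m → K) (x : Fin r → K) : comb q x = ∑ j, x j • row q j := by
  simp [comb]

lemma range_comb (q : Fin r × Fin m → K) : LinearMap.range (comb q) = rspan q := by
  ext p
  rw [rspan, Submodule.mem_span_range_iff_exists_fun, LinearMap.mem_range]
  simp only [comb_apply]

/-- The chart of the projective space of `L` given by a normalised frame. -/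
theorem chi_frame [IsAlgClosed K] {q : Fin (d + 1) × Fin m → K} (hq : q ∈ Fr K (d + 1) m) :
    chi d {y | ∀ b, fn K m b (∑ j, (Fin.cons 1 y : Fin (d + 1) → K) j • row q j) ≠ 0} =
      (-1) ^ d * beta (rspan q) := by
  have h0 := finrank_rspan hq
  obtain ⟨p, hp⟩ := hq
  have h1 := chi_param (rspan q) (comb q) (range_comb q) (some (p 0)) (by
    intro x
    rw [comb_apply, map_sum, Finset.sum_eq_single 0]
    · rw [map_smul]
      change x 0 * q (0, p 0) = x 0
      rw [(hp 0).1, mul_one]
    · intro j _ hj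
      rw [map_smul]
      change x j * q (j, p 0) = 0
      rw [(hp j).2.2 0 (Fin.pos_of_ne_zero hj), mul_zero]
    · intro h
      exact absurd (Finset.mem_univ _) h)
  simp only [comb_apply] at h1
  rw [h1, h0, pow_succ]
  ring

/-- The parametrisation by the entries at the places `p`. -/
theorem chi_pivots [IsAlgClosed K] (L : Submodule K (Fin m → K)) (hL : Module.finrank K L = d + 1)
    (p : Fin (d + 1) → Fin m) (e : (Fin (d + 1) → K) → (Fin m → K))
    (he : ∀ x, e x ∈ L ∧ ∀ l, e x (p l) = x l) (hinj : ∀ x ∈ L, (∀ l, x (p l) = 0) → x = 0) :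
    chi d {y | ∀ b, fn K m b (e (Fin.cons 1 y)) ≠ 0} = (-1) ^ d * beta L := by
  have huniq : ∀ x ∈ L, ∀ y ∈ L, (∀ l, x (p l) = y (p l)) → x = y := by
    intro x hx y hy h
    rw [← sub_eq_zero]
    refine hinj _ (L.sub_mem hx hy) fun l => ?_
    rw [Pi.sub_apply, h l, sub_self]
  let e' : (Fin (d + 1) → K) →ₗ[K] (Fin m → K) :=
    { toFun := e
      map_add' := by
        intro x y
        refine huniq _ (he _).1 _ (L.add_mem (he _).1 (he _).1) fun l => ?_
        rw [(he _).2, Pi.add_apply, Pi.add_apply, (he _).2, (he _).2]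
      map_smul' := by
        intro c x
        refine huniq _ (he _).1 _ (L.smul_mem _ (he _).1) fun l => ?_
        rw [(he _).2, Pi.smul_apply, RingHom.id_apply, Pi.smul_apply, (he _).2] }
  have hr : LinearMap.range e' = L := by
    ext x
    constructor
    · rintro ⟨y, rfl⟩
      exact (he y).1
    · intro hx
      refine ⟨fun l => x (p l), ?_⟩
      exact huniq _ (he _).1 _ hx fun l => (he _).2 l
  have h1 := chi_param L e' hr (some (p 0)) (fun x => (he x).2 0)
  rw [hL, pow_succ] at h1
  have h2 : ∀ x, e' x = e x := fun _ => rfl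
  simp only [h2] at h1
  rw [h1]
  ring

/-- An Euler integral over the Grassmannian of a function of a function with values in the
integers. -/
theorem E_eq_finsum [IsAlgClosed K] {ι : Type*} [Fintype ι] {S : Set (ι → K)} (hS : Cons S)
    {f : (ι → K) → ℤ} (hf : CF f) (φ : ℤ → ℤ) :
    E (fun x => ind S x * φ (f x)) = ∑ᶠ b : ℤ, φ b * E (ind {x | x ∈ S ∧ f x = b}) := by
  have hSb : ∀ b, Cons {x | x ∈ S ∧ f x = b} := fun b => hS.inter (hf.2 b)
  have h1 : (fun x => ind S x * φ (f x)) =
      fun x => ∑ b ∈ hf.1.toFinset, φ b * ind {x | x ∈ S ∧ f x = b} x := by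
    ext x
    rw [Finset.sum_eq_single (f x)]
    · by_cases h : x ∈ S
      · rw [ind_one h, ind_one (S := {y | y ∈ S ∧ f y = f x}) ⟨h, rfl⟩]
        ring
      · rw [ind_zero h, ind_zero (S := {y | y ∈ S ∧ f y = f x}) (fun h' => h h'.1)]
        ring
    · intro b _ hb
      rw [ind_zero (S := {x | x ∈ S ∧ f x = b}) (fun h => hb h.2.symm), mul_zero]
    · intro h
      exact absurd (hf.1.mem_toFinset.2 ⟨x, rfl⟩) h
  rw [h1, E_fsum _ fun b _ => (CF.of_cons (hSb b)).comp₁ (fun a => φ b * a)]
  rw [finsum_eq_sum_of_support_subset (s := hf.1.toFinset)]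
  · exact Finset.sum_congr rfl fun b _ => E_mul _ (CF.of_cons (hSb b))
  · intro b hb
    rw [Set.Finite.coe_toFinset]
    by_contra hc
    refine hb ?_
    have h2 : ind {x | x ∈ S ∧ f x = b} = fun _ => 0 := by
      ext x
      exact ind_zero fun h => hc ⟨x, h.2⟩
    change φ b * E (ind {x | x ∈ S ∧ f x = b}) = 0
    rw [h2, E_const, mul_zero]

/-- The last step: from the integral over normalised frames to the sum over the strata of the
Grassmannian. -/
theorem gr_formula [IsAlgClosed K] (h2 : Swap2 K) (D ε : ℤ) (φ : ℤ → ℤ)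
    (h : (r.factorial : ℤ) * D = ε * E (fun q : Fin r × Fin m → K =>
      ind (Fr K r m) q * φ (beta (rspan q)))) :
    D = ε * ∑ᶠ b : ℤ, φ b * E (ind {A : Fin r × Fin m → K | A ∈ RE K r m ∧
      beta (rspan A) = b}) := by
  have h3 := E_frames_gr (K := K) (r := r) (m := m) h2 (g := fun L => φ (beta L))
    (cf_beta_Fr cons_Fr φ)
  rw [h3, E_eq_finsum cons_RE cf_beta φ] at h
  have h4 : (r.factorial : ℤ) ≠ 0 := by exact_mod_cast Nat.factorial_ne_zero r
  refine mul_left_cancel₀ h4 ?_
  rw [h]
  ring

end EC
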