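import Pool.Agent.EC.Sym6

/-!
# Explicit integrals for at most five points
-/

namespace EC

open MvPolynomial Classical

variable {K : Type*} [Field K] {m : ℕ}

omit [Field K] in
/-- The matrix with the given columns. -/
def cm (c : Fin m → Fin 2 → K) : Fin 2 × Fin m → K := fun p => c p.2 p.1

omit [Field K] in
lemma col_cm (c : Fin m → Fin 2 → K) : col (cm c) = c := rfl

lemma PA'_cm (c : Fin m → Fin 2 → K) : PA' (cm c) = Fin.cons 0 c := rfl

lemma TT_eq_iff {A : Fin 2 × Fin m → K} {F : Finset (Finset (Fin (m + 1)))}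
    (hF : ∀ τ ∈ F, τ.card = 3) : TT A = F ↔ ∀ i j k : Fin (m + 1), i < j → j < k →
      (tri (PA' A i) (PA' A j) (PA' A k) = 0 ↔ {i, j, k} ∈ F) := by
  have key : ∀ i j k : Fin (m + 1), i < j → j < k →
      ({i, j, k} ∈ TT A ↔ tri (PA' A i) (PA' A j) (PA' A k) = 0) := by
    intro i j k hij hjk
    constructor
    · intro h
      exact (mem_TT.1 h).2 i (by simp) j (by simp) k (by simp)
    · exact triple_mem_TT hij.ne (hij.trans hjk).ne hjk.ne
  constructor
  · rintro rfl i j k hij hjk
    exact (key i j k hij hjk).symm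
  · intro h
    ext τ
    have main : τ.card = 3 → (τ ∈ TT A ↔ τ ∈ F) := by
      intro hτ
      set p := τ.orderEmbOfFin hτ with hp
      have h1 : {p 0, p 1, p 2} = τ := by
        refine Finset.eq_of_subset_of_card_le ?_ ?_
        · intro a ha
          simp only [Finset.mem_insert, Finset.mem_singleton] at ha
          rcases ha with rfl | rfl | rfl <;> exact Finset.orderEmbOfFin_mem _ _ _
        · rw [hτ]
          refine le_of_eq (Finset.card_eq_three.2 ⟨p 0, p 1, p 2, ?_, ?_, ?_, rfl⟩).symm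
          · exact fun h => absurd (p.injective h) (by decide)
          · exact fun h => absurd (p.injective h) (by decide)
          · exact fun h => absurd (p.injective h) (by decide)
      have h01 : p 0 < p 1 := p.strictMono (by decide)
      have h12 : p 1 < p 2 := p.strictMono (by decide)
      rw [← h1, key _ _ _ h01 h12, h _ _ _ h01 h12]
    constructor
    · intro hτ
      exact (main (mem_TT.1 hτ).1).1 hτ
    · intro hτ
      exact (main (hF τ hτ)).2 hτ

/-- The uniform arrangements of five points. -/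
def UN4 (a b c d : K) : Prop :=
  (a ≠ 0 ∧ b ≠ 0 ∧ a + b ≠ 1) ∧ c ≠ 0 ∧ d ≠ 0 ∧ c + d ≠ 1 ∧ d * a ≠ c * b ∧
    (d - 1) * a ≠ c * (b - 1) ∧ d * (a - 1) ≠ (c - 1) * b

/-- Four columns. -/
def M4 (a b c d : K) : Fin 2 × Fin 4 → K := cm ![![1, 0], ![0, 1], ![d, c], ![b, a]]

/-- Five columns. -/
def M5 (a b c d s t : K) : Fin 2 × Fin 5 → K := cm ![![1, 0], ![0, 1], ![d, c], ![b, a], ![t, s]]

lemma aux1 (a b : K) : -a = b - 1 ↔ a + b = 1 := by
  constructor
  · intro h
    linear_combination -h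
  · intro h
    linear_combination -h

lemma TT_M4 (a b c d : K) : TT (M4 a b c d) = ∅ ↔ UN4 a b c d := by
  rw [TT_eq_iff (by simp)]
  simp only [Fin.forall_fin_succ, Finset.notMem_empty, iff_false]
  simp [M4, PA'_cm, tri, sub_eq_zero, UN4]
  simp only [aux1]
  tauto

/-- The conditions for the last point. -/
def LC (a b c d t : K) : Prop :=
  ∀ i : Fin 5, (![1, 1, 1 - c, 1 - a, a - c] : Fin 5 → K) i * t ≠
    (![0, 1, d, b, a * d - b * c] : Fin 5 → K) i

lemma TT_M5 (a b c d s t : K) : TT (M5 a b c d s t) = {{0, 1, 5}} ↔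
    (UN4 a b c d ∧ s = 0) ∧ LC a b c d t := by
  have hd : ∀ τ ∈ ({{0, 1, 2}, {0, 1, 3}, {0, 1, 4}, {0, 2, 3}, {0, 2, 4}, {0, 2, 5}, {0, 3, 4},
    {0, 3, 5}, {0, 4, 5}, {1, 2, 3}, {1, 2, 4}, {1, 2, 5}, {1, 3, 4}, {1, 3, 5}, {1, 4, 5},
    {2, 3, 4}, {2, 3, 5}, {2, 4, 5}, {3, 4, 5}} : Finset (Finset (Fin 6))), τ ≠ {0, 1, 5} := by
    decide
  simp only [Finset.mem_insert, Finset.mem_singleton, forall_eq_or_imp, forall_eq, ne_eq] at hd
  rw [TT_eq_iff (by simp)]
  simp only [Fin.forall_fin_succ, Finset.mem_singleton]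
  by_cases hs : s = 0
  · subst hs
    have e1 : -d = (c - 1) * t ↔ (1 - c) * t = d := by
      constructor <;> intro h <;> linear_combination h
    have e2 : -b = (a - 1) * t ↔ (1 - a) * t = b := by
      constructor <;> intro h <;> linear_combination h
    have e3 : -((b - d) * c) = (a - c) * (t - d) ↔ (a - c) * t = a * d - b * c := by
      constructor <;> intro h <;> linear_combination (-1) * h
    have e4 : 1 = t ↔ t = 1 := eq_comm
    simp only [UN4, LC, Fin.forall_fin_succ]
    simp [M5, PA'_cm, tri, hd, sub_eq_zero]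
    simp only [aux1, e1, e2, e3, e4]
    tauto
  · simp [M5, PA'_cm, tri, hd, hs]
end EC
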