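import Pool.Agent.EC.Base

/-!
# Explicit integrals for at most five points: the iterated integrals
-/

namespace EC

open MvPolynomial Classical

variable {K : Type*} [Field K] {m : ℕ}

lemma ind_congr {α β : Type*} {S : Set α} {T : Set β} {x : α} {y : β} (h : x ∈ S ↔ y ∈ T) :
    ind S x = ind T y := by
  unfold ind
  by_cases h1 : y ∈ T
  · rw [if_pos h1, if_pos (h.2 h1)]
  · rw [if_neg h1, if_neg fun h2 => h1 (h.1 h2)]

lemma ind_pos {α : Type*} {S : Set α} {x : α} (h : x ∈ S) : ind S x = 1 := if_pos h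

lemma ind_neg {α : Type*} {S : Set α} {x : α} (h : x ∉ S) : ind S x = 0 := if_neg h

lemma exists_other {n : ℕ} (hn : 2 ≤ n) (i : Fin n) : ∃ j : Fin n, i ≠ j := by
  by_cases h0 : i.val = 0
  · refine ⟨⟨1, by omega⟩, fun h => ?_⟩
    rw [h] at h0
    exact absurd h0 one_ne_zero
  · exact ⟨⟨0, by omega⟩, fun h => h0 (by rw [h])⟩

section line

/-- The solutions of linear equations. -/
lemma compl_lines {n : ℕ} (hn : 2 ≤ n) {α β : Fin n → K}
    (h : ∀ i j, i < j → α i * β j ≠ α j * β i) : {t : K | ∀ i, α i * t ≠ β i}ᶜ =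
      ↑((Finset.univ.filter fun i => α i ≠ 0).image fun i => β i / α i) ∧
      ((Finset.univ.filter fun i => α i ≠ 0).image fun i => β i / α i).card =
        ∑ i, if α i ≠ 0 then 1 else 0 := by
  have h' : ∀ i j, i ≠ j → α i * β j ≠ α j * β i := by
    intro i j hij
    rcases lt_or_gt_of_ne hij with h1 | h1
    · exact h i j h1
    · exact (h j i h1).symm
  have hβ : ∀ i, α i = 0 → β i ≠ 0 := by
    intro i hi hb
    obtain ⟨j, hj⟩ := exists_other hn i
    exact h' i j hj (by rw [hi, hb]; ring)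
  constructor
  · ext t
    simp only [Set.mem_compl_iff, Set.mem_setOf_eq, not_forall, not_not, Finset.coe_image,
      Set.mem_image, Finset.mem_coe, Finset.mem_filter, Finset.mem_univ, true_and]
    refine exists_congr fun i => ?_
    constructor
    · intro hi
      have hne : α i ≠ 0 := by
        intro h0
        refine hβ i h0 ?_
        rw [← hi, h0, zero_mul]
      exact ⟨hne, by rw [← hi]; field_simp⟩
    · rintro ⟨hne, rfl⟩
      field_simp
  · rw [Finset.card_image_of_injOn, Finset.card_filter]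
    intro i hi j hj hij
    simp only [Finset.coe_filter, Finset.mem_univ, true_and, Set.mem_setOf_eq] at hi hj
    by_contra hne
    refine h' i j hne ?_
    have : β i / α i = β j / α j := hij
    rw [div_eq_div_iff hi hj] at this
    linear_combination (-1) * this

lemma tame_lines [Infinite K] {n : ℕ} (hn : 2 ≤ n) {α β : Fin n → K}
    (h : ∀ i j, i < j → α i * β j ≠ α j * β i) : TameL (ind {t : K | ∀ i, α i * t ≠ β i}) := by
  refine tameL_ind_cofinite ?_
  rw [(compl_lines hn h).1]
  exact Finset.finite_toSet _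

variable [Infinite K]

/-- The complement of the solutions of independent linear equations. -/
lemma IC_lines {n : ℕ} (hn : 2 ≤ n) {α β : Fin n → K}
    (h : ∀ i j, i < j → α i * β j ≠ α j * β i) :
    IC (ind {t : K | ∀ i, α i * t ≠ β i}) = 1 - ∑ i, if α i ≠ 0 then 1 else 0 := by
  obtain ⟨h1, h3⟩ := compl_lines hn h
  rw [IC_ind_cofinite (by rw [h1]; exact Finset.finite_toSet _), h1, Set.ncard_coe_finset, h3]
  push_cast
  rfl

omit [Field K] in
lemma IC_single (v : K) (f : K → ℤ) (h : ∀ s, s ≠ v → f s = 0) : IC f = f v := by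
  have h1 : f = fun s => f v * ind {v} s := by
    ext s
    unfold ind
    by_cases hs : s = v
    · simp [hs]
    · rw [h s hs, if_neg (by simpa using hs), mul_zero]
  rw [h1, IC_mul (tameL_ind_finite (Set.finite_singleton v)),
    IC_ind_finite (Set.finite_singleton v)]
  simp [ind]

/-- The value of the integral over the last point. -/
lemma IC_LC {a b c d : K} (h : UN4 a b c d) : IC (ind {t | LC a b c d t}) =
    -4 + (if c = 1 then 1 else 0) + (if a = 1 then 1 else 0) + (if a = c then 1 else 0) := by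
  obtain ⟨⟨ha, hb, hab⟩, hc, hd, hcd, h1, h3, h4⟩ := h
  have hset : {t | LC a b c d t} = {t | ∀ i : Fin 5, (![1, 1, 1 - c, 1 - a, a - c] : Fin 5 → K) i *
    t ≠ (![0, 1, d, b, a * d - b * c] : Fin 5 → K) i} := rfl
  rw [hset, IC_lines (by norm_num)]
  · simp only [Fin.sum_univ_succ, Fin.sum_univ_zero]
    have e1 : (1 - c ≠ 0) ↔ ¬ c = 1 := by
      rw [ne_eq, sub_eq_zero, eq_comm]
    have e2 : (1 - a ≠ 0) ↔ ¬ a = 1 := by
      rw [ne_eq, sub_eq_zero, eq_comm]
    have e3 : (a - c ≠ 0) ↔ ¬ a = c := by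
      rw [ne_eq, sub_eq_zero]
    show (1 : ℤ) - ((if (1 : K) ≠ 0 then 1 else 0) + ((if (1 : K) ≠ 0 then 1 else 0) +
      ((if (1 - c ≠ 0) then 1 else 0) + ((if 1 - a ≠ 0 then 1 else 0) +
      ((if a - c ≠ 0 then 1 else 0) + 0))))) = _
    rw [if_pos one_ne_zero]
    simp only [e1, e2, e3]
    split_ifs <;> simp_all
  · simp only [Fin.forall_fin_succ]
    simp
    refine ⟨⟨hd, hb, fun h => h1 ?_⟩, ⟨fun h => hcd ?_, fun h => hab ?_, fun h => h3 ?_⟩,
      ⟨fun h => h4 ?_, fun h => h4 ?_⟩, fun h => h4 ?_⟩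
    · linear_combination h
    · linear_combination h
    · linear_combination h
    · linear_combination h
    · linear_combination h
    · have h5 : c * (d * (a - 1) - (c - 1) * b) = 0 := by linear_combination (-1) * h
      exact sub_eq_zero.1 ((mul_eq_zero.1 h5).resolve_left hc)
    · have h5 : a * (d * (a - 1) - (c - 1) * b) = 0 := by linear_combination (-1) * h
      exact sub_eq_zero.1 ((mul_eq_zero.1 h5).resolve_left ha)

/-- The integral over the third point. -/
noncomputable def Hab (a b : K) : ℤ :=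
  ind {a : K | a ≠ 0 ∧ a ≠ 1} a * (-2 * ind {b : K | b ≠ 0 ∧ a + b ≠ 1} b)

omit [Infinite K] in
lemma Hab_zero {a b : K} (h : ¬ ((a ≠ 0 ∧ a ≠ 1) ∧ b ≠ 0 ∧ a + b ≠ 1)) : Hab a b = 0 := by
  unfold Hab
  by_cases h1 : a ≠ 0 ∧ a ≠ 1
  · rw [ind_neg (S := {b : K | b ≠ 0 ∧ a + b ≠ 1}) (fun h3 => h ⟨h1, h3⟩)]
    simp
  · rw [ind_neg (S := {a : K | a ≠ 0 ∧ a ≠ 1}) h1]
    simp

omit [Infinite K] in
lemma Hab_pos {a b : K} (h : (a ≠ 0 ∧ a ≠ 1) ∧ b ≠ 0 ∧ a + b ≠ 1) : Hab a b = -2 := by
  unfold Hab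
  rw [ind_pos (S := {b : K | b ≠ 0 ∧ a + b ≠ 1}) h.2, ind_pos (S := {a : K | a ≠ 0 ∧ a ≠ 1}) h.1]
  simp

omit [Field K] in
lemma IC_two {u v : K} (h : u ≠ v) : IC (ind {b : K | b ≠ u ∧ b ≠ v}) = -1 ∧
    TameL (ind {b : K | b ≠ u ∧ b ≠ v}) := by
  have h1 : {b : K | b ≠ u ∧ b ≠ v}ᶜ = ↑({u, v} : Finset K) := by
    ext b
    simp only [Set.mem_compl_iff, Set.mem_setOf_eq, Finset.coe_insert, Finset.coe_singleton,
      Set.mem_insert_iff, Set.mem_singleton_iff]
    tauto
  constructor
  · rw [IC_ind_cofinite (by rw [h1]; exact Finset.finite_toSet _), h1, Set.ncard_coe_finset,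
      Finset.card_pair h]
    norm_num
  · refine tameL_ind_cofinite ?_
    rw [h1]
    exact Finset.finite_toSet _

lemma IC_Hab : IC (fun a : K => IC (fun b => Hab a b)) = -2 := by
  have h1 : ∀ a : K, IC (fun b => Hab a b) = 2 * ind {a : K | a ≠ 0 ∧ a ≠ 1} a := by
    intro a
    by_cases h : a ≠ 0 ∧ a ≠ 1
    · rw [ind_pos (S := {a : K | a ≠ 0 ∧ a ≠ 1}) h]
      have h3 : (fun b => Hab a b) = fun b => -2 * ind {b : K | b ≠ 0 ∧ b ≠ 1 - a} b := by
        ext b
        unfold Hab
        rw [ind_pos (S := {a : K | a ≠ 0 ∧ a ≠ 1}) h, one_mul]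
        congr 1
        refine ind_congr (and_congr_right fun _ => not_congr ?_)
        constructor <;> intro h <;> linear_combination h
      have h4 : (0 : K) ≠ 1 - a := fun h5 => h.2 (by linear_combination h5)
      rw [h3, IC_mul (IC_two h4).2, (IC_two h4).1]
      norm_num
    · rw [ind_neg (S := {a : K | a ≠ 0 ∧ a ≠ 1}) h]
      have h3 : (fun b => Hab a b) = fun _ => 0 := by
        ext b
        exact Hab_zero fun h5 => h h5.1
      rw [h3, IC_const]
      norm_num
  simp only [h1]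
  rw [IC_mul (IC_two zero_ne_one).2, (IC_two zero_ne_one).1]
  norm_num

lemma IC_eq_three {α β : Fin 3 → K} (h : ∀ i j, i < j → α i * β j ≠ α j * β i)
    (hα : ∀ i, α i ≠ 0) : IC (ind {t : K | ∀ i, α i * t ≠ β i}) = -2 := by
  rw [IC_lines (by norm_num) h]
  have h1 : ∑ i : Fin 3, (if α i ≠ 0 then (1 : ℤ) else 0) = ∑ i : Fin 3, 1 :=
    Finset.sum_congr rfl fun i _ => if_pos (hα i)
  rw [h1]
  simp

lemma inner1 (a b c : K) : IC (fun d => ind {d | UN4 a b c d} d * ind {c : K | c = 1} c) =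
    ind {c : K | c = 1} c * Hab a b := by
  by_cases hc : c = 1
  · subst hc
    rw [ind_pos (S := {c : K | c = 1}) rfl]
    simp only [mul_one, one_mul]
    by_cases h : (a ≠ 0 ∧ a ≠ 1) ∧ b ≠ 0 ∧ a + b ≠ 1
    · rw [Hab_pos h]
      obtain ⟨⟨ha, ha1⟩, hb, hab⟩ := h
      have h1 : {d : K | UN4 a b 1 d} = {d | ∀ i : Fin 3, (![1, a, a] : Fin 3 → K) i * d ≠
          (![0, b, a + b - 1] : Fin 3 → K) i} := by
        ext d
        have e1 : d * a = b ↔ a * d = b := by rw [mul_comm]
        have e2 : (d - 1) * a = b - 1 ↔ a * d = a + b - 1 := by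
          constructor <;> intro h <;> linear_combination h
        have e3 : d * (a - 1) = 0 ↔ d = 0 := by
          rw [mul_eq_zero, sub_eq_zero]
          simp [ha1]
        simp only [Set.mem_setOf_eq, UN4, Fin.forall_fin_succ]
        simp [ha, hb, hab, e1, e2, e3]
        tauto
      rw [h1]
      refine IC_eq_three ?_ ?_
      · simp only [Fin.forall_fin_succ]
        simp
        refine ⟨⟨hb, fun h => hab ?_⟩, ⟨fun h => ha1 ?_, ha⟩⟩
        · linear_combination h
        · linear_combination h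
      · simp [Fin.forall_fin_succ, ha]
    · rw [Hab_zero h]
      have h1 : ind {d : K | UN4 a b 1 d} = fun _ => 0 := by
        ext d
        refine ind_neg fun h3 => h ?_
        obtain ⟨⟨ha, hb, hab⟩, _, _, _, _, _, h4⟩ := h3
        refine ⟨⟨ha, fun h5 => h4 ?_⟩, hb, hab⟩
        rw [h5]
        ring
      rw [h1, IC_const]
  · rw [ind_neg (S := {c : K | c = 1}) hc]
    simp only [mul_zero, zero_mul]
    exact IC_const 0

lemma inner3 (a b c : K) : IC (fun d => ind {d | UN4 a b c d} d * ind {c : K | c = a} c) =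
    ind {c : K | c = a} c * Hab a b := by
  by_cases hc : c = a
  · subst hc
    rw [ind_pos (S := {c' : K | c' = c}) rfl]
    simp only [mul_one, one_mul]
    by_cases h : (c ≠ 0 ∧ c ≠ 1) ∧ b ≠ 0 ∧ c + b ≠ 1
    · rw [Hab_pos h]
      obtain ⟨⟨ha, ha1⟩, hb, hab⟩ := h
      have h1 : {d : K | UN4 c b c d} = {d | ∀ i : Fin 3, (![1, 1, 1] : Fin 3 → K) i * d ≠
          (![0, b, 1 - c] : Fin 3 → K) i} := by
        ext d
        have e1 : d * c = c * b ↔ d = b := by
          rw [mul_comm, mul_right_inj' ha]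
        have e2 : (d - 1) * c = c * (b - 1) ↔ d = b := by
          rw [mul_comm, mul_right_inj' ha, sub_left_inj]
        have e3 : d * (c - 1) = (c - 1) * b ↔ d = b := by
          rw [mul_comm, mul_right_inj' (sub_ne_zero.2 ha1)]
        have e4 : c + d = 1 ↔ d = 1 - c := by
          constructor <;> intro h <;> linear_combination h
        simp only [Set.mem_setOf_eq, UN4, Fin.forall_fin_succ]
        simp [ha, hb, hab, e1, e2, e3, e4]
        tauto
      rw [h1]
      refine IC_eq_three ?_ ?_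
      · simp only [Fin.forall_fin_succ]
        simp
        refine ⟨⟨hb, fun h => ha1 ?_⟩, fun h => hab ?_⟩
        · linear_combination (-1) * h
        · linear_combination (-1) * h
      · simp [Fin.forall_fin_succ]
    · rw [Hab_zero h]
      have h1 : ind {d : K | UN4 c b c d} = fun _ => 0 := by
        ext d
        refine ind_neg fun h3 => h ?_
        obtain ⟨⟨ha, hb, hab⟩, _, _, _, _, _, h4⟩ := h3
        refine ⟨⟨ha, fun h5 => h4 ?_⟩, hb, hab⟩
        rw [h5]
        ring
      rw [h1, IC_const]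
  · rw [ind_neg (S := {c : K | c = a}) hc]
    simp only [mul_zero, zero_mul]
    exact IC_const 0

end line

end EC
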