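import Pool.Agent.EC.Base2

/-!
# Explicit integrals for at most five points: the value for one collinear triple
-/

namespace EC

open MvPolynomial Classical

variable {K : Type*} [Field K] {m : ℕ}

/-- The matrices with an identity block. -/
lemma mem_RE_iff {k : ℕ} {A : Fin 2 × Fin (k + 2) → K} (h : dt (col A 0) (col A 1) ≠ 0) :
    A ∈ RE K 2 (k + 2) ↔ col A 0 = ![1, 0] ∧ col A 1 = ![0, 1] := by
  constructor
  · intro hA
    obtain ⟨i, j, hij, hi, hj, h0, h1⟩ := exists_pivots hA
    have hi0 : i = 0 := by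
      by_contra hne
      have h3 := h0 0 (Fin.pos_of_ne_zero hne)
      rw [h3] at h
      exact h (by simp [dt])
    subst hi0
    have hj1 : j = 1 := by
      by_contra hne
      have h3 : (1 : Fin (k + 2)) < j := by
        rw [Fin.lt_def] at hij ⊢
        have h4 : j.val ≠ 1 := fun h5 => hne (Fin.ext h5)
        have h5 : ((1 : Fin (k + 2)) : ℕ) = 1 := rfl
        rw [h5]
        have h6 : ((0 : Fin (k + 2)) : ℕ) = 0 := rfl
        omega
      have h4 := h1 1 h3
      rw [hi] at h
      refine h ?_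
      have h5 : col A 1 1 = 0 := h4
      simp [dt, h5]
    subst hj1
    exact ⟨hi, hj⟩
  · rintro ⟨h0, h1⟩
    refine ⟨![0, 1], ?_, ?_⟩
    · intro a b hab
      fin_cases a <;> fin_cases b
      · exact absurd hab (lt_irrefl _)
      · show (0 : Fin (k + 2)) < 1
        simp
      · exact absurd hab (by decide)
      · exact absurd hab (lt_irrefl _)
    · have e00 : A (0, 0) = 1 := congrFun h0 0
      have e10 : A (1, 0) = 0 := congrFun h0 1
      have e01 : A (0, 1) = 0 := congrFun h1 0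
      have e11 : A (1, 1) = 1 := congrFun h1 1
      intro j
      fin_cases j
      · refine ⟨e00, ?_, ?_⟩
        · intro i hi
          exact absurd hi (by simp)
        · intro l hl
          fin_cases l
          · exact absurd rfl hl
          · exact e01
      · refine ⟨e11, ?_, ?_⟩
        · intro i hi
          have hi0 : i = 0 := by
            have h3 : i.val < 1 := hi
            exact Fin.ext (by show i.val = 0; omega)
          rw [hi0]
          exact e10
        · intro l hl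
          fin_cases l
          · exact e10
          · exact absurd rfl hl

/-- The matrix with an identity block. -/
def idb {k : ℕ} (y : Fin 2 × Fin k → K) : Fin 2 × Fin (k + 2) → K :=
  cm (Fin.cons ![1, 0] (Fin.cons ![0, 1] (col y)))

/-- The entries of the matrix with an identity block. -/
noncomputable def idP (K : Type*) [Field K] (k : ℕ) :
    Fin 2 × Fin (k + 2) → MvPolynomial (Fin 2 × Fin k) K := fun p =>
  (Fin.cons ![1, 0] (Fin.cons ![0, 1] (fun i a => X (a, i))) :
    Fin (k + 2) → Fin 2 → MvPolynomial (Fin 2 × Fin k) K) p.2 p.1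

lemma eval_idP {k : ℕ} (y : Fin 2 × Fin k → K) : (fun p => eval y (idP K k p)) = idb y := by
  ext ⟨a, i⟩
  unfold idP idb cm
  show eval y ((Fin.cons ![1, 0] (Fin.cons ![0, 1] (fun i a => X (a, i))) :
    Fin (k + 2) → Fin 2 → MvPolynomial (Fin 2 × Fin k) K) i a) =
    (Fin.cons ![1, 0] (Fin.cons ![0, 1] (col y)) : Fin (k + 2) → Fin 2 → K) i a
  refine Fin.cases ?_ (fun i => ?_) i
  · fin_cases a
    · show eval y 1 = 1
      exact map_one _
    · show eval y 0 = 0
      exact map_zero _
  · refine Fin.cases ?_ (fun i => ?_) i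
    · fin_cases a
      · show eval y 0 = 0
        exact map_zero _
      · show eval y 1 = 1
        exact map_one _
    · show eval y (X (a, i)) = y (a, i)
      exact eval_X _

section
variable [IsAlgClosed K] (h2 : Swap2 K)
include h2

/-- Integration over the matrices with an identity block. -/
theorem E_norm {k : ℕ} {f : (Fin 2 × Fin (k + 2) → K) → ℤ} (hf : CF f)
    (h : ∀ A, f A ≠ 0 → dt (col A 0) (col A 1) ≠ 0) :
    E (fun A => ind (RE K 2 (k + 2)) A * f A) = E (fun y : Fin 2 × Fin k → K => f (idb y)) := by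
  have h3 := (E_graph h2 (K := K) (ι := Fin 2 × Fin k) (κ := Fin 2 × Fin (k + 2)) (idP K k)
    Cons.univ (f := f) hf ?_).2
  · have h4 : (fun y : Fin 2 × Fin k → K => f (idb y)) = fun x : Fin 2 × Fin k → K =>
        ind Set.univ x * f (fun p => eval x (idP K k p)) := by
      ext y
      rw [ind_pos (Set.mem_univ _), one_mul, eval_idP]
    rw [h4, h3]
    congr 1
    ext A
    by_cases hfA : f A = 0
    · rw [hfA, mul_zero, mul_zero]
    · congr 1
      refine ind_congr ?_
      rw [mem_RE_iff (h A hfA)]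
      constructor
      · rintro ⟨h0, h1⟩
        refine ⟨fun p => A (p.1, p.2.succ.succ), Set.mem_univ _, ?_⟩
        rw [eval_idP]
        ext ⟨a, i⟩
        show (Fin.cons ![1, 0] (Fin.cons ![0, 1] (col fun p : Fin 2 × Fin k =>
          A (p.1, p.2.succ.succ))) : Fin (k + 2) → Fin 2 → K) i a = A (a, i)
        refine Fin.cases ?_ (fun i => ?_) i
        · exact (congrFun h0 a).symm
        · refine Fin.cases ?_ (fun i => ?_) i
          · exact (congrFun h1 a).symm
          · rfl
      · rintro ⟨y, _, rfl⟩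
        rw [eval_idP]
        exact ⟨rfl, rfl⟩
  · intro x _ y _ hxy
    rw [eval_idP, eval_idP] at hxy
    ext ⟨a, i⟩
    exact congrFun hxy (a, i.succ.succ)

end

/-- The coordinates for four columns. -/
noncomputable def e4 : Fin 2 × Fin 2 ≃ Fin 4 :=
  Equiv.ofBijective (fun p => (![![3, 1], ![2, 0]] : Fin 2 → Fin 2 → Fin 4) p.1 p.2) (by decide)

/-- The coordinates for five columns. -/
noncomputable def e6 : Fin 2 × Fin 3 ≃ Fin 6 :=
  Equiv.ofBijective (fun p => (![![3, 1, 5], ![2, 0, 4]] : Fin 2 → Fin 3 → Fin 6) p.1 p.2)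
    (by decide)

lemma idb_e4 (x : Fin 4 → K) : idb (x ∘ e4) = M4 (x 0) (x 1) (x 2) (x 3) := by
  ext ⟨a, i⟩
  fin_cases a <;> fin_cases i <;> rfl

lemma idb_e6 (x : Fin 6 → K) : idb (x ∘ e6) = M5 (x 0) (x 1) (x 2) (x 3) (x 4) (x 5) := by
  ext ⟨a, i⟩
  fin_cases a <;> fin_cases i <;> rfl

/-- The set of uniform arrangements. -/
def US (K : Type*) [Field K] : Set (Fin 4 → K) := {x | UN4 (x 0) (x 1) (x 2) (x 3)}

lemma dt_of_TT {A : Fin 2 × Fin (m + 2) → K} (h : {0, 1, 2} ∉ TT A) :
    dt (col A 0) (col A 1) ≠ 0 := by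
  intro h0
  refine h ?_
  have h1 : tri (PA' A 0) (PA' A 1) (PA' A 2) = 0 := by
    have e1 : PA' A 1 = col A 0 := rfl
    have e2 : PA' A 2 = col A 1 := rfl
    rw [e1, e2, PA'_zero, tri_zero]
    exact h0
  have e3 : 2 % (m + 2 + 1) = 2 := Nat.mod_eq_of_lt (by omega)
  have e4 : 1 % (m + 2 + 1) = 1 := Nat.mod_eq_of_lt (by omega)
  refine triple_mem_TT (Fin.ne_of_val_ne ?_) (Fin.ne_of_val_ne ?_) (Fin.ne_of_val_ne ?_) h1
  · show 0 % (m + 2 + 1) ≠ 1 % (m + 2 + 1)
    rw [e4]
    simp
  · show 0 % (m + 2 + 1) ≠ 2 % (m + 2 + 1)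
    rw [e3]
    simp
  · show 1 % (m + 2 + 1) ≠ 2 % (m + 2 + 1)
    rw [e3, e4]
    norm_num

section
variable [IsAlgClosed K] (h2 : Swap2 K)
include h2

lemma E_US : E (fun A : Fin 2 × Fin 4 → K => ind (RE K 2 4) A * ind {A | TT A = ∅} A) =
    EI 4 (ind (US K)) := by
  rw [E_norm h2 (k := 2) (CF.of_cons (cons_TT _)), E_eq h2 e4]
  · congr 1
    ext x
    refine ind_congr ?_
    show TT (idb (x ∘ e4)) = ∅ ↔ _
    rw [idb_e4, TT_M4]
    rfl
  · have h3 := (CF.of_cons (cons_TT (K := K) (m := 4) ∅)).preimage (idP K 2)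
    simpa only [eval_idP] using h3
  · intro A hA
    refine dt_of_TT ?_
    have h3 : TT A = ∅ := by
      by_contra hne
      exact hA (ind_neg hne)
    rw [h3]
    exact Finset.notMem_empty _

lemma NT_base : NT K ({0, 1, 5} : Finset (Fin 6)) = EI 6 (fun x : Fin 6 → K =>
    ind {A | TT A = {{0, 1, 5}}} (M5 (x 0) (x 1) (x 2) (x 3) (x 4) (x 5))) := by
  unfold NT
  rw [E_norm h2 (k := 3) (CF.of_cons (cons_TT _)), E_eq h2 e6]
  · congr 1
    ext x
    show ind _ (idb (x ∘ e6)) = _
    rw [idb_e6]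
  · have h3 := (CF.of_cons (cons_TT (K := K) (m := 5) {{0, 1, 5}})).preimage (idP K 3)
    simpa only [eval_idP] using h3
  · intro A hA
    refine dt_of_TT ?_
    have h3 : TT A = {{0, 1, 5}} := by
      by_contra hne
      exact hA (ind_neg hne)
    rw [h3]
    decide

omit h2 [IsAlgClosed K] in
lemma cons_US : Cons (US K) := by
  have h : US K = {x : Fin 4 → K | eval x (X 0) ≠ 0} ∩ {x | eval x (X 1) ≠ 0} ∩
      {x | eval x (X 0 + X 1 - 1) ≠ 0} ∩ {x | eval x (X 2) ≠ 0} ∩ {x | eval x (X 3) ≠ 0} ∩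
      {x | eval x (X 2 + X 3 - 1) ≠ 0} ∩ {x | eval x (X 3 * X 0 - X 2 * X 1) ≠ 0} ∩
      {x | eval x ((X 3 - 1) * X 0 - X 2 * (X 1 - 1)) ≠ 0} ∩
      {x | eval x (X 3 * (X 0 - 1) - (X 2 - 1) * X 1) ≠ 0} := by
    ext x
    unfold US UN4
    simp only [Set.mem_setOf_eq, Set.mem_inter_iff, map_sub, map_add, map_mul, eval_X, map_one,
      sub_ne_zero]
    tauto
  rw [h]
  exact ((((((((Cons.ne _).inter (Cons.ne _)).inter (Cons.ne _)).inter (Cons.ne _)).inter
    (Cons.ne _)).inter (Cons.ne _)).inter (Cons.ne _)).inter (Cons.ne _)).inter (Cons.ne _)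

omit h2 in
lemma S1 : EI 4 (fun x : Fin 4 → K => ind (US K) x * ind {x : Fin 4 → K | x 2 = 1} x) = -2 := by
  have hinf : Infinite K := IsAlgClosed.instInfinite
  show IC (fun a => IC fun b => IC fun c => IC fun d => ind (US K) ![a, b, c, d] *
    ind {x : Fin 4 → K | x 2 = 1} ![a, b, c, d]) = -2
  have h1 : ∀ a b c d : K, ind (US K) ![a, b, c, d] *
      ind {x : Fin 4 → K | x 2 = 1} ![a, b, c, d] =
      ind {d | UN4 a b c d} d * ind {c : K | c = 1} c := by
    intro a b c d
    rfl
  have h3 : ∀ a b : K, IC (fun c : K => ind {c : K | c = 1} c * Hab a b) = Hab a b := by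
    intro a b
    rw [IC_single 1 _ fun s hs => ?_]
    · rw [ind_pos (S := {c : K | c = 1}) rfl, one_mul]
    · rw [ind_neg (S := {c : K | c = 1}) hs, zero_mul]
  simp only [h1, inner1, h3]
  exact IC_Hab

omit h2 in
lemma S3 : EI 4 (fun x : Fin 4 → K => ind (US K) x * ind {x : Fin 4 → K | x 2 = x 0} x) = -2 := by
  have hinf : Infinite K := IsAlgClosed.instInfinite
  show IC (fun a => IC fun b => IC fun c => IC fun d => ind (US K) ![a, b, c, d] *
    ind {x : Fin 4 → K | x 2 = x 0} ![a, b, c, d]) = -2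
  have h1 : ∀ a b c d : K, ind (US K) ![a, b, c, d] *
      ind {x : Fin 4 → K | x 2 = x 0} ![a, b, c, d] =
      ind {d | UN4 a b c d} d * ind {c : K | c = a} c := by
    intro a b c d
    rfl
  have h3 : ∀ a b : K, IC (fun c : K => ind {c : K | c = a} c * Hab a b) = Hab a b := by
    intro a b
    rw [IC_single a _ fun s hs => ?_]
    · rw [ind_pos (S := {c : K | c = a}) rfl, one_mul]
    · rw [ind_neg (S := {c : K | c = a}) hs, zero_mul]
  simp only [h1, inner3, h3]
  exact IC_Hab

lemma S2 : EI 4 (fun x : Fin 4 → K => ind (US K) x * ind {x : Fin 4 → K | x 0 = 1} x) = -2 := by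
  set σ : Equiv.Perm (Fin 4) := Equiv.swap 0 2 * Equiv.swap 1 3 with hσ
  have s0 : σ 0 = 2 := by decide
  have s1 : σ 1 = 3 := by decide
  have s2 : σ 2 = 0 := by decide
  have s3 : σ 3 = 1 := by decide
  have hcf : CF (fun x : Fin 4 → K => ind (US K) x * ind {x : Fin 4 → K | x 2 = 1} x) := by
    simp only [ind_inter]
    exact CF.of_cons (cons_US.inter (cons_coord_eq 2 1))
  rw [← S1 (K := K), ← EI_perm h2 hcf σ]
  congr 1
  ext x
  congr 1
  · refine ind_congr ?_
    unfold US UN4
    simp only [Set.mem_setOf_eq, Function.comp, s0, s1, s2, s3]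
    constructor
    · rintro ⟨⟨h1, h3, h4⟩, h5, h6, h7, h8, h9, h10⟩
      refine ⟨⟨h5, h6, h7⟩, h1, h3, h4, fun h => h8 ?_, fun h => h9 ?_, fun h => h10 ?_⟩
      · linear_combination (-1) * h
      · linear_combination (-1) * h
      · linear_combination (-1) * h
    · rintro ⟨⟨h5, h6, h7⟩, h1, h3, h4, h8, h9, h10⟩
      refine ⟨⟨h1, h3, h4⟩, h5, h6, h7, fun h => h8 ?_, fun h => h9 ?_, fun h => h10 ?_⟩
      · linear_combination (-1) * h
      · linear_combination (-1) * h
      · linear_combination (-1) * h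

/-- The value for one collinear triple. -/
theorem NT_val : NT K ({0, 1, 5} : Finset (Fin 6)) = -4 * EI 4 (ind (US K)) - 6 := by
  have hinf : Infinite K := IsAlgClosed.instInfinite
  rw [NT_base h2]
  show IC (fun a => IC fun b => IC fun c => IC fun d => IC fun s => IC fun t =>
    ind {A | TT A = {{0, 1, 5}}} (M5 a b c d s t)) = _
  have h1 : ∀ a b c d : K, (IC fun s => IC fun t => ind {A | TT A = {{0, 1, 5}}} (M5 a b c d s t)) =
      ind (US K) ![a, b, c, d] * (-4 + ind {x : Fin 4 → K | x 2 = 1} ![a, b, c, d] +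
        ind {x : Fin 4 → K | x 0 = 1} ![a, b, c, d] +
        ind {x : Fin 4 → K | x 2 = x 0} ![a, b, c, d]) := by
    intro a b c d
    have h3 : ∀ s t : K, ¬ (UN4 a b c d ∧ s = 0) → ind {A | TT A = {{0, 1, 5}}} (M5 a b c d s t) =
        0 := by
      intro s t h
      refine ind_neg fun h4 => h ?_
      exact ((TT_M5 a b c d s t).1 h4).1
    by_cases h : UN4 a b c d
    · rw [ind_pos (S := US K) (x := ![a, b, c, d]) h, one_mul, IC_single 0]
      · have h4 : (fun t => ind {A | TT A = {{0, 1, 5}}} (M5 a b c d 0 t)) =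
            ind {t | LC a b c d t} := by
          ext t
          refine ind_congr ?_
          show TT (M5 a b c d 0 t) = {{0, 1, 5}} ↔ _
          rw [TT_M5]
          exact ⟨fun h5 => h5.2, fun h5 => ⟨⟨h, rfl⟩, h5⟩⟩
        rw [h4, IC_LC h]
        have e1 : ind {x : Fin 4 → K | x 2 = 1} ![a, b, c, d] = if c = 1 then 1 else 0 := rfl
        have e2 : ind {x : Fin 4 → K | x 0 = 1} ![a, b, c, d] = if a = 1 then 1 else 0 := rfl
        have e3 : ind {x : Fin 4 → K | x 2 = x 0} ![a, b, c, d] = if c = a then 1 else 0 := rfl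
        rw [e1, e2, e3]
        simp only [eq_comm (a := a) (b := c)]
      · intro s hs
        have h4 : (fun t => ind {A | TT A = {{0, 1, 5}}} (M5 a b c d s t)) = fun _ => 0 := by
          ext t
          exact h3 s t fun h5 => hs h5.2
        rw [h4, IC_const]
    · rw [ind_neg (S := US K) (x := ![a, b, c, d]) h, zero_mul]
      have h4 : ∀ s : K, (fun t => ind {A | TT A = {{0, 1, 5}}} (M5 a b c d s t)) = fun _ => 0 := by
        intro s
        ext t
        exact h3 s t fun h5 => h h5.1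
      simp only [h4, IC_const]
  simp only [h1]
  have hU : CF (ind (US K)) := CF.of_cons cons_US
  have c1 : CF (fun x : Fin 4 → K => ind (US K) x * ind {x : Fin 4 → K | x 2 = 1} x) := by
    simp only [ind_inter]
    exact CF.of_cons (cons_US.inter (cons_coord_eq 2 1))
  have c2 : CF (fun x : Fin 4 → K => ind (US K) x * ind {x : Fin 4 → K | x 0 = 1} x) := by
    simp only [ind_inter]
    exact CF.of_cons (cons_US.inter (cons_coord_eq 0 1))
  have c3 : CF (fun x : Fin 4 → K => ind (US K) x * ind {x : Fin 4 → K | x 2 = x 0} x) := by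
    simp only [ind_inter]
    exact CF.of_cons (cons_US.inter (Cons.eq_coord 2 0))
  have h4 : EI 4 (fun x : Fin 4 → K => ((-4 * ind (US K) x +
      ind (US K) x * ind {x : Fin 4 → K | x 2 = 1} x) +
      ind (US K) x * ind {x : Fin 4 → K | x 0 = 1} x) +
      ind (US K) x * ind {x : Fin 4 → K | x 2 = x 0} x) = -4 * EI 4 (ind (US K)) - 6 := by
    have m1 : CF (fun x : Fin 4 → K => -4 * ind (US K) x) := hU.comp₁ fun z => -4 * z
    have m2 := m1.comp₂ c1 (fun u v => u + v)
    have m3 := m2.comp₂ c2 (fun u v => u + v)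
    rw [EI_add m3.tame c3.tame, EI_add m2.tame c2.tame, EI_add m1.tame c1.tame,
      EI_mul _ hU.tame, S1, S2 h2, S3]
    ring
  rw [← h4]
  show (IC fun a => IC fun b => IC fun c => IC fun d => _) = IC fun a => IC fun b => IC fun c =>
    IC fun d => _
  congr 1
  ext a
  congr 1
  ext b
  congr 1
  ext c
  congr 1
  ext d
  show ind (US K) ![a, b, c, d] * (-4 + ind {x : Fin 4 → K | x 2 = 1} ![a, b, c, d] +
        ind {x : Fin 4 → K | x 0 = 1} ![a, b, c, d] +
        ind {x : Fin 4 → K | x 2 = x 0} ![a, b, c, d]) = ((-4 * ind (US K) ![a, b, c, d] +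
      ind (US K) ![a, b, c, d] * ind {x : Fin 4 → K | x 2 = 1} ![a, b, c, d]) +
      ind (US K) ![a, b, c, d] * ind {x : Fin 4 → K | x 0 = 1} ![a, b, c, d]) +
      ind (US K) ![a, b, c, d] * ind {x : Fin 4 → K | x 2 = x 0} ![a, b, c, d]
  ring

end

end EC
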