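import Pool.Agent.EC.Fub

/-!
# Points, bijections, fibrations; reduction of the symmetry over the plane to open sets
-/

namespace EC

open MvPolynomial Classical

variable {K : Type*} [Field K]

lemma ind_mul_of {α : Type*} {R S T : Set α} {x : α} (h : x ∈ R ↔ x ∈ S ∧ x ∈ T) :
    ind R x = ind S x * ind T x := by
  unfold ind
  by_cases h2 : x ∈ S <;> by_cases h3 : x ∈ T <;> simp [h, h2, h3]

lemma Cons.singleton {ι : Type*} [Finite ι] (a : ι → K) : Cons {a} := by
  have : ({a} : Set (ι → K)) = ⋂ i, {x | eval x (X i - C (a i)) = 0} := by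
    ext x
    simp only [Set.mem_singleton_iff, Set.mem_iInter, Set.mem_setOf_eq, map_sub, eval_X, eval_C,
      sub_eq_zero]
    exact funext_iff
  rw [this]
  exact Cons.iInter fun i => Cons.zero _

lemma Cons.of_finite {ι : Type*} [Finite ι] {S : Set (ι → K)} (h : S.Finite) : Cons S := by
  have : S = ⋃ a ∈ h.toFinset, {a} := by
    ext x
    simp
  rw [this]
  exact Cons.biUnion _ fun a _ => Cons.singleton a

lemma EI_point [Infinite K] : ∀ (k : ℕ) (a : Fin k → K), EI k (ind {a}) = 1
  | 0, a => by
    rw [EI_zero]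
    exact if_pos (Subsingleton.elim _ _)
  | k + 1, a => by
    rw [EI_succ]
    have h1 : (fun t => EI k (fun x => ind {a} (Fin.cons t x : Fin (k + 1) → K))) =
        ind {a 0} := by
      ext t
      by_cases h : t = a 0
      · have h2 : (fun x : Fin k → K => ind {a} (Fin.cons t x : Fin (k + 1) → K)) =
            ind {Fin.tail a} := by
          ext x
          unfold ind
          congr 1
          rw [h, Set.mem_singleton_iff, Set.mem_singleton_iff]
          apply propext
          constructor
          · intro h3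
            rw [← h3]
            rfl
          · intro h3
            rw [h3]
            exact Fin.cons_self_tail a
        rw [h2, EI_point k]
        exact (if_pos h).symm
      · have h2 : (fun x : Fin k → K => ind {a} (Fin.cons t x : Fin (k + 1) → K)) =
            fun _ => 0 := by
          ext x
          refine if_neg fun h3 => h ?_
          rw [Set.mem_singleton_iff] at h3
          rw [← h3]
          rfl
        rw [h2, EI_const]
        exact (if_neg h).symm
    rw [h1, IC_ind_finite (Set.finite_singleton _)]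
    simp

section
variable [IsAlgClosed K] {ι κ : Type*} [Fintype ι] [Fintype κ]

lemma E_point (a : ι → K) : E (ind {a}) = 1 := by
  have : Infinite K := IsAlgClosed.instInfinite
  unfold E
  have h1 : (fun x : Fin (Fintype.card ι) → K => ind {a} (x ∘ Fintype.equivFin ι)) =
      ind {a ∘ (Fintype.equivFin ι).symm} := by
    ext x
    unfold ind
    congr 1
    rw [Set.mem_singleton_iff, Set.mem_singleton_iff]
    apply propext
    constructor
    · intro h
      rw [← h]
      ext i
      simp
    · intro h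
      rw [h]
      ext i
      simp
  rw [h1, EI_point]

lemma E_const (c : ℤ) : E (fun _ : ι → K => c) = c := by
  have : Infinite K := IsAlgClosed.instInfinite
  exact EI_const _ c

lemma E_add {f g : (ι → K) → ℤ} (hf : CF f) (hg : CF g) : E (fun x => f x + g x) = E f + E g := by
  have : Infinite K := IsAlgClosed.instInfinite
  exact EI_add (hf.reindex (Fintype.equivFin ι)).tame (hg.reindex (Fintype.equivFin ι)).tame

lemma E_mul {f : (ι → K) → ℤ} (c : ℤ) (hf : CF f) : E (fun x => c * f x) = c * E f := by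
  have : Infinite K := IsAlgClosed.instInfinite
  exact EI_mul c (hf.reindex (Fintype.equivFin ι)).tame

lemma E_fsum {α : Type*} (s : Finset α) {f : α → (ι → K) → ℤ} (h : ∀ a ∈ s, CF (f a)) :
    E (fun x => ∑ a ∈ s, f a x) = ∑ a ∈ s, E (f a) := by
  have : Infinite K := IsAlgClosed.instInfinite
  exact EI_sum s fun a ha => ((h a ha).reindex (Fintype.equivFin ι)).tame

/-- Functions with finite support. -/
theorem E_finite {f : (ι → K) → ℤ} (h : f.support.Finite) : CF f ∧ E f = ∑ᶠ x, f x := by
  have h1 : f = fun x => ∑ a ∈ h.toFinset, f a * ind {a} x := by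
    ext x
    by_cases hx : f x = 0
    · rw [hx]
      symm
      refine Finset.sum_eq_zero fun a ha => ?_
      have : x ∉ ({a} : Set (ι → K)) := by
        rintro rfl
        exact (h.mem_toFinset.1 ha) hx
      simp [ind, this]
    · rw [Finset.sum_eq_single x]
      · simp [ind]
      · intro b _ hb
        have : x ∉ ({b} : Set (ι → K)) := fun h => hb h.symm
        simp [ind, this]
      · intro h3
        exact absurd (h.mem_toFinset.2 hx) h3
  have h2 : ∀ a ∈ h.toFinset, CF (fun x => f a * ind {a} x) := fun a _ =>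
    (CF.of_cons (Cons.singleton a)).comp₁ (fun b => f a * b)
  refine ⟨?_, ?_⟩
  · rw [h1]
    exact CF.sum _ h2
  · conv_lhs => rw [h1]
    rw [E_fsum _ h2, finsum_eq_sum_of_support_subset (s := h.toFinset) _ (by simp)]
    refine Finset.sum_congr rfl fun a _ => ?_
    rw [E_mul _ (CF.of_cons (Cons.singleton a)), E_point, mul_one]

/-- The Euler integral of the characteristic function of a finite set. -/
theorem E_ind_finite {S : Set (ι → K)} (h : S.Finite) : E (ind S) = S.ncard := by
  have h1 : (ind S).support = S := by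
    ext t
    simp [ind, Function.mem_support]
  rw [(E_finite (by rw [h1]; exact h)).2,
    finsum_eq_sum_of_support_subset (s := h.toFinset) _ (by rw [h1]; simp)]
  have h2 : ∑ t ∈ h.toFinset, ind S t = ∑ t ∈ h.toFinset, (1 : ℤ) :=
    Finset.sum_congr rfl (fun t ht => if_pos (h.mem_toFinset.1 ht))
  rw [h2, Finset.sum_const, Set.ncard_eq_toFinset_card S h]
  simp

/-- The integral over a single point with weight. -/
lemma E_uniq {f : (ι → K) → ℤ} {a : ι → K} {c : ℤ} (h1 : f a = c) (h2 : ∀ x, x ≠ a → f x = 0) :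
    E f = c := by
  have h3 : f = fun x => c * ind {a} x := by
    ext x
    by_cases h : x = a
    · rw [h, h1]
      simp [ind]
    · rw [h2 x h]
      simp [ind, h]
  rw [h3, E_mul _ (CF.of_cons (Cons.singleton a)), E_point, mul_one]

/-- Fibrations: `Γ` is the graph of a map defined on the support of `f`. -/
theorem E_fib (h2 : Swap2 K) {Γ : Set (ι ⊕ κ → K)} (hΓ : Cons Γ) {f : (ι → K) → ℤ} (hf : CF f)
    (h1 : ∀ y, f y ≠ 0 → ∃! z, Sum.elim y z ∈ Γ) :
    E f = E (fun z => E (fun y => ind Γ (Sum.elim y z) * f y)) := by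
  have hF : CF (fun w : ι ⊕ κ → K => ind Γ w * f (w ∘ Sum.inl)) :=
    (CF.of_cons hΓ).comp₂ (hf.reindex Sum.inl) (fun a b => a * b)
  have h3 := E_sum h2 hF
  rw [E_sum' h2 hF] at h3
  simp only [Sum.elim_comp_inl] at h3
  rw [h3]
  congr 1
  ext y
  by_cases hy : f y = 0
  · rw [hy]
    simp only [mul_zero]
    exact (E_const 0).symm
  · obtain ⟨z, hz, hu⟩ := h1 y hy
    symm
    refine E_uniq (a := z) ?_ ?_
    · show ind Γ (Sum.elim y z) * f y = f y
      unfold ind
      rw [if_pos hz, one_mul]
    · intro x hx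
      have : Sum.elim y x ∉ Γ := fun h => hx (hu x h)
      show ind Γ (Sum.elim y x) * f y = 0
      unfold ind
      rw [if_neg this, zero_mul]

/-- Invariance under constructible bijections between the supports. -/
theorem E_bij (h2 : Swap2 K) {Γ : Set (ι ⊕ κ → K)} (hΓ : Cons Γ) {f : (ι → K) → ℤ}
    {g : (κ → K) → ℤ} (hf : CF f)
    (h1 : ∀ y, f y ≠ 0 → ∃! z, Sum.elim y z ∈ Γ) (h1' : ∀ z, g z ≠ 0 → ∃! y, Sum.elim y z ∈ Γ)
    (h : ∀ y z, Sum.elim y z ∈ Γ → f y = g z) : E f = E g := by
  rw [E_fib h2 hΓ hf h1]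
  congr 1
  ext z
  by_cases hz : g z = 0
  · rw [hz]
    have h3 : (fun y => ind Γ (Sum.elim y z) * f y) = fun _ : ι → K => (0 : ℤ) := by
      ext y
      by_cases h4 : Sum.elim y z ∈ Γ
      · rw [h y z h4, hz, mul_zero]
      · unfold ind
        rw [if_neg h4, zero_mul]
    rw [h3, E_const]
  · obtain ⟨y, hy, hu⟩ := h1' z hz
    refine E_uniq (a := y) ?_ ?_
    · show ind Γ (Sum.elim y z) * f y = g z
      unfold ind
      rw [if_pos hy, one_mul, h y z hy]
    · intro x hx
      have : Sum.elim x z ∉ Γ := fun h => hx (hu x h)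
      show ind Γ (Sum.elim x z) * f x = 0
      unfold ind
      rw [if_neg this, zero_mul]

/-- Products. -/
theorem E_prod (h2 : Swap2 K) {f : (ι → K) → ℤ} {g : (κ → K) → ℤ} (hf : CF f) (hg : CF g) :
    E (fun w : ι ⊕ κ → K => f (w ∘ Sum.inl) * g (w ∘ Sum.inr)) = E f * E g := by
  have hF : CF (fun w : ι ⊕ κ → K => f (w ∘ Sum.inl) * g (w ∘ Sum.inr)) :=
    (hf.reindex Sum.inl).comp₂ (hg.reindex Sum.inr) (fun a b => a * b)
  rw [E_sum h2 hF]
  simp only [Sum.elim_comp_inl, Sum.elim_comp_inr]
  have h3 : (fun y => E (fun z => f y * g z)) = fun y => E g * f y := by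
    ext y
    rw [E_mul _ hg, mul_comm]
  rw [h3, E_mul _ hf, mul_comm]

end

/-- The set where all members of `F` are nonzero. -/
def U {ι : Type*} (F : Finset (MvPolynomial ι K)) : Set (ι → K) := {x | ∀ p ∈ F, eval x p ≠ 0}

lemma cons_U {ι : Type*} (F : Finset (MvPolynomial ι K)) : Cons (U F) := by
  have : U F = ⋂ p ∈ F, {x | eval x p ≠ 0} := by
    ext x
    simp [U]
  rw [this]
  exact Cons.biInter _ fun p _ => Cons.ne p

/-- The span of the characteristic functions of the sets `U F`. -/
noncomputable def Sp (K : Type*) [Field K] (ι : Type*) : Submodule ℤ ((ι → K) → ℤ) :=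
  Submodule.span ℤ (Set.range fun F : Finset (MvPolynomial ι K) => ind (U F))

lemma sp_mul {ι : Type*} {f g : (ι → K) → ℤ} (hf : f ∈ Sp K ι) (hg : g ∈ Sp K ι) :
    f * g ∈ Sp K ι := by
  unfold Sp at hf hg ⊢
  induction hf using Submodule.span_induction with
  | mem x hx =>
    obtain ⟨F, rfl⟩ := hx
    induction hg using Submodule.span_induction with
    | mem y hy =>
      obtain ⟨G, rfl⟩ := hy
      refine Submodule.subset_span ⟨F ∪ G, ?_⟩
      ext x
      show ind (U (F ∪ G)) x = ind (U F) x * ind (U G) x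
      have h1 : x ∈ U (F ∪ G) ↔ x ∈ U F ∧ x ∈ U G := by
        unfold U
        simp only [Finset.mem_union, Set.mem_setOf_eq]
        constructor
        · exact fun h => ⟨fun p hp => h p (Or.inl hp), fun p hp => h p (Or.inr hp)⟩
        · rintro ⟨h, h'⟩ p (hp | hp)
          · exact h p hp
          · exact h' p hp
      exact ind_mul_of h1
    | zero => rw [mul_zero]; exact Submodule.zero_mem _
    | add y z _ _ h1 h2 => rw [mul_add]; exact Submodule.add_mem _ h1 h2
    | smul a y _ h1 => rw [mul_smul_comm]; exact Submodule.smul_mem _ a h1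
  | zero => rw [zero_mul]; exact Submodule.zero_mem _
  | add y z _ _ h1 h2 => rw [add_mul]; exact Submodule.add_mem _ h1 h2
  | smul a y _ h1 => rw [smul_mul_assoc]; exact Submodule.smul_mem _ a h1

lemma sp_one {ι : Type*} : (1 : (ι → K) → ℤ) ∈ Sp K ι := by
  refine Submodule.subset_span ⟨∅, ?_⟩
  ext x
  exact if_pos (by simp [U])

lemma Cons.sp {ι : Type*} {S : Set (ι → K)} (hS : Cons S) : ind S ∈ Sp K ι := by
  refine Cons.induct (P := fun S => ind S ∈ Sp K ι) ?_ ?_ ?_ hS
  · intro p
    have h1 : ind {x : ι → K | eval x p = 0} = 1 - ind (U {p}) := by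
      ext x
      show _ = 1 - ind (U {p}) x
      unfold ind U
      by_cases h : eval x p = 0 <;> simp [h]
    rw [h1]
    exact Submodule.sub_mem _ sp_one (Submodule.subset_span ⟨{p}, rfl⟩)
  · intro S h
    have h1 : ind Sᶜ = 1 - ind S := by
      ext x
      exact ind_compl S x
    rw [h1]
    exact Submodule.sub_mem _ sp_one h
  · intro S T h h'
    have h1 : ind (S ∪ T) = ind S + ind T - ind S * ind T := by
      ext x
      show ind (S ∪ T) x = ind S x + ind T x - ind S x * ind T x
      unfold ind
      by_cases h2 : x ∈ S <;> by_cases h3 : x ∈ T <;> simp [h2, h3]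
    rw [h1]
    exact Submodule.sub_mem _ (Submodule.add_mem _ h h') (sp_mul h h')

lemma CF.sp {ι : Type*} {f : (ι → K) → ℤ} (hf : CF f) : f ∈ Sp K ι := by
  have h1 : f = ∑ a ∈ hf.1.toFinset, a • ind {x | f x = a} := by
    ext x
    rw [Finset.sum_apply]
    exact hf.eq_sum x
  rw [h1]
  exact Submodule.sum_mem _ fun a _ => Submodule.smul_mem _ a (hf.2 a).sp

/-- The symmetry of the integral over the plane need only be checked for open subsets of the torus
given by finitely many polynomials. -/
theorem swap2_of [IsAlgClosed K]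
    (h : ∀ F : Finset (MvPolynomial (Fin 2) K), X 0 ∈ F → X 1 ∈ F →
      IC (fun t => IC (fun s => ind (U F) ![t, s])) =
        IC (fun s => IC (fun t => ind (U F) ![t, s]))) : Swap2 K := by
  have hinf : Infinite K := IsAlgClosed.instInfinite
  -- the two integrals
  have hsw : ∀ f : (Fin 2 → K) → ℤ, IC (fun s => IC (fun t => f ![t, s])) =
      EI 2 (fun x => f (x ∘ Equiv.swap 0 1)) := by
    intro f
    rw [EI_two]
    congr 1
    ext s
    congr 1
    ext t
    congr 1
    ext i
    fin_cases i <;> rfl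
  have hcf : ∀ f : (Fin 2 → K) → ℤ, CF f → CF (fun x : Fin 2 → K => f (x ∘ Equiv.swap 0 1)) :=
    fun f hf => hf.reindex _
  -- the torus part
  have htor : ∀ g : (Fin 2 → K) → ℤ, g ∈ Sp K (Fin 2) → CF g ∧
      CF (fun x => ind (U {X 0, X 1}) x * g x) ∧
      EI 2 (fun x => ind (U {X 0, X 1}) x * g x) =
        EI 2 (fun x => ind (U {X 0, X 1}) (x ∘ Equiv.swap 0 1) * g (x ∘ Equiv.swap 0 1)) := by
    intro g hg
    unfold Sp at hg
    induction hg using Submodule.span_induction with
    | mem g hg =>
      obtain ⟨F, rfl⟩ := hg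
      have h1 : (fun x : Fin 2 → K => ind (U {X 0, X 1}) x * ind (U F) x) =
          ind (U ({X 0, X 1} ∪ F)) := by
        ext x
        have h1 : x ∈ U ({X 0, X 1} ∪ F) ↔ x ∈ U {X 0, X 1} ∧ x ∈ U F := by
          unfold U
          simp only [Finset.mem_union, Set.mem_setOf_eq]
          constructor
          · exact fun h => ⟨fun p hp => h p (Or.inl hp), fun p hp => h p (Or.inr hp)⟩
          · rintro ⟨h, h'⟩ p (hp | hp)
            · exact h p hp
            · exact h' p hp
        exact (ind_mul_of h1).symm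
      refine ⟨CF.of_cons (cons_U F), ?_, ?_⟩
      · rw [h1]
        exact CF.of_cons (cons_U _)
      · have h3 := h ({X 0, X 1} ∪ F) (by simp) (by simp)
        rw [hsw, ← EI_two, ← h1] at h3
        exact h3
    | zero =>
      refine ⟨CF.const 0, ?_, ?_⟩
      · simpa using CF.const 0
      · simp
    | add f g _ _ h1 h2 =>
      have e1 : (fun x => ind (U {X 0, X 1}) x * (f + g) x) =
          fun x => ind (U {X 0, X 1}) x * f x + ind (U {X 0, X 1}) x * g x := by
        ext x
        exact mul_add _ _ _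
      have e2 : (fun x : Fin 2 → K => ind (U {X 0, X 1}) (x ∘ Equiv.swap 0 1) *
          (f + g) (x ∘ Equiv.swap 0 1)) =
          fun x => ind (U {X 0, X 1}) (x ∘ Equiv.swap 0 1) * f (x ∘ Equiv.swap 0 1) +
            ind (U {X 0, X 1}) (x ∘ Equiv.swap 0 1) * g (x ∘ Equiv.swap 0 1) := by
        ext x
        exact mul_add _ _ _
      refine ⟨h1.1.comp₂ h2.1 (fun a b => a + b), ?_, ?_⟩
      · rw [e1]
        exact h1.2.1.comp₂ h2.2.1 (fun a b => a + b)
      · rw [e1, e2, EI_add h1.2.1.tame h2.2.1.tame, EI_add (hcf _ h1.2.1).tame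
          (hcf _ h2.2.1).tame, h1.2.2, h2.2.2]
    | smul a f _ h1 =>
      have e1 : (fun x => ind (U {X 0, X 1}) x * (a • f) x) =
          fun x => a * (ind (U {X 0, X 1}) x * f x) := by
        ext x
        show _ * (a * f x) = _
        ring
      have e2 : (fun x : Fin 2 → K => ind (U {X 0, X 1}) (x ∘ Equiv.swap 0 1) *
          (a • f) (x ∘ Equiv.swap 0 1)) =
          fun x => a * (ind (U {X 0, X 1}) (x ∘ Equiv.swap 0 1) * f (x ∘ Equiv.swap 0 1)) := by
        ext x
        show _ * (a * f _) = _
        ring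
      refine ⟨h1.1.comp₁ (fun b => a * b), ?_, ?_⟩
      · rw [e1]
        exact h1.2.1.comp₁ (fun b => a * b)
      · rw [e1, e2, EI_mul _ h1.2.1.tame, EI_mul _ (hcf _ h1.2.1).tame, h1.2.2]
  -- functions supported on a line
  have hline0 : ∀ g : (Fin 2 → K) → ℤ, CF g → (∀ x, x 0 ≠ 0 → g x = 0) →
      EI 2 g = EI 2 (fun x => g (x ∘ Equiv.swap 0 1)) := by
    intro g hg h0
    rw [← hsw, EI_two]
    have h1 : (fun t => IC (fun s => g ![t, s])) =
        fun t => IC (fun s => g ![0, s]) * ind {0} t := by
      ext t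
      by_cases ht : t = 0
      · rw [ht]
        simp [ind]
      · have : (fun s => g ![t, s]) = fun _ => 0 := by
          ext s
          exact h0 _ ht
        rw [this, IC_const]
        simp [ind, ht]
    have h2 : (fun s => IC (fun t => g ![t, s])) = fun s => g ![0, s] := by
      ext s
      have : (fun t => g ![t, s]) = fun t => g ![0, s] * ind {0} t := by
        ext t
        by_cases ht : t = 0
        · rw [ht]
          simp [ind]
        · rw [h0 _ ht]
          simp [ind, ht]
      rw [this, IC_mul (tameL_ind_finite (Set.finite_singleton _)),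
        IC_ind_finite (Set.finite_singleton _)]
      simp
    rw [h1, h2, IC_mul (tameL_ind_finite (Set.finite_singleton _)),
      IC_ind_finite (Set.finite_singleton _)]
    simp
  have hline1 : ∀ g : (Fin 2 → K) → ℤ, CF g → (∀ x, x 1 ≠ 0 → g x = 0) →
      EI 2 g = EI 2 (fun x => g (x ∘ Equiv.swap 0 1)) := by
    intro g hg h0
    have h1 := hline0 (fun x => g (x ∘ Equiv.swap 0 1)) (hcf g hg) (fun x hx => by
      refine h0 _ ?_
      rw [Function.comp_apply, Equiv.swap_apply_right]
      exact hx)
    rw [h1]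
    congr 1
    ext x
    congr 1
    ext i
    simp
  intro f hf
  rw [hsw, ← EI_two]
  -- decomposition
  set A : Set (Fin 2 → K) := {x | eval x (X 0 : MvPolynomial (Fin 2) K) = 0} with hA
  set B : Set (Fin 2 → K) := {x | eval x (X 0 : MvPolynomial (Fin 2) K) = 0}ᶜ ∩
    {x | eval x (X 1 : MvPolynomial (Fin 2) K) = 0} with hB
  have hAc : Cons A := Cons.zero _
  have hBc : Cons B := (Cons.zero _).compl.inter (Cons.zero _)
  have hfA : CF (fun x => ind A x * f x) := (CF.of_cons hAc).comp₂ hf (fun a b => a * b)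
  have hfB : CF (fun x => ind B x * f x) := (CF.of_cons hBc).comp₂ hf (fun a b => a * b)
  obtain ⟨_, hfT, h3⟩ := htor f hf.sp
  have hdec : f = fun x => ind (U {X 0, X 1}) x * f x + (ind A x * f x + ind B x * f x) := by
    ext x
    have h4 : ind (U {X 0, X 1}) x + (ind A x + ind B x) = 1 := by
      unfold ind U
      rw [hA, hB]
      by_cases h0 : x 0 = 0 <;> by_cases h1 : x 1 = 0 <;> simp [h0, h1]
    calc f x = 1 * f x := (one_mul _).symm
      _ = _ := by rw [← h4]; ring
  have e1 : EI 2 f = EI 2 (fun x => ind (U {X 0, X 1}) x * f x) +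
      (EI 2 (fun x => ind A x * f x) + EI 2 (fun x => ind B x * f x)) := by
    conv_lhs => rw [hdec]
    rw [EI_add hfT.tame (hfA.comp₂ hfB (fun a b => a + b)).tame, EI_add hfA.tame hfB.tame]
  have e2 : EI 2 (fun x => f (x ∘ Equiv.swap 0 1)) =
      EI 2 (fun x => ind (U {X 0, X 1}) (x ∘ Equiv.swap 0 1) * f (x ∘ Equiv.swap 0 1)) +
      (EI 2 (fun x => ind A (x ∘ Equiv.swap 0 1) * f (x ∘ Equiv.swap 0 1)) +
        EI 2 (fun x => ind B (x ∘ Equiv.swap 0 1) * f (x ∘ Equiv.swap 0 1))) := by
    conv_lhs => rw [hdec]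
    rw [EI_add (hcf _ hfT).tame ((hcf _ hfA).comp₂ (hcf _ hfB) (fun a b => a + b)).tame,
      EI_add (hcf _ hfA).tame (hcf _ hfB).tame]
  rw [e1, e2, h3]
  congr 1
  rw [hline0 _ hfA, hline1 _ hfB]
  · intro x hx
    have : x ∉ B := fun h => hx (by simpa [hB] using h.2)
    show ind B x * f x = 0
    unfold ind
    rw [if_neg this, zero_mul]
  · intro x hx
    have : x ∉ A := fun h => hx (by simpa [hA] using h)
    show ind A x * f x = 0
    unfold ind
    rw [if_neg this, zero_mul]

end EC
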