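import Mathlib

/-!
# Constructible subsets of affine space over a field
-/

namespace EC

open MvPolynomial Topology

variable {K : Type*} [Field K] {ι κ : Type*}

/-- The prime ideal of a point. -/
noncomputable def pt (x : ι → K) : PrimeSpectrum (MvPolynomial ι K) :=
  PrimeSpectrum.comap (eval x) ⊥

lemma mem_pt {x : ι → K} {p : MvPolynomial ι K} : p ∈ (pt x).asIdeal ↔ eval x p = 0 := by
  unfold pt
  rw [PrimeSpectrum.comap_asIdeal, Ideal.mem_comap]
  exact Ideal.mem_bot

/-- Constructible sets of points. -/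
def Cons (S : Set (ι → K)) : Prop :=
  ∃ Z : Set (PrimeSpectrum (MvPolynomial ι K)), IsConstructible Z ∧ ∀ x, x ∈ S ↔ pt x ∈ Z

lemma Cons.empty : Cons (∅ : Set (ι → K)) :=
  ⟨∅, IsConstructible.empty, fun x => by simp⟩

lemma Cons.univ : Cons (Set.univ : Set (ι → K)) :=
  ⟨Set.univ, IsConstructible.univ, fun x => by simp⟩

lemma Cons.union {S T : Set (ι → K)} (hS : Cons S) (hT : Cons T) : Cons (S ∪ T) := by
  obtain ⟨Z, hZ, h1⟩ := hS
  obtain ⟨Y, hY, h2⟩ := hT
  exact ⟨Z ∪ Y, hZ.union hY, fun x => by simp [h1, h2]⟩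

lemma Cons.inter {S T : Set (ι → K)} (hS : Cons S) (hT : Cons T) : Cons (S ∩ T) := by
  obtain ⟨Z, hZ, h1⟩ := hS
  obtain ⟨Y, hY, h2⟩ := hT
  exact ⟨Z ∩ Y, hZ.inter hY, fun x => by simp [h1, h2]⟩

lemma Cons.compl {S : Set (ι → K)} (hS : Cons S) : Cons Sᶜ := by
  obtain ⟨Z, hZ, h1⟩ := hS
  exact ⟨Zᶜ, hZ.compl, fun x => by simp [h1]⟩

lemma Cons.diff {S T : Set (ι → K)} (hS : Cons S) (hT : Cons T) : Cons (S \ T) := by
  rw [Set.diff_eq]
  exact hS.inter hT.compl

lemma Cons.biUnion {α : Type*} (s : Finset α) {S : α → Set (ι → K)} (h : ∀ a ∈ s, Cons (S a)) :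
    Cons (⋃ a ∈ s, S a) := by
  classical
  induction s using Finset.induction_on with
  | empty => simpa using Cons.empty
  | insert a s ha ih =>
    rw [Finset.set_biUnion_insert]
    exact (h a (Finset.mem_insert_self a s)).union (ih fun b hb => h b (Finset.mem_insert_of_mem hb))

lemma Cons.biInter {α : Type*} (s : Finset α) {S : α → Set (ι → K)} (h : ∀ a ∈ s, Cons (S a)) :
    Cons (⋂ a ∈ s, S a) := by
  classical
  induction s using Finset.induction_on with
  | empty => simpa using Cons.univ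
  | insert a s ha ih =>
    rw [Finset.set_biInter_insert]
    exact (h a (Finset.mem_insert_self a s)).inter (ih fun b hb => h b (Finset.mem_insert_of_mem hb))

lemma Cons.iUnion {α : Type*} [Finite α] {S : α → Set (ι → K)} (h : ∀ a, Cons (S a)) :
    Cons (⋃ a, S a) := by
  haveI := Fintype.ofFinite α
  have := Cons.biUnion Finset.univ (S := S) (fun a _ => h a)
  simpa using this

lemma Cons.iInter {α : Type*} [Finite α] {S : α → Set (ι → K)} (h : ∀ a, Cons (S a)) :
    Cons (⋂ a, S a) := by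
  haveI := Fintype.ofFinite α
  have := Cons.biInter Finset.univ (S := S) (fun a _ => h a)
  simpa using this

lemma Cons.zero (p : MvPolynomial ι K) : Cons {x : ι → K | eval x p = 0} := by
  refine ⟨PrimeSpectrum.zeroLocus {p}, ?_, fun x => ?_⟩
  · rw [← isConstructible_compl]
    exact (PrimeSpectrum.isRetrocompact_zeroLocus_compl (Set.finite_singleton _)).isConstructible
      (PrimeSpectrum.isClosed_zeroLocus _).isOpen_compl
  · simp [PrimeSpectrum.mem_zeroLocus, mem_pt]

lemma Cons.ne (p : MvPolynomial ι K) : Cons {x : ι → K | eval x p ≠ 0} :=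
  (Cons.zero p).compl

/-- Preimages under polynomial maps. -/
lemma Cons.preimage {S : Set (κ → K)} (hS : Cons S) (φ : κ → MvPolynomial ι K) :
    Cons {x : ι → K | (fun k => eval x (φ k)) ∈ S} := by
  obtain ⟨Z, hZ, h1⟩ := hS
  obtain ⟨D, rfl⟩ := PrimeSpectrum.exists_constructibleSetData_iff.2 hZ
  refine ⟨(D.map (aeval φ : MvPolynomial κ K →ₐ[K] MvPolynomial ι K).toRingHom).toSet,
    PrimeSpectrum.ConstructibleSetData.isConstructible_toSet _, fun x => ?_⟩
  rw [PrimeSpectrum.ConstructibleSetData.toSet_map, Set.mem_preimage, Set.mem_setOf_eq, h1]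
  have h2 : PrimeSpectrum.comap (aeval φ : MvPolynomial κ K →ₐ[K] MvPolynomial ι K).toRingHom (pt x)
      = pt (fun k => eval x (φ k)) := by
    ext p
    rw [PrimeSpectrum.comap_asIdeal, Ideal.mem_comap, mem_pt, mem_pt]
    have : (aeval φ : MvPolynomial κ K →ₐ[K] MvPolynomial ι K).toRingHom p = bind₁ φ p := rfl
    rw [this]
    have h4 : eval x (bind₁ φ p) = eval (fun k => eval x (φ k)) p :=
      eval₂Hom_bind₁ (RingHom.id K) x φ p
    rw [h4]
  rw [h2]

/-- Preimages under coordinate maps. -/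
lemma Cons.reindex {S : Set (κ → K)} (hS : Cons S) (f : κ → ι) :
    Cons {x : ι → K | x ∘ f ∈ S} := by
  have := hS.preimage (fun k => (X (f k) : MvPolynomial ι K))
  simpa [Function.comp_def] using this

lemma Cons.eq_coord (i j : ι) : Cons {x : ι → K | x i = x j} := by
  have := Cons.zero (X i - X j : MvPolynomial ι K)
  simpa [sub_eq_zero] using this

/-- Chevalley over an algebraically closed field. -/
theorem Cons.proj [IsAlgClosed K] [Finite ι] [Finite κ] {S : Set (ι ⊕ κ → K)} (hS : Cons S) :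
    Cons {y : ι → K | ∃ z : κ → K, Sum.elim y z ∈ S} := by
  obtain ⟨Z, hZ, h1⟩ := hS
  set f : MvPolynomial ι K →ₐ[K] MvPolynomial (ι ⊕ κ) K := rename Sum.inl with hf
  have hfp : f.toRingHom.FinitePresentation := by
    rw [← RingHom.FinitePresentation.of_finiteType]
    refine RingHom.FiniteType.of_comp_finiteType (f := algebraMap K (MvPolynomial ι K)) ?_
    have : f.toRingHom.comp (algebraMap K (MvPolynomial ι K)) =
        algebraMap K (MvPolynomial (ι ⊕ κ) K) := RingHom.ext fun a => f.commutes a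
    rw [this]
    exact RingHom.finiteType_algebraMap.2 inferInstance
  refine ⟨PrimeSpectrum.comap f.toRingHom '' Z, PrimeSpectrum.isConstructible_comap_image hfp hZ,
    fun y => ⟨?_, ?_⟩⟩
  · rintro ⟨z, hz⟩
    refine ⟨pt (Sum.elim y z), (h1 _).1 hz, ?_⟩
    ext p
    rw [PrimeSpectrum.comap_asIdeal, Ideal.mem_comap, mem_pt, mem_pt]
    have : f.toRingHom p = rename Sum.inl p := rfl
    rw [this, eval_rename, Sum.elim_comp_inl]
  · rintro ⟨P, hP, hPy⟩
    obtain ⟨D, rfl⟩ := PrimeSpectrum.exists_constructibleSetData_iff.2 hZ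
    unfold PrimeSpectrum.ConstructibleSetData.toSet at hP
    rw [Set.mem_iUnion₂] at hP
    obtain ⟨C, hC, hPC⟩ := hP
    unfold PrimeSpectrum.BasicConstructibleSetData.toSet at hPC
    have hg : ∀ i, C.g i ∈ P.asIdeal := fun i => hPC.1 (Set.mem_range_self i)
    have hnf : C.f ∉ P.asIdeal := fun h => hPC.2 (by
      intro a ha
      rw [Set.mem_singleton_iff] at ha
      rw [ha]
      exact h)
    -- a maximal ideal
    have hjac : P.asIdeal.jacobson = P.asIdeal :=
      (inferInstance : IsJacobsonRing (MvPolynomial (ι ⊕ κ) K)).out P.2.isRadical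
    obtain ⟨M, hM1, hM2, hM3⟩ : ∃ M : Ideal (MvPolynomial (ι ⊕ κ) K), P.asIdeal ≤ M ∧ M.IsMaximal ∧
        C.f ∉ M := by
      by_contra hcon
      push Not at hcon
      refine hnf ?_
      rw [← hjac, Ideal.jacobson, Ideal.mem_sInf]
      intro M hM
      exact hcon M hM.1 hM.2
    obtain ⟨w, hw⟩ := (isMaximal_iff_eq_vanishingIdeal_singleton (K := K)).1 hM2
    have hmem : ∀ p, p ∈ M ↔ eval w p = 0 := by
      intro p
      rw [hw, mem_vanishingIdeal_singleton_iff]
      rfl
    have hwy : w ∘ Sum.inl = y := by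
      ext i
      have h2 : (X i - MvPolynomial.C (y i) : MvPolynomial ι K) ∈ (pt y).asIdeal := by
        rw [mem_pt]; simp
      rw [← hPy, PrimeSpectrum.comap_asIdeal, Ideal.mem_comap] at h2
      have h3 := (hmem _).1 (hM1 h2)
      have : f.toRingHom (X i - MvPolynomial.C (y i) : MvPolynomial ι K) =
        rename Sum.inl (X i - MvPolynomial.C (y i) : MvPolynomial ι K) := rfl
      rw [this, eval_rename] at h3
      simp only [map_sub, eval_X, eval_C, Function.comp_apply] at h3
      exact sub_eq_zero.1 h3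
    refine ⟨w ∘ Sum.inr, ?_⟩
    have hww : Sum.elim y (w ∘ Sum.inr) = w := by
      rw [← hwy]
      exact Sum.elim_comp_inl_inr w
    rw [hww, h1]
    unfold PrimeSpectrum.ConstructibleSetData.toSet
    rw [Set.mem_iUnion₂]
    refine ⟨C, hC, ?_, ?_⟩
    · rintro _ ⟨i, rfl⟩
      exact mem_pt.2 ((hmem _).1 (hM1 (hg i)))
    · intro h
      refine hM3 ((hmem _).2 (mem_pt.1 (h (Set.mem_singleton _))))

end EC
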