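import Pool.Agent.EC.Base3

/-!
# The distribution of the Euler characteristic over the Grassmannian
-/

namespace EC

open MvPolynomial Classical

variable {K : Type*} [Field K] {d m : ℕ}

/-- The Euler characteristic of the level sets. -/
noncomputable def chb (K : Type*) [Field K] (d m : ℕ) (b : ℤ) : ℤ :=
  GI d m (fun L : Submodule K (Fin m → K) => if bb L = b then 1 else 0)

section
variable [IsAlgClosed K] (h2 : Swap2 K)
include h2

lemma gcf_bb (φ : ℤ → ℤ) : GCF d m (fun L : Submodule K (Fin m → K) => φ (bb L)) := by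
  have h1 := (GI_moment h2 (d := d) (m := m) 1).1
  unfold GCF at h1 ⊢
  have h3 := (CF.of_cons (cons_RE (K := K) (r := d) (m := m))).comp₂ h1 (fun u v => u * φ v)
  convert h3 using 1
  ext A
  by_cases hA : A ∈ RE K d m
  · rw [ind_pos hA]
    simp
  · rw [ind_neg hA]
    simp

theorem GI_dist {B : Finset ℤ}
    (hB : ∀ L : Submodule K (Fin m → K), Module.finrank K L = d → bb L ∈ B) (φ : ℤ → ℤ) :
    GI d m (fun L : Submodule K (Fin m → K) => φ (bb L)) = ∑ b ∈ B, φ b * chb K d m b := by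
  have h1 : GI d m (fun L : Submodule K (Fin m → K) => φ (bb L)) =
      GI d m (fun L : Submodule K (Fin m → K) => ∑ b ∈ B, φ b * if bb L = b then 1 else 0) := by
    refine GI_congr fun L hL => ?_
    have h3 : ∑ b ∈ B, φ b * (if bb L = b then 1 else 0) = ∑ b ∈ B, if bb L = b then φ b else 0 := by
      refine Finset.sum_congr rfl fun b _ => ?_
      split_ifs <;> simp
    rw [h3, Finset.sum_ite_eq]
    rw [if_pos (hB L hL)]
  rw [h1]
  unfold GI
  have h3 : (fun A : Fin d × Fin m → K => ind (RE K d m) A *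
      ∑ b ∈ B, φ b * if bb (rspan A) = b then 1 else 0) = fun A => ∑ b ∈ B, φ b *
        (ind (RE K d m) A * if bb (rspan A) = b then 1 else 0) := by
    ext A
    rw [Finset.mul_sum]
    refine Finset.sum_congr rfl fun b _ => ?_
    ring
  have hc : ∀ b : ℤ, CF (fun A : Fin d × Fin m → K =>
      ind (RE K d m) A * if bb (rspan A) = b then 1 else 0) := fun b =>
    gcf_bb h2 (fun z => if z = b then 1 else 0)
  rw [h3, E_fsum B fun b _ => (hc b).comp₁ fun z => φ b * z]
  refine Finset.sum_congr rfl fun b _ => ?_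
  rw [E_mul _ (hc b)]
  rfl

/-- The moment equation. -/
theorem moment {B : Finset ℤ}
    (hB : ∀ L : Submodule K (Fin m → K), Module.finrank K L = d → bb L ∈ B) (n : ℕ) :
    ∑ ρ ∈ Finset.range (d + 1), ((m - ρ).choose (d - ρ) : ℤ) * w K ρ n m =
      ∑ b ∈ B, b ^ n * chb K d m b := by
  rw [← GI_dist h2 hB (fun z => z ^ n)]
  exact ((GI_moment h2 n).2).symm

/-- Lines. -/
lemma bb_line {L : Submodule K (Fin m → K)} (hL : Module.finrank K L = 1) :
    bb L ∈ Finset.Icc (1 - m : ℤ) 0 := by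
  have hinf : Infinite K := IsAlgClosed.instInfinite
  obtain ⟨a, ha0, ha⟩ := finrank_eq_one_iff'.1 hL
  have hav : (a : Fin m → K) ≠ 0 := fun h => ha0 (Subtype.ext h)
  obtain ⟨i₀, hi₀⟩ := Function.ne_iff.1 hav
  set F : Finset K := (Finset.univ.filter fun i => (a : Fin m → K) i ≠ 0).image
    fun i => ((a : Fin m → K) i)⁻¹ with hF
  set S : Set (Fin 1 → K) := {t | ∀ i, t 0 * (a : Fin m → K) i ≠ 1} with hS
  have hSc : Cons S := by
    have h3 : S = ⋂ i, {t : Fin 1 → K | eval t (X 0 * C ((a : Fin m → K) i) - 1) ≠ 0} := by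
      ext t
      simp [hS, sub_eq_zero]
    rw [h3]
    exact Cons.iInter fun i => Cons.ne _
  have h3 := (E_graph h2 (K := K) (ι := Fin 1) (κ := Fin m)
    (fun i => X 0 * C ((a : Fin m → K) i)) hSc (f := fun _ => 1) (CF.const 1) ?_).2
  · have h4 : {y : Fin m → K | ∃ x ∈ S, (fun k => eval x (X 0 * C ((a : Fin m → K) k) :
        MvPolynomial (Fin 1) K)) = y} = {x | x ∈ L ∧ ∀ i, x i ≠ 1} := by
      ext y
      simp only [Set.mem_setOf_eq, map_mul, eval_X, eval_C]
      constructor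
      · rintro ⟨t, ht, rfl⟩
        exact ⟨Submodule.smul_mem L (t 0) a.2, ht⟩
      · rintro ⟨hy, hy1⟩
        obtain ⟨c, hc⟩ := ha ⟨y, hy⟩
        have hc' : (fun k => c * (a : Fin m → K) k) = y := by
          have := congrArg Subtype.val hc
          exact this
        refine ⟨fun _ => c, fun i => ?_, hc'⟩
        have := congrFun hc' i
        show c * (a : Fin m → K) i ≠ 1
        rw [this]
        exact hy1 i
    have h5 : bb L = E (ind S) := by
      unfold bb
      rw [← h4]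
      simpa using h3.symm
    have h6 : E (ind S) = IC (ind {t : K | ∀ i, t * (a : Fin m → K) i ≠ 1}) := by
      rw [E_fin h2 (CF.of_cons hSc)]
      rfl
    have h7 : {t : K | ∀ i, t * (a : Fin m → K) i ≠ 1}ᶜ = ↑F := by
      ext t
      simp only [Set.mem_compl_iff, Set.mem_setOf_eq, not_forall, not_not, hF, Finset.coe_image,
        Set.mem_image, Finset.mem_coe, Finset.mem_filter, Finset.mem_univ, true_and]
      refine exists_congr fun i => ?_
      constructor
      · intro hi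
        exact ⟨right_ne_zero_of_mul_eq_one hi, (eq_inv_of_mul_eq_one_left hi).symm⟩
      · rintro ⟨hne, rfl⟩
        exact inv_mul_cancel₀ hne
    rw [h5, h6, IC_ind_cofinite (by rw [h7]; exact F.finite_toSet), h7, Set.ncard_coe_finset,
      Finset.mem_Icc]
    have h8 : F.card ≤ m := by
      refine Finset.card_image_le.trans ((Finset.card_filter_le _ _).trans ?_)
      simp
    have h9 : 0 < F.card := Finset.card_pos.2 ⟨_, Finset.mem_image_of_mem _
      (Finset.mem_filter.2 ⟨Finset.mem_univ i₀, hi₀⟩)⟩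
    constructor <;> omega
  · intro x _ y _ hxy
    have h5 := congrFun hxy i₀
    simp only [map_mul, eval_X, eval_C] at h5
    ext i
    fin_cases i
    exact mul_right_cancel₀ hi₀ h5

/-- Planes. -/
lemma bb_plane {L : Submodule K (Fin m → K)} (hL : Module.finrank K L = 2) :
    bb L ∈ Finset.Icc (0 : ℤ) ((m - 1).choose 2 : ℤ) := by
  obtain ⟨A, ⟨hA, rfl⟩, _⟩ := RE_unique hL
  have h1 := bb_range h2 hA
  have h3 : ((WA A).card - 1).choose 2 ≤ (m - 1).choose 2 :=
    Nat.choose_le_choose 2 (by have := WA_card_le A; omega)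
  rw [Finset.mem_Icc]
  refine ⟨h1.1, h1.2.trans ?_⟩
  exact_mod_cast h3

end

/-- The rank is at most the number of rows. -/
lemma w_big [IsAlgClosed K] {ρ n m : ℕ} (h : n < ρ) : w K ρ n m = 0 := by
  unfold w
  have h1 : ind (Rk1 K ρ n m) = fun _ => 0 := by
    ext X
    refine ind_neg fun hX => ?_
    have h3 : Module.finrank K (rspan X) = ρ := hX.2
    have h4 : Module.finrank K (rspan X) ≤ n := by
      have := finrank_range_le_card (R := K) (row X)
      rw [Fintype.card_fin] at this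
      exact this
    omega
  rw [h1]
  exact E_const 0

section
variable [IsAlgClosed K] (h2 : Swap2 K)
include h2

lemma line_eq (n m : ℕ) : (m : ℤ) + w K 1 n m =
    ∑ b ∈ Finset.Icc (1 - m : ℤ) 0, b ^ n * chb K 1 m b := by
  rw [← moment h2 (d := 1) (fun L hL => bb_line h2 hL) n]
  simp only [Finset.sum_range_succ, Finset.sum_range_zero, w_zero]
  simp

lemma plane_eq (n m : ℕ) : (m.choose 2 : ℤ) + ((m - 1 : ℕ) : ℤ) * w K 1 n m + w K 2 n m =
    ∑ b ∈ Finset.Icc (0 : ℤ) ((m - 1).choose 2 : ℤ), b ^ n * chb K 2 m b := by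
  rw [← moment h2 (d := 2) (fun L hL => bb_plane h2 hL) n]
  simp only [Finset.sum_range_succ, Finset.sum_range_zero, w_zero]
  simp

lemma line1 {n : ℕ} (hn : n ≠ 0) : 1 + w K 1 n 1 = 0 := by
  have h := line_eq h2 n 1
  have h1 : Finset.Icc (1 - ((1 : ℕ) : ℤ)) 0 = {0} := by decide
  rw [h1, Finset.sum_singleton, zero_pow hn, zero_mul] at h
  push_cast at h
  exact h

lemma line2 {n : ℕ} (hn : n ≠ 0) : 2 + w K 1 n 2 = (-1) ^ n * chb K 1 2 (-1) := by
  have h := line_eq h2 n 2
  have h1 : Finset.Icc (1 - ((2 : ℕ) : ℤ)) 0 = {-1, 0} := by decide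
  rw [h1, Finset.sum_insert (by decide), Finset.sum_singleton, zero_pow hn, zero_mul] at h
  push_cast at h
  linarith

lemma line3 {n : ℕ} (hn : n ≠ 0) : 3 + w K 1 n 3 =
    (-1) ^ n * chb K 1 3 (-1) + (-2) ^ n * chb K 1 3 (-2) := by
  have h := line_eq h2 n 3
  have h1 : Finset.Icc (1 - ((3 : ℕ) : ℤ)) 0 = {-2, -1, 0} := by decide
  rw [h1, Finset.sum_insert (by decide), Finset.sum_insert (by decide), Finset.sum_singleton,
    zero_pow hn, zero_mul] at h
  push_cast at h
  linarith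

lemma line4 {n : ℕ} (hn : n ≠ 0) : 4 + w K 1 n 4 =
    (-1) ^ n * chb K 1 4 (-1) + (-2) ^ n * chb K 1 4 (-2) + (-3) ^ n * chb K 1 4 (-3) := by
  have h := line_eq h2 n 4
  have h1 : Finset.Icc (1 - ((4 : ℕ) : ℤ)) 0 = {-3, -2, -1, 0} := by decide
  rw [h1, Finset.sum_insert (by decide), Finset.sum_insert (by decide),
    Finset.sum_insert (by decide), Finset.sum_singleton, zero_pow hn, zero_mul] at h
  push_cast at h
  linarith

lemma plane2 {n : ℕ} (hn : n ≠ 0) : 1 + w K 1 n 2 + w K 2 n 2 = 0 := by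
  have h := plane_eq h2 n 2
  have h1 : Finset.Icc (0 : ℤ) (((2 - 1 : ℕ).choose 2 : ℕ) : ℤ) = {0} := by decide
  have h3 : (2 : ℕ).choose 2 = 1 := by decide
  rw [h1, Finset.sum_singleton, zero_pow hn, zero_mul, h3] at h
  push_cast at h
  linarith

lemma plane3 {n : ℕ} (hn : n ≠ 0) : 3 + 2 * w K 1 n 3 + w K 2 n 3 = chb K 2 3 1 := by
  have h := plane_eq h2 n 3
  have h1 : Finset.Icc (0 : ℤ) (((3 - 1 : ℕ).choose 2 : ℕ) : ℤ) = {0, 1} := by decide
  have h3 : (3 : ℕ).choose 2 = 3 := by decide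
  rw [h1, Finset.sum_insert (by decide), Finset.sum_singleton, zero_pow hn, zero_mul, one_pow,
    h3] at h
  push_cast at h
  linarith

lemma plane4 {n : ℕ} (hn : n ≠ 0) : 6 + 3 * w K 1 n 4 + w K 2 n 4 =
    chb K 2 4 1 + 2 ^ n * chb K 2 4 2 + 3 ^ n * chb K 2 4 3 := by
  have h := plane_eq h2 n 4
  have h1 : Finset.Icc (0 : ℤ) (((4 - 1 : ℕ).choose 2 : ℕ) : ℤ) = {0, 1, 2, 3} := by decide
  have h3 : (4 : ℕ).choose 2 = 6 := by decide
  rw [h1, Finset.sum_insert (by decide), Finset.sum_insert (by decide),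
    Finset.sum_insert (by decide), Finset.sum_singleton, zero_pow hn, zero_mul, one_pow, h3] at h
  push_cast at h
  linarith

lemma plane5_range {L : Submodule K (Fin 5 → K)} (hL : Module.finrank K L = 2) :
    bb L ∈ ({0, 1, 2, 3, 4, 5, 6} : Finset ℤ) := by
  have h := bb_plane h2 hL
  have h1 : Finset.Icc (0 : ℤ) (((5 - 1 : ℕ).choose 2 : ℕ) : ℤ) = {0, 1, 2, 3, 4, 5, 6} := by
    decide
  rwa [h1] at h

lemma GI5 {n : ℕ} (hn : n ≠ 0) : GI 2 5 (fun L : Submodule K (Fin 5 → K) => bb L ^ n) =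
    chb K 2 5 1 + 2 ^ n * chb K 2 5 2 + 3 ^ n * chb K 2 5 3 + 4 ^ n * chb K 2 5 4 +
      5 ^ n * chb K 2 5 5 + 6 ^ n * chb K 2 5 6 := by
  rw [GI_dist h2 (fun L hL => plane5_range h2 hL) (fun z => z ^ n),
    Finset.sum_insert (by decide), Finset.sum_insert (by decide), Finset.sum_insert (by decide),
    Finset.sum_insert (by decide), Finset.sum_insert (by decide), Finset.sum_insert (by decide),
    Finset.sum_singleton, zero_pow hn]
  ring

lemma GI5' (n : ℕ) : GI 2 5 (fun L : Submodule K (Fin 5 → K) => bb L ^ n) =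
    10 + 4 * w K 1 n 5 + w K 2 n 5 := by
  rw [(GI_moment h2 n).2]
  simp only [Finset.sum_range_succ, Finset.sum_range_zero, w_zero]
  have h3 : (5 : ℕ).choose 2 = 10 := by decide
  simp [h3]

lemma w1_one {m : ℕ} (hm : m ≠ 0) : w K 1 1 m = -1 := by
  have h := line1 h2 hm
  rw [w_symm h2] at h
  linarith

/-- The values of the weights. -/
lemma w_values : chb K 2 4 3 = 6 ∧ w K 1 1 5 = -1 ∧ w K 2 1 5 = 0 ∧ w K 1 2 5 = -1 ∧
    w K 2 2 5 = 0 ∧ w K 1 3 5 = -61 ∧ w K 2 3 5 = 120 ∧ w K 1 4 5 = 839 ∧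
    w K 2 4 5 = -1680 := by
  have a12 := w1_one h2 (m := 2) (by norm_num)
  have a13 := w1_one h2 (m := 3) (by norm_num)
  have a14 := w1_one h2 (m := 4) (by norm_num)
  have a15 := w1_one h2 (m := 5) (by norm_num)
  have b13 := w_big (K := K) (ρ := 2) (n := 1) (m := 3) (by norm_num)
  have b14 := w_big (K := K) (ρ := 2) (n := 1) (m := 4) (by norm_num)
  have b15 := w_big (K := K) (ρ := 2) (n := 1) (m := 5) (by norm_num)
  have l21 := line2 h2 (n := 1) (by norm_num)
  have l23 := line2 h2 (n := 3) (by norm_num)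
  have l24 := line2 h2 (n := 4) (by norm_num)
  have l25 := line2 h2 (n := 5) (by norm_num)
  have l31 := line3 h2 (n := 1) (by norm_num)
  have l32 := line3 h2 (n := 2) (by norm_num)
  have l34 := line3 h2 (n := 4) (by norm_num)
  have l35 := line3 h2 (n := 5) (by norm_num)
  have l41 := line4 h2 (n := 1) (by norm_num)
  have l42 := line4 h2 (n := 2) (by norm_num)
  have l43 := line4 h2 (n := 3) (by norm_num)
  have l45 := line4 h2 (n := 5) (by norm_num)
  have p23 := plane2 h2 (n := 3) (by norm_num)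
  have p24 := plane2 h2 (n := 4) (by norm_num)
  have p25 := plane2 h2 (n := 5) (by norm_num)
  have p31 := plane3 h2 (n := 1) (by norm_num)
  have p34 := plane3 h2 (n := 4) (by norm_num)
  have p35 := plane3 h2 (n := 5) (by norm_num)
  have p41 := plane4 h2 (n := 1) (by norm_num)
  have p42 := plane4 h2 (n := 2) (by norm_num)
  have p43 := plane4 h2 (n := 3) (by norm_num)
  have p45 := plane4 h2 (n := 5) (by norm_num)
  have s1 := w_symm h2 (K := K) 1 2 3
  have s2 := w_symm h2 (K := K) 1 2 4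
  have s3 := w_symm h2 (K := K) 1 3 4
  have s4 := w_symm h2 (K := K) 1 2 5
  have s5 := w_symm h2 (K := K) 1 3 5
  have s6 := w_symm h2 (K := K) 1 4 5
  have t2 := w_symm h2 (K := K) 2 2 4
  have t3 := w_symm h2 (K := K) 2 3 4
  have t4 := w_symm h2 (K := K) 2 2 5
  have t5 := w_symm h2 (K := K) 2 3 5
  have t6 := w_symm h2 (K := K) 2 4 5
  norm_num at l21 l23 l24 l25 l31 l32 l34 l35 l41 l42 l43 l45 p41 p42 p43 p45
  have q1 : chb K 2 4 3 = 6 := by linarith
  refine ⟨q1, a15, b15, ?_, ?_, ?_, ?_, ?_, ?_⟩ <;> linarith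

end

end EC
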