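import Pool.Agent.EC.Mom2
import Pool.Agent.EC.Arr2

/-!
# Duality: from the beta invariant to the affine form
-/

namespace EC

open MvPolynomial Classical

variable {K : Type*} [Field K] {r m d : ℕ}

/-! ### Inclusion and exclusion on an affine subspace -/

lemma cons_affine (M : Submodule K (Fin m → K)) (a : Fin m → K) :
    Cons {x : Fin m → K | x - a ∈ M} := by
  have h := (cons_submodule M).preimage (fun i => X i - C (a i))
  convert h using 1
  ext x
  show x - a ∈ M ↔ (fun k => eval x (X k - C (a k))) ∈ M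
  have : (fun k => eval x (X k - C (a k))) = x - a := by
    ext k
    simp
  rw [this]

lemma fiber_eq {W : Type*} [AddCommGroup W] [Module K W] (l : (Fin m → K) →ₗ[K] W) {t : W}
    {x₀ : Fin m → K} (hx : l x₀ = t) : {x | l x = t} = {x | x - x₀ ∈ LinearMap.ker l} := by
  ext x
  show l x = t ↔ x - x₀ ∈ LinearMap.ker l
  rw [LinearMap.mem_ker, map_sub, hx, sub_eq_zero]

lemma cons_fiber {W : Type*} [AddCommGroup W] [Module K W] (l : (Fin m → K) →ₗ[K] W) (t : W) :
    Cons {x | l x = t} := by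
  by_cases h : ∃ x, l x = t
  · obtain ⟨x₀, hx⟩ := h
    rw [fiber_eq l hx]
    exact cons_affine _ _
  · have : {x | l x = t} = ∅ := by
      ext x
      simp only [Set.mem_ofPred_eq, Set.mem_empty_iff_false, iff_false]
      exact fun hx => h ⟨x, hx⟩
    rw [this]
    exact Cons.empty

lemma E_fiber [Infinite K] {W : Type*} [AddCommGroup W] [Module K W] (l : (Fin m → K) →ₗ[K] W)
    (t : W) : E (ind {x | l x = t}) = if ∃ x, l x = t then 1 else 0 := by
  by_cases h : ∃ x, l x = t
  · rw [if_pos h]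
    obtain ⟨x₀, hx⟩ := h
    rw [fiber_eq l hx]
    exact E_affine _ _
  · rw [if_neg h]
    have h1 : ind {x | l x = t} = fun _ => (0 : ℤ) := by
      ext x
      exact if_neg fun hx => h ⟨x, hx⟩
    rw [h1]
    unfold E
    exact EI_const _ 0

/-- Inclusion and exclusion. -/
theorem E_ie [IsAlgClosed K] {W : Type*} [AddCommGroup W] [Module K W] (l : (Fin m → K) →ₗ[K] W)
    (t : W) {A : Type*} [Fintype A] (g : A → ((Fin m → K) →ₗ[K] K)) (c : A → K) :
    E (ind {x | l x = t ∧ ∀ a, g a x ≠ c a}) = ∑ I : Finset A, (-1) ^ I.card *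
      (if ∃ x, l x = t ∧ ∀ a ∈ I, g a x = c a then 1 else 0) := by
  have hinf : Infinite K := IsAlgClosed.instInfinite
  -- the intersections are fibres
  have h1 : ∀ I : Finset A, ∃ l' : (Fin m → K) →ₗ[K] (W × ({a // a ∈ I} → K)),
      ∀ x, l' x = (t, fun a => c a.1) ↔ l x = t ∧ ∀ a ∈ I, g a x = c a := by
    intro I
    refine ⟨l.prod (LinearMap.pi fun a : {a // a ∈ I} => g a.1), fun x => ?_⟩
    show (l x, (fun a : {a // a ∈ I} => g a.1 x)) = (t, fun a => c a.1) ↔ _
    rw [Prod.mk.injEq, funext_iff]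
    simp
  have h2 : ∀ I : Finset A, Cons {x | l x = t ∧ ∀ a ∈ I, g a x = c a} ∧
      E (ind {x | l x = t ∧ ∀ a ∈ I, g a x = c a}) =
        if ∃ x, l x = t ∧ ∀ a ∈ I, g a x = c a then 1 else 0 := by
    intro I
    obtain ⟨l', hl'⟩ := h1 I
    have h3 := cons_fiber l' (t, fun a => c a.1)
    have h4 := E_fiber l' (t, fun a => c a.1)
    simp only [hl'] at h3 h4
    exact ⟨h3, h4⟩
  have h3 : ind {x | l x = t ∧ ∀ a, g a x ≠ c a} = fun x => ∑ I : Finset A, (-1) ^ I.card *
      ind {x | l x = t ∧ ∀ a ∈ I, g a x = c a} x := by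
    ext x
    have h4 := ind_ne_eq_sum (fun a x => g a x - c a) x
    simp only [sub_eq_zero, ne_eq] at h4
    by_cases hx : l x = t
    · have e1 : ind {x | l x = t ∧ ∀ a, g a x ≠ c a} x = ind {x | ∀ a, ¬ g a x = c a} x := by
        unfold ind
        congr 1
        apply propext
        exact and_iff_right hx
      have e2 : ∀ I : Finset A, ind {x | l x = t ∧ ∀ a ∈ I, g a x = c a} x =
          ind {x | ∀ a ∈ I, g a x = c a} x := by
        intro I
        unfold ind
        congr 1
        apply propext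
        exact and_iff_right hx
      simp only [e1, e2, h4]
    · rw [ind_zero fun h => hx h.1]
      symm
      refine Finset.sum_eq_zero fun I _ => ?_
      rw [ind_zero fun h => hx h.1, mul_zero]
  rw [h3, E_fsum]
  · refine Finset.sum_congr rfl fun I _ => ?_
    rw [E_mul _ (CF.of_cons (h2 I).1), (h2 I).2]
  · intro I _
    exact (CF.of_cons (h2 I).1).comp₁ _

/-- The vectors of `L` with sum `1` and without entry `0`. -/
def XL (L : Submodule K (Fin m → K)) : Set (Fin m → K) := {x | x ∈ L ∧ ∑ i, x i = 1 ∧ ∀ i, x i ≠ 0}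

lemma fn_none (x : Fin m → K) : fn K m none x = ∑ i, x i := by
  simp [fn]

lemma fn_some (i : Fin m) (x : Fin m → K) : fn K m (some i) x = x i := rfl

/-- T1. -/
theorem E_XL [IsAlgClosed K] (L : Submodule K (Fin m → K)) :
    E (ind (XL L)) = -(-1) ^ Module.finrank K L * beta L := by
  have h1 := E_ie (K := K) (L.mkQ.prod (fn K m none)) ((0 : (Fin m → K) ⧸ L), (1 : K))
    (fn K m) (fun _ => 0)
  have h2 : ∀ x : Fin m → K, (L.mkQ.prod (fn K m none)) x = ((0 : (Fin m → K) ⧸ L), (1 : K)) ↔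
      x ∈ L ∧ fn K m none x = 1 := by
    intro x
    show (L.mkQ x, fn K m none x) = ((0 : (Fin m → K) ⧸ L), (1 : K)) ↔ _
    rw [Prod.mk.injEq, Submodule.mkQ_apply, Submodule.Quotient.mk_eq_zero]
  simp only [h2] at h1
  have h3 : {x : Fin m → K | (x ∈ L ∧ fn K m none x = 1) ∧ ∀ a, fn K m a x ≠ 0} = XL L := by
    ext x
    show ((x ∈ L ∧ fn K m none x = 1) ∧ ∀ a, fn K m a x ≠ 0) ↔
      (x ∈ L ∧ ∑ i, x i = 1 ∧ ∀ i, x i ≠ 0)
    rw [← fn_none]
    constructor
    · rintro ⟨⟨h4, h5⟩, h6⟩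
      exact ⟨h4, h5, fun i => h6 (some i)⟩
    · rintro ⟨h4, h5, h6⟩
      refine ⟨⟨h4, h5⟩, fun a => ?_⟩
      cases a with
      | none =>
        rw [h5]
        exact one_ne_zero
      | some i => exact h6 i
  rw [h3] at h1
  rw [h1]
  have h4 : ∀ I : Finset (Option (Fin m)), (if ∃ x, (x ∈ L ∧ fn K m none x = 1) ∧
      ∀ a ∈ I, fn K m a x = 0 then (1 : ℤ) else 0) = rk L (insert none I) - rk L I := by
    intro I
    rw [rk_insert, add_sub_cancel_left]
    congr 1
    apply propext
    exact exists_congr fun x => and_assoc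
  simp only [h4, mul_sub, Finset.sum_sub_distrib]
  rw [sum_insert_eq_zero none (fun J => (rk L J : ℤ)), beta, neg_mul, ← mul_assoc, ← pow_add,
    ← two_mul, pow_mul, neg_one_sq, one_pow, one_mul, zero_sub]

/-- The orthogonal space. -/
def perp (M : Submodule K (Fin m → K)) : Submodule K (Fin m → K) where
  carrier := {x | ∀ q ∈ M, ∑ i, x i * q i = 0}
  add_mem' := by
    intro a b ha hb q hq
    have h1 : ∑ i, (a + b) i * q i = ∑ i, a i * q i + ∑ i, b i * q i := by
      rw [← Finset.sum_add_distrib]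
      exact Finset.sum_congr rfl fun i _ => add_mul _ _ _
    rw [h1, ha q hq, hb q hq, add_zero]
  zero_mem' := by
    intro q _
    simp
  smul_mem' := by
    intro c a ha q hq
    have h1 : ∑ i, (c • a) i * q i = c * ∑ i, a i * q i := by
      rw [Finset.mul_sum]
      exact Finset.sum_congr rfl fun i _ => mul_assoc _ _ _
    rw [h1, ha q hq, mul_zero]

lemma mem_perp {M : Submodule K (Fin m → K)} {x : Fin m → K} :
    x ∈ perp M ↔ ∀ q ∈ M, ∑ i, x i * q i = 0 := Iff.rfl

/-- The alternative. -/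
lemma alternative (M : Submodule K (Fin m → K)) (I : Finset (Fin m)) :
    (∃ x, x ∈ perp M ∧ ∑ i, x i = 1 ∧ ∀ i ∈ I, x i = 0) ↔ ¬ ∃ q ∈ M, ∀ i ∉ I, q i = 1 := by
  constructor
  · rintro ⟨x, h1, h2, h3⟩ ⟨q, hq, h4⟩
    have h5 := h1 q hq
    have h6 : ∑ i, x i * q i = ∑ i, x i := by
      refine Finset.sum_congr rfl fun i _ => ?_
      by_cases hi : i ∈ I
      · rw [h3 i hi, zero_mul]
      · rw [h4 i hi, mul_one]
    rw [h6, h2] at h5
    exact one_ne_zero h5
  · intro h
    set N : Submodule K (Fin m → K) := M ⊔ Submodule.span K (Set.range fun i : {i // i ∈ I} =>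
      (Pi.single i.1 1 : Fin m → K)) with hN
    have h1 : (fun _ => 1 : Fin m → K) ∉ N := by
      intro h2
      obtain ⟨q, hq, y, hy, h3⟩ := Submodule.mem_sup.1 h2
      refine h ⟨q, hq, fun i hi => ?_⟩
      have h4 : y i = 0 := by
        have h5 : Submodule.span K (Set.range fun i : {i // i ∈ I} =>
            (Pi.single i.1 1 : Fin m → K)) ≤ LinearMap.ker (LinearMap.proj i) := by
          rw [Submodule.span_le]
          rintro _ ⟨j, rfl⟩
          show (Pi.single j.1 1 : Fin m → K) i = 0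
          rw [Pi.single_apply, if_neg]
          rintro rfl
          exact hi j.2
        exact h5 hy
      have h5 := congrFun h3 i
      rw [Pi.add_apply, h4, add_zero] at h5
      exact h5
    obtain ⟨f, hf, hfN⟩ := Submodule.exists_dual_map_eq_bot_of_notMem h1 inferInstance
    have hfN' : ∀ y ∈ N, f y = 0 := by
      intro y hy
      have : f y ∈ N.map f := Submodule.mem_map_of_mem hy
      rw [hfN, Submodule.mem_bot] at this
      exact this
    have hfe : ∀ y : Fin m → K, f y = ∑ i, f (Pi.single i 1) * y i := by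
      intro y
      rw [LinearMap.pi_apply_eq_sum_univ f y]
      refine Finset.sum_congr rfl fun i _ => ?_
      rw [smul_eq_mul, mul_comm]
      congr 2
      ext j
      simp [Pi.single_apply, eq_comm]
    set c := f (fun _ => 1) with hc
    refine ⟨fun i => c⁻¹ * f (Pi.single i 1), fun q hq => ?_, ?_, fun i hi => ?_⟩
    · have h2 := hfN' q (Submodule.mem_sup_left hq)
      rw [hfe] at h2
      have h3 : ∑ i, c⁻¹ * f (Pi.single i 1) * q i = c⁻¹ * ∑ i, f (Pi.single i 1) * q i := by
        rw [Finset.mul_sum]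
        exact Finset.sum_congr rfl fun i _ => mul_assoc _ _ _
      rw [h3, h2, mul_zero]
    · rw [← Finset.mul_sum]
      have h3 : ∑ i, f (Pi.single i 1) = c := by
        rw [hc, hfe]
        simp
      rw [h3, inv_mul_cancel₀ hf]
    · have h2 : f (Pi.single i 1) = 0 :=
        hfN' _ (Submodule.mem_sup_right (Submodule.subset_span ⟨⟨i, hi⟩, rfl⟩))
      show c⁻¹ * f (Pi.single i 1) = 0
      rw [h2, mul_zero]

/-- T4. -/
theorem E_XL_perp [IsAlgClosed K] (hm : 0 < m) (M : Submodule K (Fin m → K)) :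
    E (ind (XL (perp M))) = (-1) ^ (m + 1) * bb M := by
  -- the left hand side
  have h1 := E_ie (K := K) ((perp M).mkQ.prod (fn K m none)) ((0 : (Fin m → K) ⧸ perp M), (1 : K))
    (fun i : Fin m => LinearMap.proj i) (fun _ => 0)
  have h2 : ∀ x : Fin m → K, ((perp M).mkQ.prod (fn K m none)) x =
      ((0 : (Fin m → K) ⧸ perp M), (1 : K)) ↔ x ∈ perp M ∧ ∑ i, x i = 1 := by
    intro x
    show ((perp M).mkQ x, fn K m none x) = ((0 : (Fin m → K) ⧸ perp M), (1 : K)) ↔ _
    rw [Prod.mk.injEq, Submodule.mkQ_apply, Submodule.Quotient.mk_eq_zero, fn_none]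
  simp only [h2, LinearMap.proj_apply, and_assoc] at h1
  -- the right hand side
  have h3 := E_ie (K := K) M.mkQ (0 : (Fin m → K) ⧸ M)
    (fun i : Fin m => LinearMap.proj i) (fun _ => 1)
  have h4 : ∀ x : Fin m → K, M.mkQ x = (0 : (Fin m → K) ⧸ M) ↔ x ∈ M := by
    intro x
    rw [Submodule.mkQ_apply, Submodule.Quotient.mk_eq_zero]
  simp only [h4, LinearMap.proj_apply] at h3
  have h5 : E (ind (XL (perp M))) = ∑ I : Finset (Fin m), (-1) ^ I.card *
      (if ∃ x, x ∈ perp M ∧ ∑ i, x i = 1 ∧ ∀ i ∈ I, x i = 0 then 1 else 0) := h1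
  have h6 : bb M = ∑ I : Finset (Fin m), (-1) ^ I.card *
      (if ∃ x, x ∈ M ∧ ∀ i ∈ I, x i = 1 then 1 else 0) := h3
  rw [h5, h6]
  have h7 : ∀ I : Finset (Fin m), (if ∃ x, x ∈ perp M ∧ ∑ i, x i = 1 ∧ ∀ i ∈ I, x i = 0
      then (1 : ℤ) else 0) = 1 - if ∃ x, x ∈ M ∧ ∀ i ∈ Iᶜ, x i = 1 then 1 else 0 := by
    intro I
    have h8 := alternative M I
    have h9 : (∃ x, x ∈ M ∧ ∀ i ∈ Iᶜ, x i = 1) ↔ ∃ q ∈ M, ∀ i ∉ I, q i = 1 := by
      simp only [Finset.mem_compl]
    by_cases h10 : ∃ q ∈ M, ∀ i ∉ I, q i = 1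
    · rw [if_pos (h9.2 h10), if_neg (fun h => h8.1 h h10)]
      rfl
    · rw [if_neg (fun h => h10 (h9.1 h)), if_pos (h8.2 h10)]
      rfl
  simp only [h7, mul_sub, mul_one, Finset.sum_sub_distrib]
  have h8 : ∑ I : Finset (Fin m), (-1 : ℤ) ^ I.card = 0 := by
    have h9 := Finset.sum_powerset_neg_one_pow_card_of_nonempty
      (x := (Finset.univ : Finset (Fin m))) ⟨⟨0, hm⟩, Finset.mem_univ _⟩
    rw [Finset.powerset_univ] at h9
    exact h9
  rw [h8, zero_sub, Finset.mul_sum, ← Finset.sum_neg_distrib]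
  refine Finset.sum_bij' (fun I _ => Iᶜ) (fun I _ => Iᶜ) (by simp) (by simp) (by simp) (by simp) ?_
  intro I _
  have h9 : I.card + Iᶜ.card = m := by
    rw [Finset.card_add_card_compl, Fintype.card_fin]
  have h10 : (-1 : ℤ) ^ (m + 1) * ((-1) ^ Iᶜ.card * (if ∃ x, x ∈ M ∧ ∀ i ∈ Iᶜ, x i = 1 then 1 else 0))
      = -((-1) ^ I.card * (if ∃ x, x ∈ M ∧ ∀ i ∈ Iᶜ, x i = 1 then 1 else 0)) := by
    have h11 : (-1 : ℤ) ^ (m + 1) * (-1) ^ Iᶜ.card = -(-1) ^ I.card := by
      have h13 : ∀ a b : ℕ, a + b = m → (-1 : ℤ) ^ (m + 1) * (-1) ^ b = -(-1) ^ a := by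
        intro a b hab
        rw [← hab, pow_succ, pow_add]
        have h14 : (-1 : ℤ) ^ b * (-1) ^ b = 1 := by
          rw [← mul_pow]
          simp
        linear_combination (-(-1 : ℤ) ^ a) * h14
      exact h13 _ _ h9
    rw [← mul_assoc, h11, neg_mul]
  exact h10.symm

section
variable [IsAlgClosed K] (h2 : Swap2 K)
include h2

/-- T2. -/
theorem bb_eq {L M : Submodule K (Fin m → K)} {x : Fin m → K} (hx : x ∈ XL L)
    (hM : ∀ q, q ∈ M ↔ (fun i => x i * q i) ∈ L ∧ ∑ i, x i * q i = 0) :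
    bb M = -(-1) ^ Module.finrank K L * beta L := by
  rw [← E_XL]
  unfold bb
  have h3 := (E_graph h2 (K := K) (ι := Fin m) (κ := Fin m) (fun i => C (x i) * (1 - X i))
    (S := {q | q ∈ M ∧ ∀ i, q i ≠ 1}) ((cons_submodule M).inter (cons_all_ne 1))
    (f := fun _ => 1) (CF.const 1) ?_).2
  · have h4 : {y : Fin m → K | ∃ q ∈ {q | q ∈ M ∧ ∀ i, q i ≠ 1},
        (fun k => eval q (C (x k) * (1 - X k))) = y} = XL L := by
      ext y
      constructor
      · rintro ⟨q, ⟨hq, hq1⟩, rfl⟩
        obtain ⟨h5, h6⟩ := (hM q).1 hq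
        refine ⟨?_, ?_, fun i => ?_⟩
        · have h7 : (fun k => eval q (C (x k) * (1 - X k))) = x - fun i => x i * q i := by
            ext i
            simp only [map_mul, map_sub, map_one, eval_C, eval_X, Pi.sub_apply]
            ring
          rw [h7]
          exact L.sub_mem hx.1 h5
        · have h7 : ∀ i, eval q (C (x i) * (1 - X i)) = x i - x i * q i := by
            intro i
            simp only [map_mul, map_sub, map_one, eval_C, eval_X]
            ring
          simp only [h7, Finset.sum_sub_distrib, h6, hx.2.1, sub_zero]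
        · simp only [map_mul, map_sub, map_one, eval_C, eval_X]
          exact mul_ne_zero (hx.2.2 i) (sub_ne_zero.2 (hq1 i).symm)
      · rintro ⟨h5, h6, h7⟩
        have h8 : ∀ i, x i * (1 - y i / x i) = x i - y i := by
          intro i
          have := hx.2.2 i
          field_simp
        refine ⟨fun i => 1 - y i / x i, ⟨(hM _).2 ⟨?_, ?_⟩, fun i hi => ?_⟩, ?_⟩
        · simp only [h8]
          exact L.sub_mem hx.1 h5
        · simp only [h8, Finset.sum_sub_distrib, hx.2.1, h6, sub_self]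
        · have h9 : y i / x i = 0 := by
            have h10 : (1 : K) - y i / x i = 1 := hi
            simpa using h10
          rcases div_eq_zero_iff.1 h9 with h10 | h10
          · exact h7 i h10
          · exact hx.2.2 i h10
        · ext i
          simp only [map_mul, map_sub, map_one, eval_C, eval_X]
          have := hx.2.2 i
          field_simp
          ring
    rw [h4] at h3
    simpa using h3
  · rintro q ⟨hq, _⟩ q' ⟨hq', _⟩ h
    ext i
    have h4 := congrFun h i
    simp only [map_mul, map_sub, map_one, eval_C, eval_X] at h4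
    have h5 := mul_left_cancel₀ (hx.2.2 i) h4
    exact sub_right_injective h5

end

end EC
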