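import Pool.Agent.EC.Dual

/-!
# Duality: the integral
-/

namespace EC

open MvPolynomial Classical

variable {K : Type*} [Field K] {r m d : ℕ}

/-- Multiplication by the coordinates of `x`. -/
def Dx (x : Fin m → K) : (Fin m → K) →ₗ[K] (Fin m → K) where
  toFun := fun q i => x i * q i
  map_add' := fun q q' => by
    ext i
    exact mul_add _ _ _
  map_smul' := fun c q => by
    ext i
    show x i * (c * q i) = c * (x i * q i)
    ring

lemma Dx_apply (x q : Fin m → K) : Dx x q = fun i => x i * q i := rfl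

lemma Dx_inj {x : Fin m → K} (hx : ∀ i, x i ≠ 0) : Function.Injective (Dx x) := by
  intro q q' h
  ext i
  exact mul_left_cancel₀ (hx i) (congrFun h i)

lemma Dx_surj {x : Fin m → K} (hx : ∀ i, x i ≠ 0) : Function.Surjective (Dx x) := by
  intro y
  refine ⟨fun i => (x i)⁻¹ * y i, ?_⟩
  ext i
  show x i * ((x i)⁻¹ * y i) = y i
  rw [← mul_assoc, mul_inv_cancel₀ (hx i), one_mul]

/-- The vectors `q` with `x q ∈ L` and with sum zero. -/
noncomputable def MxL (x : Fin m → K) (L : Submodule K (Fin m → K)) : Submodule K (Fin m → K) :=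
  (L ⊓ LinearMap.ker (fn K m none)).comap (Dx x)

lemma mem_MxL {x q : Fin m → K} {L : Submodule K (Fin m → K)} :
    q ∈ MxL x L ↔ (fun i => x i * q i) ∈ L ∧ ∑ i, x i * q i = 0 := by
  show Dx x q ∈ L ⊓ LinearMap.ker (fn K m none) ↔ _
  rw [Submodule.mem_inf, LinearMap.mem_ker, fn_none]
  rfl

lemma finrank_inf_ker {L : Submodule K (Fin m → K)} {x : Fin m → K} (hx : x ∈ L)
    (h1 : fn K m none x = 1) :
    Module.finrank K (L ⊓ LinearMap.ker (fn K m none) : Submodule K (Fin m → K)) + 1 =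
      Module.finrank K L := by
  have h2 := finrank_map_add L (fn K m none)
  have h3 : L.map (fn K m none) = ⊤ := by
    rw [eq_top_iff]
    intro c _
    refine ⟨c • x, L.smul_mem _ hx, ?_⟩
    rw [map_smul, h1, smul_eq_mul, mul_one]
  rw [h3, finrank_top, Module.finrank_self] at h2
  omega

lemma finrank_MxL {L : Submodule K (Fin m → K)} {x : Fin m → K} (hx : x ∈ XL L) :
    Module.finrank K (MxL x L) + 1 = Module.finrank K L := by
  have h1 := finrank_inf_ker hx.1 (by rw [fn_none]; exact hx.2.1)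
  have h2 := (Submodule.equivMapOfInjective (Dx x) (Dx_inj hx.2.2) (MxL x L)).finrank_eq
  have h3 : (MxL x L).map (Dx x) = L ⊓ LinearMap.ker (fn K m none) :=
    Submodule.map_comap_eq_of_surjective (Dx_surj hx.2.2) _
  rw [h3] at h2
  omega

/-- The span of `x` and `x M`. -/
def LxM (x : Fin m → K) (M : Submodule K (Fin m → K)) : Submodule K (Fin m → K) :=
  Submodule.span K {x} ⊔ M.map (Dx x)

lemma LxM_inf {x : Fin m → K} {M : Submodule K (Fin m → K)} (hx : x ∈ XL (perp M)) :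
    LxM x M ⊓ LinearMap.ker (fn K m none) = M.map (Dx x) := by
  have h0 : ∀ y ∈ M.map (Dx x), fn K m none y = 0 := by
    rintro _ ⟨q, hq, rfl⟩
    rw [fn_none]
    exact hx.1 q hq
  ext y
  rw [Submodule.mem_inf, LinearMap.mem_ker]
  constructor
  · rintro ⟨h1, h2⟩
    obtain ⟨a, ha, b, hb, rfl⟩ := Submodule.mem_sup.1 h1
    obtain ⟨c, rfl⟩ := Submodule.mem_span_singleton.1 ha
    rw [map_add, h0 b hb, add_zero, map_smul, fn_none, hx.2.1, smul_eq_mul, mul_one] at h2
    rw [h2, zero_smul, zero_add]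
    exact hb
  · intro h
    exact ⟨Submodule.mem_sup_right h, h0 y h⟩

lemma x_mem_LxM (x : Fin m → K) (M : Submodule K (Fin m → K)) : x ∈ LxM x M :=
  Submodule.mem_sup_left (Submodule.mem_span_singleton_self x)

lemma finrank_LxM {x : Fin m → K} {M : Submodule K (Fin m → K)} (hx : x ∈ XL (perp M)) :
    Module.finrank K (LxM x M) = Module.finrank K M + 1 := by
  have h1 := finrank_inf_ker (x_mem_LxM x M) (by rw [fn_none]; exact hx.2.1)
  rw [LxM_inf hx] at h1
  have h2 := (Submodule.equivMapOfInjective (Dx x) (Dx_inj hx.2.2) M).finrank_eq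
  omega

lemma LxM_le {x : Fin m → K} {L M : Submodule K (Fin m → K)} :
    LxM x M ≤ L ↔ x ∈ L ∧ ∀ q ∈ M, (fun i => x i * q i) ∈ L := by
  unfold LxM
  rw [sup_le_iff, Submodule.span_singleton_le_iff_mem, Submodule.map_le_iff_le_comap]
  rfl

lemma MxL_LxM {x : Fin m → K} {M : Submodule K (Fin m → K)} (hx : x ∈ XL (perp M)) :
    MxL x (LxM x M) = M := by
  unfold MxL
  rw [LxM_inf hx]
  exact Submodule.comap_map_eq_of_injective (Dx_inj hx.2.2) M

lemma mem_perp_rspan {B : Fin d × Fin m → K} {x : Fin m → K} :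
    x ∈ perp (rspan B) ↔ ∀ j, ∑ i, x i * B (j, i) = 0 := by
  constructor
  · intro h j
    exact h _ (Submodule.subset_span ⟨j, rfl⟩)
  · intro h q hq
    unfold rspan at hq
    induction hq using Submodule.span_induction with
    | mem y hy =>
      obtain ⟨j, rfl⟩ := hy
      exact h j
    | zero => simp
    | add y z _ _ hy hz =>
      have h1 : ∑ i, x i * (y + z) i = ∑ i, x i * y i + ∑ i, x i * z i := by
        rw [← Finset.sum_add_distrib]
        exact Finset.sum_congr rfl fun i _ => mul_add _ _ _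
      rw [h1, hy, hz, add_zero]
    | smul c y _ hy =>
      have h1 : ∑ i, x i * (c • y) i = c * ∑ i, x i * y i := by
        rw [Finset.mul_sum]
        refine Finset.sum_congr rfl fun i _ => ?_
        show x i * (c * y i) = c * (x i * y i)
        ring
      rw [h1, hy, mul_zero]

/-! ### Constructible sets of pairs -/

/-- Pairs `(A, x)` with `x` in the row space, sum `1`, no entry zero. -/
def PA (K : Type*) [Field K] (r m : ℕ) : Set ((Fin r × Fin m) ⊕ Fin m → K) :=
  {w | w ∘ Sum.inl ∈ RE K r m ∧ w ∘ Sum.inr ∈ XL (rspan (w ∘ Sum.inl))}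

/-- Pairs `(B, x)` with `x` orthogonal to the rows, sum `1`, no entry zero. -/
def PB (K : Type*) [Field K] (d m : ℕ) : Set ((Fin d × Fin m) ⊕ Fin m → K) :=
  {w | w ∘ Sum.inl ∈ RE K d m ∧ w ∘ Sum.inr ∈ XL (perp (rspan (w ∘ Sum.inl)))}

lemma cons_sum_one {α : Type*} (f : Fin m → α) :
    Cons {w : α → K | ∑ i, w (f i) = 1 ∧ ∀ i, w (f i) ≠ 0} := by
  have h1 : {w : α → K | ∑ i, w (f i) = 1 ∧ ∀ i, w (f i) ≠ 0} =
      {w | eval w (∑ i, X (f i) - 1) = 0} ∩ ⋂ i, {w | eval w (X (f i)) ≠ 0} := by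
    ext w
    simp [sub_eq_zero]
  rw [h1]
  exact (Cons.zero _).inter (Cons.iInter fun i => Cons.ne _)

lemma cons_PA : Cons (PA K r m) := by
  have h1 : PA K r m = {w | w ∘ Sum.inl ∈ RE K r m ∧
      (fun i => eval w (X (Sum.inr i) : MvPolynomial ((Fin r × Fin m) ⊕ Fin m) K)) ∈
        rspan (w ∘ Sum.inl)} ∩ {w | ∑ i, w (Sum.inr i) = 1 ∧ ∀ i, w (Sum.inr i) ≠ 0} := by
    ext w
    simp only [PA, XL, Set.mem_ofPred_eq, Set.mem_inter_iff, eval_X]
    constructor
    · rintro ⟨h1, h2, h3, h4⟩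
      exact ⟨⟨h1, h2⟩, h3, h4⟩
    · rintro ⟨⟨h1, h2⟩, h3, h4⟩
      exact ⟨h1, h2, h3, h4⟩
  rw [h1]
  exact (cons_mem_rspan _ _).inter (cons_sum_one _)

lemma cons_PB : Cons (PB K d m) := by
  have h1 : PB K d m = {w | w ∘ Sum.inl ∈ RE K d m} ∩ ((⋂ j : Fin d, {w | eval w (∑ i,
      X (Sum.inr i) * X (Sum.inl (j, i)) : MvPolynomial ((Fin d × Fin m) ⊕ Fin m) K) = 0}) ∩
        {w | ∑ i, w (Sum.inr i) = 1 ∧ ∀ i, w (Sum.inr i) ≠ 0}) := by
    ext w
    simp only [PB, XL, Set.mem_ofPred_eq, Set.mem_inter_iff, Set.mem_iInter, mem_perp_rspan,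
      map_sum, map_mul, eval_X]
    constructor
    · rintro ⟨h1, h2, h3, h4⟩
      exact ⟨h1, h2, h3, h4⟩
    · rintro ⟨h1, h2, h3, h4⟩
      exact ⟨h1, h2, h3, h4⟩
  rw [h1]
  exact (cons_RE.reindex Sum.inl).inter ((Cons.iInter fun j => Cons.zero _).inter
    (cons_sum_one _))

/-- The correspondence. -/
def GD (K : Type*) [Field K] (d m : ℕ) :
    Set (((Fin (d + 1) × Fin m) ⊕ Fin m) ⊕ ((Fin d × Fin m) ⊕ Fin m) → K) :=
  {w | w ∘ Sum.inl ∈ PA K (d + 1) m ∧ (∀ i, w (Sum.inr (Sum.inr i)) = w (Sum.inl (Sum.inr i))) ∧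
    (w ∘ Sum.inr) ∘ Sum.inl ∈ RE K d m ∧ ∀ j, (fun i => w (Sum.inl (Sum.inr i)) *
      w (Sum.inr (Sum.inl (j, i)))) ∈ rspan ((w ∘ Sum.inl) ∘ Sum.inl) ∧
        ∑ i, w (Sum.inl (Sum.inr i)) * w (Sum.inr (Sum.inl (j, i))) = 0}

lemma cons_GD : Cons (GD K d m) := by
  have h1 : GD K d m = {w | w ∘ Sum.inl ∈ PA K (d + 1) m} ∩
      ((⋂ i, {w | w (Sum.inr (Sum.inr i)) = w (Sum.inl (Sum.inr i))}) ∩
      ({w | w ∘ (fun y => Sum.inr (Sum.inl y)) ∈ RE K d m} ∩ ⋂ j,
        ({w | w ∘ (fun y => Sum.inl (Sum.inl y)) ∈ RE K (d + 1) m ∧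
          (fun i => eval w (X (Sum.inl (Sum.inr i)) * X (Sum.inr (Sum.inl (j, i))) :
            MvPolynomial (((Fin (d + 1) × Fin m) ⊕ Fin m) ⊕ ((Fin d × Fin m) ⊕ Fin m)) K)) ∈
            rspan (w ∘ (fun y => Sum.inl (Sum.inl y)))} ∩
        {w | eval w (∑ i, X (Sum.inl (Sum.inr i)) * X (Sum.inr (Sum.inl (j, i))) :
          MvPolynomial (((Fin (d + 1) × Fin m) ⊕ Fin m) ⊕ ((Fin d × Fin m) ⊕ Fin m)) K) = 0}))) := by
    ext w
    simp only [GD, Set.mem_ofPred_eq, Set.mem_inter_iff, Set.mem_iInter, map_sum, map_mul, eval_X]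
    constructor
    · rintro ⟨h1, h2, h3, h4⟩
      exact ⟨h1, h2, h3, fun j => ⟨⟨h1.1, (h4 j).1⟩, (h4 j).2⟩⟩
    · rintro ⟨h1, h2, h3, h4⟩
      exact ⟨h1, h2, h3, fun j => ⟨(h4 j).1.2, (h4 j).2⟩⟩
  rw [h1]
  exact (cons_PA.reindex Sum.inl).inter ((Cons.iInter fun i => Cons.eq_coord _ _).inter
    ((cons_RE.reindex _).inter (Cons.iInter fun j => (cons_mem_rspan _ _).inter (Cons.zero _))))

lemma mem_GD {A : Fin (d + 1) × Fin m → K} {x : Fin m → K} {B : Fin d × Fin m → K}
    {x' : Fin m → K} : Sum.elim (Sum.elim A x) (Sum.elim B x') ∈ GD K d m ↔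
      (A ∈ RE K (d + 1) m ∧ x ∈ XL (rspan A)) ∧ x' = x ∧ B ∈ RE K d m ∧
        rspan B = MxL x (rspan A) := by
  have h0 : Sum.elim (Sum.elim A x) (Sum.elim B x') ∈ GD K d m ↔
      (A ∈ RE K (d + 1) m ∧ x ∈ XL (rspan A)) ∧ (∀ i, x' i = x i) ∧ B ∈ RE K d m ∧
        ∀ j, (fun i => x i * B (j, i)) ∈ rspan A ∧ ∑ i, x i * B (j, i) = 0 := Iff.rfl
  rw [h0]
  constructor
  · rintro ⟨h1, h2, h3, h4⟩
    refine ⟨h1, funext h2, h3, Submodule.eq_of_le_of_finrank_eq ?_ ?_⟩
    · conv_lhs => rw [rspan]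
      rw [Submodule.span_le]
      rintro _ ⟨j, rfl⟩
      exact mem_MxL.2 (h4 j)
    · have h5 := finrank_MxL h1.2
      rw [finrank_rspan (RE_subset_Fr h1.1)] at h5
      rw [finrank_rspan (RE_subset_Fr h3)]
      omega
  · rintro ⟨h1, h2, h3, h4⟩
    refine ⟨h1, fun i => congrFun h2 i, h3, fun j => mem_MxL.1 ?_⟩
    rw [← h4]
    exact Submodule.subset_span ⟨j, rfl⟩

section
variable [IsAlgClosed K] (h2 : Swap2 K)
include h2

/-- Duality. -/
theorem GI_dual (hm : 0 < m) (n : ℕ) :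
    GI (d + 1) m (fun L : Submodule K (Fin m → K) => beta L ^ (n + 1)) =
      ((-1) ^ d) ^ (n + 1) * (-1) ^ (m + 1) *
        GI d m (fun L : Submodule K (Fin m → K) => bb L ^ (n + 1)) := by
  set f : ((Fin (d + 1) × Fin m) ⊕ Fin m → K) → ℤ := fun w =>
    ind (PA K (d + 1) m) w * beta (rspan (w ∘ Sum.inl)) ^ n with hf
  set g : ((Fin d × Fin m) ⊕ Fin m → K) → ℤ := fun w =>
    ind (PB K d m) w * (((-1) ^ d) ^ n * (ind (RE K d m) (w ∘ Sum.inl) *
      bb (rspan (w ∘ Sum.inl)) ^ n)) with hg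
  have hfc : CF f := (CF.of_cons cons_PA).comp₂
    ((cf_beta.comp₁ (fun b => b ^ n)).reindex Sum.inl) (fun a b => a * b)
  have hgc : CF g := (CF.of_cons cons_PB).comp₂
    (((GI_moment h2 n).1.reindex Sum.inl).comp₁ (fun b => ((-1) ^ d) ^ n * b)) (fun a b => a * b)
  -- the first integral
  have h3 : E f = (-1) ^ d *
      GI (d + 1) m (fun L : Submodule K (Fin m → K) => beta L ^ (n + 1)) := by
    rw [E_sum h2 hfc]
    have hc : CF (fun A : Fin (d + 1) × Fin m → K => ind (RE K (d + 1) m) A *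
        beta (rspan A) ^ (n + 1)) := (CF.of_cons cons_RE).comp₂
      (cf_beta.comp₁ (fun b => b ^ (n + 1))) (fun a b => a * b)
    unfold GI
    rw [← E_mul _ hc]
    congr 1
    ext A
    by_cases hA : A ∈ RE K (d + 1) m
    · have h4 : (fun x : Fin m → K => f (Sum.elim A x)) = fun x =>
          beta (rspan A) ^ n * ind (XL (rspan A)) x := by
        ext x
        show ind (PA K (d + 1) m) (Sum.elim A x) * beta (rspan A) ^ n = _
        have h5 : ind (PA K (d + 1) m) (Sum.elim A x) = ind (XL (rspan A)) x := by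
          unfold ind
          congr 1
          apply propext
          exact and_iff_right hA
        rw [h5, mul_comm]
      have h6 : Cons (XL (rspan A)) := (cons_submodule (rspan A)).inter
        (cons_sum_one (α := Fin m) (fun i => i))
      rw [h4, E_mul _ (CF.of_cons h6), E_XL, finrank_rspan (RE_subset_Fr hA), ind_one hA, pow_succ,
        pow_succ]
      ring
    · have h4 : (fun x : Fin m → K => f (Sum.elim A x)) = fun _ => (0 : ℤ) := by
        ext x
        show ind (PA K (d + 1) m) (Sum.elim A x) * _ = 0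
        rw [ind_zero (fun h => hA h.1), zero_mul]
      rw [h4, E_const, ind_zero hA, zero_mul, mul_zero]
  -- the second integral
  have h4 : E g = ((-1) ^ d) ^ n * (-1) ^ (m + 1) *
      GI d m (fun L : Submodule K (Fin m → K) => bb L ^ (n + 1)) := by
    rw [E_sum h2 hgc]
    unfold GI
    rw [← E_mul _ (GI_moment h2 (n + 1)).1]
    congr 1
    ext B
    by_cases hB : B ∈ RE K d m
    · have h4 : (fun x : Fin m → K => g (Sum.elim B x)) = fun x =>
          (((-1) ^ d) ^ n * bb (rspan B) ^ n) * ind (XL (perp (rspan B))) x := by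
        ext x
        show ind (PB K d m) (Sum.elim B x) * (((-1) ^ d) ^ n * (ind (RE K d m) B *
          bb (rspan B) ^ n)) = _
        have h5 : ind (PB K d m) (Sum.elim B x) = ind (XL (perp (rspan B))) x := by
          unfold ind
          congr 1
          apply propext
          exact and_iff_right hB
        rw [h5, ind_one hB, one_mul, mul_comm]
      have h6 : Cons (XL (perp (rspan B))) := (cons_submodule (perp (rspan B))).inter
        (cons_sum_one (α := Fin m) (fun i => i))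
      rw [h4, E_mul _ (CF.of_cons h6), E_XL_perp hm, ind_one hB]
      show _ = ((-1) ^ d) ^ n * (-1) ^ (m + 1) * (1 * bb (rspan B) ^ (n + 1))
      rw [pow_succ (bb (rspan B))]
      ring
    · have h4 : (fun x : Fin m → K => g (Sum.elim B x)) = fun _ => (0 : ℤ) := by
        ext x
        show ind (PB K d m) (Sum.elim B x) * _ = 0
        rw [ind_zero (fun h => hB h.1), zero_mul]
      rw [h4, E_const, ind_zero hB, zero_mul, mul_zero]
  -- the correspondence
  have h5 : E f = E g := by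
    have hel : ∀ {α β : Type} (y : α ⊕ β → K), Sum.elim (y ∘ Sum.inl) (y ∘ Sum.inr) = y :=
      fun y => Sum.elim_comp_inl_inr y
    refine E_bij h2 cons_GD hfc ?_ ?_ ?_
    · intro y hy
      have hyA : y ∈ PA K (d + 1) m := by
        by_contra hc
        exact hy (by
          show ind (PA K (d + 1) m) y * _ = 0
          rw [ind_zero hc, zero_mul])
      set A := y ∘ Sum.inl with hA
      set x := y ∘ Sum.inr with hx
      have hye : y = Sum.elim A x := (Sum.elim_comp_inl_inr y).symm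
      have h6 := finrank_MxL hyA.2
      rw [finrank_rspan (RE_subset_Fr hyA.1)] at h6
      obtain ⟨B, hB, hu⟩ := RE_unique (L := MxL x (rspan A)) (r := d) (by
        have : Module.finrank K (MxL x (rspan A)) = Module.finrank K (MxL (y ∘ Sum.inr) (rspan (y ∘ Sum.inl))) := rfl
        omega)
      refine ⟨Sum.elim B x, ?_, fun z hz => ?_⟩
      · rw [hye]
        exact mem_GD.2 ⟨hyA, rfl, hB.1, hB.2⟩
      · have hze : z = Sum.elim (z ∘ Sum.inl) (z ∘ Sum.inr) := (Sum.elim_comp_inl_inr z).symm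
        rw [hye, hze] at hz
        obtain ⟨_, h7, h8, h9⟩ := mem_GD.1 hz
        rw [hze, h7, hu _ ⟨h8, h9⟩]
    · intro z hz
      have hzB : z ∈ PB K d m := by
        by_contra hc
        exact hz (by
          show ind (PB K d m) z * _ = 0
          rw [ind_zero hc, zero_mul])
      set B := z ∘ Sum.inl with hB
      set x := z ∘ Sum.inr with hx
      have hze : z = Sum.elim B x := (Sum.elim_comp_inl_inr z).symm
      have hxp : x ∈ XL (perp (rspan B)) := hzB.2
      have hBR : B ∈ RE K d m := hzB.1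
      have h6 := finrank_LxM hxp
      rw [finrank_rspan (RE_subset_Fr hBR)] at h6
      obtain ⟨A, hA, hu⟩ := RE_unique (L := LxM x (rspan B)) (r := d + 1) h6
      refine ⟨Sum.elim A x, ?_, fun y hy => ?_⟩
      · rw [hze]
        refine mem_GD.2 ⟨⟨hA.1, ?_, hxp.2.1, hxp.2.2⟩, rfl, hBR, ?_⟩
        · rw [hA.2]
          exact x_mem_LxM _ _
        · rw [hA.2, MxL_LxM hxp]
      · have hye : y = Sum.elim (y ∘ Sum.inl) (y ∘ Sum.inr) := (Sum.elim_comp_inl_inr y).symm
        rw [hze, hye] at hy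
        obtain ⟨h7, h8, _, h9⟩ := mem_GD.1 hy
        have h10 : rspan (y ∘ Sum.inl) = LxM x (rspan B) := by
          symm
          refine Submodule.eq_of_le_of_finrank_eq (LxM_le.2 ⟨?_, ?_⟩) ?_
          · rw [h8]
            exact h7.2.1
          · intro q hq
            rw [h9, ← h8] at hq
            exact (mem_MxL.1 hq).1
          · rw [h6, finrank_rspan (RE_subset_Fr h7.1)]
        rw [hye, ← h8, hu _ ⟨h7.1, h10⟩]
    · intro y z hyz
      have hye : y = Sum.elim (y ∘ Sum.inl) (y ∘ Sum.inr) := (Sum.elim_comp_inl_inr y).symm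
      have hze : z = Sum.elim (z ∘ Sum.inl) (z ∘ Sum.inr) := (Sum.elim_comp_inl_inr z).symm
      rw [hze, hye] at hyz
      obtain ⟨h7, h8, h9, h10⟩ := mem_GD.1 hyz
      have hyA : y ∈ PA K (d + 1) m := h7
      have hzB : z ∈ PB K d m := by
        refine ⟨h9, ?_, ?_, ?_⟩
        · rw [h8]
          intro q hq
          rw [h10] at hq
          exact (mem_MxL.1 hq).2
        · rw [h8]
          exact h7.2.2.1
        · rw [h8]
          exact h7.2.2.2
      have h11 := bb_eq h2 (M := rspan (z ∘ Sum.inl)) h7.2 (fun q => by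
        rw [h10]
        exact mem_MxL)
      rw [finrank_rspan (RE_subset_Fr h7.1)] at h11
      show ind (PA K (d + 1) m) y * beta (rspan (y ∘ Sum.inl)) ^ n =
        ind (PB K d m) z * (((-1) ^ d) ^ n * (ind (RE K d m) (z ∘ Sum.inl) *
          bb (rspan (z ∘ Sum.inl)) ^ n))
      rw [ind_one hyA, ind_one hzB, ind_one h9, h11, one_mul, one_mul, one_mul, ← mul_pow]
      congr 1
      rw [pow_succ]
      have h12 : (-1 : ℤ) ^ d * (-1) ^ d = 1 := by
        rw [← mul_pow]
        simp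
      linear_combination (-beta (rspan (y ∘ Sum.inl))) * h12
  have h6 : (-1 : ℤ) ^ d * (-1) ^ d = 1 := by
    rw [← mul_pow]
    simp
  rw [h3, h4] at h5
  rw [pow_succ ((-1 : ℤ) ^ d) n]
  linear_combination (-1 : ℤ) ^ d * h5 -
    (GI (d + 1) m fun L : Submodule K (Fin m → K) => beta L ^ (n + 1)) * h6

end

end EC
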