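import Pool.Agent.EC.Dist

/-!
# Five columns in the plane
-/

namespace EC

open MvPolynomial Classical

variable {K : Type*} [Field K] {m : ℕ}

/-- Four points without collinear triples. -/
lemma four_of_TT {A : Fin 2 × Fin 4 → K} (h : TT A = ∅) : (∀ i, col A i ≠ 0) ∧
    Function.Injective (col A) ∧ (WA A).card = 4 ∧ Unif (WA A) := by
  have hP : ∀ i j : Fin 5, i ≠ j → PA' A i ≠ PA' A j := by
    intro i j hij hP
    obtain ⟨k, hk1, hk2⟩ := five_third i j
    have := TT_of_eq hij hP k hk1 hk2
    rw [h] at this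
    exact Finset.notMem_empty _ this
  obtain ⟨hc1, hc2⟩ := inj_PA' hP
  refine ⟨hc1, hc2, card_of_inj ⟨hc1, hc2⟩, ?_⟩
  rw [WA_eq hc1, unif_iff hc2, h]
  intro τ hτ
  exact absurd hτ (Finset.notMem_empty τ)

/-- A line meets four lines in general position in at least two points. -/
lemma pp_two {v : Fin 2 → K} {W : Finset (Fin 2 → K)} (hu : Unif W) (hc : W.card = 4)
    (hv : v ≠ 0) : 2 ≤ pp v W := by
  have hv' : v 0 ≠ 0 ∨ v 1 ≠ 0 := by
    by_contra hcon
    push Not at hcon
    exact hv (funext fun i => by fin_cases i; exacts [hcon.1, hcon.2])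
  -- at most one of the lines is parallel
  have hpar : ∀ a ∈ W, ∀ b ∈ W, dt v a = 0 → dt v b = 0 → a = b := by
    intro a ha b hb h1 h3
    by_contra hne
    refine hu a ha (Or.inl ⟨b, Finset.mem_erase.2 ⟨fun h => hne h.symm, hb⟩, ?_⟩)
    unfold dt at h1 h3 ⊢
    rcases hv' with h0 | h0
    · refine (mul_eq_zero.1 (?_ : v 0 * _ = 0)).resolve_left h0
      linear_combination (-b 0) * h1 + a 0 * h3
    · refine (mul_eq_zero.1 (?_ : v 1 * _ = 0)).resolve_left h0
      linear_combination (-b 1) * h1 + a 1 * h3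
  have h1 : (W.filter fun u => ¬ dt v u ≠ 0).card ≤ 1 := by
    refine Finset.card_le_one.2 fun a ha b hb => ?_
    obtain ⟨ha1, ha2⟩ := Finset.mem_filter.1 ha
    obtain ⟨hb1, hb2⟩ := Finset.mem_filter.1 hb
    exact hpar a ha1 b hb1 (not_not.1 ha2) (not_not.1 hb2)
  have h3 := Finset.card_filter_add_card_filter_not (s := W) (fun u => dt v u ≠ 0)
  have h4 : 2 < (W.filter fun u => dt v u ≠ 0).card := by omega
  obtain ⟨a, ha, b, hb, c, hc', hab, hac, hbc⟩ := Finset.two_lt_card.1 h4
  obtain ⟨ha1, ha2⟩ := Finset.mem_filter.1 ha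
  obtain ⟨hb1, hb2⟩ := Finset.mem_filter.1 hb
  obtain ⟨hc1, hc2⟩ := Finset.mem_filter.1 hc'
  by_contra hlt
  have h5 : pp v W ≤ 1 := by omega
  unfold pp at h5
  have e1 := Finset.card_le_one.1 h5 _ (Finset.mem_image_of_mem (xp v) ha) _
    (Finset.mem_image_of_mem (xp v) hb)
  have e2 := Finset.card_le_one.1 h5 _ (Finset.mem_image_of_mem (xp v) ha) _
    (Finset.mem_image_of_mem (xp v) hc')
  refine hu a ha1 (Or.inr ⟨b, Finset.mem_erase.2 ⟨hab.symm, hb1⟩, c,
    Finset.mem_erase.2 ⟨hac.symm, hc1⟩, hbc, ?_⟩)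
  refine tri_of_dot (x := xp v a) (dot_xp_right ha2) ?_ ?_
  · rw [e1]
    exact dot_xp_right hb2
  · rw [e2]
    exact dot_xp_right hc2

/-- The first four columns. -/
def init4 (A : Fin 2 × Fin 5 → K) : Fin 2 × Fin 4 → K := fun p => A (p.1, p.2.castSucc)

lemma PA'_init4 (A : Fin 2 × Fin 5 → K) (i : Fin 5) : PA' (init4 A) i = PA' A i.castSucc := by
  refine Fin.cases ?_ (fun i => ?_) i
  · rfl
  · rfl

/-- The first four columns are in general position. -/
def VV (K : Type*) [Field K] : Set (Fin 2 × Fin 5 → K) := {A | TT (init4 A) = ∅}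

lemma mem_VV {A : Fin 2 × Fin 5 → K} : A ∈ VV K ↔ ∀ τ ∈ TT A, Fin.last 5 ∈ τ := by
  show TT (init4 A) = ∅ ↔ _
  rw [TT_eq_iff (by simp)]
  constructor
  · intro h τ hτ
    by_contra hcon
    obtain ⟨hc, hcol⟩ := mem_TT.1 hτ
    set p := τ.orderEmbOfFin hc with hp
    have hmem : ∀ i, p i ∈ τ := fun i => Finset.orderEmbOfFin_mem _ _ _
    have hlast : ∀ i, p i ≠ Fin.last 5 := fun i hi => hcon (hi ▸ hmem i)
    have hcast : ∀ i, ∃ j : Fin 5, j.castSucc = p i := fun i =>
      Fin.exists_castSucc_eq.2 (hlast i)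
    obtain ⟨i, hi⟩ := hcast 0
    obtain ⟨j, hj⟩ := hcast 1
    obtain ⟨k, hk⟩ := hcast 2
    have h01 : p 0 < p 1 := p.strictMono (by decide)
    have h12 : p 1 < p 2 := p.strictMono (by decide)
    rw [← hi, ← hj] at h01
    rw [← hj, ← hk] at h12
    have h3 := h i j k (Fin.castSucc_lt_castSucc_iff.1 h01) (Fin.castSucc_lt_castSucc_iff.1 h12)
    rw [PA'_init4, PA'_init4, PA'_init4, hi, hj, hk] at h3
    exact Finset.notMem_empty _ (h3.1 (hcol _ (hmem 0) _ (hmem 1) _ (hmem 2)))
  · intro h i j k hij hjk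
    constructor
    · intro h3
      rw [PA'_init4, PA'_init4, PA'_init4] at h3
      have hij' : i.castSucc < j.castSucc := Fin.castSucc_lt_castSucc_iff.2 hij
      have hjk' : j.castSucc < k.castSucc := Fin.castSucc_lt_castSucc_iff.2 hjk
      have h4 := h _ (triple_mem_TT hij'.ne (hij'.trans hjk').ne hjk'.ne h3)
      simp only [Finset.mem_insert, Finset.mem_singleton] at h4
      rcases h4 with h4 | h4 | h4
      · exact absurd h4.symm (Fin.castSucc_ne_last _)
      · exact absurd h4.symm (Fin.castSucc_ne_last _)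
      · exact absurd h4.symm (Fin.castSucc_ne_last _)
    · intro h3
      exact absurd h3 (Finset.notMem_empty _)

lemma cons_VV : Cons (VV K) := by
  have h := (cons_TT (K := K) (m := 4) ∅).reindex
    (fun p : Fin 2 × Fin 4 => ((p.1, p.2.castSucc) : Fin 2 × Fin 5))
  exact h

/-- The number of earlier points which are equal to the last one. -/
noncomputable def dl (A : Fin 2 × Fin 5 → K) : ℤ :=
  ∑ i : Fin 5, ind {v : Fin 2 → K | v = PA' (init4 A) i} (col A (Fin.last 4))

lemma WA_last (A : Fin 2 × Fin 5 → K) :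
    WA A = (insert (col A (Fin.last 4)) (WA (init4 A))).erase 0 := by
  ext w
  unfold WA
  simp only [Finset.mem_erase, Finset.mem_insert, Finset.mem_image, Finset.mem_univ, true_and]
  refine and_congr_right fun h0 => ?_
  constructor
  · rintro ⟨i, rfl⟩
    rcases Fin.eq_castSucc_or_eq_last i with ⟨j, rfl⟩ | rfl
    · exact Or.inr ⟨h0, j, rfl⟩
    · exact Or.inl rfl
  · rintro (rfl | ⟨_, j, rfl⟩)
    · exact ⟨_, rfl⟩
    · exact ⟨j.castSucc, rfl⟩

/-- The triples which contain the last point. -/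
def T5 : Finset (Finset (Fin 6)) :=
  (Finset.powersetCard 3 Finset.univ).filter fun τ => Fin.last 5 ∈ τ

lemma card_T5 : T5.card = 10 := by decide

lemma mem_T5 {τ : Finset (Fin 6)} : τ ∈ T5 ↔ τ.card = 3 ∧ Fin.last 5 ∈ τ := by
  unfold T5
  rw [Finset.mem_filter, Finset.mem_powersetCard]
  simp

lemma six_fourth : ∀ i : Fin 5, ∃ k l : Fin 6, k ≠ l ∧ i.castSucc ≠ k ∧ Fin.last 5 ≠ k ∧
    i.castSucc ≠ l ∧ Fin.last 5 ≠ l := by
  decide

/-- The sum over the triples which contain the last point. -/
lemma sum_T5 {A : Fin 2 × Fin 5 → K} (hA : A ∈ VV K) :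
    ∑ τ ∈ T5, ind {A : Fin 2 × Fin 5 → K | TT A = {τ}} A = if (TT A).card = 1 then 1 else 0 := by
  rw [mem_VV] at hA
  split_ifs with h
  · obtain ⟨τ, hτ⟩ := Finset.card_eq_one.1 h
    have hτ' : τ ∈ TT A := by rw [hτ]; exact Finset.mem_singleton_self _
    have hT : τ ∈ T5 := mem_T5.2 ⟨(mem_TT.1 hτ').1, hA τ hτ'⟩
    rw [Finset.sum_eq_single_of_mem τ hT]
    · exact ind_pos hτ
    · intro τ' _ hne
      refine ind_neg fun h3 => hne ?_
      have h4 : ({τ'} : Finset (Finset (Fin 6))) = {τ} := by
        rw [← hτ]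
        exact (show TT A = {τ'} from h3).symm
      exact Finset.singleton_injective h4
  · refine Finset.sum_eq_zero fun τ _ => ind_neg fun h3 => h ?_
    rw [show TT A = {τ} from h3, Finset.card_singleton]

section
variable [IsAlgClosed K] (h2 : Swap2 K)
include h2

/-- The values of the Euler characteristic over four points in general position. -/
theorem point_eq {A : Fin 2 × Fin 5 → K} (hA : A ∈ RE K 2 5) (hV : A ∈ VV K) :
    bb (rspan A) - 4 + dl A = 2 * ind {A : Fin 2 × Fin 5 → K | TT A = ∅} A +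
      ∑ τ ∈ T5, ind {A : Fin 2 × Fin 5 → K | TT A = {τ}} A := by
  obtain ⟨h0, hinj, hcard, hunif⟩ := four_of_TT (show TT (init4 A) = ∅ from hV)
  have hBW : BW (WA (init4 A)) = 3 := by
    rw [BW_unif (zero_notMem_WA _) (Finset.card_pos.1 (by omega)) hunif, hcard]
    decide
  have hPinj : Function.Injective (PA' (init4 A)) := by
    intro i j
    refine Fin.cases ?_ (fun i => ?_) i <;> refine Fin.cases ?_ (fun j => ?_) j
    · intro _
      rfl
    · intro h
      exact absurd (show (0 : Fin 2 → K) = col (init4 A) j from h).symm (h0 j)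
    · intro h
      exact absurd (show col (init4 A) i = 0 from h) (h0 i)
    · intro h
      rw [hinj (show col (init4 A) i = col (init4 A) j from h)]
  rw [sum_T5 hV, bb_eq_BW h2 hA]
  set v := col A (Fin.last 4) with hv
  have hvP : v = PA' A (Fin.last 5) := rfl
  by_cases hex : ∃ i : Fin 5, v = PA' (init4 A) i
  · -- the last point is one of the others
    obtain ⟨i, hi⟩ := hex
    have hdl : dl A = 1 := by
      unfold dl
      rw [Finset.sum_eq_single i]
      · exact ind_pos hi
      · intro j _ hj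
        refine ind_neg fun h3 => hj ?_
        exact hPinj ((show v = PA' (init4 A) j from h3).symm.trans hi)
      · intro h
        exact absurd (Finset.mem_univ i) h
    have hWA : WA A = WA (init4 A) := by
      rw [WA_last, ← hv]
      by_cases hv0 : v = 0
      · rw [hv0, Finset.erase_insert (zero_notMem_WA _)]
      · have h3 : v ∈ WA (init4 A) := by
          revert hi
          refine Fin.cases ?_ (fun i => ?_) i
          · intro hi
            exact absurd hi hv0
          · intro hi
            rw [hi]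
            exact mem_WA h0 i
        rw [Finset.insert_eq_of_mem h3, Finset.erase_eq_of_notMem (zero_notMem_WA _)]
    obtain ⟨k, l, hkl, hk1, hk2, hl1, hl2⟩ := six_fourth i
    have hP : PA' A i.castSucc = PA' A (Fin.last 5) := by
      rw [← PA'_init4, ← hi]
      exact hvP
    have hne : i.castSucc ≠ Fin.last 5 := Fin.castSucc_ne_last _
    have m1 := TT_of_eq hne hP k hk1 hk2
    have m2 := TT_of_eq hne hP l hl1 hl2
    have hcne : (TT A).card ≠ 1 := by
      intro h1
      have h5 := Finset.card_le_one.1 h1.le _ m1 _ m2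
      have h6 : k ∈ ({i.castSucc, Fin.last 5, l} : Finset (Fin 6)) := by
        rw [← h5]
        simp
      simp only [Finset.mem_insert, Finset.mem_singleton] at h6
      rcases h6 with h6 | h6 | h6
      · exact hk1 h6.symm
      · exact hk2 h6.symm
      · exact hkl h6
    rw [hdl, hWA, hBW, if_neg hcne, ind_neg]
    · norm_num
    · intro h3
      rw [show TT A = ∅ from h3] at m1
      exact Finset.notMem_empty _ m1
  · push Not at hex
    have hdl : dl A = 0 := by
      unfold dl
      exact Finset.sum_eq_zero fun i _ => ind_neg (hex i)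
    have hv0 : v ≠ 0 := hex 0
    have hvW : v ∉ WA (init4 A) := by
      intro h3
      obtain ⟨i, hi⟩ := exists_of_mem_WA h3
      exact hex i.succ hi.symm
    have hWA : WA A = insert v (WA (init4 A)) := by
      rw [WA_last, ← hv, Finset.erase_eq_of_notMem]
      intro h3
      rcases Finset.mem_insert.1 h3 with h3 | h3
      · exact hv0 h3.symm
      · exact zero_notMem_WA _ h3
    have hb : BW (WA A) = 2 + pp v (WA (init4 A)) := by
      rw [hWA, BW_insert hvW hv0, hBW]
      ring
    have hp2 := pp_two hunif hcard hv0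
    have hp4 := pp_le v (WA (init4 A))
    rw [hcard] at hp4
    obtain ⟨h6, h5⟩ := bb_five h2 hA
    rw [bb_eq_BW h2 hA, hb] at h6 h5
    rw [hdl, hb]
    obtain hp | hp | hp : pp v (WA (init4 A)) = 2 ∨ pp v (WA (init4 A)) = 3 ∨
        pp v (WA (init4 A)) = 4 := by omega
    · rw [hp] at h6 h5 ⊢
      rw [if_neg (fun h => by have := h5.2 h; norm_num at this),
        ind_neg (fun h => by have := h6.2 h; norm_num at this)]
      norm_num
    · rw [hp] at h6 h5 ⊢
      rw [if_pos (h5.1 (by norm_num)),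
        ind_neg (fun h => by have := h6.2 h; norm_num at this)]
      norm_num
    · rw [hp] at h6 h5 ⊢
      rw [if_neg (fun h => by have := h5.2 h; norm_num at this),
        ind_pos (S := {A : Fin 2 × Fin 5 → K | TT A = ∅}) (h6.1 (by norm_num))]
      norm_num

end

end EC
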