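import Pool.Agent.EC.Five

/-!
# Five columns in the plane: the integrals
-/

namespace EC

open MvPolynomial Classical

variable {K : Type*} [Field K] {m : ℕ}

/-- The coordinates for the last column. -/
noncomputable def e42 : Fin 2 × Fin 3 ≃ Fin 4 ⊕ Fin 2 :=
  Equiv.ofBijective (fun p => (![![Sum.inl 3, Sum.inl 1, Sum.inr 0],
    ![Sum.inl 2, Sum.inl 0, Sum.inr 1]] : Fin 2 → Fin 3 → Fin 4 ⊕ Fin 2) p.1 p.2) (by decide)

/-- Five columns in terms of the last one. -/
def M5v (x : Fin 4 → K) (v : Fin 2 → K) : Fin 2 × Fin 5 → K :=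
  M5 (x 0) (x 1) (x 2) (x 3) (v 1) (v 0)

lemma idb_e42 (x : Fin 4 → K) (v : Fin 2 → K) : idb (Sum.elim x v ∘ e42) = M5v x v := by
  ext ⟨a, i⟩
  fin_cases a <;> fin_cases i <;> rfl

lemma init4_M5v (x : Fin 4 → K) (v : Fin 2 → K) :
    init4 (M5v x v) = M4 (x 0) (x 1) (x 2) (x 3) := by
  ext ⟨a, i⟩
  fin_cases a <;> fin_cases i <;> rfl

lemma col_M5v (x : Fin 4 → K) (v : Fin 2 → K) : col (M5v x v) (Fin.last 4) = v := by
  ext a
  fin_cases a <;> rfl

lemma M5v_RE (x : Fin 4 → K) (v : Fin 2 → K) : M5v x v ∈ RE K 2 5 := by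
  have h0 : col (M5v x v) 0 = ![1, 0] := rfl
  have h1 : col (M5v x v) 1 = ![0, 1] := rfl
  refine (mem_RE_iff (k := 3) ?_).2 ⟨h0, h1⟩
  rw [h0, h1]
  simp [dt]

lemma M5v_VV (x : Fin 4 → K) (v : Fin 2 → K) : M5v x v ∈ VV K ↔ x ∈ US K := by
  show TT (init4 (M5v x v)) = ∅ ↔ _
  rw [init4_M5v, TT_M4]
  rfl

/-- The pairs of a point and a line. -/
def Gm (x : Fin 4 → K) : Set (Fin 2 ⊕ Fin 2 → K) :=
  {w | (∀ i, dot (col (M4 (x 0) (x 1) (x 2) (x 3)) i) (w ∘ Sum.inr) ≠ 1) ∧
    dot (w ∘ Sum.inl) (w ∘ Sum.inr) ≠ 1}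

lemma cons_Gm (x : Fin 4 → K) : Cons (Gm x) := by
  have h : Gm x = (⋂ i, {w : Fin 2 ⊕ Fin 2 → K | eval w
      (C (col (M4 (x 0) (x 1) (x 2) (x 3)) i 0) * X (Sum.inr 0) +
        C (col (M4 (x 0) (x 1) (x 2) (x 3)) i 1) * X (Sum.inr 1) - 1) ≠ 0}) ∩
      {w | eval w (X (Sum.inl 0) * X (Sum.inr 0) + X (Sum.inl 1) * X (Sum.inr 1) - 1) ≠ 0} := by
    ext w
    simp [Gm, dot, sub_eq_zero]
  rw [h]
  exact (Cons.iInter fun i => Cons.ne _).inter (Cons.ne _)

section
variable [IsAlgClosed K] (h2 : Swap2 K)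
include h2

theorem E_five {F : (Fin 2 × Fin 5 → K) → ℤ} (hF : CF F) :
    E (fun y : Fin 2 × Fin 3 → K => F (idb y)) =
      E (fun x : Fin 4 → K => E (fun v : Fin 2 → K => F (M5v x v))) := by
  have h3 : CF (fun y : Fin 2 × Fin 3 → K => F (idb y)) := by
    have h4 := hF.preimage (idP K 3)
    simpa only [eval_idP] using h4
  rw [← E_equiv h2 e42 h3, E_sum h2 (h3.reindex e42)]
  simp only [idb_e42]

lemma bb_M5v (x : Fin 4 → K) (v : Fin 2 → K) : bb (rspan (M5v x v)) =
    E (fun y : Fin 2 → K => ind (Gm x) (Sum.elim v y)) := by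
  rw [bb_eq_BW h2 (M5v_RE x v)]
  unfold BW
  congr 1
  ext y
  refine ind_congr ?_
  rw [mem_UV_WA]
  show (∀ i, dot (col (M5v x v) i) y ≠ 1) ↔
    (∀ i, dot (col (M4 (x 0) (x 1) (x 2) (x 3)) i) y ≠ 1) ∧ dot v y ≠ 1
  rw [Fin.forall_fin_succ']
  refine and_congr ?_ ?_
  · refine forall_congr' fun i => ?_
    rw [← init4_M5v x v]
    rfl
  · rw [col_M5v]

lemma E_bb_M5v (x : Fin 4 → K) : CF (fun v : Fin 2 → K => bb (rspan (M5v x v))) ∧
    E (fun v : Fin 2 → K => bb (rspan (M5v x v))) = 1 := by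
  simp only [bb_M5v h2]
  refine ⟨CF.E (CF.of_cons (cons_Gm x)), ?_⟩
  rw [← E_sum h2 (CF.of_cons (cons_Gm x)), E_sum' h2 (CF.of_cons (cons_Gm x))]
  have hline : ∀ y : Fin 2 → K, y ≠ 0 → E (ind {v : Fin 2 → K | dot v y = 1}) = 1 := by
    intro y hy
    have h3 : {v : Fin 2 → K | dot v y = 1} = {v | dot y v = 1} := by
      ext v
      simp only [Set.mem_setOf_eq, dot]
      rw [mul_comm (v 0), mul_comm (v 1)]
    rw [h3]
    exact E_line hy
  refine E_uniq (a := 0) ?_ ?_
  · have h3 : (fun v : Fin 2 → K => ind (Gm x) (Sum.elim v (0 : Fin 2 → K))) = fun _ => 1 := by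
      ext v
      refine ind_pos ⟨fun i => ?_, ?_⟩
      · show dot _ (0 : Fin 2 → K) ≠ 1
        simp [dot]
      · show dot _ (0 : Fin 2 → K) ≠ 1
        simp [dot]
    rw [h3]
    exact E_const 1
  · intro y hy
    by_cases h4 : ∀ i, dot (col (M4 (x 0) (x 1) (x 2) (x 3)) i) y ≠ 1
    · have h3 : (fun v : Fin 2 → K => ind (Gm x) (Sum.elim v y)) =
          fun v => 1 + (-1) * ind {v : Fin 2 → K | dot v y = 1} v := by
        ext v
        by_cases h5 : dot v y = 1
        · rw [ind_pos (S := {v : Fin 2 → K | dot v y = 1}) h5, ind_neg]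
          · norm_num
          · exact fun h6 => h6.2 h5
        · rw [ind_neg (S := {v : Fin 2 → K | dot v y = 1}) h5, ind_pos]
          · norm_num
          · exact ⟨h4, h5⟩
      have hc : Cons {v : Fin 2 → K | dot v y = 1} := by
        have h6 := Cons.zero (C (y 0) * X 0 + C (y 1) * X 1 - 1 : MvPolynomial (Fin 2) K)
        convert h6 using 1
        ext v
        simp [dot, sub_eq_zero, mul_comm]
      have hcf := CF.of_cons hc
      rw [h3, E_add (CF.const 1) (hcf.comp₁ fun z => -1 * z), E_const, E_mul _ hcf, hline y hy]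
      norm_num
    · have h3 : (fun v : Fin 2 → K => ind (Gm x) (Sum.elim v y)) = fun _ => 0 := by
        ext v
        exact ind_neg fun h5 => h4 h5.1
      rw [h3]
      exact E_const 0

omit h2 in
lemma E_dl_M5v (x : Fin 4 → K) : CF (fun v : Fin 2 → K => dl (M5v x v)) ∧
    E (fun v : Fin 2 → K => dl (M5v x v)) = 5 := by
  have h3 : ∀ (i : Fin 5) (v : Fin 2 → K),
      ind {v : Fin 2 → K | v = PA' (init4 (M5v x v)) i} (col (M5v x v) (Fin.last 4)) =
      ind {PA' (M4 (x 0) (x 1) (x 2) (x 3)) i} v := by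
    intro i v
    rw [col_M5v]
    refine ind_congr ?_
    show v = PA' (init4 (M5v x v)) i ↔ v = PA' (M4 (x 0) (x 1) (x 2) (x 3)) i
    rw [init4_M5v]
  have h4 : (fun v : Fin 2 → K => dl (M5v x v)) = fun v => ∑ i : Fin 5,
      ind {PA' (M4 (x 0) (x 1) (x 2) (x 3)) i} v := by
    ext v
    unfold dl
    refine Finset.sum_congr rfl fun i _ => ?_
    rw [col_M5v, init4_M5v]
    rfl
  have hc : ∀ i ∈ (Finset.univ : Finset (Fin 5)),
      CF (ind {PA' (M4 (x 0) (x 1) (x 2) (x 3)) i} : (Fin 2 → K) → ℤ) := fun i _ =>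
    CF.of_cons (Cons.singleton _)
  rw [h4]
  refine ⟨CF.sum _ hc, ?_⟩
  rw [E_fsum _ hc]
  simp only [E_point]
  simp

end

/-- The integrand. -/
noncomputable def ff (A : Fin 2 × Fin 5 → K) : ℤ :=
  ind (VV K) A * (ind (RE K 2 5) A * bb (rspan A) + (-4 * ind (RE K 2 5) A +
    ind (RE K 2 5) A * dl A))

lemma cf_dl : CF (dl : (Fin 2 × Fin 5 → K) → ℤ) := by
  unfold dl
  refine CF.sum _ fun i _ => ?_
  have h : (fun A : Fin 2 × Fin 5 → K => ind {v : Fin 2 → K | v = PA' (init4 A) i}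
      (col A (Fin.last 4))) = ind {A : Fin 2 × Fin 5 → K | col A (Fin.last 4) =
        PA' (init4 A) i} := by
    ext A
    exact ind_congr Iff.rfl
  rw [h]
  refine CF.of_cons ?_
  refine Fin.cases ?_ (fun i => ?_) i
  · have h1 : {A : Fin 2 × Fin 5 → K | col A (Fin.last 4) = PA' (init4 A) 0} =
        ⋂ a : Fin 2, {A | A (a, Fin.last 4) = 0} := by
      ext A
      simp only [Set.mem_setOf_eq, Set.mem_iInter, PA'_zero, funext_iff]
      rfl
    rw [h1]
    exact Cons.iInter fun a => cons_coord_eq _ _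
  · have h1 : {A : Fin 2 × Fin 5 → K | col A (Fin.last 4) = PA' (init4 A) i.succ} =
        ⋂ a : Fin 2, {A | A (a, Fin.last 4) = A (a, i.castSucc)} := by
      ext A
      simp only [Set.mem_setOf_eq, Set.mem_iInter, PA'_succ, funext_iff]
      rfl
    rw [h1]
    exact Cons.iInter fun a => Cons.eq_coord _ _

lemma card_triples : (Finset.powersetCard 3 (Finset.univ : Finset (Fin 6))).card = 20 := by
  decide

section
variable [IsAlgClosed K] (h2 : Swap2 K)
include h2

lemma cf_ff : CF (ff : (Fin 2 × Fin 5 → K) → ℤ) := by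
  have hR : CF (ind (RE K 2 5)) := CF.of_cons cons_RE
  have hb : CF (fun A : Fin 2 × Fin 5 → K => ind (RE K 2 5) A * bb (rspan A)) :=
    gcf_bb h2 (fun z => z)
  have h3 := hb.comp₂ ((hR.comp₁ fun z => -4 * z).comp₂ (hR.comp₂ cf_dl fun u v => u * v)
    fun u v => u + v) fun u v => u + v
  exact (CF.of_cons cons_VV).comp₂ h3 fun u v => u * v

lemma EUS : EI 4 (ind (US K)) = 6 := by
  rw [← E_US h2, ← (w_values h2).1]
  unfold chb GI
  congr 1
  ext A
  by_cases hA : A ∈ RE K 2 4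
  · rw [ind_pos hA, one_mul, one_mul]
    by_cases hT : TT A = ∅
    · exact (ind_pos hT).trans (if_pos ((bb_four h2 hA).2 hT)).symm
    · exact (ind_neg hT).trans (if_neg fun h => hT ((bb_four h2 hA).1 h)).symm
  · rw [ind_neg hA, zero_mul, zero_mul]

lemma E_ff : E (fun A : Fin 2 × Fin 5 → K => ind (RE K 2 5) A * ff A) = 12 := by
  have hinf : Infinite K := IsAlgClosed.instInfinite
  rw [E_norm h2 (k := 3) (cf_ff h2) fun A hA => ?_, E_five h2 (cf_ff h2)]
  · have h3 : ∀ x : Fin 4 → K, E (fun v : Fin 2 → K => ff (M5v x v)) = 2 * ind (US K) x := by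
      intro x
      by_cases hx : x ∈ US K
      · have h4 : (fun v : Fin 2 → K => ff (M5v x v)) = fun v =>
            bb (rspan (M5v x v)) + (-4 + dl (M5v x v)) := by
          ext v
          unfold ff
          rw [ind_pos ((M5v_VV x v).2 hx), ind_pos (M5v_RE x v)]
          ring
        obtain ⟨c1, v1⟩ := E_bb_M5v h2 x
        obtain ⟨c2, v2⟩ := E_dl_M5v x
        rw [h4, E_add c1 ((CF.const (-4)).comp₂ c2 fun u v => u + v), v1,
          E_add (CF.const (-4)) c2, v2, E_const, ind_pos hx]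
        norm_num
      · have h4 : (fun v : Fin 2 → K => ff (M5v x v)) = fun _ => 0 := by
          ext v
          unfold ff
          rw [ind_neg fun h => hx ((M5v_VV x v).1 h), zero_mul]
        rw [h4, E_const, ind_neg hx]
        norm_num
    simp only [h3]
    rw [E_mul _ (CF.of_cons cons_US), E_fin h2 (CF.of_cons cons_US), EUS h2]
    norm_num
  · have hV : A ∈ VV K := by
      by_contra hV
      refine hA ?_
      unfold ff
      rw [ind_neg hV, zero_mul]
    have h3 : ({0, 1, 2} : Finset (Fin 5)) ∉ TT (init4 A) := by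
      rw [show TT (init4 A) = ∅ from hV]
      exact Finset.notMem_empty _
    exact dt_of_TT (m := 2) h3

/-- The value for one collinear triple. -/
lemma NT_30 {τ : Finset (Fin 6)} (hτ : τ.card = 3) : NT K τ = -30 := by
  rw [NT_eq h2 hτ (by decide : ({0, 1, 5} : Finset (Fin 6)).card = 3), NT_val h2, EUS h2]
  norm_num

omit h2 [IsAlgClosed K] in
lemma cf_NT (τ : Finset (Fin 6)) : CF (fun A : Fin 2 × Fin 5 → K =>
    ind (RE K 2 5) A * ind {A | TT A = {τ}} A) := by
  simp only [ind_inter]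
  exact CF.of_cons (cons_RE.inter (cons_TT _))

theorem chb_five : chb K 2 5 5 = -600 := by
  have h1 : chb K 2 5 5 = E (fun A : Fin 2 × Fin 5 → K =>
      ∑ τ ∈ Finset.powersetCard 3 (Finset.univ : Finset (Fin 6)),
        ind (RE K 2 5) A * ind {A | TT A = {τ}} A) := by
    unfold chb GI
    congr 1
    ext A
    by_cases hA : A ∈ RE K 2 5
    · simp only [ind_pos hA, one_mul]
      have h5 := (bb_five h2 hA).2
      by_cases hc : (TT A).card = 1
      · rw [if_pos (h5.2 hc)]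
        obtain ⟨τ, hτ⟩ := Finset.card_eq_one.1 hc
        have hτ' : τ ∈ TT A := by rw [hτ]; exact Finset.mem_singleton_self _
        rw [Finset.sum_eq_single_of_mem τ (Finset.mem_filter.1 hτ').1]
        · exact (ind_pos (S := {A : Fin 2 × Fin 5 → K | TT A = {τ}}) hτ).symm
        · intro τ' _ hne
          refine ind_neg fun h3 => hne ?_
          have h4 : ({τ'} : Finset (Finset (Fin 6))) = {τ} := by
            rw [← hτ]
            exact (show TT A = {τ'} from h3).symm
          exact Finset.singleton_injective h4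
      · rw [if_neg fun h => hc (h5.1 h)]
        refine (Finset.sum_eq_zero fun τ _ => ind_neg fun h3 => hc ?_).symm
        rw [show TT A = {τ} from h3, Finset.card_singleton]
    · simp only [ind_neg hA, zero_mul, Finset.sum_const_zero]
  rw [h1, E_fsum _ fun τ _ => cf_NT τ]
  have h3 : ∀ τ ∈ Finset.powersetCard 3 (Finset.univ : Finset (Fin 6)),
      E (fun A : Fin 2 × Fin 5 → K => ind (RE K 2 5) A * ind {A | TT A = {τ}} A) = -30 :=
    fun τ hτ => NT_30 h2 (Finset.mem_powersetCard.1 hτ).2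
  rw [Finset.sum_congr rfl h3, Finset.sum_const, card_triples]
  norm_num

theorem chb_six : chb K 2 5 6 = 156 := by
  have hN : chb K 2 5 6 = E (fun A : Fin 2 × Fin 5 → K =>
      ind (RE K 2 5) A * ind {A | TT A = ∅} A) := by
    unfold chb GI
    congr 1
    ext A
    by_cases hA : A ∈ RE K 2 5
    · rw [ind_pos hA, one_mul, one_mul]
      by_cases hT : TT A = ∅
      · exact (if_pos ((bb_five h2 hA).1.2 hT)).trans (ind_pos hT).symm
      · exact (if_neg fun h => hT ((bb_five h2 hA).1.1 h)).trans (ind_neg hT).symm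
    · rw [ind_neg hA, zero_mul, zero_mul]
  have hcN : CF (fun A : Fin 2 × Fin 5 → K => ind (RE K 2 5) A * ind {A | TT A = ∅} A) := by
    simp only [ind_inter]
    exact CF.of_cons (cons_RE.inter (cons_TT _))
  have h1 := E_ff h2 (K := K)
  have h3 : (fun A : Fin 2 × Fin 5 → K => ind (RE K 2 5) A * ff A) = fun A =>
      2 * (ind (RE K 2 5) A * ind {A | TT A = ∅} A) +
        ∑ τ ∈ T5, ind (RE K 2 5) A * ind {A | TT A = {τ}} A := by
    ext A
    by_cases hA : A ∈ RE K 2 5
    · simp only [ind_pos hA, one_mul]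
      unfold ff
      rw [ind_pos hA]
      by_cases hV : A ∈ VV K
      · rw [ind_pos hV, ← point_eq h2 hA hV]
        ring
      · rw [ind_neg hV, ind_neg (S := {A : Fin 2 × Fin 5 → K | TT A = ∅})]
        · have h4 : ∑ τ ∈ T5, ind {A : Fin 2 × Fin 5 → K | TT A = {τ}} A = 0 := by
            refine Finset.sum_eq_zero fun τ hτ => ind_neg fun h5 => hV (mem_VV.2 ?_)
            intro τ' hτ'
            rw [show TT A = {τ} from h5, Finset.mem_singleton] at hτ'
            rw [hτ']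
            exact (mem_T5.1 hτ).2
          rw [h4]
          ring
        · intro h5
          refine hV (mem_VV.2 fun τ hτ => ?_)
          rw [show TT A = ∅ from h5] at hτ
          exact absurd hτ (Finset.notMem_empty _)
    · simp only [ind_neg hA, zero_mul, Finset.sum_const_zero]
      norm_num
  rw [h3, E_add (hcN.comp₁ fun z => 2 * z) (CF.sum _ fun τ _ => cf_NT τ), E_mul _ hcN,
    E_fsum _ fun τ _ => cf_NT τ] at h1
  have h4 : ∀ τ ∈ T5, E (fun A : Fin 2 × Fin 5 → K =>
      ind (RE K 2 5) A * ind {A | TT A = {τ}} A) = -30 :=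
    fun τ hτ => NT_30 h2 (mem_T5.1 hτ).1
  rw [Finset.sum_congr rfl h4, Finset.sum_const, card_T5, ← hN] at h1
  norm_num at h1
  linarith

/-- The moments of the Euler characteristic over the planes in a space of dimension five. -/
theorem GI_five {n : ℕ} (hn : n ≠ 0) : GI 2 5 (fun L : Submodule K (Fin 5 → K) => bb L ^ n) =
    156 * 6 ^ n - 600 * 5 ^ n + 760 * 4 ^ n - 180 * 3 ^ n - 360 * 2 ^ n + 290 := by
  obtain ⟨_, a1, a2, a3, a4, a5, a6, a7, a8⟩ := w_values h2
  have h5 := chb_five h2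
  have h6 := chb_six h2
  have e1 := GI5 h2 (n := 1) (by norm_num)
  have e2 := GI5 h2 (n := 2) (by norm_num)
  have e3 := GI5 h2 (n := 3) (by norm_num)
  have e4 := GI5 h2 (n := 4) (by norm_num)
  rw [GI5' h2] at e1 e2 e3 e4
  rw [a1, a2, h5, h6] at e1
  rw [a3, a4, h5, h6] at e2
  rw [a5, a6, h5, h6] at e3
  rw [a7, a8, h5, h6] at e4
  norm_num at e1 e2 e3 e4
  have c4 : chb K 2 5 4 = 760 := by linarith
  have c3 : chb K 2 5 3 = -180 := by linarith
  have c2 : chb K 2 5 2 = -360 := by linarith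
  have c1 : chb K 2 5 1 = 290 := by linarith
  rw [GI5 h2 hn, h5, h6, c1, c2, c3, c4]
  ring

/-- The Euler integral for the ML degree with `m = 5` and `r = 3`. -/
theorem GI_beta_five {n : ℕ} (hn : n ≠ 0) :
    GI 3 5 (fun L : Submodule K (Fin 5 → K) => beta L ^ n) =
      156 * 6 ^ n - 600 * 5 ^ n + 760 * 4 ^ n - 180 * 3 ^ n - 360 * 2 ^ n + 290 := by
  obtain ⟨n, rfl⟩ := Nat.exists_eq_succ_of_ne_zero hn
  have h := GI_dual h2 (K := K) (d := 2) (m := 5) (by norm_num) n
  rw [← GI_five h2 hn]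
  norm_num at h
  exact h

end

end EC
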