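import Pool.Agent.EC.Five2

/-!
# The sum over the beta invariants for `m = 5` and `r = 3`
-/

namespace EC

open MvPolynomial Classical

variable {K : Type*} [Field K] {m r : ℕ}

/-- The Euler integral of a power of the beta invariant as a sum. -/
theorem GI_beta_finsum [IsAlgClosed K] (n : ℕ) :
    GI r m (fun L : Submodule K (Fin m → K) => beta L ^ n) =
      ∑ᶠ b : ℤ, b ^ n * E (ind {A : Fin r × Fin m → K | A ∈ RE K r m ∧ beta (rspan A) = b}) := by
  unfold GI
  exact E_eq_finsum cons_RE cf_beta (fun b => b ^ n)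

/-- The sum over the beta invariants for `m = 5` and `r = 3`. -/
theorem five_finsum [IsAlgClosed K] (h2 : Swap2 K) {n : ℕ} (hn : n ≠ 0) :
    ∑ᶠ b : ℤ, b ^ n * E (ind {A : Fin 3 × Fin 5 → K | A ∈ RE K 3 5 ∧ beta (rspan A) = b}) =
      156 * 6 ^ n - 600 * 5 ^ n + 760 * 4 ^ n - 180 * 3 ^ n - 360 * 2 ^ n + 290 := by
  rw [← GI_beta_finsum, GI_beta_five h2 hn]

end EC
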