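import Pool.Agent.EC.Int

/-!
# Fubini and invariance, from the symmetry of the integral over the plane
-/

namespace EC

open MvPolynomial Classical

/-- The two iterated integrals over the plane agree for constructible functions. -/
def Swap2 (K : Type*) [Field K] : Prop :=
  ∀ f : (Fin 2 → K) → ℤ, CF f →
    IC (fun t => IC (fun s => f ![t, s])) = IC (fun s => IC (fun t => f ![t, s]))

variable {K : Type*} [Field K]

lemma CF.cons {k : ℕ} {f : (Fin (k + 1) → K) → ℤ} (hf : CF f) (t : K) :
    CF (fun x : Fin k → K => f (Fin.cons t x)) := by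
  have h1 := hf.preimage (Fin.cons (C t) (fun i => X i) : Fin (k + 1) → MvPolynomial (Fin k) K)
  convert h1 using 1
  ext x
  congr 1
  ext i
  refine Fin.cases ?_ (fun j => ?_) i <;> simp

lemma EI_two (g : (Fin 2 → K) → ℤ) : EI 2 g = IC (fun t => IC (fun s => g ![t, s])) := by
  rfl

lemma EI_adj [IsAlgClosed K] (h2 : Swap2 K) : ∀ (k : ℕ) (i : Fin k) (f : (Fin (k + 1) → K) → ℤ),
    CF f → EI (k + 1) (fun x => f (x ∘ Equiv.swap i.castSucc i.succ)) = EI (k + 1) f
  | 0, i, _, _ => i.elim0
  | k + 1, i, f, hf => by
    refine Fin.cases ?_ (fun j => ?_) i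
    · -- the first two coordinates
      set g : (Fin 2 → K) → ℤ := fun w => EI k (fun x => f (Fin.cons (w 0) (Fin.cons (w 1) x)))
        with hg
      have hgc : CF g := by
        have h1 := (CF.int k (hf.reindex (Fin.cons (Sum.inl 0) (Fin.cons (Sum.inl 1)
          (fun j => Sum.inr j)) : Fin (k + 1 + 1) → Fin 2 ⊕ Fin k))).2
        convert h1 using 1
        ext w
        have h5 : (fun x : Fin k → K => f (Fin.cons (w 0) (Fin.cons (w 1) x))) =
            fun x => f (Sum.elim w x ∘ (Fin.cons (Sum.inl 0) (Fin.cons (Sum.inl 1)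
              (fun j => Sum.inr j)) : Fin (k + 1 + 1) → Fin 2 ⊕ Fin k)) := by
          ext x
          congr 1
          ext i
          refine Fin.cases ?_ (fun j => Fin.cases ?_ (fun l => ?_) j) i <;> rfl
        show EI k (fun x : Fin k → K => f (Fin.cons (w 0) (Fin.cons (w 1) x))) = _
        rw [h5]
      have h3 := h2 g hgc
      have h4 : EI (k + 1 + 1) f = IC (fun t => IC (fun s => g ![t, s])) := rfl
      rw [h4, h3]
      show IC (fun t => IC (fun s => EI k (fun x => f (Fin.cons t (Fin.cons s x) ∘ _)))) = _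
      congr 1
      ext t
      congr 1
      ext s
      rw [hg]
      show _ = EI k (fun x => f (Fin.cons s (Fin.cons t x)))
      congr 1
      ext x
      congr 1
      ext i
      have h01 : (0 : Fin (k + 1)).castSucc = (0 : Fin (k + 2)) := rfl
      have h11 : (0 : Fin (k + 1)).succ = (1 : Fin (k + 2)) := rfl
      rw [h01, h11, Function.comp_apply]
      refine Fin.cases ?_ (fun j => Fin.cases ?_ (fun l => ?_) j) i
      · rw [Equiv.swap_apply_left]
        rfl
      · have : (Fin.succ 0 : Fin (k + 2)) = 1 := rfl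
        rw [this, Equiv.swap_apply_right]
        rfl
      · rw [Equiv.swap_apply_of_ne_of_ne]
        · rfl
        · exact Fin.succ_ne_zero _
        · intro h
          have : (Fin.succ 0 : Fin (k + 2)) = 1 := rfl
          rw [← this] at h
          exact Fin.succ_ne_zero _ (Fin.succ_injective _ h)
    · show IC (fun t => EI (k + 1) (fun x => f (Fin.cons t x ∘ _))) =
        IC (fun t => EI (k + 1) (fun x => f (Fin.cons t x)))
      congr 1
      ext t
      rw [← EI_adj h2 k j (fun x => f (Fin.cons t x)) (hf.cons t)]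
      congr 1
      ext x
      congr 1
      ext i
      rw [Function.comp_apply]
      have hs : (j.succ).castSucc = (j.castSucc).succ := rfl
      rw [hs]
      refine Fin.cases ?_ (fun l => ?_) i
      · rw [Equiv.swap_apply_of_ne_of_ne]
        · rfl
        · exact (Fin.succ_ne_zero _).symm
        · exact (Fin.succ_ne_zero _).symm
      · rw [Fin.cons_succ, Function.comp_apply]
        by_cases h1 : l = j.castSucc
        · rw [h1, Equiv.swap_apply_left, Equiv.swap_apply_left, Fin.cons_succ]
        · by_cases h2 : l = j.succ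
          · rw [h2, Equiv.swap_apply_right, Equiv.swap_apply_right, Fin.cons_succ]
          · rw [Equiv.swap_apply_of_ne_of_ne h1 h2, Equiv.swap_apply_of_ne_of_ne, Fin.cons_succ]
            · exact fun h => h1 (Fin.succ_injective _ h)
            · exact fun h => h2 (Fin.succ_injective _ h)

/-- Invariance under permutations of the coordinates. -/
theorem EI_perm [IsAlgClosed K] (h2 : Swap2 K) {k : ℕ} {f : (Fin k → K) → ℤ} (hf : CF f)
    (σ : Equiv.Perm (Fin k)) : EI k (fun x => f (x ∘ σ)) = EI k f := by
  cases k with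
  | zero =>
    congr 1
    ext x
    congr 1
    ext i
    exact i.elim0
  | succ k =>
    have hmem : σ ∈ Submonoid.closure (Set.range fun i : Fin k => Equiv.swap i.castSucc i.succ) := by
      rw [Equiv.Perm.mclosure_swap_castSucc_succ]
      trivial
    induction hmem using Submonoid.closure_induction generalizing f with
    | mem x hx =>
      obtain ⟨i, rfl⟩ := hx
      exact EI_adj h2 k i f hf
    | one => rfl
    | mul a b _ _ iha ihb =>
      have h3 := iha (hf.reindex b)
      rw [ihb hf] at h3
      exact h3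

/-- The Euler integral over `K ^ ι`. -/
noncomputable def E {ι : Type*} [Fintype ι] (f : (ι → K) → ℤ) : ℤ :=
  EI (Fintype.card ι) (fun x => f (x ∘ Fintype.equivFin ι))

theorem E_eq [IsAlgClosed K] (h2 : Swap2 K) {ι : Type*} [Fintype ι] {k : ℕ} (e : ι ≃ Fin k)
    {f : (ι → K) → ℤ} (hf : CF f) : E f = EI k (fun x => f (x ∘ e)) := by
  obtain rfl : k = Fintype.card ι := by
    rw [Fintype.card_congr e, Fintype.card_fin]
  unfold E
  have h3 := EI_perm h2 (hf.reindex (Fintype.equivFin ι)) ((Fintype.equivFin ι).symm.trans e)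
  rw [← h3]
  congr 1
  ext x
  congr 1
  ext i
  simp

theorem E_fin [IsAlgClosed K] (h2 : Swap2 K) {k : ℕ} {f : (Fin k → K) → ℤ} (hf : CF f) :
    E f = EI k f := E_eq h2 (Equiv.refl _) hf

/-- Invariance under renaming of the coordinates. -/
theorem E_equiv [IsAlgClosed K] (h2 : Swap2 K) {ι κ : Type*} [Fintype ι] [Fintype κ] (e : ι ≃ κ)
    {f : (ι → K) → ℤ} (hf : CF f) : E (fun x : κ → K => f (x ∘ e)) = E f := by
  rw [E_eq h2 (e.trans (Fintype.equivFin κ)) hf, E_eq h2 (Fintype.equivFin κ) (hf.reindex e)]
  rfl

theorem EI_sumFin [IsAlgClosed K] (h2 : Swap2 K) : ∀ (k l n : ℕ) (e : Fin k ⊕ Fin l ≃ Fin n)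
    (f : (Fin k ⊕ Fin l → K) → ℤ), CF f →
    EI n (fun x => f (x ∘ e)) = EI k (fun y => EI l (fun z => f (Sum.elim y z)))
  | 0, l, n, e, f, hf => by
    obtain rfl : n = l := by
      have := Fintype.card_congr e
      simpa using this.symm
    have h3 := EI_perm h2 (hf.reindex e) ((Equiv.emptySum (Fin 0) (Fin n)).symm.trans e).symm
    rw [← h3]
    rw [EI_zero]
    congr 1
    ext x
    congr 1
    ext i
    rcases i with i | i
    · exact i.elim0
    · simp
  | k + 1, l, n, e, f, hf => by
    obtain ⟨m, rfl⟩ : ∃ m, n = m + 1 := by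
      have := Fintype.card_congr e
      simp at this
      exact ⟨k + l, by omega⟩
    have hcard : Fintype.card (Fin k ⊕ Fin l) = Fintype.card (Fin m) := by
      have := Fintype.card_congr e
      simp at this ⊢
      omega
    set e2 : Fin k ⊕ Fin l ≃ Fin m := Fintype.equivOfCardEq hcard with he2
    -- the special equivalence
    set e1 : Fin (k + 1) ⊕ Fin l → Fin (m + 1) := Sum.elim (Fin.cons 0 (fun i => (e2 (Sum.inl i)).succ))
      (fun j => (e2 (Sum.inr j)).succ) with he1
    have hinj : Function.Injective e1 := by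
      intro a b hab
      rcases a with a | a <;> rcases b with b | b
      · revert hab
        refine Fin.cases ?_ (fun i => ?_) a <;> refine Fin.cases ?_ (fun j => ?_) b
        · intro; rfl
        · intro hab
          exact absurd hab.symm (Fin.succ_ne_zero _)
        · intro hab
          exact absurd hab (Fin.succ_ne_zero _)
        · intro hab
          have h3 : (e2 (Sum.inl i)).succ = (e2 (Sum.inl j)).succ := hab
          have h4 := e2.injective (Fin.succ_injective _ h3)
          rw [Sum.inl.inj h4]
      · revert hab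
        refine Fin.cases ?_ (fun i => ?_) a
        · intro hab
          exact absurd hab.symm (Fin.succ_ne_zero _)
        · intro hab
          have h3 : (e2 (Sum.inl i)).succ = (e2 (Sum.inr b)).succ := hab
          have h4 := e2.injective (Fin.succ_injective _ h3)
          exact absurd h4 (by simp)
      · revert hab
        refine Fin.cases ?_ (fun i => ?_) b
        · intro hab
          exact absurd hab (Fin.succ_ne_zero _)
        · intro hab
          have h3 : (e2 (Sum.inr a)).succ = (e2 (Sum.inl i)).succ := hab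
          have h4 := e2.injective (Fin.succ_injective _ h3)
          exact absurd h4 (by simp)
      · have h3 : (e2 (Sum.inr a)).succ = (e2 (Sum.inr b)).succ := hab
        have h4 := e2.injective (Fin.succ_injective _ h3)
        rw [Sum.inr.inj h4]
    have hbij : Function.Bijective e1 := by
      refine (Fintype.bijective_iff_injective_and_card e1).2 ⟨hinj, ?_⟩
      have := Fintype.card_congr e
      simpa using this
    set e3 : Fin (k + 1) ⊕ Fin l ≃ Fin (m + 1) := Equiv.ofBijective e1 hbij with he3
    have h3 := EI_perm h2 (hf.reindex e3) (e3.symm.trans e)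
    have h4 : (fun x : Fin (m + 1) → K => f ((x ∘ (e3.symm.trans e)) ∘ e3)) =
        fun x => f (x ∘ e) := by
      ext x
      congr 1
      ext i
      simp
    rw [h4] at h3
    rw [h3]
    show IC (fun t => EI m (fun x => f (Fin.cons t x ∘ e3))) =
      IC (fun t => EI k (fun y => EI l (fun z => f (Sum.elim (Fin.cons t y) z))))
    congr 1
    ext t
    have hft : CF (fun w : Fin k ⊕ Fin l → K =>
        f (Sum.elim (Fin.cons t (w ∘ Sum.inl)) (w ∘ Sum.inr))) := by
      have h5 := hf.preimage (Sum.elim (Fin.cons (C t) (fun i => X (Sum.inl i)))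
        (fun j => X (Sum.inr j)) : Fin (k + 1) ⊕ Fin l → MvPolynomial (Fin k ⊕ Fin l) K)
      convert h5 using 1
      ext w
      congr 1
      ext i
      rcases i with i | i
      · refine Fin.cases ?_ (fun j => ?_) i <;> simp
      · simp
    have h6 := EI_sumFin h2 k l m e2 _ hft
    have h7 : (fun x : Fin m → K => f (Sum.elim (Fin.cons t ((x ∘ e2) ∘ Sum.inl))
        ((x ∘ e2) ∘ Sum.inr))) = fun x => f (Fin.cons t x ∘ e3) := by
      ext x
      congr 1
      ext i
      rcases i with i | i
      · refine Fin.cases ?_ (fun j => ?_) i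
        · rfl
        · rfl
      · rfl
    rw [h7] at h6
    rw [h6]
    congr 1

/-- Fubini. -/
theorem E_sum [IsAlgClosed K] (h2 : Swap2 K) {ι κ : Type*} [Fintype ι] [Fintype κ]
    {f : (ι ⊕ κ → K) → ℤ} (hf : CF f) : E f = E (fun y => E (fun z => f (Sum.elim y z))) := by
  set e0 : Fin (Fintype.card ι) ⊕ Fin (Fintype.card κ) ≃ Fin (Fintype.card ι + Fintype.card κ) :=
    finSumFinEquiv
  have h3 := E_eq h2 (((Fintype.equivFin ι).sumCongr (Fintype.equivFin κ)).trans e0) hf
  have h4 := EI_sumFin h2 _ _ _ e0 (fun w => f (w ∘ ((Fintype.equivFin ι).sumCongr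
    (Fintype.equivFin κ)))) (hf.reindex _)
  rw [h3]
  refine Eq.trans ?_ (h4.trans ?_)
  · rfl
  · unfold E
    congr 1
    ext y
    congr 1
    ext z
    congr 1
    ext i
    rcases i with i | i <;> rfl

lemma CF.E [IsAlgClosed K] {ι κ : Type*} [Fintype ι] [Fintype κ]
    {f : (ι ⊕ κ → K) → ℤ} (hf : CF f) : CF (fun y => EC.E (fun z => f (Sum.elim y z))) := by
  have h1 := (CF.int (Fintype.card κ) (hf.reindex (Sum.map id (Fintype.equivFin κ)))).2
  have h3 : ∀ y : ι → K, (fun x : Fin (Fintype.card κ) → K =>
      f (Sum.elim y (x ∘ Fintype.equivFin κ))) =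
      fun x => f (Sum.elim y x ∘ Sum.map id (Fintype.equivFin κ)) := by
    intro y
    ext x
    congr 1
    ext i
    rcases i with i | i <;> rfl
  unfold EC.E
  simp only [h3]
  exact h1

/-- Fubini in the other order. -/
theorem E_sum' [IsAlgClosed K] (h2 : Swap2 K) {ι κ : Type*} [Fintype ι] [Fintype κ]
    {f : (ι ⊕ κ → K) → ℤ} (hf : CF f) : E f = E (fun z => E (fun y => f (Sum.elim y z))) := by
  have h3 := E_equiv h2 (Equiv.sumComm ι κ) hf
  rw [← h3, E_sum h2 (hf.reindex (Equiv.sumComm ι κ))]
  have h4 : ∀ z : κ → K, (fun y : ι → K => f (Sum.elim z y ∘ Equiv.sumComm ι κ)) =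
      fun y => f (Sum.elim y z) := by
    intro z
    ext y
    congr 1
    ext i
    rcases i with i | i <;> rfl
  simp only [h4]

end EC
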