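import Pool.Agent.EC.Line

/-!
# Constructible functions on affine space, integration along the line
-/

namespace EC

open MvPolynomial Topology Classical

variable {K : Type*} [Field K] {ι κ : Type*}

/-- Constructible functions. -/
def CF (f : (ι → K) → ℤ) : Prop := (Set.range f).Finite ∧ ∀ a, Cons {x | f x = a}

lemma CF.comp₂ {f g : (ι → K) → ℤ} (hf : CF f) (hg : CF g) (φ : ℤ → ℤ → ℤ) :
    CF (fun x => φ (f x) (g x)) := by
  refine ⟨((hf.1.prod hg.1).image (fun p => φ p.1 p.2)).subset ?_, fun a => ?_⟩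
  · rintro _ ⟨x, rfl⟩
    exact ⟨(f x, g x), ⟨⟨x, rfl⟩, ⟨x, rfl⟩⟩, rfl⟩
  · have h1 : {x | φ (f x) (g x) = a} = ⋃ p ∈ ((hf.1.prod hg.1).toFinset.filter
        (fun p => φ p.1 p.2 = a)), ({x | f x = p.1} ∩ {x | g x = p.2}) := by
      ext x
      simp only [Set.mem_setOf_eq, Set.mem_iUnion, Finset.mem_filter, Set.Finite.mem_toFinset,
        Set.mem_prod, Set.mem_inter_iff, exists_prop, Prod.exists]
      constructor
      · intro h
        exact ⟨f x, g x, ⟨⟨⟨x, rfl⟩, ⟨x, rfl⟩⟩, h⟩, rfl, rfl⟩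
      · rintro ⟨b, c, ⟨_, h2⟩, h3, h4⟩
        rw [h3, h4, h2]
    rw [h1]
    exact Cons.biUnion _ fun p _ => (hf.2 _).inter (hg.2 _)

lemma CF.const (c : ℤ) : CF (fun _ : ι → K => c) := by
  refine ⟨(Set.finite_singleton c).subset (by rintro _ ⟨x, rfl⟩; rfl), fun a => ?_⟩
  by_cases h : c = a
  · simpa [h] using Cons.univ
  · simpa [h] using Cons.empty

lemma CF.comp₁ {f : (ι → K) → ℤ} (hf : CF f) (φ : ℤ → ℤ) : CF (fun x => φ (f x)) :=
  hf.comp₂ (CF.const 0) (fun a _ => φ a)

lemma CF.sum {α : Type*} (s : Finset α) {f : α → (ι → K) → ℤ} (h : ∀ a ∈ s, CF (f a)) :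
    CF (fun x => ∑ a ∈ s, f a x) := by
  induction s using Finset.induction_on with
  | empty => simpa using CF.const 0
  | insert a s ha ih =>
    simp only [Finset.sum_insert ha]
    exact (h a (Finset.mem_insert_self a s)).comp₂
      (ih fun b hb => h b (Finset.mem_insert_of_mem hb)) (fun x y => x + y)

lemma CF.of_cons {S : Set (ι → K)} (hS : Cons S) : CF (ind S) := by
  refine ⟨((Set.finite_singleton 1).union (Set.finite_singleton 0)).subset ?_, fun a => ?_⟩
  · rintro _ ⟨x, rfl⟩
    unfold ind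
    by_cases h : x ∈ S <;> simp [h]
  · by_cases h1 : a = 1
    · have : {x | ind S x = a} = S := by
        ext x
        simp [ind, h1]
      rw [this]
      exact hS
    · by_cases h0 : a = 0
      · have : {x | ind S x = a} = Sᶜ := by
          ext x
          simp [ind, h0]
        rw [this]
        exact hS.compl
      · have : {x | ind S x = a} = ∅ := by
          ext x
          by_cases h : x ∈ S <;> simp [ind, h, Ne.symm h1, Ne.symm h0]
        rw [this]
        exact Cons.empty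

lemma CF.preimage {f : (κ → K) → ℤ} (hf : CF f) (φ : κ → MvPolynomial ι K) :
    CF (fun x : ι → K => f (fun k => eval x (φ k))) :=
  ⟨hf.1.subset (by rintro _ ⟨x, rfl⟩; exact ⟨_, rfl⟩), fun a => (hf.2 a).preimage φ⟩

lemma CF.reindex {f : (κ → K) → ℤ} (hf : CF f) (e : κ → ι) : CF (fun x : ι → K => f (x ∘ e)) :=
  ⟨hf.1.subset (by rintro _ ⟨x, rfl⟩; exact ⟨_, rfl⟩), fun a => (hf.2 a).reindex e⟩

/-- Induction principle for constructible sets. -/
lemma Cons.induct {P : Set (ι → K) → Prop} (h0 : ∀ p : MvPolynomial ι K, P {x | eval x p = 0})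
    (hc : ∀ S, P S → P Sᶜ) (hu : ∀ S T, P S → P T → P (S ∪ T)) {S : Set (ι → K)} (hS : Cons S) :
    P S := by
  have he : P ∅ := by
    have := hc _ (h0 0)
    simpa using this
  have hi : ∀ S T, P S → P T → P (S ∩ T) := by
    intro S T h1 h2
    have := hc _ (hu _ _ (hc _ h1) (hc _ h2))
    rwa [Set.compl_union, compl_compl, compl_compl] at this
  obtain ⟨Z, hZ, h1⟩ := hS
  obtain ⟨D, rfl⟩ := PrimeSpectrum.exists_constructibleSetData_iff.2 hZ
  have h2 : S = ⋃ C ∈ D, ((⋂ i : Fin C.n, {x | eval x (C.g i) = 0}) ∩ {x | eval x C.f = 0}ᶜ) := by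
    ext x
    rw [h1]
    unfold PrimeSpectrum.ConstructibleSetData.toSet
    simp only [Set.mem_iUnion, exists_prop, Set.mem_inter_iff, Set.mem_iInter, Set.mem_setOf_eq,
      Set.mem_compl_iff]
    refine exists_congr fun C => and_congr_right fun _ => ?_
    unfold PrimeSpectrum.BasicConstructibleSetData.toSet
    rw [Set.mem_diff, PrimeSpectrum.mem_zeroLocus, PrimeSpectrum.mem_zeroLocus,
      Set.range_subset_iff, Set.singleton_subset_iff]
    refine and_congr (forall_congr' fun i => mem_pt) (not_congr mem_pt)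
  rw [h2]
  have h3 : ∀ (n : ℕ) (g : Fin n → MvPolynomial ι K), P (⋂ i, {x | eval x (g i) = 0}) := by
    intro n
    induction n with
    | zero =>
      intro g
      have := hc _ he
      simpa using this
    | succ n ih =>
      intro g
      have h4 : (⋂ i, {x | eval x (g i) = 0}) =
          {x | eval x (g 0) = 0} ∩ ⋂ i : Fin n, {x | eval x (g i.succ) = 0} := by
        ext x
        simp only [Set.mem_iInter, Set.mem_inter_iff, Set.mem_setOf_eq]
        exact Fin.forall_fin_succ
      rw [h4]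
      exact hi _ _ (h0 _) (ih _)
  clear h2 h1 hZ
  induction D using Finset.induction_on with
  | empty => simpa using he
  | insert C D _ ih =>
    rw [Finset.set_biUnion_insert]
    exact hu _ _ (hi _ _ (h3 _ _) (hc _ (h0 _))) ih

/-- The fibre over `y` of a set in `K^ι × K`. -/
def fib (S : Set (ι ⊕ Fin 1 → K)) (y : ι → K) : Set K := {t | Sum.elim y (fun _ => t) ∈ S}

lemma fib_compl (S : Set (ι ⊕ Fin 1 → K)) (y : ι → K) : fib Sᶜ y = (fib S y)ᶜ := rfl

/-- Uniform bound for the fibres. -/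
lemma Cons.bound {S : Set (ι ⊕ Fin 1 → K)} (hS : Cons S) : ∃ B : ℕ, ∀ y : ι → K,
    ∃ F : Finset K, F.card ≤ B ∧ ∀ t ∉ F, ∀ t' ∉ F, (t ∈ fib S y ↔ t' ∈ fib S y) := by
  refine Cons.induct (P := fun S => ∃ B : ℕ, ∀ y : ι → K,
    ∃ F : Finset K, F.card ≤ B ∧ ∀ t ∉ F, ∀ t' ∉ F, (t ∈ fib S y ↔ t' ∈ fib S y)) ?_ ?_ ?_ hS
  · intro p
    refine ⟨p.totalDegree, fun y => ?_⟩
    -- the polynomial in one variable
    set q : Polynomial K := aeval (Sum.elim (fun i => Polynomial.C (y i)) (fun _ => Polynomial.X)) p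
      with hq
    have hev : ∀ t, q.eval t = eval (Sum.elim y (fun _ => t)) p := by
      intro t
      have h1 : q.eval t = (Polynomial.evalRingHom t).comp (aeval (Sum.elim
        (fun i => Polynomial.C (y i)) (fun _ => Polynomial.X)) :
          MvPolynomial (ι ⊕ Fin 1) K →ₐ[K] Polynomial K).toRingHom p := rfl
      rw [h1]
      congr 1
      apply MvPolynomial.ringHom_ext
      · intro a
        simp
      · rintro (i | i) <;> simp
    have hdeg : q.natDegree ≤ p.totalDegree := by
      rw [hq, aeval_def, eval₂_eq]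
      refine Polynomial.natDegree_sum_le_of_forall_le _ _ fun m hm => ?_
      refine le_trans Polynomial.natDegree_mul_le ?_
      have h2 : (algebraMap K (Polynomial K) (coeff m p)).natDegree = 0 :=
        Polynomial.natDegree_C _
      rw [h2, zero_add]
      refine le_trans (Polynomial.natDegree_prod_le _ _) ?_
      refine le_trans (Finset.sum_le_sum (g := fun i => m i) fun i _ => ?_) ?_
      · refine le_trans Polynomial.natDegree_pow_le ?_
        rcases i with i | i
        · simp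
        · simp
      · exact le_totalDegree hm
    by_cases hq0 : q = 0
    · refine ⟨∅, by simp, fun t _ t' _ => ?_⟩
      show eval _ p = 0 ↔ eval _ p = 0
      rw [← hev, ← hev, hq0]
      simp
    · refine ⟨q.roots.toFinset, ?_, fun t ht t' ht' => ?_⟩
      · refine le_trans (Multiset.toFinset_card_le _) (le_trans (Polynomial.card_roots' q) hdeg)
      · show eval _ p = 0 ↔ eval _ p = 0
        rw [← hev, ← hev]
        rw [Multiset.mem_toFinset, Polynomial.mem_roots hq0, Polynomial.IsRoot.def] at ht ht'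
        simp [ht, ht']
  · rintro S ⟨B, h⟩
    refine ⟨B, fun y => ?_⟩
    obtain ⟨F, h1, h2⟩ := h y
    refine ⟨F, h1, fun t ht t' ht' => ?_⟩
    rw [fib_compl]
    exact not_congr (h2 t ht t' ht')
  · rintro S T ⟨B, h⟩ ⟨B', h'⟩
    refine ⟨B + B', fun y => ?_⟩
    obtain ⟨F, h1, h2⟩ := h y
    obtain ⟨F', h1', h2'⟩ := h' y
    refine ⟨F ∪ F', le_trans (Finset.card_union_le _ _) (by omega), fun t ht t' ht' => ?_⟩
    rw [Finset.mem_union, not_or] at ht ht'
    exact or_congr (h2 t ht.1 t' ht'.1) (h2' t ht.2 t' ht'.2)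

/-- At least `j` points in the fibre. -/
def GE (j : ℕ) (S : Set (ι ⊕ Fin 1 → K)) : Set (ι → K) :=
  {y | ∃ z : Fin j → K, Function.Injective z ∧ ∀ i, z i ∈ fib S y}

lemma Cons.ge [IsAlgClosed K] [Finite ι] {S : Set (ι ⊕ Fin 1 → K)} (hS : Cons S) (j : ℕ) :
    Cons (GE j S) := by
  have h1 : Cons ({w : ι ⊕ Fin j → K | ∀ i : Fin j, w ∘ Sum.map id (fun _ : Fin 1 => i) ∈ S} ∩
      {w : ι ⊕ Fin j → K | ∀ i i' : Fin j, i ≠ i' → w (Sum.inr i) ≠ w (Sum.inr i')}) := by
    refine Cons.inter ?_ ?_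
    · have : {w : ι ⊕ Fin j → K | ∀ i : Fin j, w ∘ Sum.map id (fun _ : Fin 1 => i) ∈ S} =
        ⋂ i : Fin j, {w : ι ⊕ Fin j → K | w ∘ Sum.map id (fun _ : Fin 1 => i) ∈ S} := by
        ext w; simp
      rw [this]
      exact Cons.iInter fun i => hS.reindex _
    · have : {w : ι ⊕ Fin j → K | ∀ i i' : Fin j, i ≠ i' → w (Sum.inr i) ≠ w (Sum.inr i')} =
        ⋂ i : Fin j, ⋂ i' : Fin j, {w : ι ⊕ Fin j → K | i ≠ i' → w (Sum.inr i) ≠ w (Sum.inr i')} := by
        ext w; simp
      rw [this]
      refine Cons.iInter fun i => Cons.iInter fun i' => ?_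
      by_cases h : i = i'
      · simpa [h] using Cons.univ
      · have h2 := (Cons.eq_coord (K := K) (Sum.inr i : ι ⊕ Fin j) (Sum.inr i')).compl
        convert h2 using 1
        ext w
        simp [h]
  have h2 := h1.proj
  convert h2 using 1
  ext y
  unfold GE fib
  simp only [Set.mem_setOf_eq, Set.mem_inter_iff]
  refine exists_congr fun z => ?_
  have h3 : ∀ i, (Sum.elim y z ∘ Sum.map id (fun _ : Fin 1 => i) : ι ⊕ Fin 1 → K) =
      Sum.elim y (fun _ => z i) := by
    intro i
    ext a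
    rcases a with a | a <;> rfl
  constructor
  · rintro ⟨h4, h5⟩
    refine ⟨fun i => ?_, fun i i' hne => ?_⟩
    · rw [h3]
      exact h5 i
    · exact fun h => hne (h4 h)
  · rintro ⟨h4, h5⟩
    refine ⟨fun i i' h => ?_, fun i => ?_⟩
    · by_contra hne
      exact h5 i i' hne h
    · rw [← h3]
      exact h4 i

lemma mem_ge_iff {S : Set (ι ⊕ Fin 1 → K)} {y : ι → K} {j : ℕ} :
    y ∈ GE j S ↔ (fib S y).Infinite ∨ j ≤ (fib S y).ncard := by
  unfold GE
  constructor
  · rintro ⟨z, hz, h⟩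
    by_cases hf : (fib S y).Finite
    · right
      have h1 : (Set.range z).ncard = j := by
        rw [← Nat.card_coe_set_eq, Nat.card_range_of_injective hz, Nat.card_fin]
      rw [← h1]
      exact Set.ncard_le_ncard (by rintro _ ⟨i, rfl⟩; exact h i) hf
    · exact Or.inl hf
  · intro h
    obtain ⟨F, hF, hFc⟩ : ∃ F : Finset K, (F : Set K) ⊆ fib S y ∧ F.card = j := by
      rcases h with h | h
      · exact h.exists_subset_card_eq j
      · by_cases hf : (fib S y).Finite
        · rw [Set.ncard_eq_toFinset_card _ hf] at h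
          obtain ⟨F, hF, hFc⟩ := Finset.exists_subset_card_eq h
          exact ⟨F, fun t ht => hf.mem_toFinset.1 (hF ht), hFc⟩
        · exact Set.Infinite.exists_subset_card_eq hf j
    refine ⟨fun i => (F.equivFinOfCardEq hFc).symm i, ?_, fun i => ?_⟩
    · intro i i' h
      exact (F.equivFinOfCardEq hFc).symm.injective (Subtype.ext h)
    · exact hF ((F.equivFinOfCardEq hFc).symm i).2

end EC
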