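import Pool.Agent.EC.Bij

/-!
# Normalised frames and the Grassmannian
-/

namespace EC

open MvPolynomial Classical

variable {K : Type*} [Field K] {m r : ℕ}

/-! ### Linear subspaces -/

lemma linear_eval (f : (Fin m → K) →ₗ[K] K) : ∃ p : MvPolynomial (Fin m) K, ∀ x, eval x p = f x := by
  refine ⟨∑ i, C (f (Pi.single i 1)) * X i, fun x => ?_⟩
  rw [map_sum]
  have h1 := LinearMap.pi_apply_eq_sum_univ f x
  rw [h1]
  refine Finset.sum_congr rfl fun i _ => ?_
  simp only [map_mul, eval_C, eval_X, smul_eq_mul]
  rw [mul_comm]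
  congr 2
  ext j
  simp [Pi.single_apply, eq_comm]

lemma cons_submodule (L : Submodule K (Fin m → K)) : Cons {x : Fin m → K | x ∈ L} := by
  set b := Module.finBasis K ((Fin m → K) ⧸ L) with hb
  have h1 : {x : Fin m → K | x ∈ L} = ⋂ i, {x | (b.coord i).comp L.mkQ x = 0} := by
    ext x
    simp only [Set.mem_setOf_eq, Set.mem_iInter]
    constructor
    · intro hx i
      have : L.mkQ x = 0 := by
        rw [Submodule.mkQ_apply, Submodule.Quotient.mk_eq_zero]
        exact hx
      rw [LinearMap.comp_apply, this, map_zero]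
    · intro h
      have h2 : L.mkQ x = 0 := by
        apply b.ext_elem
        intro i
        have := h i
        rw [LinearMap.comp_apply, Module.Basis.coord_apply] at this
        rw [this]
        simp
      rw [Submodule.mkQ_apply, Submodule.Quotient.mk_eq_zero] at h2
      exact h2
  rw [h1]
  refine Cons.iInter fun i => ?_
  obtain ⟨p, hp⟩ := linear_eval ((b.coord i).comp L.mkQ)
  have := Cons.zero p
  simp only [hp] at this
  exact this

/-- The part of `L` in the hyperplane `x 0 = 0`, one coordinate less. -/
def lowS (L : Submodule K (Fin (m + 1) → K)) : Submodule K (Fin m → K) where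
  carrier := {x | (Fin.cons 0 x : Fin (m + 1) → K) ∈ L}
  add_mem' := by
    intro a b ha hb
    have h1 : (Fin.cons 0 (a + b) : Fin (m + 1) → K) = Fin.cons 0 a + Fin.cons 0 b := by
      ext i
      refine Fin.cases ?_ (fun j => ?_) i
      · simp
      · simp
    show (Fin.cons 0 (a + b) : Fin (m + 1) → K) ∈ L
    rw [h1]
    exact L.add_mem ha hb
  zero_mem' := by
    show (Fin.cons 0 (0 : Fin m → K) : Fin (m + 1) → K) ∈ L
    have : (Fin.cons 0 (0 : Fin m → K) : Fin (m + 1) → K) = 0 := by
      ext i
      refine Fin.cases ?_ (fun j => ?_) i <;> simp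
    rw [this]
    exact L.zero_mem
  smul_mem' := by
    intro c a ha
    have h1 : (Fin.cons 0 (c • a) : Fin (m + 1) → K) = c • Fin.cons 0 a := by
      ext i
      refine Fin.cases ?_ (fun j => ?_) i <;> simp
    show (Fin.cons 0 (c • a) : Fin (m + 1) → K) ∈ L
    rw [h1]
    exact L.smul_mem c ha

lemma cons_sub_cons (s t : K) (x y : Fin m → K) :
    (Fin.cons s x : Fin (m + 1) → K) - Fin.cons t y = Fin.cons (s - t) (x - y) := by
  ext i
  refine Fin.cases ?_ (fun j => ?_) i <;> simp

/-- The Euler characteristic of an affine subspace. -/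
lemma EI_affine [Infinite K] : ∀ (m : ℕ) (L : Submodule K (Fin m → K)) (a : Fin m → K),
    EI m (ind {x | x - a ∈ L}) = 1
  | 0, L, a => by
    rw [EI_zero]
    refine if_pos ?_
    show Fin.elim0 - a ∈ L
    have : (Fin.elim0 - a : Fin 0 → K) = 0 := Subsingleton.elim _ _
    rw [this]
    exact L.zero_mem
  | m + 1, L, a => by
    rw [EI_succ]
    by_cases hL : ∃ v ∈ L, v 0 ≠ 0
    · obtain ⟨v, hv, hv0⟩ := hL
      have h1 : ∀ t, EI m (fun x => ind {x | x - a ∈ L} (Fin.cons t x : Fin (m + 1) → K)) = 1 := by
        intro t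
        set w : Fin (m + 1) → K := a + ((t - a 0) / v 0) • v with hw
        have hw0 : w 0 = t := by
          rw [hw]
          simp only [Pi.add_apply, Pi.smul_apply, smul_eq_mul]
          field_simp
          ring
        have hwa : w - a ∈ L := by
          rw [hw, add_sub_cancel_left]
          exact L.smul_mem _ hv
        have h2 : (fun x : Fin m → K => ind {x | x - a ∈ L} (Fin.cons t x : Fin (m + 1) → K)) =
            ind {x | x - Fin.tail w ∈ lowS L} := by
          ext x
          unfold ind
          congr 1
          apply propext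
          show Fin.cons t x - a ∈ L ↔ (Fin.cons 0 (x - Fin.tail w) : Fin (m + 1) → K) ∈ L
          have h3 : (Fin.cons t x - a : Fin (m + 1) → K) =
              Fin.cons 0 (x - Fin.tail w) + (w - a) := by
            have h4 : w = Fin.cons t (Fin.tail w) := by
              rw [← hw0]
              exact (Fin.cons_self_tail w).symm
            have h5 : (Fin.cons 0 (x - Fin.tail w) : Fin (m + 1) → K) =
                Fin.cons t x - w := by
              conv_rhs => rw [h4]
              rw [cons_sub_cons, sub_self]
            rw [h5]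
            abel
          rw [h3]
          exact ⟨fun h => by simpa using L.sub_mem h hwa, fun h => L.add_mem h hwa⟩
        rw [h2]
        exact EI_affine m _ _
      simp only [h1]
      exact IC_const 1
    · push Not at hL
      have h1 : (fun t => EI m (fun x => ind {x | x - a ∈ L} (Fin.cons t x : Fin (m + 1) → K))) =
          ind {a 0} := by
        ext t
        by_cases ht : t = a 0
        · have h2 : (fun x : Fin m → K => ind {x | x - a ∈ L} (Fin.cons t x : Fin (m + 1) → K)) =
              ind {x | x - Fin.tail a ∈ lowS L} := by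
            ext x
            unfold ind
            congr 1
            apply propext
            show Fin.cons t x - a ∈ L ↔ (Fin.cons 0 (x - Fin.tail a) : Fin (m + 1) → K) ∈ L
            have h4 : a = Fin.cons (a 0) (Fin.tail a) := (Fin.cons_self_tail a).symm
            have h5 : (Fin.cons 0 (x - Fin.tail a) : Fin (m + 1) → K) = Fin.cons t x - a := by
              conv_rhs => rw [h4]
              rw [cons_sub_cons, ht, sub_self]
            rw [h5]
          rw [h2, EI_affine m]
          exact (if_pos ht).symm
        · have h2 : (fun x : Fin m → K => ind {x | x - a ∈ L} (Fin.cons t x : Fin (m + 1) → K)) =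
              fun _ => 0 := by
            ext x
            refine if_neg fun h => ht ?_
            have h3 := hL _ h
            have h4 : (Fin.cons t x - a : Fin (m + 1) → K) 0 = t - a 0 := rfl
            rw [h4] at h3
            exact sub_eq_zero.1 h3
          rw [h2, EI_const]
          exact (if_neg ht).symm
      rw [h1, IC_ind_finite (Set.finite_singleton _)]
      simp

/-! ### Pivots -/

/-- Vectors with first nonzero coordinate `1` at place `i`. -/
def NV (K : Type*) [Field K] (m : ℕ) (i : Fin m) : Set (Fin m → K) :=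
  {x | x i = 1 ∧ ∀ j < i, x j = 0}

/-- The pivots of a subspace. -/
noncomputable def piv (L : Submodule K (Fin m → K)) : Finset (Fin m) :=
  Finset.univ.filter fun i => ∃ x ∈ L, x ∈ NV K m i

lemma mem_piv {L : Submodule K (Fin m → K)} {i : Fin m} :
    i ∈ piv L ↔ ∃ x ∈ L, x ∈ NV K m i := by
  unfold piv
  simp

/-- A nonzero vector of `L` has a first nonzero coordinate, which is a pivot. -/
lemma exists_piv {L : Submodule K (Fin m → K)} {x : Fin m → K} (hx : x ∈ L) (h0 : x ≠ 0) :
    ∃ i ∈ piv L, x i ≠ 0 ∧ ∀ j < i, x j = 0 := by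
  have h1 : (Finset.univ.filter fun i => x i ≠ 0).Nonempty := by
    by_contra hc
    refine h0 (funext fun i => ?_)
    by_contra hi
    exact hc ⟨i, Finset.mem_filter.2 ⟨Finset.mem_univ _, hi⟩⟩
  set i := (Finset.univ.filter fun i => x i ≠ 0).min' h1 with hi
  have h2 : x i ≠ 0 := (Finset.mem_filter.1 (Finset.min'_mem _ h1)).2
  have h3 : ∀ j < i, x j = 0 := by
    intro j hj
    by_contra hc
    exact absurd (Finset.min'_le _ j (by simp [hc])) (not_le.2 hj)
  refine ⟨i, mem_piv.2 ⟨(x i)⁻¹ • x, L.smul_mem _ hx, ?_, ?_⟩, h2, h3⟩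
  · simp [h2]
  · intro j hj
    simp [h3 j hj]

/-- Vectors which are triangular with respect to distinct places are linearly independent. -/
lemma tri_indep {n : ℕ} {v : Fin n → Fin m → K} {p : Fin n → Fin m} (h1 : ∀ j, v j (p j) = 1)
    (h2 : ∀ j, ∀ l < j, v j (p l) = 0) : LinearIndependent K v := by
  rw [Fintype.linearIndependent_iff]
  intro c hc l
  induction l using WellFoundedLT.induction with
  | ind l ih =>
    have h3 := congrFun hc (p l)
    rw [Finset.sum_apply] at h3
    rw [Finset.sum_eq_single l] at h3
    · simpa [h1] using h3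
    · intro j _ hj
      rcases lt_or_gt_of_ne hj with h | h
      · rw [ih j h]
        simp
      · simp [h2 j l h]
    · intro h
      exact absurd (Finset.mem_univ l) h

/-- Restriction to the pivots. -/
def rho (L : Submodule K (Fin m → K)) : L →ₗ[K] (piv L → K) where
  toFun := fun x i => x.1 i.1
  map_add' := fun _ _ => rfl
  map_smul' := fun _ _ => rfl

lemma rho_inj (L : Submodule K (Fin m → K)) : Function.Injective (rho L) := by
  rw [← LinearMap.ker_eq_bot, LinearMap.ker_eq_bot']
  intro x hx
  by_contra hc
  obtain ⟨i, hi, h1, _⟩ := exists_piv x.2 (fun h => hc (Subtype.ext h))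
  exact h1 (congrFun hx ⟨i, hi⟩)

lemma card_piv (L : Submodule K (Fin m → K)) : (piv L).card = Module.finrank K L := by
  apply le_antisymm
  · -- independent vectors
    have h1 : ∀ j : Fin (piv L).card, ∃ x ∈ L, x ∈ NV K m ((piv L).orderEmbOfFin rfl j) :=
      fun j => mem_piv.1 (Finset.orderEmbOfFin_mem _ _ _)
    choose v hv hv' using h1
    have h2 : LinearIndependent K v :=
      tri_indep (p := fun j => (piv L).orderEmbOfFin rfl j) (fun j => (hv' _).1)
        (fun j l hl => (hv' j).2 _ (((piv L).orderEmbOfFin rfl).strictMono hl))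
    have h3 : LinearIndependent K (fun j : Fin (piv L).card => (⟨v j, hv _⟩ : L)) :=
      LinearIndependent.of_comp L.subtype h2
    simpa using h3.fintype_card_le_finrank
  · have := LinearMap.finrank_le_finrank_of_injective (rho_inj L)
    simpa using this

/-! ### Frames and reduced echelon matrices -/

/-- The rows of a matrix. -/
def row (q : Fin r × Fin m → K) (j : Fin r) : Fin m → K := fun i => q (j, i)

/-- The span of the rows. -/
def rspan (q : Fin r × Fin m → K) : Submodule K (Fin m → K) :=
  Submodule.span K (Set.range (row q))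

/-- Normalised frames: every row has first nonzero entry `1` (the pivot) and vanishes at the pivots
of the earlier rows. -/
def Fr (K : Type*) [Field K] (r m : ℕ) : Set (Fin r × Fin m → K) :=
  {q | ∃ p : Fin r → Fin m, ∀ j, q (j, p j) = 1 ∧ (∀ i < p j, q (j, i) = 0) ∧
    ∀ l < j, q (j, p l) = 0}

/-- Reduced echelon matrices of rank `r`. -/
def RE (K : Type*) [Field K] (r m : ℕ) : Set (Fin r × Fin m → K) :=
  {q | ∃ p : Fin r → Fin m, StrictMono p ∧ ∀ j, q (j, p j) = 1 ∧ (∀ i < p j, q (j, i) = 0) ∧
    ∀ l, l ≠ j → q (j, p l) = 0}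

lemma RE_subset_Fr : RE K r m ⊆ Fr K r m := by
  rintro q ⟨p, _, h⟩
  exact ⟨p, fun j => ⟨(h j).1, (h j).2.1, fun l hl => (h j).2.2 l hl.ne⟩⟩

lemma indep_of_Fr {q : Fin r × Fin m → K} (hq : q ∈ Fr K r m) : LinearIndependent K (row q) := by
  obtain ⟨p, h⟩ := hq
  exact tri_indep (p := p) (fun j => (h j).1) (fun j l hl => (h j).2.2 l hl)

lemma finrank_rspan {q : Fin r × Fin m → K} (hq : q ∈ Fr K r m) :
    Module.finrank K (rspan q) = r := by
  unfold rspan
  rw [finrank_span_eq_card (indep_of_Fr hq), Fintype.card_fin]

lemma rspan_eq_iff {q : Fin r × Fin m → K} (hq : q ∈ Fr K r m) {L : Submodule K (Fin m → K)}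
    (hL : Module.finrank K L = r) : rspan q = L ↔ ∀ j, row q j ∈ L := by
  constructor
  · intro h j
    rw [← h]
    exact Submodule.subset_span ⟨j, rfl⟩
  · intro h
    refine Submodule.eq_of_le_of_finrank_eq ?_ ?_
    · unfold rspan
      rw [Submodule.span_le]
      rintro _ ⟨j, rfl⟩
      exact h j
    · rw [finrank_rspan hq, hL]

/-- Every `r`-dimensional subspace has a unique reduced echelon basis. -/
theorem RE_unique {L : Submodule K (Fin m → K)} (hL : Module.finrank K L = r) :
    ∃! A : Fin r × Fin m → K, A ∈ RE K r m ∧ rspan A = L := by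
  have hcard : (piv L).card = r := by rw [card_piv, hL]
  set p : Fin r ↪o Fin m := (piv L).orderEmbOfFin hcard with hp
  have hpm : ∀ j, p j ∈ piv L := fun j => Finset.orderEmbOfFin_mem _ _ _
  have hps : ∀ i ∈ piv L, ∃ j, p j = i := by
    intro i hi
    have h1 := Finset.range_orderEmbOfFin (piv L) hcard
    have : i ∈ Set.range ((piv L).orderEmbOfFin hcard) := by
      rw [h1]
      exact hi
    exact this
  have hfin : Module.finrank K L = Module.finrank K (piv L → K) := by
    rw [Module.finrank_fintype_fun_eq_card, Fintype.card_coe, card_piv]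
  set e : L ≃ₗ[K] (piv L → K) := LinearEquiv.ofInjectiveOfFinrankEq (rho L) (rho_inj L) hfin with he
  have hex : ∀ x, e x = rho L x := fun x => rfl
  set b : Fin r → L := fun j => e.symm (Pi.single ⟨p j, hpm j⟩ 1) with hb
  have hbj : ∀ j i (hi : i ∈ piv L), (b j).1 i = if i = p j then 1 else 0 := by
    intro j i hi
    have h1 : rho L (b j) = Pi.single ⟨p j, hpm j⟩ 1 := by
      rw [← hex, hb]
      exact e.apply_symm_apply _
    have h2 := congrFun h1 ⟨i, hi⟩
    rw [Pi.single_apply] at h2
    have h3 : rho L (b j) ⟨i, hi⟩ = (b j).1 i := rfl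
    rw [h3] at h2
    rw [h2]
    congr 1
    simp
  refine ⟨fun ji => (b ji.1).1 ji.2, ⟨?_, ?_⟩, ?_⟩
  · refine ⟨p, p.strictMono, fun j => ⟨?_, ?_, ?_⟩⟩
    · show (b j).1 (p j) = 1
      rw [hbj j _ (hpm j), if_pos rfl]
    · have hne : (b j).1 ≠ 0 := by
        intro h
        have := hbj j _ (hpm j)
        rw [h, if_pos rfl] at this
        exact zero_ne_one this
      obtain ⟨i, hi, h1, h2⟩ := exists_piv (b j).2 hne
      have h3 := hbj j i hi
      by_cases h4 : i = p j
      · rw [← h4]
        exact h2
      · rw [if_neg h4] at h3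
        exact absurd h3 h1
    · intro l hl
      show (b j).1 (p l) = 0
      rw [hbj j _ (hpm l), if_neg (fun h => hl (p.injective h))]
  · rw [rspan_eq_iff _ hL]
    · intro j
      exact (b j).2
    · refine ⟨p, fun j => ⟨?_, ?_, ?_⟩⟩
      · show (b j).1 (p j) = 1
        rw [hbj j _ (hpm j), if_pos rfl]
      · have hne : (b j).1 ≠ 0 := by
          intro h
          have := hbj j _ (hpm j)
          rw [h, if_pos rfl] at this
          exact zero_ne_one this
        obtain ⟨i, hi, h1, h2⟩ := exists_piv (b j).2 hne
        have h3 := hbj j i hi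
        by_cases h4 : i = p j
        · rw [← h4]
          exact h2
        · rw [if_neg h4] at h3
          exact absurd h3 h1
      · intro l hl
        show (b j).1 (p l) = 0
        rw [hbj j _ (hpm l), if_neg (fun h => hl.ne (p.injective h))]
  · rintro A ⟨hA, hAL⟩
    have hAF := RE_subset_Fr hA
    have hrow := (rspan_eq_iff hAF hL).1 hAL
    obtain ⟨p', hp', h⟩ := hA
    have h1 : ∀ j, p' j ∈ piv L := fun j => mem_piv.2 ⟨row A j, hrow j, (h j).1, (h j).2.1⟩
    have h2 : p' = p := by
      have := Finset.orderEmbOfFin_unique hcard h1 hp'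
      rw [this]
    ext ⟨j, i⟩
    have h3 : (⟨row A j, hrow j⟩ : L) = b j := by
      apply rho_inj L
      ext ⟨i, hi⟩
      have h4 : rho L (b j) ⟨i, hi⟩ = (b j).1 i := rfl
      rw [h4, hbj j i hi]
      show A (j, i) = _
      obtain ⟨l, rfl⟩ := hps i hi
      by_cases h5 : l = j
      · rw [h5, if_pos rfl, ← h2]
        exact (h j).1
      · rw [if_neg (fun h6 => h5 (p.injective h6)), ← h2]
        exact (h j).2.2 l h5
    have h4 := congrArg (fun x : L => x.1 i) h3
    exact h4

end EC
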