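import Pool.Agent.EC.Fun

/-!
# The iterated Euler integral and the Euler characteristic
-/

namespace EC

open MvPolynomial Topology Classical

variable {K : Type*}

/-- The iterated Euler integral over `K ^ k`; the first coordinate is the outermost one. -/
noncomputable def EI : (k : ℕ) → ((Fin k → K) → ℤ) → ℤ
  | 0, f => f Fin.elim0
  | k + 1, f => IC (fun t => EI k (fun x => f (Fin.cons t x)))

/-- The Euler characteristic of a subset of `K ^ k`. -/
noncomputable def chi (k : ℕ) (S : Set (Fin k → K)) : ℤ := EI k (ind S)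

/-- All integrals in the iterated integral exist. -/
def Tame : (k : ℕ) → ((Fin k → K) → ℤ) → Prop
  | 0, _ => True
  | k + 1, f => (∀ t, Tame k (fun x => f (Fin.cons t x))) ∧
      TameL (fun t => EI k (fun x => f (Fin.cons t x)))

lemma EI_zero (f : (Fin 0 → K) → ℤ) : EI 0 f = f Fin.elim0 := rfl

lemma EI_succ (k : ℕ) (f : (Fin (k + 1) → K) → ℤ) :
    EI (k + 1) f = IC (fun t => EI k (fun x => f (Fin.cons t x))) := rfl

lemma tame_succ {k : ℕ} {f : (Fin (k + 1) → K) → ℤ} : Tame (k + 1) f ↔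
    (∀ t, Tame k (fun x => f (Fin.cons t x))) ∧ TameL (fun t => EI k (fun x => f (Fin.cons t x))) :=
  Iff.rfl

section
variable [Infinite K]

theorem Tame.add_and : ∀ {k : ℕ} {f g : (Fin k → K) → ℤ}, Tame k f → Tame k g →
    Tame k (fun x => f x + g x) ∧ EI k (fun x => f x + g x) = EI k f + EI k g
  | 0, f, g, _, _ => ⟨trivial, rfl⟩
  | k + 1, f, g, hf, hg => by
    have h1 : ∀ t, EI k (fun x => f (Fin.cons t x) + g (Fin.cons t x)) =
        EI k (fun x => f (Fin.cons t x)) + EI k (fun x => g (Fin.cons t x)) :=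
      fun t => (Tame.add_and (hf.1 t) (hg.1 t)).2
    refine ⟨⟨fun t => (Tame.add_and (hf.1 t) (hg.1 t)).1, ?_⟩, ?_⟩
    · simp only [h1]
      exact hf.2.add hg.2
    · rw [EI_succ, EI_succ, EI_succ]
      simp only [h1]
      exact IC_add hf.2 hg.2

theorem Tame.mul_and : ∀ {k : ℕ} {f : (Fin k → K) → ℤ} (c : ℤ), Tame k f →
    Tame k (fun x => c * f x) ∧ EI k (fun x => c * f x) = c * EI k f
  | 0, f, c, _ => ⟨trivial, rfl⟩
  | k + 1, f, c, hf => by
    have h1 : ∀ t, EI k (fun x => c * f (Fin.cons t x)) = c * EI k (fun x => f (Fin.cons t x)) :=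
      fun t => (Tame.mul_and c (hf.1 t)).2
    refine ⟨⟨fun t => (Tame.mul_and c (hf.1 t)).1, ?_⟩, ?_⟩
    · simp only [h1]
      exact hf.2.comp (fun a => c * a)
    · rw [EI_succ, EI_succ]
      simp only [h1]
      exact IC_mul hf.2 c

theorem tame_const_and : ∀ (k : ℕ) (c : ℤ),
    Tame k (fun _ : Fin k → K => c) ∧ EI k (fun _ : Fin k → K => c) = c
  | 0, c => ⟨trivial, rfl⟩
  | k + 1, c => by
    have h := tame_const_and k c
    refine ⟨⟨fun t => h.1, ?_⟩, ?_⟩
    · simp only [h.2]
      exact TameL.const c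
    · rw [EI_succ]
      simp only [h.2]
      exact IC_const c

theorem Tame.sum_and {α : Type*} {k : ℕ} (s : Finset α) {f : α → (Fin k → K) → ℤ}
    (h : ∀ a ∈ s, Tame k (f a)) :
    Tame k (fun x => ∑ a ∈ s, f a x) ∧ EI k (fun x => ∑ a ∈ s, f a x) = ∑ a ∈ s, EI k (f a) := by
  induction s using Finset.induction_on with
  | empty => simpa using tame_const_and (K := K) k 0
  | insert a s ha ih =>
    simp only [Finset.sum_insert ha]
    have h1 := ih fun b hb => h b (Finset.mem_insert_of_mem hb)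
    have h2 := Tame.add_and (h a (Finset.mem_insert_self a s)) h1.1
    exact ⟨h2.1, by rw [h2.2, h1.2]⟩

lemma EI_add {k : ℕ} {f g : (Fin k → K) → ℤ} (hf : Tame k f) (hg : Tame k g) :
    EI k (fun x => f x + g x) = EI k f + EI k g := (hf.add_and hg).2

lemma EI_mul {k : ℕ} {f : (Fin k → K) → ℤ} (c : ℤ) (hf : Tame k f) :
    EI k (fun x => c * f x) = c * EI k f := (hf.mul_and c).2

lemma EI_const (k : ℕ) (c : ℤ) : EI k (fun _ : Fin k → K => c) = c := (tame_const_and k c).2

lemma EI_sum {α : Type*} {k : ℕ} (s : Finset α) {f : α → (Fin k → K) → ℤ}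
    (h : ∀ a ∈ s, Tame k (f a)) :
    EI k (fun x => ∑ a ∈ s, f a x) = ∑ a ∈ s, EI k (f a) := (Tame.sum_and s h).2

end

variable [Field K] {ι κ : Type*}

/-- The integral along the line of the characteristic function of a constructible set. -/
lemma Cons.line [IsAlgClosed K] [Finite ι] {S : Set (ι ⊕ Fin 1 → K)} (hS : Cons S) :
    (∀ y : ι → K, TameL (fun t => ind S (Sum.elim y (fun _ => t)))) ∧
    CF (fun y : ι → K => IC (fun t => ind S (Sum.elim y (fun _ => t)))) := by
  have : Infinite K := IsAlgClosed.instInfinite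
  obtain ⟨B, hB⟩ := hS.bound
  have key : ∀ y : ι → K, ((fib S y).Finite ∧ (fib S y).ncard ≤ B) ∨
      ((fib S y)ᶜ.Finite ∧ (fib S y)ᶜ.ncard ≤ B) := by
    intro y
    obtain ⟨F, h1, h2⟩ := hB y
    obtain ⟨t, ht⟩ := Infinite.exists_notMem_finset F
    by_cases h3 : t ∈ fib S y
    · right
      have h4 : (fib S y)ᶜ ⊆ F := by
        intro t' ht'
        by_contra hc
        exact ht' ((h2 t ht t' hc).1 h3)
      refine ⟨F.finite_toSet.subset h4, le_trans (Set.ncard_le_ncard h4 F.finite_toSet) ?_⟩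
      rwa [Set.ncard_coe_finset]
    · left
      have h4 : fib S y ⊆ F := by
        intro t' ht'
        by_contra hc
        exact h3 ((h2 t ht t' hc).2 ht')
      refine ⟨F.finite_toSet.subset h4, le_trans (Set.ncard_le_ncard h4 F.finite_toSet) ?_⟩
      rwa [Set.ncard_coe_finset]
  have hind : ∀ y : ι → K, (fun t => ind S (Sum.elim y (fun _ => t))) = ind (fib S y) :=
    fun y => rfl
  refine ⟨fun y => ?_, ?_⟩
  · rw [hind]
    rcases key y with h | h
    · exact tameL_ind_finite h.1
    · exact tameL_ind_cofinite h.1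
  · have hval : ∀ y : ι → K, (∃ j ≤ B, (y ∈ GE j S ∧ y ∉ GE (j + 1) S) ∧
        IC (ind (fib S y)) = j) ∨ (∃ j ≤ B, (y ∈ GE j Sᶜ ∧ y ∉ GE (j + 1) Sᶜ) ∧
        IC (ind (fib S y)) = 1 - j) := by
      intro y
      rcases key y with h | h
      · left
        refine ⟨_, h.2, ⟨?_, ?_⟩, IC_ind_finite h.1⟩
        · rw [mem_ge_iff]
          exact Or.inr le_rfl
        · rw [mem_ge_iff]
          rintro (h3 | h3)
          · exact h3 h.1
          · omega
      · right
        refine ⟨_, h.2, ⟨?_, ?_⟩, IC_ind_cofinite h.1⟩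
        · rw [mem_ge_iff, fib_compl]
          exact Or.inr le_rfl
        · rw [mem_ge_iff, fib_compl]
          rintro (h3 | h3)
          · exact h3 h.1
          · omega
    have hv1 : ∀ (y : ι → K) (j : ℕ), y ∈ GE j S → y ∉ GE (j + 1) S → IC (ind (fib S y)) = j := by
      intro y j h1 h2
      rw [mem_ge_iff] at h1 h2
      push Not at h2
      have h3 : (fib S y).Finite := h2.1
      have h4 : j ≤ (fib S y).ncard := h1.resolve_left (fun h => h h3)
      rw [IC_ind_finite h3]
      have : (fib S y).ncard = j := by omega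
      rw [this]
    have hv2 : ∀ (y : ι → K) (j : ℕ), y ∈ GE j Sᶜ → y ∉ GE (j + 1) Sᶜ →
        IC (ind (fib S y)) = 1 - j := by
      intro y j h1 h2
      rw [mem_ge_iff, fib_compl] at h1 h2
      push Not at h2
      have h3 : (fib S y)ᶜ.Finite := h2.1
      have h4 : j ≤ (fib S y)ᶜ.ncard := h1.resolve_left (fun h => h h3)
      rw [IC_ind_cofinite h3]
      have : (fib S y)ᶜ.ncard = j := by omega
      rw [this]
    simp only [hind]
    refine ⟨?_, fun a => ?_⟩
    · refine ((Finset.range (B + 1)).finite_toSet.image (fun j : ℕ => (j : ℤ))).union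
        ((Finset.range (B + 1)).finite_toSet.image (fun j : ℕ => (1 - j : ℤ))) |>.subset ?_
      rintro _ ⟨y, rfl⟩
      rcases hval y with ⟨j, h1, -, h2⟩ | ⟨j, h1, -, h2⟩
      · exact Or.inl ⟨j, by simpa using (by omega : j < B + 1), h2.symm⟩
      · exact Or.inr ⟨j, by simpa using (by omega : j < B + 1), h2.symm⟩
    · have hset : {y : ι → K | IC (ind (fib S y)) = a} =
          (⋃ j ∈ (Finset.range (B + 1)).filter (fun j : ℕ => (j : ℤ) = a), (GE j S \ GE (j + 1) S)) ∪
          (⋃ j ∈ (Finset.range (B + 1)).filter (fun j : ℕ => (1 - j : ℤ) = a),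
            (GE j Sᶜ \ GE (j + 1) Sᶜ)) := by
        ext y
        simp only [Set.mem_setOf_eq, Set.mem_union, Set.mem_iUnion, Finset.mem_filter,
          Finset.mem_range, exists_prop, Set.mem_diff]
        constructor
        · intro h
          rcases hval y with ⟨j, h1, h2, h3⟩ | ⟨j, h1, h2, h3⟩
          · exact Or.inl ⟨j, ⟨by omega, by omega⟩, h2⟩
          · exact Or.inr ⟨j, ⟨by omega, by omega⟩, h2⟩
        · rintro (⟨j, ⟨_, h2⟩, h3⟩ | ⟨j, ⟨_, h2⟩, h3⟩)
          · rw [hv1 y j h3.1 h3.2, h2]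
          · rw [hv2 y j h3.1 h3.2, h2]
      rw [hset]
      exact (Cons.biUnion _ fun j _ => (hS.ge j).diff (hS.ge (j + 1))).union
        (Cons.biUnion _ fun j _ => (hS.compl.ge j).diff (hS.compl.ge (j + 1)))

/-- A constructible function is a combination of characteristic functions. -/
lemma CF.eq_sum {f : (ι → K) → ℤ} (hf : CF f) (x : ι → K) :
    f x = ∑ a ∈ hf.1.toFinset, a * ind {x | f x = a} x := by
  rw [Finset.sum_eq_single (f x)]
  · simp [ind]
  · intro b _ hb
    have : x ∉ {x | f x = b} := fun h => hb h.symm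
    simp [ind, this]
  · intro h
    exact absurd (hf.1.mem_toFinset.2 ⟨x, rfl⟩) h

/-- Integration along the line. -/
theorem CF.line [IsAlgClosed K] [Finite ι] {f : (ι ⊕ Fin 1 → K) → ℤ} (hf : CF f) :
    (∀ y : ι → K, TameL (fun t => f (Sum.elim y (fun _ => t)))) ∧
    CF (fun y : ι → K => IC (fun t => f (Sum.elim y (fun _ => t)))) := by
  have : Infinite K := IsAlgClosed.instInfinite
  have h0 : ∀ y : ι → K, (fun t => f (Sum.elim y (fun _ => t))) = fun t =>
      ∑ a ∈ hf.1.toFinset, a * ind {x | f x = a} (Sum.elim y (fun _ => t)) := by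
    intro y
    ext t
    exact hf.eq_sum _
  have h1 : ∀ a, ∀ y : ι → K, TameL (fun t => ind {x | f x = a} (Sum.elim y (fun _ => t))) :=
    fun a => (Cons.line (hf.2 a)).1
  refine ⟨fun y => ?_, ?_⟩
  · rw [h0]
    exact TameL.sum _ fun a _ => (h1 a y).comp (fun b => a * b)
  · have h2 : ∀ y : ι → K, IC (fun t => f (Sum.elim y (fun _ => t))) =
        ∑ a ∈ hf.1.toFinset, a * IC (fun t => ind {x | f x = a} (Sum.elim y (fun _ => t))) := by
      intro y
      rw [h0, IC_sum]
      · refine Finset.sum_congr rfl fun a _ => IC_mul (h1 a y) a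
      · exact fun a _ => (h1 a y).comp (fun b => a * b)
    simp only [h2]
    exact CF.sum _ fun a _ => ((Cons.line (hf.2 a)).2).comp₁ (fun b => a * b)

/-- Integration along affine space. -/
theorem CF.int [IsAlgClosed K] : ∀ (k : ℕ) {ι : Type*} [Finite ι] {f : (ι ⊕ Fin k → K) → ℤ}, CF f →
    (∀ y : ι → K, Tame k (fun x => f (Sum.elim y x))) ∧
    CF (fun y : ι → K => EI k (fun x => f (Sum.elim y x)))
  | 0, ι, _, f, hf => by
    refine ⟨fun y => trivial, ?_⟩
    have h1 := hf.preimage (Sum.elim (fun i => (X i : MvPolynomial ι K)) Fin.elim0)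
    convert h1 using 1
    ext y
    rw [EI_zero]
    congr 1
    ext a
    rcases a with a | a
    · simp
    · exact a.elim0
  | k + 1, ι, _, f, hf => by
    set e : ι ⊕ Fin (k + 1) → (ι ⊕ Fin 1) ⊕ Fin k := Sum.elim (fun i => Sum.inl (Sum.inl i))
      (Fin.cons (Sum.inl (Sum.inr 0)) (fun j => Sum.inr j)) with he
    have h1 := hf.reindex e
    have h2 : ∀ (y : ι → K) (t : K) (x : Fin k → K),
        (Sum.elim (Sum.elim y (fun _ : Fin 1 => t)) x) ∘ e = Sum.elim y (Fin.cons t x) := by
      intro y t x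
      ext a
      rcases a with a | a
      · rfl
      · refine Fin.cases ?_ (fun j => ?_) a <;> rfl
    obtain ⟨h3, h4⟩ := CF.int k (ι := ι ⊕ Fin 1) h1
    have h5 := CF.line h4
    simp only [h2] at h3 h5
    refine ⟨fun y => ⟨fun t => ?_, h5.1 y⟩, h5.2⟩
    have := h3 (Sum.elim y (fun _ : Fin 1 => t))
    simpa only [h2] using this

theorem CF.tame [IsAlgClosed K] {k : ℕ} {f : (Fin k → K) → ℤ} (hf : CF f) : Tame k f := by
  have h1 := hf.reindex (Sum.inr : Fin k → Fin 0 ⊕ Fin k)
  have h2 := (CF.int k h1).1 Fin.elim0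
  simpa [Function.comp_def] using h2

theorem Cons.tame [IsAlgClosed K] {k : ℕ} {S : Set (Fin k → K)} (hS : Cons S) : Tame k (ind S) :=
  (CF.of_cons hS).tame

/-- Additivity. -/
theorem chi_union [IsAlgClosed K] {k : ℕ} {S T : Set (Fin k → K)} (hS : Cons S) (hT : Cons T)
    (h : Disjoint S T) : chi k (S ∪ T) = chi k S + chi k T := by
  have : Infinite K := IsAlgClosed.instInfinite
  unfold chi
  rw [← EI_add hS.tame hT.tame]
  congr 1
  ext x
  unfold ind
  by_cases h1 : x ∈ S
  · have h2 : x ∉ T := Set.disjoint_left.1 h h1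
    simp [h1, h2]
  · simp [h1]

/-- The integral of a constructible function in terms of Euler characteristics. -/
theorem CF.EI_eq [IsAlgClosed K] {k : ℕ} {f : (Fin k → K) → ℤ} (hf : CF f) (φ : ℤ → ℤ) :
    EI k (fun x => φ (f x)) = ∑ a ∈ hf.1.toFinset, φ a * chi k {x | f x = a} := by
  have : Infinite K := IsAlgClosed.instInfinite
  have h1 : (fun x => φ (f x)) = fun x => ∑ a ∈ hf.1.toFinset, φ a * ind {x | f x = a} x := by
    ext x
    rw [Finset.sum_eq_single (f x)]
    · simp [ind]
    · intro b _ hb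
      have : x ∉ {x | f x = b} := fun h => hb h.symm
      simp [ind, this]
    · intro h
      exact absurd (hf.1.mem_toFinset.2 ⟨x, rfl⟩) h
  rw [h1, EI_sum _ (fun a _ => ((hf.2 a).tame.mul_and (φ a)).1)]
  exact Finset.sum_congr rfl fun a _ => EI_mul _ (hf.2 a).tame

end EC
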