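import Pool.Agent.EC.Cons

/-!
# The Euler integral over the affine line
-/

namespace EC

open Classical

variable {K : Type*}

/-- Constant off a finite set. -/
def TameL (f : K → ℤ) : Prop := ∃ g : ℤ, {t | f t ≠ g}.Finite

/-- The Euler integral over the line of a function which is constant off a finite set: the value at
the generic point plus the sum of all deviations from it. -/
noncomputable def IC (f : K → ℤ) : ℤ :=
  if h : TameL f then h.choose + ∑ᶠ t, (f t - h.choose) else 0

section
variable [Infinite K]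

lemma TameL.unique {f : K → ℤ} {g g' : ℤ} (h : {t | f t ≠ g}.Finite) (h' : {t | f t ≠ g'}.Finite) :
    g = g' := by
  obtain ⟨t, ht⟩ := (h.union h').infinite_compl.nonempty
  simp only [Set.mem_compl_iff, Set.mem_union, Set.mem_setOf_eq, not_or, not_not] at ht
  rw [← ht.1, ← ht.2]

lemma IC_of {f : K → ℤ} {g : ℤ} (h : {t | f t ≠ g}.Finite) : IC f = g + ∑ᶠ t, (f t - g) := by
  have h1 : TameL f := ⟨g, h⟩
  have h2 : h1.choose = g := TameL.unique h1.choose_spec h
  unfold IC
  rw [dif_pos h1, h2]

lemma TameL.const (c : ℤ) : TameL (fun _ : K => c) := ⟨c, by simp⟩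

lemma TameL.add {f g : K → ℤ} (hf : TameL f) (hg : TameL g) : TameL (fun t => f t + g t) := by
  obtain ⟨a, ha⟩ := hf
  obtain ⟨b, hb⟩ := hg
  refine ⟨a + b, (ha.union hb).subset fun t ht => ?_⟩
  by_contra hc
  simp only [Set.mem_union, Set.mem_setOf_eq, not_or, not_not] at hc
  exact ht (by show f t + g t = a + b; rw [hc.1, hc.2])

lemma TameL.comp {f : K → ℤ} (hf : TameL f) (φ : ℤ → ℤ) : TameL (fun t => φ (f t)) := by
  obtain ⟨a, ha⟩ := hf
  refine ⟨φ a, ha.subset fun t ht => fun hc => ht (by show φ (f t) = φ a; rw [hc])⟩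

lemma TameL.comp₂ {f g : K → ℤ} (hf : TameL f) (hg : TameL g) (φ : ℤ → ℤ → ℤ) :
    TameL (fun t => φ (f t) (g t)) := by
  obtain ⟨a, ha⟩ := hf
  obtain ⟨b, hb⟩ := hg
  refine ⟨φ a b, (ha.union hb).subset fun t ht => ?_⟩
  by_contra hc
  simp only [Set.mem_union, Set.mem_setOf_eq, not_or, not_not] at hc
  exact ht (by show φ (f t) (g t) = φ a b; rw [hc.1, hc.2])

lemma TameL.sum {α : Type*} (s : Finset α) {f : α → K → ℤ} (h : ∀ a ∈ s, TameL (f a)) :
    TameL (fun t => ∑ a ∈ s, f a t) := by
  induction s using Finset.induction_on with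
  | empty => simpa using TameL.const 0
  | insert a s ha ih =>
    simp only [Finset.sum_insert ha]
    exact (h a (Finset.mem_insert_self a s)).add (ih fun b hb => h b (Finset.mem_insert_of_mem hb))

lemma IC_const (c : ℤ) : IC (fun _ : K => c) = c := by
  rw [IC_of (g := c) (by simp)]
  simp

lemma IC_add {f g : K → ℤ} (hf : TameL f) (hg : TameL g) :
    IC (fun t => f t + g t) = IC f + IC g := by
  obtain ⟨a, ha⟩ := hf
  obtain ⟨b, hb⟩ := hg
  have hab : {t | f t + g t ≠ a + b}.Finite := by
    refine (ha.union hb).subset fun t ht => ?_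
    by_contra hc
    simp only [Set.mem_union, Set.mem_setOf_eq, not_or, not_not] at hc
    exact ht (by rw [hc.1, hc.2])
  rw [IC_of ha, IC_of hb, IC_of hab]
  have h1 : ∑ᶠ t, (f t + g t - (a + b)) = ∑ᶠ t, ((f t - a) + (g t - b)) := by
    congr 1
    ext t
    ring
  rw [h1, finsum_add_distrib]
  · ring
  · refine ha.subset fun t ht => ?_
    simpa [sub_eq_zero] using ht
  · refine hb.subset fun t ht => ?_
    simpa [sub_eq_zero] using ht

lemma IC_mul {f : K → ℤ} (hf : TameL f) (c : ℤ) : IC (fun t => c * f t) = c * IC f := by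
  obtain ⟨a, ha⟩ := hf
  have hab : {t | c * f t ≠ c * a}.Finite :=
    ha.subset fun t ht => fun hc => ht (by rw [hc])
  rw [IC_of ha, IC_of hab]
  have h1 : ∑ᶠ t, (c * f t - c * a) = ∑ᶠ t, c * (f t - a) := by
    congr 1
    ext t
    ring
  rw [h1, ← mul_finsum]
  ring

lemma IC_sum {α : Type*} (s : Finset α) {f : α → K → ℤ} (h : ∀ a ∈ s, TameL (f a)) :
    IC (fun t => ∑ a ∈ s, f a t) = ∑ a ∈ s, IC (f a) := by
  induction s using Finset.induction_on with
  | empty => simpa using IC_const (K := K) 0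
  | insert a s ha ih =>
    simp only [Finset.sum_insert ha]
    rw [IC_add (h a (Finset.mem_insert_self a s))
      (TameL.sum s fun b hb => h b (Finset.mem_insert_of_mem hb)),
      ih fun b hb => h b (Finset.mem_insert_of_mem hb)]

/-- The integral of a function with finite support. -/
lemma IC_finite {f : K → ℤ} (h : f.support.Finite) : IC f = ∑ᶠ t, f t := by
  rw [IC_of (g := 0) h]
  simp

/-- The characteristic function of a set. -/
noncomputable def ind {α : Type*} (S : Set α) (x : α) : ℤ := if x ∈ S then 1 else 0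

lemma ind_compl {α : Type*} (S : Set α) (x : α) : ind Sᶜ x = 1 - ind S x := by
  unfold ind
  by_cases h : x ∈ S <;> simp [h]

lemma IC_ind_finite {S : Set K} (h : S.Finite) : IC (ind S) = S.ncard := by
  have h1 : (ind S).support = S := by
    ext t
    simp [ind, Function.mem_support]
  rw [IC_finite (by rw [h1]; exact h), finsum_eq_sum_of_support_subset (s := h.toFinset) _
    (by rw [h1]; simp)]
  have h2 : ∑ t ∈ h.toFinset, ind S t = ∑ t ∈ h.toFinset, (1 : ℤ) :=
    Finset.sum_congr rfl (fun t ht => if_pos (h.mem_toFinset.1 ht))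
  rw [h2, Finset.sum_const, Set.ncard_eq_toFinset_card S h]
  simp

lemma tameL_ind_finite {S : Set K} (h : S.Finite) : TameL (ind S) := by
  refine ⟨0, h.subset fun t ht => ?_⟩
  by_contra hc
  exact ht (if_neg hc)

lemma tameL_ind_cofinite {S : Set K} (h : Sᶜ.Finite) : TameL (ind S) := by
  refine ⟨1, h.subset fun t ht => ?_⟩
  by_contra hc
  exact ht (if_pos (not_not.1 hc))

lemma IC_ind_cofinite {S : Set K} (h : Sᶜ.Finite) : IC (ind S) = 1 - Sᶜ.ncard := by
  have h1 : IC (fun t => ind S t + ind Sᶜ t) = 1 := by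
    have : (fun t => ind S t + ind Sᶜ t) = fun _ : K => (1 : ℤ) := by
      ext t
      rw [ind_compl]
      ring
    rw [this, IC_const]
  rw [IC_add (tameL_ind_cofinite h) (tameL_ind_finite h), IC_ind_finite h] at h1
  linarith

/-- Invariance under permutations of the line. -/
lemma IC_equiv {f : K → ℤ} (e : K ≃ K) (hf : TameL f) : IC (fun t => f (e t)) = IC f := by
  obtain ⟨a, ha⟩ := hf
  have h1 : {t | f (e t) ≠ a}.Finite := ha.preimage e.injective.injOn
  rw [IC_of ha, IC_of h1]
  congr 1
  exact finsum_comp_equiv e (f := fun t => f t - a)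

end

end EC
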