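import Pool.Agent.EC.Frames

/-!
# Integration over the Grassmannian
-/

namespace EC

open MvPolynomial Classical

variable {K : Type*} [Field K]

lemma CF.prod {ι α : Type*} (s : Finset α) {f : α → (ι → K) → ℤ} (h : ∀ a ∈ s, CF (f a)) :
    CF (fun x => ∏ a ∈ s, f a x) := by
  induction s using Finset.induction_on with
  | empty => simpa using CF.const 1
  | insert a s ha ih =>
    have h1 := (h a (Finset.mem_insert_self a s)).comp₂
      (ih fun b hb => h b (Finset.mem_insert_of_mem hb)) (fun a b => a * b)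
    simpa [Finset.prod_insert ha] using h1

/-- The equivalence which splits off the first row. -/
def rowE (n : ℕ) (ι : Type*) : ι ⊕ (Fin n × ι) ≃ Fin (n + 1) × ι where
  toFun := Sum.elim (fun i => (0, i)) (fun ji => (ji.1.succ, ji.2))
  invFun := fun ji => Fin.cases (Sum.inl ji.2) (fun j => Sum.inr (j, ji.2)) ji.1
  left_inv := by
    rintro (i | ⟨j, i⟩) <;> simp
  right_inv := by
    rintro ⟨j, i⟩
    refine Fin.cases ?_ (fun j => ?_) j <;> simp

lemma CF.rows {ι : Type*} {f : (ι → K) → ℤ} (hf : CF f) (n : ℕ) :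
    CF (fun X : Fin n × ι → K => ∏ j : Fin n, f (fun i => X (j, i))) :=
  CF.prod _ fun j _ => hf.reindex (fun i => (j, i))

/-- Affine subspaces have Euler characteristic one. -/
lemma E_affine [Infinite K] {ι : Type*} [Fintype ι] (L : Submodule K (ι → K)) (a : ι → K) :
    E (ind {x | x - a ∈ L}) = 1 := by
  unfold E
  set e := Fintype.equivFin ι with he
  have h1 : (fun x : Fin (Fintype.card ι) → K => ind {x | x - a ∈ L} (x ∘ e)) =
      ind {x | x - a ∘ e.symm ∈ L.comap (LinearMap.funLeft K K e)} := by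
    ext x
    unfold ind
    congr 1
    apply propext
    show x ∘ e - a ∈ L ↔ (x - a ∘ e.symm) ∘ e ∈ L
    have h2 : (x - a ∘ e.symm) ∘ e = x ∘ e - a := by
      ext i
      simp
    rw [h2]
  rw [h1]
  exact EI_affine _ _ _

section
variable [IsAlgClosed K] (h2 : Swap2 K) {ι κ : Type*} [Fintype ι] [Fintype κ]
include h2

/-- The integral of a product of rows. -/
theorem E_pow {f : (ι → K) → ℤ} (hf : CF f) : ∀ n : ℕ,
    E (fun X : Fin n × ι → K => ∏ j : Fin n, f (fun i => X (j, i))) = (E f) ^ n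
  | 0 => by
    simp only [Finset.univ_eq_empty, Finset.prod_empty, pow_zero]
    exact E_const 1
  | n + 1 => by
    have h3 : CF (fun w : ι ⊕ (Fin n × ι) → K => f (w ∘ Sum.inl) *
        (fun X : Fin n × ι → K => ∏ j : Fin n, f (fun i => X (j, i))) (w ∘ Sum.inr)) :=
      (hf.reindex Sum.inl).comp₂ ((hf.rows n).reindex Sum.inr) (fun a b => a * b)
    have h4 := E_equiv h2 (rowE n ι) h3
    rw [E_prod h2 hf (hf.rows n), E_pow hf n] at h4
    rw [pow_succ', ← h4]
    congr 1
    ext X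
    rw [Fin.prod_univ_succ]
    rfl

/-- Change of variables along a polynomial map. -/
theorem E_graph (ψ : κ → MvPolynomial ι K) {S : Set (ι → K)} (hS : Cons S)
    {f : (κ → K) → ℤ} (hf : CF f)
    (hinj : ∀ x ∈ S, ∀ y ∈ S, (fun k => eval x (ψ k)) = (fun k => eval y (ψ k)) → x = y) :
    Cons {y : κ → K | ∃ x ∈ S, (fun k => eval x (ψ k)) = y} ∧
    E (fun x => ind S x * f (fun k => eval x (ψ k))) =
      E (fun y => ind {y : κ → K | ∃ x ∈ S, (fun k => eval x (ψ k)) = y} y * f y) := by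
  set T : Set (κ → K) := {y : κ → K | ∃ x ∈ S, (fun k => eval x (ψ k)) = y} with hT
  set Γ : Set (ι ⊕ κ → K) := {w | w ∘ Sum.inl ∈ S ∧
    ∀ k, eval (w ∘ Sum.inl) (ψ k) = w (Sum.inr k)} with hΓ
  have hΓc : Cons Γ := by
    have h3 : Γ = {w | w ∘ Sum.inl ∈ S} ∩ ⋂ k, {w | eval w (rename Sum.inl (ψ k) -
        X (Sum.inr k) : MvPolynomial (ι ⊕ κ) K) = 0} := by
      ext w
      simp only [hΓ, Set.mem_ofPred_eq, Set.mem_inter_iff, Set.mem_iInter, map_sub, eval_rename,
        eval_X, sub_eq_zero]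
    rw [h3]
    exact (hS.reindex Sum.inl).inter (Cons.iInter fun k => Cons.zero _)
  have hmem : ∀ x y, Sum.elim x y ∈ Γ ↔ x ∈ S ∧ (fun k => eval x (ψ k)) = y := by
    intro x y
    show (Sum.elim x y ∘ Sum.inl ∈ S ∧ ∀ k, eval (Sum.elim x y ∘ Sum.inl) (ψ k) = y k) ↔ _
    rw [Sum.elim_comp_inl, funext_iff]
  have hTc : Cons T := by
    have h3 := (hΓc.reindex (Sum.elim (fun i => Sum.inr i) (fun k => Sum.inl k) :
      ι ⊕ κ → κ ⊕ ι)).proj
    convert h3 using 1
    ext y
    simp only [hT, Set.mem_ofPred_eq]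
    refine exists_congr fun x => ?_
    have h4 : (Sum.elim y x ∘ (Sum.elim (fun i => Sum.inr i) (fun k => Sum.inl k) :
      ι ⊕ κ → κ ⊕ ι)) = Sum.elim x y := by
      ext i
      rcases i with i | i <;> rfl
    rw [h4, hmem]
  have hTf : CF (fun y => ind T y * f y) := (CF.of_cons hTc).comp₂ hf (fun a b => a * b)
  refine ⟨hTc, E_bij h2 hΓc ((CF.of_cons hS).comp₂ (hf.preimage ψ) (fun a b => a * b)) ?_ ?_ ?_⟩
  · intro x hx
    have hxS : x ∈ S := by
      by_contra hc
      exact hx (by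
        show ind S x * _ = 0
        unfold ind
        rw [if_neg hc, zero_mul])
    exact ⟨_, (hmem x _).2 ⟨hxS, rfl⟩, fun y hy => ((hmem x y).1 hy).2.symm⟩
  · intro y hy
    have hyT : y ∈ T := by
      by_contra hc
      exact hy (by
        show ind T y * _ = 0
        unfold ind
        rw [if_neg hc, zero_mul])
    obtain ⟨x, hx, hxy⟩ := hyT
    refine ⟨x, (hmem x y).2 ⟨hx, hxy⟩, fun x' hx' => ?_⟩
    obtain ⟨h3, h4⟩ := (hmem x' y).1 hx'
    exact hinj x' h3 x hx (h4.trans hxy.symm)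
  · intro x y hxy
    obtain ⟨h3, h4⟩ := (hmem x y).1 hxy
    show ind S x * f (fun k => eval x (ψ k)) = ind T y * f y
    have h5 : ind S x = 1 := if_pos h3
    have h6 : ind T y = 1 := if_pos ⟨x, h3, h4⟩
    rw [h5, h6, h4]

end

/-! ### The Grassmannian -/

variable {r m d : ℕ}

lemma mem_rspan_iff {A : Fin r × Fin m → K} {p : Fin r → Fin m} (hA : A ∈ REp K r m p)
    (x : Fin m → K) : x ∈ rspan A ↔ ∀ i, x i = ∑ l, x (p l) * A (l, i) := by
  constructor
  · intro hx i
    unfold rspan at hx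
    rw [Submodule.mem_span_range_iff_exists_fun] at hx
    obtain ⟨c, hc⟩ := hx
    have h6 : ∀ i, x i = ∑ l, c l * A (l, i) := by
      intro i
      have := congrFun hc i
      rw [Finset.sum_apply] at this
      exact this.symm
    have h7 : ∀ l, x (p l) = c l := by
      intro l
      rw [h6, Finset.sum_eq_single l]
      · rw [(hA.2 l).1, mul_one]
      · intro l' _ hl'
        rw [(hA.2 l').2.2 l hl'.symm, mul_zero]
      · intro h
        exact absurd (Finset.mem_univ l) h
    simp only [h7]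
    exact h6 i
  · intro h
    have h5 : x = ∑ l, x (p l) • row A l := by
      ext i
      rw [Finset.sum_apply]
      exact h i
    rw [h5]
    exact Submodule.sum_mem _ fun l _ => Submodule.smul_mem _ _ (Submodule.subset_span ⟨l, rfl⟩)

lemma cons_mem_rspan {α : Type*} (f : Fin r × Fin m → α) (P : Fin m → MvPolynomial α K) :
    Cons {w : α → K | w ∘ f ∈ RE K r m ∧ (fun i => eval w (P i)) ∈ rspan (w ∘ f)} := by
  have h1 : {w : α → K | w ∘ f ∈ RE K r m ∧ (fun i => eval w (P i)) ∈ rspan (w ∘ f)} =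
      ⋃ p : Fin r → Fin m, ({w | w ∘ f ∈ REp K r m p} ∩ ⋂ i : Fin m,
        {w | eval w (P i - ∑ l, P (p l) * X (f (l, i))) = 0}) := by
    ext w
    simp only [Set.mem_ofPred_eq, Set.mem_iUnion, Set.mem_inter_iff, Set.mem_iInter, map_sub,
      map_sum, map_mul, eval_X, sub_eq_zero]
    constructor
    · rintro ⟨h1, h2⟩
      rw [RE_eq] at h1
      obtain ⟨p, hp⟩ := Set.mem_iUnion.1 h1
      exact ⟨p, hp, (mem_rspan_iff hp _).1 h2⟩
    · rintro ⟨p, hp, h⟩
      refine ⟨?_, (mem_rspan_iff hp _).2 h⟩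
      rw [RE_eq]
      exact Set.mem_iUnion.2 ⟨p, hp⟩
  rw [h1]
  exact Cons.iUnion fun p => ((cons_REp p).reindex f).inter (Cons.iInter fun i => Cons.zero _)

/-- Functions on the Grassmannian which are constructible. -/
def GCF (d m : ℕ) (g : Submodule K (Fin m → K) → ℤ) : Prop :=
  CF (fun A : Fin d × Fin m → K => ind (RE K d m) A * g (rspan A))

/-- The Euler integral over the Grassmannian. -/
noncomputable def GI (d m : ℕ) (g : Submodule K (Fin m → K) → ℤ) : ℤ :=
  E (fun A : Fin d × Fin m → K => ind (RE K d m) A * g (rspan A))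

lemma GI_congr {g g' : Submodule K (Fin m → K) → ℤ}
    (h : ∀ L : Submodule K (Fin m → K), Module.finrank K L = d → g L = g' L) : GI d m g = GI d m g' := by
  unfold GI
  congr 1
  ext A
  by_cases hA : A ∈ RE K d m
  · rw [h _ (finrank_rspan (RE_subset_Fr hA))]
  · have : ind (RE K d m) A = 0 := if_neg hA
    rw [this, zero_mul, zero_mul]

lemma GCF_congr {g g' : Submodule K (Fin m → K) → ℤ}
    (h : ∀ L : Submodule K (Fin m → K), Module.finrank K L = d → g L = g' L) (hg : GCF d m g) : GCF d m g' := by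
  unfold GCF at hg ⊢
  convert hg using 1
  ext A
  by_cases hA : A ∈ RE K d m
  · rw [h _ (finrank_rspan (RE_subset_Fr hA))]
  · have : ind (RE K d m) A = 0 := if_neg hA
    rw [this, zero_mul, zero_mul]

lemma finrank_map_of {m' : ℕ} {φ : (Fin m → K) →ₗ[K] (Fin m' → K)} {S : Submodule K (Fin m → K)}
    (h : LinearMap.ker φ ≤ S) : Module.finrank K (S.map φ) + Module.finrank K (LinearMap.ker φ) =
      Module.finrank K S := by
  have h1 := LinearMap.finrank_range_add_finrank_ker (φ.comp S.subtype)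
  have h3 : LinearMap.range (φ.comp S.subtype) = S.map φ := by
    rw [LinearMap.range_comp, Submodule.range_subtype]
  have h4 : (LinearMap.ker (φ.comp S.subtype)).map S.subtype = LinearMap.ker φ := by
    ext x
    simp only [Submodule.mem_map, LinearMap.mem_ker, LinearMap.comp_apply, Submodule.subtype_apply,
      Subtype.exists]
    constructor
    · rintro ⟨y, hy, h5, rfl⟩
      exact h5
    · intro hx
      exact ⟨x, h hx, hx, rfl⟩
  have h5 : Module.finrank K (LinearMap.ker φ) =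
      Module.finrank K (LinearMap.ker (φ.comp S.subtype)) := by
    rw [← h4]
    exact Submodule.finrank_map_subtype_eq S _
  rw [h3] at h1
  rw [h5]
  exact h1

section
variable [IsAlgClosed K] (h2 : Swap2 K)
include h2

/-- Subspaces containing the kernel of a surjection. -/
theorem GI_map {m' d' : ℕ} (φ : (Fin m → K) →ₗ[K] (Fin m' → K)) (hφ : Function.Surjective φ)
    (hd : d' + Module.finrank K (LinearMap.ker φ) = d) {g : Submodule K (Fin m' → K) → ℤ}
    (hg : GCF d' m' g) :
    GCF d m (fun L => if LinearMap.ker φ ≤ L then g (L.map φ) else 0) ∧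
    GI d m (fun L => if LinearMap.ker φ ≤ L then g (L.map φ) else 0) = GI d' m' g := by
  set Γ : Set ((Fin d × Fin m) ⊕ (Fin d' × Fin m') → K) := {w | w ∘ Sum.inl ∈ RE K d m ∧
    w ∘ Sum.inr ∈ RE K d' m' ∧ LinearMap.ker φ ≤ rspan (w ∘ Sum.inl) ∧
    ∀ j, φ (row (w ∘ Sum.inl) j) ∈ rspan (w ∘ Sum.inr)} with hΓ
  have hΓc : Cons Γ := by
    -- the condition on the kernel
    set b := Module.finBasis K (LinearMap.ker φ) with hb
    have h3 : {w : (Fin d × Fin m) ⊕ (Fin d' × Fin m') → K | w ∘ Sum.inl ∈ RE K d m ∧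
        LinearMap.ker φ ≤ rspan (w ∘ Sum.inl)} = {w | w ∘ Sum.inl ∈ RE K d m} ∩
        ⋂ k, {w | w ∘ Sum.inl ∈ RE K d m ∧
          (fun i => eval w (C ((b k).1 i) : MvPolynomial _ K)) ∈ rspan (w ∘ Sum.inl)} := by
      ext w
      simp only [Set.mem_ofPred_eq, Set.mem_inter_iff, Set.mem_iInter, eval_C]
      constructor
      · rintro ⟨h4, h5⟩
        exact ⟨h4, fun k => ⟨h4, h5 (b k).2⟩⟩
      · rintro ⟨h4, h5⟩
        refine ⟨h4, fun x hx => ?_⟩
        have h6 := b.sum_repr ⟨x, hx⟩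
        have h7 : x = ∑ k, (b.repr ⟨x, hx⟩ k) • (b k).1 := by
          have h8 := congrArg Subtype.val h6
          rw [Submodule.coe_sum] at h8
          exact h8.symm
        rw [h7]
        exact Submodule.sum_mem _ fun k _ => Submodule.smul_mem _ _ (h5 k).2
    have h4 : ∀ j : Fin d, ∃ P : Fin m' → MvPolynomial ((Fin d × Fin m) ⊕ (Fin d' × Fin m')) K,
        ∀ w, (fun i => eval w (P i)) = φ (row (w ∘ Sum.inl) j) := by
      intro j
      have h5 : ∀ i : Fin m', ∃ p : MvPolynomial (Fin m) K, ∀ x, eval x p = φ x i := fun i =>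
        linear_eval ((LinearMap.proj i : (Fin m' → K) →ₗ[K] K).comp φ)
      choose p hp using h5
      refine ⟨fun i => rename (fun i' => Sum.inl (j, i')) (p i), fun w => ?_⟩
      ext i
      rw [eval_rename, hp]
      rfl
    choose P hP using h4
    have h5 : Γ = {w : (Fin d × Fin m) ⊕ (Fin d' × Fin m') → K | w ∘ Sum.inl ∈ RE K d m ∧
        LinearMap.ker φ ≤ rspan (w ∘ Sum.inl)} ∩ ({w | w ∘ Sum.inr ∈ RE K d' m'} ∩
        ⋂ j, {w | w ∘ Sum.inr ∈ RE K d' m' ∧ (fun i => eval w (P j i)) ∈ rspan (w ∘ Sum.inr)}) := by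
      ext w
      simp only [hΓ, Set.mem_ofPred_eq, Set.mem_inter_iff, Set.mem_iInter, hP]
      constructor
      · rintro ⟨h6, h7, h8, h9⟩
        exact ⟨⟨h6, h8⟩, h7, fun j => ⟨h7, h9 j⟩⟩
      · rintro ⟨⟨h6, h8⟩, h7, h9⟩
        exact ⟨h6, h7, h8, fun j => (h9 j).2⟩
    rw [h5, h3]
    exact (((cons_RE (K := K)).reindex Sum.inl).inter (Cons.iInter fun k =>
      cons_mem_rspan _ _)).inter (((cons_RE (K := K)).reindex Sum.inr).inter
        (Cons.iInter fun j => cons_mem_rspan _ _))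
  have hmem : ∀ A B, Sum.elim A B ∈ Γ ↔ (A ∈ RE K d m ∧ LinearMap.ker φ ≤ rspan A) ∧
      (B ∈ RE K d' m' ∧ rspan B = (rspan A).map φ) := by
    intro A B
    show (A ∈ RE K d m ∧ B ∈ RE K d' m' ∧ LinearMap.ker φ ≤ rspan A ∧
      ∀ j, φ (row A j) ∈ rspan B) ↔ _
    constructor
    · rintro ⟨h3, h4, h5, h6⟩
      refine ⟨⟨h3, h5⟩, h4, Eq.symm (Submodule.eq_of_le_of_finrank_eq ?_ ?_)⟩
      · rw [Submodule.map_le_iff_le_comap]
        unfold rspan
        rw [Submodule.span_le]
        rintro _ ⟨j, rfl⟩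
        exact h6 j
      · have h7 := finrank_map_of h5
        rw [finrank_rspan (RE_subset_Fr h3)] at h7
        rw [finrank_rspan (RE_subset_Fr h4)]
        omega
    · rintro ⟨⟨h3, h5⟩, h4, h6⟩
      refine ⟨h3, h4, h5, fun j => ?_⟩
      rw [h6]
      exact Submodule.mem_map_of_mem (Submodule.subset_span ⟨j, rfl⟩)
  have hexB : ∀ A, A ∈ RE K d m → LinearMap.ker φ ≤ rspan A → ∃! B, Sum.elim A B ∈ Γ := by
    intro A hA hk
    have h7 := finrank_map_of hk
    rw [finrank_rspan (RE_subset_Fr hA)] at h7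
    obtain ⟨B, hB, hu⟩ := RE_unique (L := (rspan A).map φ) (r := d') (by omega)
    exact ⟨B, (hmem A B).2 ⟨⟨hA, hk⟩, hB⟩, fun B' hB' => hu B' ((hmem A B').1 hB').2⟩
  have hexA : ∀ B, B ∈ RE K d' m' → ∃! A, Sum.elim A B ∈ Γ := by
    intro B hB
    have hk : LinearMap.ker φ ≤ (rspan B).comap φ := fun x hx => by
      rw [Submodule.mem_comap, LinearMap.mem_ker.1 hx]
      exact Submodule.zero_mem _
    have hmc : ((rspan B).comap φ).map φ = rspan B := by
      rw [Submodule.map_comap_eq, LinearMap.range_eq_top.2 hφ, top_inf_eq]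
    have h7 := finrank_map_of hk
    rw [hmc, finrank_rspan (RE_subset_Fr hB)] at h7
    obtain ⟨A, hA, hu⟩ := RE_unique (L := (rspan B).comap φ) (r := d) (by omega)
    refine ⟨A, (hmem A B).2 ⟨⟨hA.1, ?_⟩, hB, ?_⟩, fun A' hA' => hu A' ?_⟩
    · rw [hA.2]
      exact hk
    · rw [hA.2, hmc]
    · obtain ⟨⟨h8, h9⟩, _, h10⟩ := (hmem A' B).1 hA'
      refine ⟨h8, ?_⟩
      rw [h10, Submodule.comap_map_eq, sup_eq_left.2 h9]
  have hcf : CF (fun A : Fin d × Fin m → K => ind (RE K d m) A *
      (if LinearMap.ker φ ≤ rspan A then g ((rspan A).map φ) else 0)) := by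
    have h3 : CF (fun w : (Fin d × Fin m) ⊕ (Fin d' × Fin m') → K => ind Γ w *
        (fun B : Fin d' × Fin m' → K => ind (RE K d' m') B * g (rspan B)) (w ∘ Sum.inr)) :=
      (CF.of_cons hΓc).comp₂ (hg.reindex Sum.inr) (fun a b => a * b)
    have h4 := h3.E
    convert h4 using 1
    ext A
    by_cases hA : A ∈ RE K d m ∧ LinearMap.ker φ ≤ rspan A
    · obtain ⟨B, hB, hu⟩ := hexB A hA.1 hA.2
      obtain ⟨_, hB1, hB2⟩ := (hmem A B).1 hB
      have e1 : ind (RE K d m) A = 1 := if_pos hA.1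
      rw [e1, if_pos hA.2, one_mul]
      symm
      refine E_uniq (a := B) ?_ ?_
      · show ind Γ (Sum.elim A B) * (ind (RE K d' m') B * g (rspan B)) = _
        have e2 : ind Γ (Sum.elim A B) = 1 := if_pos hB
        have e3 : ind (RE K d' m') B = 1 := if_pos hB1
        rw [e2, e3, one_mul, one_mul, hB2]
      · intro B' hB'
        show ind Γ (Sum.elim A B') * _ = 0
        have e2 : ind Γ (Sum.elim A B') = 0 := if_neg fun h => hB' (hu B' h)
        rw [e2, zero_mul]
    · have e1 : ind (RE K d m) A * (if LinearMap.ker φ ≤ rspan A then g ((rspan A).map φ) else 0)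
          = 0 := by
        by_cases h5 : A ∈ RE K d m
        · rw [if_neg (fun h => hA ⟨h5, h⟩), mul_zero]
        · have : ind (RE K d m) A = 0 := if_neg h5
          rw [this, zero_mul]
      rw [e1]
      symm
      have h5 : (fun B => ind Γ (Sum.elim A B) *
          (fun B : Fin d' × Fin m' → K => ind (RE K d' m') B * g (rspan B)) (Sum.elim A B ∘ Sum.inr)) =
          fun _ => (0 : ℤ) := by
        ext B
        have e2 : ind Γ (Sum.elim A B) = 0 := if_neg fun h => hA ((hmem A B).1 h).1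
        rw [e2, zero_mul]
      rw [h5, E_const]
  refine ⟨hcf, E_bij h2 hΓc hcf ?_ ?_ ?_⟩
  · intro A hA
    refine hexB A ?_ ?_
    · by_contra hc
      exact hA (by
        show ind (RE K d m) A * _ = 0
        unfold ind
        rw [if_neg hc, zero_mul])
    · by_contra hc
      exact hA (by
        show _ * (if LinearMap.ker φ ≤ rspan A then g ((rspan A).map φ) else 0) = 0
        rw [if_neg hc, mul_zero])
  · intro B hB
    refine hexA B ?_
    by_contra hc
    exact hB (by
      show ind (RE K d' m') B * _ = 0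
      unfold ind
      rw [if_neg hc, zero_mul])
  · intro A B hAB
    obtain ⟨⟨h3, h4⟩, h5, h6⟩ := (hmem A B).1 hAB
    show ind (RE K d m) A * (if LinearMap.ker φ ≤ rspan A then g ((rspan A).map φ) else 0) =
      ind (RE K d' m') B * g (rspan B)
    have e1 : ind (RE K d m) A = 1 := if_pos h3
    have e2 : ind (RE K d' m') B = 1 := if_pos h5
    rw [e1, e2, if_pos h4, h6]

end

end EC
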