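import Pool.Agent.EC.Mom

/-!
# Moments
-/

namespace EC

open MvPolynomial Classical

variable {K : Type*} [Field K] {r m d : ℕ}

lemma E_REp [Infinite K] {p : Fin r → Fin m} (hp : StrictMono p) : E (ind (REp K r m p)) = 1 := by
  set L : Submodule K (Fin r × Fin m → K) :=
    { carrier := {B | ∀ j, B (j, p j) = 0 ∧ (∀ i < p j, B (j, i) = 0) ∧ ∀ l, l ≠ j → B (j, p l) = 0}
      add_mem' := by
        intro a b ha hb j
        refine ⟨?_, fun i hi => ?_, fun l hl => ?_⟩
        · show a _ + b _ = 0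
          rw [(ha j).1, (hb j).1, add_zero]
        · show a _ + b _ = 0
          rw [(ha j).2.1 i hi, (hb j).2.1 i hi, add_zero]
        · show a _ + b _ = 0
          rw [(ha j).2.2 l hl, (hb j).2.2 l hl, add_zero]
      zero_mem' := fun j => ⟨rfl, fun _ _ => rfl, fun _ _ => rfl⟩
      smul_mem' := by
        intro c a ha j
        refine ⟨?_, fun i hi => ?_, fun l hl => ?_⟩
        · show c * a _ = 0
          rw [(ha j).1, mul_zero]
        · show c * a _ = 0
          rw [(ha j).2.1 i hi, mul_zero]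
        · show c * a _ = 0
          rw [(ha j).2.2 l hl, mul_zero] } with hL
  set A0 : Fin r × Fin m → K := fun ji => if ji.2 = p ji.1 then 1 else 0 with hA0
  have h1 : REp K r m p = {x | x - A0 ∈ L} := by
    ext A
    show (StrictMono p ∧ ∀ j, A (j, p j) = 1 ∧ (∀ i < p j, A (j, i) = 0) ∧
      ∀ l, l ≠ j → A (j, p l) = 0) ↔ ∀ j, A (j, p j) - A0 (j, p j) = 0 ∧
        (∀ i < p j, A (j, i) - A0 (j, i) = 0) ∧ ∀ l, l ≠ j → A (j, p l) - A0 (j, p l) = 0
    rw [and_iff_right hp]
    refine forall_congr' fun j => ?_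
    have e1 : A0 (j, p j) = 1 := if_pos rfl
    have e2 : ∀ i < p j, A0 (j, i) = 0 := fun i hi => if_neg hi.ne
    have e3 : ∀ l, l ≠ j → A0 (j, p l) = 0 := fun l hl => if_neg fun h => hl (hp.injective h)
    rw [e1, sub_eq_zero]
    refine and_congr Iff.rfl (and_congr ?_ ?_)
    · refine forall_congr' fun i => forall_congr' fun hi => ?_
      rw [e2 i hi, sub_zero]
    · refine forall_congr' fun l => forall_congr' fun hl => ?_
      rw [e3 l hl, sub_zero]
  rw [h1]
  exact E_affine L A0

lemma piv_REp {A : Fin d × Fin m → K} {p : Fin d → Fin m} (hA : A ∈ REp K d m p) :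
    piv (rspan A) = Finset.univ.image p := by
  have hRE : A ∈ RE K d m := by
    rw [RE_eq]
    exact Set.mem_iUnion.2 ⟨p, hA⟩
  symm
  refine Finset.eq_of_subset_of_card_le ?_ ?_
  · intro i hi
    obtain ⟨j, _, rfl⟩ := Finset.mem_image.1 hi
    exact mem_piv.2 ⟨row A j, Submodule.subset_span ⟨j, rfl⟩, (hA.2 j).1, (hA.2 j).2.1⟩
  · rw [card_piv, finrank_rspan (RE_subset_Fr hRE), Finset.card_image_of_injective _ hA.1.injective]
    simp

section
variable [IsAlgClosed K]

lemma cons_REp' (p : Fin r → Fin m) : Cons (REp K r m p) := cons_REp p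

/-- The Euler characteristic of the Grassmannian. -/
theorem E_RE : E (ind (RE K d m)) = (m.choose d : ℤ) := by
  have hinf : Infinite K := IsAlgClosed.instInfinite
  have h1 : ∀ S ∈ Finset.powersetCard d (Finset.univ : Finset (Fin m)),
      ∃ p : Fin d → Fin m, StrictMono p ∧ {A | A ∈ RE K d m ∧ piv (rspan A) = S} = REp K d m p := by
    intro S hS
    have hc := (Finset.mem_powersetCard.1 hS).2
    refine ⟨S.orderEmbOfFin hc, (S.orderEmbOfFin hc).strictMono, ?_⟩
    ext A
    constructor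
    · rintro ⟨h3, h4⟩
      rw [RE_eq] at h3
      obtain ⟨p, hp⟩ := Set.mem_iUnion.1 h3
      have h5 := piv_REp hp
      rw [h4] at h5
      have h6 : p = S.orderEmbOfFin hc := by
        refine Finset.orderEmbOfFin_unique hc (fun j => ?_) hp.1
        rw [h5]
        exact Finset.mem_image_of_mem _ (Finset.mem_univ _)
      rw [← h6]
      exact hp
    · intro hA
      refine ⟨?_, ?_⟩
      · rw [RE_eq]
        exact Set.mem_iUnion.2 ⟨_, hA⟩
      · rw [piv_REp hA]
        have h5 := Finset.range_orderEmbOfFin S hc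
        apply Finset.coe_injective
        rw [Finset.coe_image, Finset.coe_univ, Set.image_univ]
        exact h5
  have h3 : (ind (RE K d m) : (Fin d × Fin m → K) → ℤ) = fun A =>
      ∑ S ∈ Finset.powersetCard d (Finset.univ : Finset (Fin m)),
        ind {A | A ∈ RE K d m ∧ piv (rspan A) = S} A := by
    ext A
    by_cases hA : A ∈ RE K d m
    · have e1 : ind (RE K d m) A = 1 := if_pos hA
      rw [e1]
      symm
      rw [Finset.sum_eq_single (piv (rspan A))]
      · exact if_pos ⟨hA, rfl⟩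
      · intro S _ hS
        exact if_neg fun h => hS h.2.symm
      · intro h
        refine absurd (Finset.mem_powersetCard.2 ⟨Finset.subset_univ _, ?_⟩) h
        rw [card_piv, finrank_rspan (RE_subset_Fr hA)]
    · have e1 : ind (RE K d m) A = 0 := if_neg hA
      rw [e1]
      symm
      exact Finset.sum_eq_zero fun S _ => if_neg fun h => hA h.1
  rw [h3, E_fsum]
  · have h4 : ∀ S ∈ Finset.powersetCard d (Finset.univ : Finset (Fin m)),
        E (fun A => ind {A | A ∈ RE K d m ∧ piv (rspan A) = S} A) = 1 := by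
      intro S hS
      obtain ⟨p, hp, hpe⟩ := h1 S hS
      rw [hpe]
      exact E_REp hp
    rw [Finset.sum_congr rfl h4, Finset.sum_const, Finset.card_powersetCard, Finset.card_univ,
      Fintype.card_fin]
    simp
  · intro S hS
    obtain ⟨p, hp, hpe⟩ := h1 S hS
    rw [hpe]
    exact CF.of_cons (cons_REp p)

lemma exists_surj (V : Submodule K (Fin m → K)) :
    ∃ φ : (Fin m → K) →ₗ[K] (Fin (m - Module.finrank K V) → K),
      Function.Surjective φ ∧ LinearMap.ker φ = V := by
  have h1 : Module.finrank K ((Fin m → K) ⧸ V) = m - Module.finrank K V := by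
    have := V.finrank_quotient_add_finrank
    rw [Module.finrank_fin_fun] at this
    omega
  set e : ((Fin m → K) ⧸ V) ≃ₗ[K] (Fin (m - Module.finrank K V) → K) :=
    LinearEquiv.ofFinrankEq _ _ (by rw [h1, Module.finrank_fin_fun]) with he
  refine ⟨e.toLinearMap.comp V.mkQ, ?_, ?_⟩
  · exact e.surjective.comp (Submodule.mkQ_surjective V)
  · rw [LinearEquiv.ker_comp, Submodule.ker_mkQ]

variable (h2 : Swap2 K)
include h2

/-- The Euler characteristic of the subspaces containing a given one. -/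
theorem GI_ge (V : Submodule K (Fin m → K)) :
    GCF d m (fun L => if V ≤ L then 1 else 0) ∧
    GI d m (fun L => if V ≤ L then 1 else 0) = if Module.finrank K V ≤ d then
      ((m - Module.finrank K V).choose (d - Module.finrank K V) : ℤ) else 0 := by
  by_cases hV : Module.finrank K V ≤ d
  · rw [if_pos hV]
    obtain ⟨φ, hφ, hk⟩ := exists_surj V
    have hg : GCF (d - Module.finrank K V) (m - Module.finrank K V)
        (fun _ : Submodule K (Fin (m - Module.finrank K V) → K) => (1 : ℤ)) := by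
      unfold GCF
      simp only [mul_one]
      exact CF.of_cons cons_RE
    have h3 := GI_map h2 (d := d) φ hφ (d' := d - Module.finrank K V) (by
      rw [hk]
      omega) hg
    rw [hk] at h3
    refine ⟨h3.1, h3.2.trans ?_⟩
    unfold GI
    simp only [mul_one]
    exact E_RE
  · rw [if_neg hV]
    have h3 : ∀ L : Submodule K (Fin m → K), Module.finrank K L = d → (0 : ℤ) =
        if V ≤ L then 1 else 0 := by
      intro L hL
      rw [if_neg]
      intro h
      have := Submodule.finrank_mono h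
      omega
    have h4 : GCF d m (fun _ : Submodule K (Fin m → K) => (0 : ℤ)) := by
      unfold GCF
      simp only [mul_zero]
      exact CF.const 0
    refine ⟨GCF_congr h3 h4, ?_⟩
    rw [← GI_congr h3]
    unfold GI
    simp only [mul_zero]
    exact E_const 0

end

/-! ### Matrices of given rank -/

/-- Pairs of a matrix and a subspace containing its rows. -/
def RIn (K : Type*) [Field K] (n d m : ℕ) : Set ((Fin n × Fin m) ⊕ (Fin d × Fin m) → K) :=
  {w | w ∘ Sum.inr ∈ RE K d m ∧ ∀ j, row (w ∘ Sum.inl) j ∈ rspan (w ∘ Sum.inr)}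

lemma cons_RIn (n d m : ℕ) : Cons (RIn K n d m) := by
  have h1 : RIn K n d m = {w | w ∘ Sum.inr ∈ RE K d m} ∩ ⋂ j : Fin n,
      {w | w ∘ Sum.inr ∈ RE K d m ∧ (fun i => eval w (X (Sum.inl (j, i)) : MvPolynomial _ K)) ∈
        rspan (w ∘ Sum.inr)} := by
    ext w
    simp only [RIn, Set.mem_ofPred_eq, Set.mem_inter_iff, Set.mem_iInter, eval_X]
    constructor
    · rintro ⟨h3, h4⟩
      exact ⟨h3, fun j => ⟨h3, h4 j⟩⟩
    · rintro ⟨h3, h4⟩
      exact ⟨h3, fun j => (h4 j).2⟩
  rw [h1]
  exact (cons_RE.reindex Sum.inr).inter (Cons.iInter fun j => cons_mem_rspan _ _)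

lemma mem_RIn {n : ℕ} {X : Fin n × Fin m → K} {A : Fin d × Fin m → K} :
    Sum.elim X A ∈ RIn K n d m ↔ A ∈ RE K d m ∧ rspan X ≤ rspan A := by
  show (A ∈ RE K d m ∧ ∀ j, row X j ∈ rspan A) ↔ _
  refine and_congr Iff.rfl ?_
  conv_rhs => rw [rspan]
  rw [Submodule.span_le]
  constructor
  · rintro h _ ⟨j, rfl⟩
    exact h j
  · intro h j
    exact h ⟨j, rfl⟩

section
variable [IsAlgClosed K] (h2 : Swap2 K)
include h2

lemma E_RIn {n : ℕ} (X : Fin n × Fin m → K) : E (fun A : Fin d × Fin m → K =>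
    ind (RIn K n d m) (Sum.elim X A)) = if Module.finrank K (rspan X) ≤ d then
      ((m - Module.finrank K (rspan X)).choose (d - Module.finrank K (rspan X)) : ℤ) else 0 := by
  rw [← (GI_ge h2 (rspan X)).2]
  unfold GI
  congr 1
  ext A
  by_cases hA : A ∈ RE K d m
  · have e1 : ind (RE K d m) A = 1 := if_pos hA
    rw [e1, one_mul]
    unfold ind
    congr 1
    apply propext
    rw [mem_RIn]
    exact and_iff_right hA
  · have e1 : ind (RE K d m) A = 0 := if_neg hA
    rw [e1, zero_mul]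
    exact if_neg fun h => hA (mem_RIn.1 h).1

lemma cons_rank_le (n m d : ℕ) : Cons {X : Fin n × Fin m → K | Module.finrank K (rspan X) ≤ d} := by
  by_cases hd : d ≤ m
  · have h3 : CF (fun w : (Fin n × Fin m) ⊕ (Fin d × Fin m) → K => ind (RIn K n d m) w) :=
      CF.of_cons (cons_RIn n d m)
    have h4 := (h3.E.2 0).compl
    convert h4 using 1
    ext X
    show Module.finrank K (rspan X) ≤ d ↔ ¬ (E (fun A : Fin d × Fin m → K =>
      ind (RIn K n d m) (Sum.elim X A)) = 0)
    rw [E_RIn h2]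
    by_cases h : Module.finrank K (rspan X) ≤ d
    · rw [if_pos h]
      have h5 : 0 < (m - Module.finrank K (rspan X)).choose (d - Module.finrank K (rspan X)) :=
        Nat.choose_pos (by omega)
      have h6 : ((m - Module.finrank K (rspan X)).choose (d - Module.finrank K (rspan X)) : ℤ) ≠ 0 := by
        exact_mod_cast h5.ne'
      exact ⟨fun _ => h6, fun _ => h⟩
    · rw [if_neg h]
      simp [h]
  · have h3 : {X : Fin n × Fin m → K | Module.finrank K (rspan X) ≤ d} = Set.univ := by
      ext X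
      simp only [Set.mem_ofPred_eq, Set.mem_univ, iff_true]
      have := Submodule.finrank_le (rspan X)
      rw [Module.finrank_fin_fun] at this
      omega
    rw [h3]
    exact Cons.univ

lemma cons_rank_eq (n m d : ℕ) : Cons {X : Fin n × Fin m → K | Module.finrank K (rspan X) = d} := by
  cases d with
  | zero =>
    have h3 := cons_rank_le h2 n m 0
    convert h3 using 1
    ext X
    simp
  | succ d =>
    have h3 := (cons_rank_le h2 n m (d + 1)).diff (cons_rank_le h2 n m d)
    convert h3 using 1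
    ext X
    simp only [Set.mem_ofPred_eq, Set.mem_diff]
    omega

end

lemma cons_all_ne {ι : Type*} [Finite ι] (c : K) : Cons {x : ι → K | ∀ i, x i ≠ c} := by
  have h3 : {x : ι → K | ∀ i, x i ≠ c} = ⋂ i, {x | eval x (X i - C c) ≠ 0} := by
    ext x
    simp [sub_eq_zero]
  rw [h3]
  exact Cons.iInter fun i => Cons.ne _

/-- The matrices of rank `ρ` without entry `1`. -/
def Rk1 (K : Type*) [Field K] (ρ n m : ℕ) : Set (Fin n × Fin m → K) :=
  {X | (∀ a, X a ≠ 1) ∧ Module.finrank K (rspan X) = ρ}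

/-- Their Euler characteristic. -/
noncomputable def w (K : Type*) [Field K] (ρ n m : ℕ) : ℤ := E (ind (Rk1 K ρ n m))

/-- The Euler characteristic of the vectors of `L` without entry `1`. -/
noncomputable def bb (L : Submodule K (Fin m → K)) : ℤ := E (ind {x | x ∈ L ∧ ∀ i, x i ≠ 1})

section
variable [IsAlgClosed K] (h2 : Swap2 K)
include h2

lemma cons_Rk1 (ρ n m : ℕ) : Cons (Rk1 K ρ n m) :=
  (cons_all_ne 1).inter (cons_rank_eq h2 n m ρ)

lemma bb_pow (n : ℕ) (L : Submodule K (Fin m → K)) : bb L ^ n =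
    E (fun X : Fin n × Fin m → K => ind {X | (∀ a, X a ≠ 1) ∧ rspan X ≤ L} X) := by
  unfold bb
  have hc : CF (ind {x | x ∈ L ∧ ∀ i, x i ≠ 1}) :=
    CF.of_cons ((cons_submodule L).inter (cons_all_ne 1))
  rw [← E_pow h2 hc]
  congr 1
  ext X
  by_cases h : (∀ a, X a ≠ 1) ∧ rspan X ≤ L
  · have e1 : ind {X : Fin n × Fin m → K | (∀ a, X a ≠ 1) ∧ rspan X ≤ L} X = 1 := if_pos h
    rw [e1]
    refine Finset.prod_eq_one fun j _ => if_pos ⟨h.2 (Submodule.subset_span ⟨j, rfl⟩), fun i => h.1 _⟩
  · have e1 : ind {X : Fin n × Fin m → K | (∀ a, X a ≠ 1) ∧ rspan X ≤ L} X = 0 := if_neg h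
    rw [e1]
    by_contra hc
    refine h ⟨fun a ha => hc ?_, ?_⟩
    · refine Finset.prod_eq_zero (Finset.mem_univ a.1) (if_neg fun h3 => h3.2 a.2 ha)
    · unfold rspan
      rw [Submodule.span_le]
      rintro _ ⟨j, rfl⟩
      by_contra hj
      exact hc (Finset.prod_eq_zero (Finset.mem_univ j) (if_neg fun h3 => hj h3.1))

/-- The moments of the Euler characteristic. -/
theorem GI_moment (n : ℕ) : GCF d m (fun L : Submodule K (Fin m → K) => bb L ^ n) ∧
    GI d m (fun L : Submodule K (Fin m → K) => bb L ^ n) =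
      ∑ ρ ∈ Finset.range (d + 1), ((m - ρ).choose (d - ρ) : ℤ) * w K ρ n m := by
  have hF : CF (fun v : (Fin n × Fin m) ⊕ (Fin d × Fin m) → K =>
      ind {X : Fin n × Fin m → K | ∀ a, X a ≠ 1} (v ∘ Sum.inl) * ind (RIn K n d m) v) :=
    ((CF.of_cons (cons_all_ne 1)).reindex Sum.inl).comp₂ (CF.of_cons (cons_RIn n d m))
      (fun a b => a * b)
  have h3 : ∀ A : Fin d × Fin m → K, E (fun X : Fin n × Fin m → K =>
      ind {X : Fin n × Fin m → K | ∀ a, X a ≠ 1} (Sum.elim X A ∘ Sum.inl) *
        ind (RIn K n d m) (Sum.elim X A)) = ind (RE K d m) A * bb (rspan A) ^ n := by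
    intro A
    by_cases hA : A ∈ RE K d m
    · have e1 : ind (RE K d m) A = 1 := if_pos hA
      rw [e1, one_mul, bb_pow h2]
      congr 1
      ext X
      rw [Sum.elim_comp_inl]
      symm
      refine ind_mul_of (R := {X : Fin n × Fin m → K | (∀ a, X a ≠ 1) ∧ rspan X ≤ rspan A})
        (T := {X | Sum.elim X A ∈ RIn K n d m}) ?_
      simp only [Set.mem_ofPred_eq, mem_RIn]
      exact ⟨fun h => ⟨h.1, hA, h.2⟩, fun h => ⟨h.1, h.2.2⟩⟩
    · have e1 : ind (RE K d m) A = 0 := if_neg hA
      rw [e1, zero_mul]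
      have h4 : (fun X : Fin n × Fin m → K =>
          ind {X : Fin n × Fin m → K | ∀ a, X a ≠ 1} (Sum.elim X A ∘ Sum.inl) *
          ind (RIn K n d m) (Sum.elim X A)) = fun _ => (0 : ℤ) := by
        ext X
        have e2 : ind (RIn K n d m) (Sum.elim X A) = 0 := if_neg fun h => hA (mem_RIn.1 h).1
        rw [e2, mul_zero]
      rw [h4, E_const]
  have h4 : ∀ X : Fin n × Fin m → K, E (fun A : Fin d × Fin m → K =>
      ind {X : Fin n × Fin m → K | ∀ a, X a ≠ 1} (Sum.elim X A ∘ Sum.inl) *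
        ind (RIn K n d m) (Sum.elim X A)) =
      ∑ ρ ∈ Finset.range (d + 1), ((m - ρ).choose (d - ρ) : ℤ) * ind (Rk1 K ρ n m) X := by
    intro X
    simp only [Sum.elim_comp_inl]
    have h5 : CF (fun A : Fin d × Fin m → K => ind (RIn K n d m) (Sum.elim X A)) := by
      have h6 := (CF.of_cons (cons_RIn (K := K) n d m)).preimage
        (Sum.elim (fun a => C (X a)) (fun b => MvPolynomial.X b) :
          (Fin n × Fin m) ⊕ (Fin d × Fin m) → MvPolynomial (Fin d × Fin m) K)
      convert h6 using 1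
      ext A
      congr 1
      ext a
      rcases a with a | a <;> simp
    rw [E_mul _ h5, E_RIn h2]
    by_cases hX : ∀ a, X a ≠ 1
    · have e1 : ind {X : Fin n × Fin m → K | ∀ a, X a ≠ 1} X = 1 := if_pos hX
      rw [e1, one_mul]
      by_cases hr : Module.finrank K (rspan X) ≤ d
      · rw [if_pos hr, Finset.sum_eq_single (Module.finrank K (rspan X))]
        · have e2 : ind (Rk1 K (Module.finrank K (rspan X)) n m) X = 1 := if_pos ⟨hX, rfl⟩
          rw [e2, mul_one]
        · intro ρ _ hρ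
          have e2 : ind (Rk1 K ρ n m) X = 0 := if_neg fun h => hρ h.2.symm
          rw [e2, mul_zero]
        · intro h
          exact absurd (Finset.mem_range.2 (Nat.lt_succ_of_le hr)) h
      · rw [if_neg hr]
        symm
        refine Finset.sum_eq_zero fun ρ hρ => ?_
        have e2 : ind (Rk1 K ρ n m) X = 0 := if_neg fun h => hr (by
          rw [h.2]
          exact Nat.lt_succ_iff.1 (Finset.mem_range.1 hρ))
        rw [e2, mul_zero]
    · have e1 : ind {X : Fin n × Fin m → K | ∀ a, X a ≠ 1} X = 0 := if_neg hX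
      rw [e1, zero_mul]
      symm
      refine Finset.sum_eq_zero fun ρ hρ => ?_
      have e2 : ind (Rk1 K ρ n m) X = 0 := if_neg fun h => hX h.1
      rw [e2, mul_zero]
  have h5 := E_sum h2 hF
  rw [E_sum' h2 hF] at h5
  simp only [h3, h4] at h5
  have h6 : GCF d m (fun L : Submodule K (Fin m → K) => bb L ^ n) := by
    unfold GCF
    simp only [← h3]
    have h7 := (hF.reindex (Sum.elim (fun a => Sum.inr a) (fun b => Sum.inl b) :
      (Fin n × Fin m) ⊕ (Fin d × Fin m) → (Fin d × Fin m) ⊕ (Fin n × Fin m))).E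
    convert h7 using 1
    ext A
    congr 1
  refine ⟨h6, ?_⟩
  unfold GI
  rw [h5, E_fsum]
  · refine Finset.sum_congr rfl fun ρ _ => ?_
    exact E_mul _ (CF.of_cons (cons_Rk1 h2 ρ n m))
  · intro ρ _
    exact (CF.of_cons (cons_Rk1 h2 ρ n m)).comp₁ _

omit h2 [IsAlgClosed K] in
lemma finrank_rspan_swap {n : ℕ} (X : Fin n × Fin m → K) :
    Module.finrank K (rspan (X ∘ Prod.swap : Fin m × Fin n → K)) = Module.finrank K (rspan X) := by
  have h3 : ∀ (a b : ℕ) (Y : Fin a × Fin b → K), Module.finrank K (rspan Y) =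
      (Matrix.of fun i j => Y (i, j)).rank := by
    intro a b Y
    rw [Matrix.rank_eq_finrank_span_row]
    rfl
  rw [h3, h3, ← Matrix.rank_transpose]
  rfl

/-- Transposition. -/
theorem w_symm (ρ n m : ℕ) : w K ρ n m = w K ρ m n := by
  unfold w
  rw [← E_equiv h2 (Equiv.prodComm (Fin m) (Fin n)) (CF.of_cons (cons_Rk1 h2 ρ m n))]
  congr 1
  ext X
  unfold ind
  congr 1
  apply propext
  show ((∀ a, X a ≠ 1) ∧ _) ↔ ((∀ a, X (Prod.swap a) ≠ 1) ∧
    Module.finrank K (rspan (X ∘ Prod.swap)) = ρ)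
  rw [finrank_rspan_swap]
  refine and_congr ⟨fun h a => h _, fun h a => ?_⟩ Iff.rfl
  have := h a.swap
  rwa [Prod.swap_swap] at this

end

lemma EI_all_ne [Infinite K] (k : ℕ) : EI (k + 1) (ind {x : Fin (k + 1) → K | ∀ i, x i ≠ 1}) = 0 := by
  rw [EI_succ]
  set c := EI k (ind {x : Fin k → K | ∀ i, x i ≠ 1}) with hc
  have h1 : (fun t => EI k (fun x => ind {x : Fin (k + 1) → K | ∀ i, x i ≠ 1} (Fin.cons t x))) =
      fun t => c * ind ({1}ᶜ : Set K) t := by
    ext t
    by_cases ht : t = 1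
    · have h3 : (fun x : Fin k → K => ind {x : Fin (k + 1) → K | ∀ i, x i ≠ 1} (Fin.cons t x)) =
          fun _ => (0 : ℤ) := by
        ext x
        refine if_neg fun h => h 0 ?_
        rw [Fin.cons_zero, ht]
      have e1 : ind ({1}ᶜ : Set K) t = 0 := if_neg fun h => h ht
      rw [h3, EI_const, e1, mul_zero]
    · have e1 : ind ({1}ᶜ : Set K) t = 1 := if_pos ht
      rw [e1, mul_one, hc]
      congr 1
      ext x
      unfold ind
      congr 1
      apply propext
      show (∀ i, (Fin.cons t x : Fin (k + 1) → K) i ≠ 1) ↔ ∀ i, x i ≠ 1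
      rw [Fin.forall_fin_succ]
      simp [ht]
  have h3 : ({1}ᶜ : Set K)ᶜ.Finite := by simp
  rw [h1, IC_mul (tameL_ind_cofinite h3), IC_ind_cofinite h3]
  simp

lemma E_all_ne [Infinite K] {ι : Type*} [Fintype ι] [Nonempty ι] :
    E (ind {x : ι → K | ∀ i, x i ≠ 1}) = 0 := by
  unfold E
  obtain ⟨k, hk⟩ : ∃ k, Fintype.card ι = k + 1 := ⟨Fintype.card ι - 1, by
    have : 0 < Fintype.card ι := Fintype.card_pos
    omega⟩
  have h1 : (fun x : Fin (Fintype.card ι) → K => ind {x : ι → K | ∀ i, x i ≠ 1}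
      (x ∘ Fintype.equivFin ι)) = ind {x : Fin (Fintype.card ι) → K | ∀ i, x i ≠ 1} := by
    ext x
    unfold ind
    congr 1
    apply propext
    show (∀ i, x (Fintype.equivFin ι i) ≠ 1) ↔ ∀ i, x i ≠ 1
    exact ⟨fun h i => by simpa using h ((Fintype.equivFin ι).symm i), fun h i => h _⟩
  rw [h1, hk]
  exact EI_all_ne k

section
variable [IsAlgClosed K] (h2 : Swap2 K)
include h2

/-- All ranks together. -/
theorem w_total {n m : ℕ} (hn : 0 < n) (hm : 0 < m) :
    ∑ ρ ∈ Finset.range (m + 1), w K ρ n m = 0 := by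
  have hinf : Infinite K := IsAlgClosed.instInfinite
  have : Nonempty (Fin n × Fin m) := ⟨(⟨0, hn⟩, ⟨0, hm⟩)⟩
  rw [← E_all_ne (K := K) (ι := Fin n × Fin m)]
  unfold w
  rw [← E_fsum _ fun ρ _ => CF.of_cons (cons_Rk1 h2 ρ n m)]
  congr 1
  ext X
  by_cases hX : ∀ a, X a ≠ 1
  · have e1 : ind {X : Fin n × Fin m → K | ∀ a, X a ≠ 1} X = 1 := if_pos hX
    rw [e1, Finset.sum_eq_single (Module.finrank K (rspan X))]
    · exact if_pos ⟨hX, rfl⟩
    · intro ρ _ hρ
      exact if_neg fun h => hρ h.2.symm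
    · intro h
      refine absurd (Finset.mem_range.2 ?_) h
      have := Submodule.finrank_le (rspan X)
      rw [Module.finrank_fin_fun] at this
      omega
  · have e1 : ind {X : Fin n × Fin m → K | ∀ a, X a ≠ 1} X = 0 := if_neg hX
    rw [e1]
    exact Finset.sum_eq_zero fun ρ _ => if_neg fun h => hX h.1

omit h2 in
theorem w_zero (n m : ℕ) : w K 0 n m = 1 := by
  have h3 : Rk1 K 0 n m = {0} := by
    ext X
    simp only [Rk1, Set.mem_ofPred_eq, Set.mem_singleton_iff]
    constructor
    · rintro ⟨_, h4⟩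
      rw [Submodule.finrank_eq_zero] at h4
      ext ⟨j, i⟩
      have h5 : row X j ∈ rspan X := Submodule.subset_span ⟨j, rfl⟩
      rw [h4, Submodule.mem_bot] at h5
      exact congrFun h5 i
    · rintro rfl
      refine ⟨fun a => zero_ne_one, ?_⟩
      rw [Submodule.finrank_eq_zero]
      unfold rspan
      rw [Submodule.span_eq_bot]
      rintro _ ⟨j, rfl⟩
      rfl
  unfold w
  rw [h3]
  exact E_point 0

end

end EC
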