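import Pool.Agent.EC.Dual2

/-!
# Arrangements of lines in the affine plane
-/

namespace EC

open MvPolynomial Classical

variable {K : Type*} [Field K]

/-- The pairing. -/
def dot (v x : Fin 2 → K) : K := v 0 * x 0 + v 1 * x 1

/-- The determinant. -/
def dt (v w : Fin 2 → K) : K := v 0 * w 1 - v 1 * w 0

/-- The common point of two lines. -/
def xp (v w : Fin 2 → K) : Fin 2 → K := ![(w 1 - v 1) / dt v w, (v 0 - w 0) / dt v w]

/-- Three points are collinear if this vanishes. -/
def tri (p q r : Fin 2 → K) : K := (q 0 - p 0) * (r 1 - p 1) - (q 1 - p 1) * (r 0 - p 0)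

lemma dot_xp_left {v w : Fin 2 → K} (h : dt v w ≠ 0) : dot v (xp v w) = 1 := by
  unfold dot xp
  simp only [Matrix.cons_val_zero, Matrix.cons_val_one]
  rw [mul_div_assoc', mul_div_assoc', ← add_div, div_eq_one_iff_eq h]
  unfold dt
  ring

lemma dot_xp_right {v w : Fin 2 → K} (h : dt v w ≠ 0) : dot w (xp v w) = 1 := by
  unfold dot xp
  simp only [Matrix.cons_val_zero, Matrix.cons_val_one]
  rw [mul_div_assoc', mul_div_assoc', ← add_div, div_eq_one_iff_eq h]
  unfold dt
  ring

lemma eq_xp {v w x : Fin 2 → K} (h : dt v w ≠ 0) (h1 : dot v x = 1) (h2 : dot w x = 1) :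
    x = xp v w := by
  unfold dot at h1 h2
  ext i
  fin_cases i
  · show x 0 = (w 1 - v 1) / dt v w
    rw [eq_div_iff h]
    unfold dt
    linear_combination w 1 * h1 - v 1 * h2
  · show x 1 = (v 0 - w 0) / dt v w
    rw [eq_div_iff h]
    unfold dt
    linear_combination v 0 * h2 - w 0 * h1

lemma eq_of_dt {v w x : Fin 2 → K} (h : dt v w = 0) (h1 : dot v x = 1) (h2 : dot w x = 1) :
    v = w := by
  unfold dot at h1 h2
  unfold dt at h
  ext i
  fin_cases i
  · show v 0 = w 0
    linear_combination (-v 0) * h2 + w 0 * h1 + x 1 * h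
  · show v 1 = w 1
    linear_combination (-v 1) * h2 + w 1 * h1 - x 0 * h

lemma dt_zero (v : Fin 2 → K) : dt v 0 = 0 := by
  simp [dt]

lemma dt_comm (v w : Fin 2 → K) : dt v w = - dt w v := by
  unfold dt
  ring

lemma tri_zero (v w : Fin 2 → K) : tri 0 v w = dt v w := by
  simp [tri, dt]

lemma ne_zero_of_dot {v x : Fin 2 → K} (h : dot v x = 1) : x 0 ≠ 0 ∨ x 1 ≠ 0 := by
  by_contra hc
  push Not at hc
  unfold dot at h
  rw [hc.1, hc.2, mul_zero, mul_zero, add_zero] at h
  exact zero_ne_one h

lemma tri_of_dot {p q r x : Fin 2 → K} (hp : dot p x = 1) (hq : dot q x = 1) (hr : dot r x = 1) :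
    tri p q r = 0 := by
  have h0 := ne_zero_of_dot hp
  unfold dot at hp hq hr
  unfold tri
  rcases h0 with h0 | h0
  · refine (mul_eq_zero.1 (?_ : x 0 * _ = 0)).resolve_left h0
    linear_combination (r 1 - p 1) * (hq - hp) - (q 1 - p 1) * (hr - hp)
  · refine (mul_eq_zero.1 (?_ : x 1 * _ = 0)).resolve_left h0
    linear_combination (q 0 - p 0) * (hr - hp) - (r 0 - p 0) * (hq - hp)

lemma dot_of_tri {p q r x : Fin 2 → K} (h : tri p q r = 0) (hpq : p ≠ q) (hp : dot p x = 1)
    (hq : dot q x = 1) : dot r x = 1 := by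
  unfold dot at hp hq ⊢
  unfold tri at h
  by_cases h0 : q 0 = p 0
  · have h1 : q 1 - p 1 ≠ 0 := by
      intro h1
      refine hpq (funext fun i => ?_)
      fin_cases i
      · exact h0.symm
      · exact (sub_eq_zero.1 h1).symm
    refine sub_eq_zero.1 ((mul_eq_zero.1 (?_ : (q 1 - p 1) * _ = 0)).resolve_left h1)
    linear_combination (r 1 - p 1) * (hq - hp) + (q 1 - p 1) * hp - x 0 * h
  · have h1 : q 0 - p 0 ≠ 0 := sub_ne_zero.2 h0
    refine sub_eq_zero.1 ((mul_eq_zero.1 (?_ : (q 0 - p 0) * _ = 0)).resolve_left h1)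
    linear_combination (r 0 - p 0) * (hq - hp) + (q 0 - p 0) * hp + x 1 * h

lemma xp_eq_iff {v w u : Fin 2 → K} (h1 : dt v w ≠ 0) (h2 : dt v u ≠ 0) :
    xp v w = xp v u ↔ tri v w u = 0 := by
  have hvw : v ≠ w := by
    rintro rfl
    exact h1 (by unfold dt; ring)
  constructor
  · intro h
    refine tri_of_dot (dot_xp_left h1) (dot_xp_right h1) ?_
    rw [h]
    exact dot_xp_right h2
  · intro h
    exact eq_xp h2 (dot_xp_left h1) (dot_of_tri h hvw (dot_xp_left h1) (dot_xp_right h1))

/-! ### The Euler characteristic of the complement -/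

/-- The complement of the lines. -/
def UV (W : Finset (Fin 2 → K)) : Set (Fin 2 → K) := {x | ∀ w ∈ W, dot w x ≠ 1}

/-- The Euler characteristic of the complement of the lines. -/
noncomputable def BW (W : Finset (Fin 2 → K)) : ℤ := E (ind (UV W))

/-- The number of the points on the line of `w`. -/
noncomputable def pp (w : Fin 2 → K) (W : Finset (Fin 2 → K)) : ℕ :=
  ((W.filter fun u => dt w u ≠ 0).image (xp w)).card

lemma cons_dot (w : Fin 2 → K) : Cons {x : Fin 2 → K | dot w x = 1} := by
  have h := Cons.zero (C (w 0) * X 0 + C (w 1) * X 1 - 1 : MvPolynomial (Fin 2) K)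
  convert h using 1
  ext x
  simp [dot, sub_eq_zero]

lemma cons_UV (W : Finset (Fin 2 → K)) : Cons (UV W) := by
  have h : UV W = ⋂ w ∈ W, {x | dot w x = 1}ᶜ := by
    ext x
    simp [UV]
  rw [h]
  exact Cons.biInter _ fun w _ => (cons_dot w).compl

lemma coe_image_xp {w : Fin 2 → K} {W : Finset (Fin 2 → K)} (hw : w ∉ W) :
    {x : Fin 2 → K | dot w x = 1 ∧ ∃ u ∈ W, dot u x = 1} =
      ↑((W.filter fun u => dt w u ≠ 0).image (xp w)) := by
  ext x
  simp only [Set.mem_ofPred_eq, Finset.coe_image, Finset.coe_filter, Set.mem_image]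
  constructor
  · rintro ⟨h1, u, hu, h2⟩
    have h3 : dt w u ≠ 0 := fun h3 => hw (by
      rw [eq_of_dt h3 h1 h2]
      exact hu)
    exact ⟨u, ⟨hu, h3⟩, (eq_xp h3 h1 h2).symm⟩
  · rintro ⟨u, ⟨hu, h3⟩, rfl⟩
    exact ⟨dot_xp_left h3, u, hu, dot_xp_right h3⟩

section
variable [IsAlgClosed K]

lemma E_line {w : Fin 2 → K} (hw : w ≠ 0) : E (ind {x : Fin 2 → K | dot w x = 1}) = 1 := by
  have hinf : Infinite K := IsAlgClosed.instInfinite
  set l : (Fin 2 → K) →ₗ[K] K :=
    w 0 • LinearMap.proj 0 + w 1 • LinearMap.proj 1 with hl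
  have h1 : ∀ x, l x = dot w x := fun x => rfl
  have h2 := E_fiber l (1 : K)
  simp only [h1] at h2
  rw [h2, if_pos]
  by_cases h0 : w 0 = 0
  · have h3 : w 1 ≠ 0 := by
      intro h3
      refine hw (funext fun i => ?_)
      fin_cases i
      · exact h0
      · exact h3
    refine ⟨![0, (w 1)⁻¹], ?_⟩
    simp [dot, h3]
  · refine ⟨![(w 0)⁻¹, 0], ?_⟩
    simp [dot, h0]

lemma BW_empty : BW (∅ : Finset (Fin 2 → K)) = 1 := by
  unfold BW
  have h : ind (UV (∅ : Finset (Fin 2 → K))) = fun _ => (1 : ℤ) := by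
    ext x
    exact if_pos fun w hw => absurd hw (Finset.notMem_empty w)
  rw [h]
  exact E_const 1

/-- One more line. -/
theorem BW_insert {w : Fin 2 → K} {W : Finset (Fin 2 → K)} (hw : w ∉ W) (h0 : w ≠ 0) :
    BW (insert w W) = BW W - 1 + pp w W := by
  set F : Set (Fin 2 → K) := {x | dot w x = 1 ∧ ∃ u ∈ W, dot u x = 1} with hF
  have hFe : F = ↑((W.filter fun u => dt w u ≠ 0).image (xp w)) := coe_image_xp hw
  have hFf : F.Finite := by
    rw [hFe]
    exact Finset.finite_toSet _
  have h1 : ind (UV (insert w W)) = fun x => (ind (UV W) x + (-1) * ind {x | dot w x = 1} x) +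
      ind F x := by
    ext x
    by_cases h2 : dot w x = 1
    · rw [ind_zero (S := UV (insert w W)) fun h => h w (Finset.mem_insert_self _ _) h2,
        ind_one (S := {x | dot w x = 1}) h2]
      by_cases h3 : ∃ u ∈ W, dot u x = 1
      · rw [ind_one (S := F) ⟨h2, h3⟩, ind_zero (S := UV W)]
        · norm_num
        · intro h
          obtain ⟨u, hu, hu'⟩ := h3
          exact h u hu hu'
      · rw [ind_zero (S := F) fun h => h3 h.2, ind_one (S := UV W)]
        · norm_num
        · intro u hu hu'
          exact h3 ⟨u, hu, hu'⟩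
    · rw [ind_zero (S := {x | dot w x = 1}) h2, ind_zero (S := F) fun h => h2 h.1]
      have h3 : ind (UV (insert w W)) x = ind (UV W) x := by
        unfold ind
        congr 1
        apply propext
        show (∀ u ∈ insert w W, dot u x ≠ 1) ↔ ∀ u ∈ W, dot u x ≠ 1
        rw [Finset.forall_mem_insert]
        exact and_iff_right h2
      rw [h3]
      ring
  unfold BW
  rw [h1, E_add, E_add, E_mul, E_line h0, E_ind_finite hFf, hFe, Set.ncard_coe_finset]
  · rfl
  · exact CF.of_cons (cons_dot w)
  · exact CF.of_cons (cons_UV W)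
  · exact (CF.of_cons (cons_dot w)).comp₁ _
  · exact (CF.of_cons (cons_UV W)).comp₂ ((CF.of_cons (cons_dot w)).comp₁ _) (fun a b => a + b)
  · exact CF.of_cons (Cons.of_finite hFf)

end

/-! ### The number of the points -/

lemma pp_le (w : Fin 2 → K) (W : Finset (Fin 2 → K)) : pp w W ≤ W.card :=
  Finset.card_image_le.trans (Finset.card_filter_le _ _)

lemma pp_mono (w : Fin 2 → K) {W W' : Finset (Fin 2 → K)} (h : W ⊆ W') : pp w W ≤ pp w W' :=
  Finset.card_le_card (Finset.image_subset_image (Finset.filter_subset_filter _ h))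

/-- `w` is on a line through two of the points of `W ∪ {0}`. -/
def Bad (w : Fin 2 → K) (W : Finset (Fin 2 → K)) : Prop :=
  (∃ u ∈ W, dt w u = 0) ∨ ∃ u ∈ W, ∃ u' ∈ W, u ≠ u' ∧ tri w u u' = 0

lemma pp_lt {w : Fin 2 → K} {W : Finset (Fin 2 → K)} (h : Bad w W) : pp w W + 1 ≤ W.card := by
  rcases h with ⟨u, hu, h⟩ | ⟨u, hu, u', hu', hne, h⟩
  · have h1 : (W.filter fun u => dt w u ≠ 0).card < W.card := by
      refine Finset.card_lt_card (Finset.filter_ssubset.2 ⟨u, hu, fun h2 => h2 h⟩)
    exact (Nat.succ_le_of_lt (lt_of_le_of_lt Finset.card_image_le h1))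
  · by_cases h1 : dt w u = 0
    · have h2 : (W.filter fun u => dt w u ≠ 0).card < W.card := by
        refine Finset.card_lt_card (Finset.filter_ssubset.2 ⟨u, hu, fun h2 => h2 h1⟩)
      exact (Nat.succ_le_of_lt (lt_of_le_of_lt Finset.card_image_le h2))
    · by_cases h1' : dt w u' = 0
      · have h2 : (W.filter fun u => dt w u ≠ 0).card < W.card := by
          refine Finset.card_lt_card (Finset.filter_ssubset.2 ⟨u', hu', fun h2 => h2 h1'⟩)
        exact (Nat.succ_le_of_lt (lt_of_le_of_lt Finset.card_image_le h2))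
      · have h2 := (xp_eq_iff h1 h1').2 h
        -- the image of `W` without `u` is the same
        have h3 : (W.filter fun u => dt w u ≠ 0).image (xp w) ⊆
            ((W.erase u).filter fun u => dt w u ≠ 0).image (xp w) := by
          intro x hx
          obtain ⟨v, hv, rfl⟩ := Finset.mem_image.1 hx
          obtain ⟨hv1, hv2⟩ := Finset.mem_filter.1 hv
          by_cases hvu : v = u
          · rw [hvu, h2]
            exact Finset.mem_image_of_mem _ (Finset.mem_filter.2 ⟨Finset.mem_erase.2
              ⟨hne.symm, hu'⟩, h1'⟩)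
          · exact Finset.mem_image_of_mem _ (Finset.mem_filter.2 ⟨Finset.mem_erase.2 ⟨hvu, hv1⟩, hv2⟩)
        have h4 := Finset.card_le_card h3
        have h5 : pp w (W.erase u) ≤ (W.erase u).card := pp_le _ _
        rw [Finset.card_erase_of_mem hu] at h5
        have h6 : 0 < W.card := Finset.card_pos.2 ⟨u, hu⟩
        unfold pp at h5 ⊢
        omega

lemma pp_eq {w : Fin 2 → K} {W : Finset (Fin 2 → K)} (h : ¬ Bad w W) : pp w W = W.card := by
  unfold Bad at h
  push Not at h
  unfold pp
  have h1 : (W.filter fun u => dt w u ≠ 0) = W := Finset.filter_true_of_mem h.1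
  rw [h1]
  refine Finset.card_image_of_injOn ?_
  intro u hu u' hu' huu
  by_contra hne
  exact h.2 u hu u' hu' hne ((xp_eq_iff (h.1 u hu) (h.1 u' hu')).1 huu)

lemma pp_pos {w : Fin 2 → K} {W : Finset (Fin 2 → K)} {u : Fin 2 → K} (hu : u ∈ W)
    (h : dt w u ≠ 0) : 1 ≤ pp w W := by
  unfold pp
  exact Finset.card_pos.2 ⟨_, Finset.mem_image_of_mem _ (Finset.mem_filter.2 ⟨hu, h⟩)⟩

/-! ### Bounds -/

section
variable [IsAlgClosed K]

lemma BW_erase {w : Fin 2 → K} {W : Finset (Fin 2 → K)} (hw : w ∈ W) (h0 : w ≠ 0) :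
    BW W = BW (W.erase w) - 1 + pp w (W.erase w) := by
  have h := BW_insert (Finset.notMem_erase w W) h0
  rwa [Finset.insert_erase hw] at h

/-- The upper bound. -/
theorem BW_le {W : Finset (Fin 2 → K)} (h0 : (0 : Fin 2 → K) ∉ W) (hW : W.Nonempty) :
    BW W ≤ ((W.card - 1).choose 2 : ℤ) := by
  induction W using Finset.induction_on with
  | empty => exact absurd hW Finset.not_nonempty_empty
  | insert w W hw ih =>
    have hw0 : w ≠ 0 := by
      rintro rfl
      exact h0 (Finset.mem_insert_self _ _)
    rw [BW_insert hw hw0, Finset.card_insert_of_notMem hw]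
    have h1 := pp_le w W
    rcases W.eq_empty_or_nonempty with rfl | hne
    · rw [BW_empty]
      have h4 : pp w (∅ : Finset (Fin 2 → K)) = 0 := by simpa using h1
      rw [h4]
      simp
    · have h2 := ih (fun h => h0 (Finset.mem_insert_of_mem h)) hne
      have h3 : 0 < W.card := Finset.card_pos.2 hne
      obtain ⟨k, hk⟩ : ∃ k, W.card = k + 1 := ⟨W.card - 1, by omega⟩
      rw [hk] at h1 h2 ⊢
      have h4 : (k + 1).choose 2 = k + k.choose 2 := by
        rw [Nat.choose_succ_succ' k 1, Nat.choose_one_right]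
      simp only [Nat.add_sub_cancel] at h2 ⊢
      rw [h4]
      push_cast
      omega

/-- No three of the points of `W ∪ {0}` are collinear. -/
def Unif (W : Finset (Fin 2 → K)) : Prop := ∀ w ∈ W, ¬ Bad w (W.erase w)

omit [IsAlgClosed K] in
lemma Bad.mono {w : Fin 2 → K} {W W' : Finset (Fin 2 → K)} (h : W ⊆ W') (hb : Bad w W) :
    Bad w W' := by
  rcases hb with ⟨u, hu, h1⟩ | ⟨u, hu, u', hu', h1, h2⟩
  · exact Or.inl ⟨u, h hu, h1⟩
  · exact Or.inr ⟨u, h hu, u', h hu', h1, h2⟩

omit [IsAlgClosed K] in
lemma Unif.mono {W W' : Finset (Fin 2 → K)} (h : W ⊆ W') (hu : Unif W') : Unif W :=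
  fun w hw hb => hu w (h hw) (hb.mono (Finset.erase_subset_erase _ h))

theorem BW_unif {W : Finset (Fin 2 → K)} (h0 : (0 : Fin 2 → K) ∉ W) (hW : W.Nonempty)
    (hu : Unif W) : BW W = ((W.card - 1).choose 2 : ℤ) := by
  induction W using Finset.induction_on with
  | empty => exact absurd hW Finset.not_nonempty_empty
  | insert w W hw ih =>
    have hw0 : w ≠ 0 := by
      rintro rfl
      exact h0 (Finset.mem_insert_self _ _)
    have hb := hu w (Finset.mem_insert_self _ _)
    rw [Finset.erase_insert hw] at hb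
    rw [BW_insert hw hw0, Finset.card_insert_of_notMem hw, pp_eq hb]
    rcases W.eq_empty_or_nonempty with rfl | hne
    · rw [BW_empty]
      simp
    · have h2 := ih (fun h => h0 (Finset.mem_insert_of_mem h)) hne
        (hu.mono (Finset.subset_insert _ _))
      have h3 : 0 < W.card := Finset.card_pos.2 hne
      obtain ⟨k, hk⟩ : ∃ k, W.card = k + 1 := ⟨W.card - 1, by omega⟩
      rw [h2, hk]
      have h4 : (k + 1).choose 2 = k + k.choose 2 := by
        rw [Nat.choose_succ_succ' k 1, Nat.choose_one_right]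
      simp only [Nat.add_sub_cancel]
      rw [h4]
      push_cast
      ring

/-- The lower bound. -/
theorem BW_nonneg {W : Finset (Fin 2 → K)} (h0 : (0 : Fin 2 → K) ∉ W) {a b : Fin 2 → K}
    (ha : a ∈ W) (hb : b ∈ W) (hab : dt a b ≠ 0) : 0 ≤ BW W := by
  have hne : a ≠ b := by
    rintro rfl
    exact hab (by unfold dt; ring)
  have ha0 : a ≠ 0 := by
    rintro rfl
    exact h0 ha
  have hb0 : b ≠ 0 := by
    rintro rfl
    exact h0 hb
  have h1 : ∀ V : Finset (Fin 2 → K), (∀ v ∈ V, v ≠ 0) → 0 ≤ BW (insert a (insert b V)) := by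
    intro V
    induction V using Finset.induction_on with
    | empty =>
      intro _
      have e1 : BW (insert b (∅ : Finset (Fin 2 → K))) = 0 := by
        rw [BW_insert (Finset.notMem_empty b) hb0, BW_empty]
        have := pp_le b ∅
        rw [Finset.card_empty] at this
        omega
      have h2 : a ∉ insert b (∅ : Finset (Fin 2 → K)) := by
        simp [hne]
      rw [BW_insert h2 ha0, e1]
      have := pp_pos (w := a) (W := insert b ∅) (Finset.mem_insert_self b ∅) hab
      omega
    | insert v V hv ih =>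
      intro hV
      have ih' := ih fun u hu => hV u (Finset.mem_insert_of_mem hu)
      by_cases h2 : v ∈ insert a (insert b V)
      · have h3 : insert a (insert b (insert v V)) = insert a (insert b V) := by
          ext u
          simp only [Finset.mem_insert] at h2 ⊢
          constructor
          · rintro (h | h | h | h)
            · exact Or.inl h
            · exact Or.inr (Or.inl h)
            · rw [h]
              exact h2
            · exact Or.inr (Or.inr h)
          · rintro (h | h | h)
            · exact Or.inl h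
            · exact Or.inr (Or.inl h)
            · exact Or.inr (Or.inr (Or.inr h))
        rw [h3]
        exact ih'
      · have h3 : insert a (insert b (insert v V)) = insert v (insert a (insert b V)) := by
          ext u
          simp only [Finset.mem_insert]
          tauto
        have hv0 := hV v (Finset.mem_insert_self _ _)
        rw [h3, BW_insert h2 hv0]
        have h4 : 1 ≤ pp v (insert a (insert b V)) := by
          by_cases h5 : dt v a = 0
          · refine pp_pos (u := b) (by simp) fun h6 => ?_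
            -- `v` would be parallel to both
            apply hv0
            unfold dt at h5 h6 hab
            have e1 : v 0 * (a 0 * b 1 - a 1 * b 0) = 0 := by
              linear_combination a 0 * h6 - b 0 * h5
            have e2 : v 1 * (a 0 * b 1 - a 1 * b 0) = 0 := by
              linear_combination a 1 * h6 - b 1 * h5
            ext i
            fin_cases i
            · exact (mul_eq_zero.1 e1).resolve_right hab
            · exact (mul_eq_zero.1 e2).resolve_right hab
          · exact pp_pos (u := a) (by simp) h5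
        omega
  have h2 : insert a (insert b W) = W := by
    rw [Finset.insert_eq_self.2 hb, Finset.insert_eq_self.2 ha]
  rw [← h2]
  exact h1 W fun v hv => by
    rintro rfl
    exact h0 hv

end

end EC
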