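import Pool.Agent.EC.Plane

/-!
# Planes in coordinate space and collinear triples
-/

namespace EC

open MvPolynomial Classical

variable {K : Type*} [Field K] {m : ℕ}

/-- The columns. -/
def col (A : Fin 2 × Fin m → K) (i : Fin m) : Fin 2 → K := fun a => A (a, i)

/-- The columns and the origin. -/
def PA' (A : Fin 2 × Fin m → K) : Fin (m + 1) → (Fin 2 → K) := Fin.cons 0 (col A)

lemma PA'_zero (A : Fin 2 × Fin m → K) : PA' A 0 = 0 := rfl

lemma PA'_succ (A : Fin 2 × Fin m → K) (i : Fin m) : PA' A i.succ = col A i := rfl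

/-- The nonzero columns. -/
noncomputable def WA (A : Fin 2 × Fin m → K) : Finset (Fin 2 → K) :=
  (Finset.univ.image (col A)).erase 0

lemma zero_notMem_WA (A : Fin 2 × Fin m → K) : (0 : Fin 2 → K) ∉ WA A := Finset.notMem_erase _ _

lemma WA_card_le (A : Fin 2 × Fin m → K) : (WA A).card ≤ m := by
  refine (Finset.card_erase_le).trans (Finset.card_image_le.trans ?_)
  simp

lemma mem_UV_WA {A : Fin 2 × Fin m → K} {x : Fin 2 → K} :
    x ∈ UV (WA A) ↔ ∀ i, dot (col A i) x ≠ 1 := by
  constructor
  · intro h i hi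
    refine h (col A i) (Finset.mem_erase.2 ⟨?_, Finset.mem_image_of_mem _ (Finset.mem_univ _)⟩) hi
    intro h0
    rw [h0] at hi
    simp [dot] at hi
  · intro h w hw
    obtain ⟨_, hw⟩ := Finset.mem_erase.1 hw
    obtain ⟨i, _, rfl⟩ := Finset.mem_image.1 hw
    exact h i

lemma exists_pivots {A : Fin 2 × Fin m → K} (hA : A ∈ RE K 2 m) :
    ∃ i j : Fin m, i < j ∧ col A i = ![1, 0] ∧ col A j = ![0, 1] ∧ (∀ l < i, col A l = 0) ∧
      ∀ l < j, A (1, l) = 0 := by
  obtain ⟨p, hp, h⟩ := hA
  have h01 : (0 : Fin 2) < 1 := by decide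
  refine ⟨p 0, p 1, hp h01, ?_, ?_, fun l hl => ?_, (h 1).2.1⟩
  · ext a
    fin_cases a
    · exact (h 0).1
    · exact (h 1).2.2 0 h01.ne
  · ext a
    fin_cases a
    · exact (h 0).2.2 1 h01.ne'
    · exact (h 1).1
  · ext a
    fin_cases a
    · exact (h 0).2.1 l hl
    · exact (h 1).2.1 l (hl.trans (hp h01))

section
variable [IsAlgClosed K] (h2 : Swap2 K)
include h2

lemma bb_eq_BW {A : Fin 2 × Fin m → K} (hA : A ∈ RE K 2 m) : bb (rspan A) = BW (WA A) := by
  obtain ⟨i, j, hij, hi, hj, _⟩ := exists_pivots hA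
  have e1 : A (0, i) = 1 := congrFun hi 0
  have e2 : A (1, i) = 0 := congrFun hi 1
  have e3 : A (0, j) = 0 := congrFun hj 0
  have e4 : A (1, j) = 1 := congrFun hj 1
  have hev : ∀ (y : Fin 2 → K) (k : Fin m), eval y (C (A (0, k)) * X 0 + C (A (1, k)) * X 1 :
      MvPolynomial (Fin 2) K) = dot (col A k) y := by
    intro y k
    simp [dot, col]
  have h3 := (E_graph h2 (K := K) (ι := Fin 2) (κ := Fin m)
    (fun k => C (A (0, k)) * X 0 + C (A (1, k)) * X 1) (cons_UV (WA A)) (f := fun _ => 1)
    (CF.const 1) ?_).2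
  · simp only [hev] at h3
    have h4 : {y : Fin m → K | ∃ x ∈ UV (WA A), (fun k => dot (col A k) x) = y} =
        {x | x ∈ rspan A ∧ ∀ i, x i ≠ 1} := by
      ext y
      constructor
      · rintro ⟨x, hx, rfl⟩
        refine ⟨?_, mem_UV_WA.1 hx⟩
        have h5 : (fun k => dot (col A k) x) = x 0 • row A 0 + x 1 • row A 1 := by
          ext k
          show A (0, k) * x 0 + A (1, k) * x 1 = x 0 * A (0, k) + x 1 * A (1, k)
          ring
        rw [h5]
        exact Submodule.add_mem _ (Submodule.smul_mem _ _ (Submodule.subset_span ⟨0, rfl⟩))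
          (Submodule.smul_mem _ _ (Submodule.subset_span ⟨1, rfl⟩))
      · rintro ⟨h5, h6⟩
        unfold rspan at h5
        rw [Submodule.mem_span_range_iff_exists_fun] at h5
        obtain ⟨c, hc⟩ := h5
        have h7 : (fun k => dot (col A k) c) = y := by
          ext k
          rw [← hc, Finset.sum_apply, Fin.sum_univ_two]
          show A (0, k) * c 0 + A (1, k) * c 1 = c 0 * A (0, k) + c 1 * A (1, k)
          ring
        refine ⟨c, mem_UV_WA.2 fun k => ?_, h7⟩
        have h8 : dot (col A k) c = y k := congrFun h7 k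
        rw [h8]
        exact h6 k
    rw [h4] at h3
    unfold bb BW
    simpa using h3.symm
  · intro x _ y _ hxy
    have h5 : dot (col A i) x = dot (col A i) y := by
      rw [← hev, ← hev]
      exact congrFun hxy i
    have h6 : dot (col A j) x = dot (col A j) y := by
      rw [← hev, ← hev]
      exact congrFun hxy j
    simp only [dot, col, e1, e2, e3, e4, one_mul, zero_mul, add_zero, zero_add] at h5 h6
    ext a
    fin_cases a
    · exact h5
    · exact h6

/-- The range of the Euler characteristic. -/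
theorem bb_range {A : Fin 2 × Fin m → K} (hA : A ∈ RE K 2 m) :
    0 ≤ bb (rspan A) ∧ bb (rspan A) ≤ (((WA A).card - 1).choose 2 : ℤ) := by
  obtain ⟨i, j, hij, hi, hj, _⟩ := exists_pivots hA
  have hi' : col A i ∈ WA A := Finset.mem_erase.2 ⟨by
    rw [hi]
    intro h
    exact one_ne_zero (congrFun h 0 : (1 : K) = 0), Finset.mem_image_of_mem _ (Finset.mem_univ _)⟩
  have hj' : col A j ∈ WA A := Finset.mem_erase.2 ⟨by
    rw [hj]
    intro h
    exact one_ne_zero (congrFun h 1 : (1 : K) = 0), Finset.mem_image_of_mem _ (Finset.mem_univ _)⟩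
  rw [bb_eq_BW h2 hA]
  refine ⟨BW_nonneg (zero_notMem_WA A) hi' hj' ?_, BW_le (zero_notMem_WA A) ⟨_, hi'⟩⟩
  rw [hi, hj]
  simp [dt]

end

/-! ### Collinear triples -/

lemma tri_swap (p q r : Fin 2 → K) : tri q p r = - tri p q r := by
  unfold tri
  ring

lemma tri_rot (p q r : Fin 2 → K) : tri q r p = tri p q r := by
  unfold tri
  ring

lemma tri_self1 (p r : Fin 2 → K) : tri p p r = 0 := by
  unfold tri
  ring

lemma tri_self2 (p q : Fin 2 → K) : tri p q p = 0 := by
  unfold tri
  ring

lemma tri_self3 (p q : Fin 2 → K) : tri p q q = 0 := by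
  unfold tri
  ring

/-- The points of the set `τ` of indices are collinear. -/
def ColS (A : Fin 2 × Fin m → K) (τ : Finset (Fin (m + 1))) : Prop :=
  ∀ i ∈ τ, ∀ j ∈ τ, ∀ k ∈ τ, tri (PA' A i) (PA' A j) (PA' A k) = 0

lemma colS_triple {A : Fin 2 × Fin m → K} {i j k : Fin (m + 1)}
    (h : tri (PA' A i) (PA' A j) (PA' A k) = 0) : ColS A {i, j, k} := by
  have h1 : tri (PA' A j) (PA' A i) (PA' A k) = 0 := by rw [tri_swap, h, neg_zero]
  have e1 : tri (PA' A j) (PA' A k) (PA' A i) = 0 := by rw [tri_rot]; exact h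
  have e2 : tri (PA' A k) (PA' A i) (PA' A j) = 0 := by rw [tri_rot]; exact e1
  have e3 : tri (PA' A i) (PA' A k) (PA' A j) = 0 := by rw [tri_rot]; exact h1
  have e4 : tri (PA' A k) (PA' A j) (PA' A i) = 0 := by rw [tri_rot]; exact e3
  intro a ha b hb c hc
  simp only [Finset.mem_insert, Finset.mem_singleton] at ha hb hc
  rcases ha with rfl | rfl | rfl <;> rcases hb with rfl | rfl | rfl <;>
    rcases hc with rfl | rfl | rfl <;>
    first
      | assumption
      | exact tri_self1 _ _
      | exact tri_self2 _ _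
      | exact tri_self3 _ _

/-- The collinear triples. -/
noncomputable def TT (A : Fin 2 × Fin m → K) : Finset (Finset (Fin (m + 1))) :=
  (Finset.powersetCard 3 Finset.univ).filter fun τ => ColS A τ

lemma mem_TT {A : Fin 2 × Fin m → K} {τ : Finset (Fin (m + 1))} :
    τ ∈ TT A ↔ τ.card = 3 ∧ ColS A τ := by
  unfold TT
  rw [Finset.mem_filter, Finset.mem_powersetCard]
  simp

lemma triple_mem_TT {A : Fin 2 × Fin m → K} {i j k : Fin (m + 1)} (hij : i ≠ j) (hik : i ≠ k)
    (hjk : j ≠ k) (h : tri (PA' A i) (PA' A j) (PA' A k) = 0) : {i, j, k} ∈ TT A := by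
  refine mem_TT.2 ⟨?_, colS_triple h⟩
  exact Finset.card_eq_three.2 ⟨i, j, k, hij, hik, hjk, rfl⟩

/-- Two equal points give many collinear triples. -/
lemma TT_of_eq {A : Fin 2 × Fin m → K} {i j : Fin (m + 1)} (hij : i ≠ j) (h : PA' A i = PA' A j)
    (k : Fin (m + 1)) (hik : i ≠ k) (hjk : j ≠ k) : {i, j, k} ∈ TT A := by
  refine triple_mem_TT hij hik hjk ?_
  rw [h]
  exact tri_self1 _ _

/-- The points are distinct. -/
lemma inj_of_card {A : Fin 2 × Fin m → K} (h : (WA A).card = m) :
    (∀ i, col A i ≠ 0) ∧ Function.Injective (col A) := by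
  have h1 : (Finset.univ.image (col A)).card ≤ m := by
    refine Finset.card_image_le.trans ?_
    simp
  have h3 : (0 : Fin 2 → K) ∉ Finset.univ.image (col A) := by
    intro h0
    have h4 := Finset.card_erase_of_mem h0
    unfold WA at h
    have h5 : 0 < (Finset.univ.image (col A)).card := Finset.card_pos.2 ⟨_, h0⟩
    omega
  have h4 : (Finset.univ.image (col A)).card = m := by
    unfold WA at h
    rwa [Finset.erase_eq_of_notMem h3] at h
  refine ⟨fun i hi => h3 (by
    rw [← hi]
    exact Finset.mem_image_of_mem _ (Finset.mem_univ _)), ?_⟩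
  have h5 : (Finset.univ.image (col A)).card = (Finset.univ : Finset (Fin m)).card := by
    rw [h4]
    simp
  have h6 := Finset.card_image_iff.1 h5
  exact fun i j hij => h6 (Finset.mem_coe.2 (Finset.mem_univ i)) (Finset.mem_coe.2 (Finset.mem_univ j)) hij

lemma card_of_inj {A : Fin 2 × Fin m → K} (h : (∀ i, col A i ≠ 0) ∧ Function.Injective (col A)) :
    (WA A).card = m := by
  unfold WA
  rw [Finset.erase_eq_of_notMem, Finset.card_image_of_injective _ h.2]
  · simp
  · intro h0
    obtain ⟨i, _, hi⟩ := Finset.mem_image.1 h0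
    exact h.1 i hi

lemma inj_PA' {A : Fin 2 × Fin m → K} (h : ∀ i j : Fin (m + 1), i ≠ j → PA' A i ≠ PA' A j) :
    (∀ i, col A i ≠ 0) ∧ Function.Injective (col A) := by
  refine ⟨fun i hi => h i.succ 0 (Fin.succ_ne_zero i) ?_, fun i j hij => ?_⟩
  · rw [PA'_succ, hi, PA'_zero]
  · by_contra hne
    exact h i.succ j.succ (fun h => hne (Fin.succ_injective _ h)) (by rw [PA'_succ, PA'_succ, hij])

lemma mem_WA {A : Fin 2 × Fin m → K} (h : ∀ i, col A i ≠ 0) (i : Fin m) : col A i ∈ WA A :=
  Finset.mem_erase.2 ⟨h i, Finset.mem_image_of_mem _ (Finset.mem_univ _)⟩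

lemma exists_of_mem_WA {A : Fin 2 × Fin m → K} {w : Fin 2 → K} (h : w ∈ WA A) :
    ∃ i, col A i = w := by
  obtain ⟨_, h⟩ := Finset.mem_erase.1 h
  obtain ⟨i, _, rfl⟩ := Finset.mem_image.1 h
  exact ⟨i, rfl⟩

/-- Bad points among those with index in `I`. -/
lemma bad_iff {A : Fin 2 × Fin m → K} (h : Function.Injective (col A)) {i : Fin m}
    {I : Finset (Fin m)} (hi : i ∉ I) :
    Bad (col A i) (I.image (col A)) ↔
      ∃ τ ∈ TT A, i.succ ∈ τ ∧ τ ⊆ insert 0 (insert i.succ (I.image Fin.succ)) := by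
  constructor
  · rintro (⟨u, hu, h1⟩ | ⟨u, hu, u', hu', hne, h1⟩)
    · obtain ⟨j, hj, rfl⟩ := Finset.mem_image.1 hu
      have hij : i ≠ j := by
        rintro rfl
        exact hi hj
      refine ⟨{0, i.succ, j.succ}, triple_mem_TT (Fin.succ_ne_zero i).symm (Fin.succ_ne_zero j).symm
        (fun h => hij (Fin.succ_injective _ h)) ?_, by simp, ?_⟩
      · rw [PA'_zero, PA'_succ, PA'_succ, tri_zero]
        exact h1
      · intro a ha
        simp only [Finset.mem_insert, Finset.mem_singleton, Finset.mem_image] at ha ⊢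
        rcases ha with rfl | rfl | rfl
        · exact Or.inl rfl
        · exact Or.inr (Or.inl rfl)
        · exact Or.inr (Or.inr ⟨j, hj, rfl⟩)
    · obtain ⟨j, hj, rfl⟩ := Finset.mem_image.1 hu
      obtain ⟨k, hk, rfl⟩ := Finset.mem_image.1 hu'
      have hij : i ≠ j := by
        rintro rfl
        exact hi hj
      have hik : i ≠ k := by
        rintro rfl
        exact hi hk
      have hjk : j ≠ k := by
        rintro rfl
        exact hne rfl
      refine ⟨{i.succ, j.succ, k.succ}, triple_mem_TT (fun h => hij (Fin.succ_injective _ h))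
        (fun h => hik (Fin.succ_injective _ h)) (fun h => hjk (Fin.succ_injective _ h)) ?_,
        by simp, ?_⟩
      · rw [PA'_succ, PA'_succ, PA'_succ]
        exact h1
      · intro a ha
        simp only [Finset.mem_insert, Finset.mem_singleton, Finset.mem_image] at ha ⊢
        rcases ha with rfl | rfl | rfl
        · exact Or.inr (Or.inl rfl)
        · exact Or.inr (Or.inr ⟨j, hj, rfl⟩)
        · exact Or.inr (Or.inr ⟨k, hk, rfl⟩)
  · rintro ⟨τ, hτ, hiτ, hτI⟩
    obtain ⟨hc, hcol⟩ := mem_TT.1 hτ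
    have h1 : (τ.erase i.succ).card = 2 := by
      rw [Finset.card_erase_of_mem hiτ, hc]
    obtain ⟨a, b, hab, hτe⟩ := Finset.card_eq_two.1 h1
    have ha : a ∈ τ.erase i.succ := by rw [hτe]; simp
    have hb : b ∈ τ.erase i.succ := by rw [hτe]; simp
    obtain ⟨ha1, ha2⟩ := Finset.mem_erase.1 ha
    obtain ⟨hb1, hb2⟩ := Finset.mem_erase.1 hb
    have key : ∀ a ∈ τ, a ≠ i.succ → a = 0 ∨ ∃ j ∈ I, j.succ = a := by
      intro a ha ha'
      have h3 := hτI ha
      simp only [Finset.mem_insert, Finset.mem_image] at h3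
      rcases h3 with h3 | h3 | h3
      · exact Or.inl h3
      · exact absurd h3 ha'
      · exact Or.inr h3
    rcases key a ha2 ha1 with rfl | ⟨j, hj, rfl⟩
    · rcases key b hb2 hb1 with rfl | ⟨k, hk, rfl⟩
      · exact absurd rfl hab
      · refine Or.inl ⟨col A k, Finset.mem_image_of_mem _ hk, ?_⟩
        have h3 := hcol 0 ha2 i.succ hiτ k.succ hb2
        rwa [PA'_zero, PA'_succ, PA'_succ, tri_zero] at h3
    · rcases key b hb2 hb1 with rfl | ⟨k, hk, rfl⟩
      · refine Or.inl ⟨col A j, Finset.mem_image_of_mem _ hj, ?_⟩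
        have h3 := hcol 0 hb2 i.succ hiτ j.succ ha2
        rwa [PA'_zero, PA'_succ, PA'_succ, tri_zero] at h3
      · refine Or.inr ⟨col A j, Finset.mem_image_of_mem _ hj, col A k, Finset.mem_image_of_mem _ hk,
          fun h4 => hab (congrArg Fin.succ (h h4)), ?_⟩
        have h3 := hcol i.succ hiτ j.succ ha2 k.succ hb2
        rwa [PA'_succ, PA'_succ, PA'_succ] at h3

/-- Uniformity of the points with index in `I`. -/
lemma unif_iff {A : Fin 2 × Fin m → K} (h : Function.Injective (col A)) {I : Finset (Fin m)} :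
    Unif (I.image (col A)) ↔ ∀ τ ∈ TT A, ¬ τ ⊆ insert 0 (I.image Fin.succ) := by
  have herase : ∀ i ∈ I, (I.image (col A)).erase (col A i) = (I.erase i).image (col A) := by
    intro i _
    rw [Finset.image_erase h]
  constructor
  · intro hu τ hτ hsub
    obtain ⟨hc, _⟩ := mem_TT.1 hτ
    -- an element of `τ` which is not zero
    obtain ⟨a, ha, ha0⟩ : ∃ a ∈ τ, a ≠ 0 := by
      by_contra hcon
      push Not at hcon
      have : τ ⊆ {0} := fun a ha => Finset.mem_singleton.2 (hcon a ha)
      have := Finset.card_le_card this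
      simp at this
      omega
    have h3 := hsub ha
    simp only [Finset.mem_insert, Finset.mem_image] at h3
    rcases h3 with h3 | ⟨i, hi, rfl⟩
    · exact ha0 h3
    · refine hu (col A i) (Finset.mem_image_of_mem _ hi) ?_
      rw [herase i hi]
      refine (bad_iff h (Finset.notMem_erase i I)).2 ⟨τ, hτ, ha, fun b hb => ?_⟩
      have h4 := hsub hb
      simp only [Finset.mem_insert, Finset.mem_image, Finset.mem_erase] at h4 ⊢
      rcases h4 with h4 | ⟨j, hj, rfl⟩
      · exact Or.inl h4
      · by_cases hji : j = i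
        · exact Or.inr (Or.inl (by rw [hji]))
        · exact Or.inr (Or.inr ⟨j, ⟨hji, hj⟩, rfl⟩)
  · intro hu w hw hb
    obtain ⟨i, hi, rfl⟩ := Finset.mem_image.1 hw
    rw [herase i hi] at hb
    obtain ⟨τ, hτ, _, hsub⟩ := (bad_iff h (Finset.notMem_erase i I)).1 hb
    refine hu τ hτ (hsub.trans ?_)
    intro a ha
    simp only [Finset.mem_insert, Finset.mem_image, Finset.mem_erase] at ha ⊢
    rcases ha with rfl | rfl | ⟨j, hj, rfl⟩
    · exact Or.inl rfl
    · exact Or.inr ⟨i, hi, rfl⟩
    · exact Or.inr ⟨j, hj.2, rfl⟩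

lemma WA_eq {A : Fin 2 × Fin m → K} (h : ∀ i, col A i ≠ 0) : WA A = Finset.univ.image (col A) := by
  unfold WA
  rw [Finset.erase_eq_of_notMem]
  intro h0
  obtain ⟨i, _, hi⟩ := Finset.mem_image.1 h0
  exact h i hi

lemma subset_insert_zero (τ : Finset (Fin (m + 1))) :
    τ ⊆ insert 0 ((Finset.univ : Finset (Fin m)).image Fin.succ) := by
  intro a _
  simp only [Finset.mem_insert, Finset.mem_image, Finset.mem_univ, true_and]
  rcases Fin.eq_zero_or_eq_succ a with h | ⟨j, h⟩
  · exact Or.inl h
  · exact Or.inr ⟨j, h.symm⟩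

lemma five_third : ∀ i j : Fin 5, ∃ k : Fin 5, i ≠ k ∧ j ≠ k := by
  decide

lemma six_third : ∀ i j : Fin 6, ∃ k l : Fin 6, k ≠ l ∧ i ≠ k ∧ j ≠ k ∧ i ≠ l ∧ j ≠ l := by
  decide

section
variable [IsAlgClosed K]

/-- Four lines. -/
lemma BW_four {W : Finset (Fin 2 → K)} (h0 : (0 : Fin 2 → K) ∉ W) (hc : W.card = 4)
    (hu : ¬ Unif W) : BW W ≤ 2 := by
  unfold Unif at hu
  push Not at hu
  obtain ⟨w, hw, hb⟩ := hu
  have hw0 : w ≠ 0 := by
    rintro rfl
    exact h0 hw
  rw [BW_erase hw hw0]
  have h1 := pp_lt hb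
  have h3 : (W.erase w).card = 3 := by rw [Finset.card_erase_of_mem hw, hc]
  have h4 := BW_le (W := W.erase w) (fun h => h0 (Finset.mem_of_mem_erase h))
    (Finset.card_pos.1 (by omega))
  rw [h3] at h1 h4
  have h5 : (3 - 1).choose 2 = 1 := by decide
  rw [h5] at h4
  push_cast at h4
  omega

variable (h2 : Swap2 K)
include h2

/-- The maximal value for four columns. -/
theorem bb_four {A : Fin 2 × Fin 4 → K} (hA : A ∈ RE K 2 4) : bb (rspan A) = 3 ↔ TT A = ∅ := by
  constructor
  · intro h
    have h1 := (bb_range h2 hA).2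
    have hc : (WA A).card = 4 := by
      by_contra hne
      have h3 := WA_card_le A
      have h4 : (WA A).card - 1 ≤ 2 := by omega
      have h5 := Nat.choose_le_choose 2 h4
      have h6 : (2 : ℕ).choose 2 = 1 := by decide
      rw [h] at h1
      have h7 : (3 : ℤ) ≤ 1 := by
        refine h1.trans ?_
        exact_mod_cast h5.trans_eq h6
      norm_num at h7
    obtain ⟨hc1, hc2⟩ := inj_of_card hc
    by_contra hne
    obtain ⟨τ, hτ⟩ := Finset.nonempty_iff_ne_empty.2 hne
    have h3 : ¬ Unif (WA A) := by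
      rw [WA_eq hc1, unif_iff hc2]
      intro h4
      exact h4 τ hτ (subset_insert_zero τ)
    have h4 := BW_four (zero_notMem_WA A) hc h3
    rw [← bb_eq_BW h2 hA, h] at h4
    norm_num at h4
  · intro h
    have hP : ∀ i j : Fin 5, i ≠ j → PA' A i ≠ PA' A j := by
      intro i j hij hP
      obtain ⟨k, hk1, hk2⟩ := five_third i j
      have := TT_of_eq hij hP k hk1 hk2
      rw [h] at this
      exact Finset.notMem_empty _ this
    obtain ⟨hc1, hc2⟩ := inj_PA' hP
    have hc := card_of_inj ⟨hc1, hc2⟩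
    have h3 : Unif (WA A) := by
      rw [WA_eq hc1, unif_iff hc2, h]
      intro τ hτ
      exact absurd hτ (Finset.notMem_empty τ)
    rw [bb_eq_BW h2 hA, BW_unif (zero_notMem_WA A) (Finset.card_pos.1 (by omega)) h3, hc]
    decide

omit [IsAlgClosed K] h2 in
/-- The points of five columns are distinct if there is at most one collinear triple. -/
lemma inj_of_TT {A : Fin 2 × Fin 5 → K} (h : (TT A).card ≤ 1) :
    (∀ i, col A i ≠ 0) ∧ Function.Injective (col A) := by
  refine inj_PA' fun i j hij hP => ?_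
  obtain ⟨k, l, hkl, hk1, hk2, hl1, hl2⟩ := six_third i j
  have h3 := TT_of_eq hij hP k hk1 hk2
  have h4 := TT_of_eq hij hP l hl1 hl2
  have h5 := Finset.card_le_one.1 h _ h3 _ h4
  have h6 : k ∈ ({i, j, l} : Finset (Fin 6)) := by
    rw [← h5]
    simp
  simp only [Finset.mem_insert, Finset.mem_singleton] at h6
  rcases h6 with h6 | h6 | h6
  · exact hk1 h6.symm
  · exact hk2 h6.symm
  · exact hkl h6

/-- The classification of the largest values for five columns. -/
theorem bb_five {A : Fin 2 × Fin 5 → K} (hA : A ∈ RE K 2 5) :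
    (bb (rspan A) = 6 ↔ TT A = ∅) ∧ (bb (rspan A) = 5 ↔ (TT A).card = 1) := by
  have hcard : 5 ≤ bb (rspan A) → (WA A).card = 5 := by
    intro h
    by_contra hne
    have h1 := (bb_range h2 hA).2
    have h3 := WA_card_le A
    have h4 : (WA A).card - 1 ≤ 3 := by omega
    have h5 := Nat.choose_le_choose 2 h4
    have h6 : (3 : ℕ).choose 2 = 3 := by decide
    have h7 : (5 : ℤ) ≤ 3 := by
      refine (h.trans h1).trans ?_
      exact_mod_cast h5.trans_eq h6
    norm_num at h7
  -- one bad point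
  have hbad : ∀ (hc : (WA A).card = 5) (τ : Finset (Fin 6)) (_ : τ ∈ TT A) (i : Fin 5)
      (_ : i.succ ∈ τ), bb (rspan A) ≤ BW ((WA A).erase (col A i)) + 2 := by
    intro hc τ hτ i hi
    obtain ⟨hc1, hc2⟩ := inj_of_card hc
    have hmem := mem_WA hc1 i
    rw [bb_eq_BW h2 hA, BW_erase hmem (hc1 i)]
    have hb : Bad (col A i) ((WA A).erase (col A i)) := by
      rw [WA_eq hc1, ← Finset.image_erase hc2]
      refine (bad_iff hc2 (Finset.notMem_erase i _)).2 ⟨τ, hτ, hi, fun a ha => ?_⟩
      have h3 := subset_insert_zero τ ha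
      simp only [Finset.mem_insert, Finset.mem_image, Finset.mem_erase, Finset.mem_univ, and_true,
        true_and] at h3 ⊢
      rcases h3 with h3 | ⟨j, rfl⟩
      · exact Or.inl h3
      · by_cases hji : j = i
        · exact Or.inr (Or.inl (by rw [hji]))
        · exact Or.inr (Or.inr ⟨j, hji, rfl⟩)
    have h1 := pp_lt hb
    rw [Finset.card_erase_of_mem hmem, hc] at h1
    omega
  have herase_card : ∀ (hc : (WA A).card = 5) (i : Fin 5), ((WA A).erase (col A i)).card = 4 := by
    intro hc i
    rw [Finset.card_erase_of_mem (mem_WA (inj_of_card hc).1 i), hc]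
  have herase_zero : ∀ i : Fin 5, (0 : Fin 2 → K) ∉ (WA A).erase (col A i) := fun i h =>
    zero_notMem_WA A (Finset.mem_of_mem_erase h)
  have herase_le : ∀ (_ : (WA A).card = 5) (i : Fin 5), BW ((WA A).erase (col A i)) ≤ 3 := by
    intro hc i
    have h1 := BW_le (herase_zero i) (Finset.card_pos.1 (by rw [herase_card hc i]; norm_num))
    rw [herase_card hc i] at h1
    have h5 : (4 - 1).choose 2 = 3 := by decide
    rw [h5] at h1
    exact_mod_cast h1
  -- a nonzero element of a triple
  have hnz : ∀ τ : Finset (Fin 6), τ.card = 3 → ∃ i : Fin 5, i.succ ∈ τ := by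
    intro τ hτ
    by_contra hcon
    push Not at hcon
    have h3 : τ ⊆ {0} := by
      intro a ha
      rcases Fin.eq_zero_or_eq_succ a with h | ⟨j, h⟩
      · exact Finset.mem_singleton.2 h
      · exact absurd (by rw [h] at ha; exact ha) (hcon j)
    have h4 := Finset.card_le_card h3
    simp at h4
    omega
  have hA6 : TT A = ∅ → bb (rspan A) = 6 := by
    intro h
    obtain ⟨hc1, hc2⟩ := inj_of_TT (A := A) (by rw [h]; simp)
    have hc := card_of_inj ⟨hc1, hc2⟩
    have h3 : Unif (WA A) := by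
      rw [WA_eq hc1, unif_iff hc2, h]
      intro τ hτ
      exact absurd hτ (Finset.notMem_empty τ)
    rw [bb_eq_BW h2 hA, BW_unif (zero_notMem_WA A) (Finset.card_pos.1 (by omega)) h3, hc]
    decide
  have h6A : bb (rspan A) = 6 → TT A = ∅ := by
    intro h
    have hc := hcard (by rw [h]; norm_num)
    by_contra hne
    obtain ⟨τ, hτ⟩ := Finset.nonempty_iff_ne_empty.2 hne
    obtain ⟨i, hi⟩ := hnz τ (mem_TT.1 hτ).1
    have h3 := hbad hc τ hτ i hi
    have h4 := herase_le hc i
    omega
  refine ⟨⟨h6A, hA6⟩, ?_, ?_⟩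
  · intro h
    have hc := hcard (by rw [h])
    obtain ⟨hc1, hc2⟩ := inj_of_card hc
    have hne : TT A ≠ ∅ := by
      intro h3
      rw [hA6 h3] at h
      norm_num at h
    -- two triples are impossible
    have htwo : ∀ τ ∈ TT A, ∀ τ' ∈ TT A, ∀ i : Fin 5, i.succ ∈ τ → i.succ ∉ τ' → False := by
      intro τ hτ τ' hτ' i hi hi'
      have h3 := hbad hc τ hτ i hi
      have h4 : ¬ Unif ((WA A).erase (col A i)) := by
        rw [WA_eq hc1, ← Finset.image_erase hc2, unif_iff hc2]
        intro h5
        refine h5 τ' hτ' fun a ha => ?_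
        have h6 := subset_insert_zero τ' ha
        simp only [Finset.mem_insert, Finset.mem_image, Finset.mem_erase, Finset.mem_univ, and_true,
          true_and] at h6 ⊢
        rcases h6 with h6 | ⟨j, rfl⟩
        · exact Or.inl h6
        · refine Or.inr ⟨j, ?_, rfl⟩
          rintro rfl
          exact hi' ha
      have h5 := BW_four (herase_zero i) (herase_card hc i) h4
      omega
    refine Finset.card_eq_one.2 ?_
    obtain ⟨τ, hτ⟩ := Finset.nonempty_iff_ne_empty.2 hne
    refine ⟨τ, Finset.eq_singleton_iff_unique_mem.2 ⟨hτ, fun τ' hτ' => ?_⟩⟩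
    have hsub : ∀ σ ∈ TT A, ∀ σ' ∈ TT A, ∀ i : Fin 5, i.succ ∈ σ → i.succ ∈ σ' := by
      intro σ hσ σ' hσ' i hi
      by_contra hi'
      exact htwo σ hσ σ' hσ' i hi hi'
    have hc3 := (mem_TT.1 hτ).1
    have hc3' := (mem_TT.1 hτ').1
    -- the nonzero parts agree, the cardinalities agree
    have h7 : τ'.erase 0 = τ.erase 0 := by
      ext a
      simp only [Finset.mem_erase]
      refine and_congr_right fun ha => ?_
      rcases Fin.eq_zero_or_eq_succ a with h | ⟨j, rfl⟩
      · exact absurd h ha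
      · exact ⟨hsub τ' hτ' τ hτ j, hsub τ hτ τ' hτ' j⟩
    by_cases h0 : (0 : Fin 6) ∈ τ
    · by_cases h0' : (0 : Fin 6) ∈ τ'
      · rw [← Finset.insert_erase h0, ← Finset.insert_erase h0', h7]
      · rw [Finset.erase_eq_of_notMem h0'] at h7
        rw [h7, Finset.card_erase_of_mem h0, hc3] at hc3'
        norm_num at hc3'
    · by_cases h0' : (0 : Fin 6) ∈ τ'
      · rw [Finset.erase_eq_of_notMem h0] at h7
        rw [← h7, Finset.card_erase_of_mem h0', hc3'] at hc3
        norm_num at hc3
      · rw [Finset.erase_eq_of_notMem h0, Finset.erase_eq_of_notMem h0'] at h7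
        exact h7
  · intro h
    obtain ⟨τ, hτe⟩ := Finset.card_eq_one.1 h
    have hτ : τ ∈ TT A := by
      rw [hτe]
      exact Finset.mem_singleton_self τ
    obtain ⟨hc1, hc2⟩ := inj_of_TT (A := A) (by rw [h])
    have hc := card_of_inj ⟨hc1, hc2⟩
    have hc3 := (mem_TT.1 hτ).1
    obtain ⟨i, hi⟩ := hnz τ hc3
    obtain ⟨j, hj, hij⟩ : ∃ j : Fin 5, j.succ ∈ τ ∧ i ≠ j := by
      by_contra hcon
      push Not at hcon
      have h3 : τ ⊆ {0, i.succ} := by
        intro a ha
        rcases Fin.eq_zero_or_eq_succ a with h | ⟨k, h⟩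
        · rw [h]
          simp
        · rw [h] at ha ⊢
          rw [hcon k ha]
          simp
      have h4 := Finset.card_le_card h3
      have h5 : ({0, i.succ} : Finset (Fin 6)).card ≤ 2 := Finset.card_le_two
      omega
    have h3 := hbad hc τ hτ i hi
    have hmem := mem_WA hc1 i
    have hB : BW ((WA A).erase (col A i)) = 3 := by
      have h4 : Unif ((WA A).erase (col A i)) := by
        rw [WA_eq hc1, ← Finset.image_erase hc2, unif_iff hc2]
        intro τ' hτ' hsub
        rw [hτe, Finset.mem_singleton] at hτ'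
        rw [hτ'] at hsub
        have h5 := hsub hi
        simp only [Finset.mem_insert, Finset.mem_image, Finset.mem_erase, Finset.mem_univ,
          and_true] at h5
        rcases h5 with h5 | ⟨k, hk, h5⟩
        · exact Fin.succ_ne_zero i h5
        · exact hk (Fin.succ_injective _ h5)
      rw [BW_unif (herase_zero i) (Finset.card_pos.1 (by rw [herase_card hc i]; norm_num)) h4,
        herase_card hc i]
      decide
    have hP : 3 ≤ pp (col A i) ((WA A).erase (col A i)) := by
      have h4 : ¬ Bad (col A i) (((Finset.univ.erase i).erase j).image (col A)) := by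
        rw [bad_iff hc2 (fun h => Finset.notMem_erase i _ (Finset.mem_of_mem_erase h))]
        rintro ⟨τ', hτ', _, hsub⟩
        rw [hτe, Finset.mem_singleton] at hτ'
        rw [hτ'] at hsub
        have h5 := hsub hj
        simp only [Finset.mem_insert, Finset.mem_image, Finset.mem_erase, Finset.mem_univ,
          and_true] at h5
        rcases h5 with h5 | h5 | ⟨k, hk, h5⟩
        · exact Fin.succ_ne_zero j h5
        · exact hij (Fin.succ_injective _ h5).symm
        · exact hk.1 (Fin.succ_injective _ h5)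
      have h5 := pp_eq h4
      rw [Finset.card_image_of_injective _ hc2, Finset.card_erase_of_mem
        (Finset.mem_erase.2 ⟨hij.symm, Finset.mem_univ _⟩),
        Finset.card_erase_of_mem (Finset.mem_univ _)] at h5
      simp only [Finset.card_univ, Fintype.card_fin] at h5
      have h6 : ((Finset.univ.erase i).erase j).image (col A) ⊆ (WA A).erase (col A i) := by
        rw [WA_eq hc1, ← Finset.image_erase hc2]
        exact Finset.image_subset_image (Finset.erase_subset _ _)
      have h7 := pp_mono (col A i) h6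
      omega
    have h4 := bb_eq_BW h2 hA
    rw [BW_erase hmem (hc1 i), hB] at h4
    rw [hB] at h3
    have h5 : (3 : ℤ) ≤ pp (col A i) ((WA A).erase (col A i)) := by exact_mod_cast hP
    omega

end

end EC
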