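import Pool.Agent.EC.Bij
import Pool.Agent.EU.Aut
import Pool.Agent.EU.NCDef

/-!
# Symmetry of the Euler integral over the complex plane, from the count of critical points
-/

namespace Pool.EU

open MvPolynomial Pool.ML

/-- The independence of the number of critical points of the choice of the exponents. -/
def NCeq : Prop := ∀ (ι κ : Type) [Fintype ι] [Fintype κ] [DecidableEq ι] [DecidableEq κ]
    (f : κ → MvPolynomial ι ℂ) (T : Set ℂ), T.Countable → coefs f ⊆ acl T →
    ∀ y : ι ⊕ κ → ℂ, AlgebraicIndependent (acl T) y →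
      (Crit f (fun i => y (Sum.inl i)) (fun j => y (Sum.inr j))).ncard = NC f

/-- The fibration formula over the torus of dimension two. -/
def Peel2 : Prop := ∀ (κ : Type) [Fintype κ] [DecidableEq κ]
    (f : κ → MvPolynomial (Fin 2 ⊕ Fin 0) ℂ), (NC f : ℤ) = (-1) ^ 2 * EC.EI 2 (fibNF f)

lemma countable_coefs {ι κ : Type} [Fintype ι] [Fintype κ] (f : κ → MvPolynomial ι ℂ) :
    (coefs f).Countable := by
  have h : coefs f = Set.range (fun p : κ × (ι →₀ ℕ) => coeff p.2 (f p.1)) := by
    ext a
    simp only [coefs, Set.mem_ofPred_eq, Set.mem_range, Prod.exists]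
  rw [h]
  exact Set.countable_range _

open Classical in
/-- Constants. -/
lemma NC_const {ι κ : Type} [Fintype ι] [Fintype κ] [DecidableEq ι] [DecidableEq κ] [IsEmpty ι]
    (f : κ → MvPolynomial ι ℂ) :
    NC f = if ∀ j, eval isEmptyElim (f j) ≠ 0 then 1 else 0 := by
  have hex : ∃ y : ι ⊕ κ → ℂ, AlgebraicIndependent (acl (coefs f)) y :=
    exists_algInd _ (countable_coefs f) _
  unfold NC
  rw [dif_pos hex]
  by_cases h : ∀ j, eval isEmptyElim (f j) ≠ 0
  · rw [if_pos h]
    have h1 : Crit f (fun i => hex.choose (Sum.inl i)) (fun j => hex.choose (Sum.inr j)) =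
        {isEmptyElim} := by
      ext x
      have hx : x = isEmptyElim := funext fun i => isEmptyElim i
      simp only [Crit, Set.mem_ofPred_eq, Set.mem_singleton_iff, hx, iff_true]
      exact ⟨fun i => isEmptyElim i, h, fun i => isEmptyElim i⟩
    rw [h1, Set.ncard_singleton]
  · rw [if_neg h]
    have h1 : Crit f (fun i => hex.choose (Sum.inl i)) (fun j => hex.choose (Sum.inr j)) = ∅ := by
      ext x
      have hx : x = isEmptyElim := funext fun i => isEmptyElim i
      simp only [Crit, Set.mem_ofPred_eq, Set.mem_empty_iff_false, hx, iff_false]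
      exact fun h2 => h h2.2.1
    rw [h1, Set.ncard_empty]

lemma mem_crit_rename {ι ι' κ : Type} [Fintype ι] [Fintype ι'] [Fintype κ] [DecidableEq ι]
    [DecidableEq ι'] [DecidableEq κ] (e : ι ≃ ι') (f : κ → MvPolynomial ι ℂ) (v : ι → ℂ)
    (t : κ → ℂ) (x : ι' → ℂ) :
    x ∈ Crit (fun j => rename e (f j)) (fun i => v (e.symm i)) t ↔ x ∘ e ∈ Crit f v t := by
  have h1 : ∀ i p, pderiv i (rename e p : MvPolynomial ι' ℂ) = rename e (pderiv (e.symm i) p) := by
    intro i p
    have := pderiv_rename e.injective (e.symm i) p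
    rw [Equiv.apply_symm_apply] at this
    exact this
  simp only [Crit, Set.mem_ofPred_eq, h1, eval_rename]
  constructor
  · rintro ⟨h2, h3, h4⟩
    refine ⟨fun i => h2 _, h3, fun i => ?_⟩
    have := h4 (e i)
    rw [Equiv.symm_apply_apply] at this
    exact this
  · rintro ⟨h2, h3, h4⟩
    refine ⟨fun i => ?_, h3, fun i => ?_⟩
    · have := h2 (e.symm i)
      rwa [Function.comp_apply, Equiv.apply_symm_apply] at this
    · have := h4 (e.symm i)
      rwa [Function.comp_apply, Equiv.apply_symm_apply] at this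

theorem NC_rename (hNC : NCeq) {ι ι' κ : Type} [Fintype ι] [Fintype ι'] [Fintype κ] [DecidableEq ι]
    [DecidableEq ι'] [DecidableEq κ] (e : ι ≃ ι') (f : κ → MvPolynomial ι ℂ) :
    NC (fun j => rename e (f j)) = NC f := by
  obtain ⟨y, hy⟩ := exists_algInd (coefs f) (countable_coefs f) (ι ⊕ κ)
  rw [← hNC ι κ f (coefs f) (countable_coefs f) (subset_acl _) y hy]
  have h1 : coefs (fun j => rename e (f j)) ⊆ acl (coefs f) := by
    rintro a ⟨j, m, rfl⟩
    by_cases hm : coeff m (rename e (f j)) = 0
    · rw [hm]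
      exact (acl (coefs f)).zero_mem
    · obtain ⟨u, hu, hu'⟩ := coeff_rename_ne_zero e (f j) m hm
      refine subset_acl _ ⟨j, u, ?_⟩
      rw [← hu, coeff_rename_mapDomain e e.injective]
  have hy' : AlgebraicIndependent (acl (coefs f))
      (fun s : ι' ⊕ κ => y ((e.symm.sumCongr (Equiv.refl κ)) s)) :=
    hy.comp _ (Equiv.injective _)
  rw [← hNC ι' κ (fun j => rename e (f j)) (coefs f) (countable_coefs f) h1 _ hy']
  have h2 : Crit (fun j => rename e (f j)) (fun i => y ((e.symm.sumCongr (Equiv.refl κ))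
      (Sum.inl i))) (fun j => y ((e.symm.sumCongr (Equiv.refl κ)) (Sum.inr j))) =
      (fun x : ι → ℂ => x ∘ e.symm) '' Crit f (fun i => y (Sum.inl i)) (fun j => y (Sum.inr j)) := by
    ext x
    rw [Set.mem_image]
    have h3 := mem_crit_rename e f (fun i => y (Sum.inl i)) (fun j => y (Sum.inr j)) x
    constructor
    · intro hx
      refine ⟨x ∘ e, h3.1 hx, ?_⟩
      ext i
      simp
    · rintro ⟨z, hz, rfl⟩
      refine h3.2 ?_
      have : (z ∘ e.symm) ∘ e = z := by
        ext i
        simp
      rw [this]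
      exact hz
  rw [h2, Set.ncard_image_of_injective]
  intro x z h
  ext i
  have := congrFun h (e i)
  simpa using this

open Classical in
/-- The two iterated Euler integrals over the complex plane agree. -/
theorem swap2_complex (hNC : NCeq) (hP : Peel2) : EC.Swap2 ℂ := by
  refine EC.swap2_of fun F h0 h1 => ?_
  set f : F → MvPolynomial (Fin 2 ⊕ Fin 0) ℂ := fun p => rename Sum.inl p.1 with hf
  set σ : Fin 2 ⊕ Fin 0 ≃ Fin 2 ⊕ Fin 0 := (Equiv.swap 0 1).sumCongr (Equiv.refl _) with hσ
  have hsub : ∀ (x : Fin 2 → ℂ) (p : MvPolynomial (Fin 2 ⊕ Fin 0) ℂ),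
      eval isEmptyElim (subF x p) = eval (Sum.elim x isEmptyElim) p := by
    intro x p
    induction p using MvPolynomial.induction_on with
    | C a => simp [subF]
    | add p q hp hq => rw [map_add, map_add, map_add, hp, hq]
    | mul_X p i hp =>
      rw [map_mul, map_mul, map_mul, hp]
      congr 1
      rcases i with i | i
      · simp [subF]
      · exact i.elim0
  have hind : ∀ x : Fin 2 → ℂ, fibNF f x = EC.ind (EC.U F) x := by
    intro x
    unfold fibNF
    rw [NC_const]
    have h2 : (∀ j : F, eval isEmptyElim (subF x (f j)) ≠ 0) ↔ x ∈ EC.U F := by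
      simp only [hsub, hf, eval_rename]
      rw [Sum.elim_comp_inl]
      constructor
      · exact fun h p hp => h ⟨p, hp⟩
      · exact fun h p => h p.1 p.2
    by_cases hx : x ∈ EC.U F
    · have h3 : ¬ ∃ i, x i = 0 := by
        rintro ⟨i, hi⟩
        fin_cases i
        · exact hx _ h0 (by simpa using hi)
        · exact hx _ h1 (by simpa using hi)
      rw [if_neg h3, if_pos (h2.2 hx)]
      unfold EC.ind
      rw [if_pos hx]
      rfl
    · have h4 : ¬ ∀ j : F, eval isEmptyElim (subF x (f j)) ≠ 0 := fun h => hx (h2.1 h)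
      rw [if_neg h4]
      unfold EC.ind
      rw [if_neg hx]
      simp
  have hind' : ∀ x : Fin 2 → ℂ, fibNF (fun j => rename σ (f j)) x =
      EC.ind (EC.U F) (x ∘ Equiv.swap 0 1) := by
    intro x
    unfold fibNF
    rw [NC_const]
    have h2 : (∀ j : F, eval isEmptyElim (subF x (rename σ (f j))) ≠ 0) ↔
        x ∘ Equiv.swap 0 1 ∈ EC.U F := by
      have h5 : ∀ j : F, eval isEmptyElim (subF x (rename σ (f j))) =
          eval (x ∘ Equiv.swap 0 1) j.1 := by
        intro j
        rw [hsub, hf, eval_rename, eval_rename]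
        congr 2
      simp only [h5]
      constructor
      · exact fun h p hp => h ⟨p, hp⟩
      · exact fun h p => h p.1 p.2
    by_cases hx : x ∘ Equiv.swap 0 1 ∈ EC.U F
    · have h3 : ¬ ∃ i, x i = 0 := by
        rintro ⟨i, hi⟩
        fin_cases i
        · exact hx _ h1 (by simpa using hi)
        · exact hx _ h0 (by simpa using hi)
      rw [if_neg h3, if_pos (h2.2 hx)]
      unfold EC.ind
      rw [if_pos hx]
      rfl
    · have h4 : ¬ ∀ j : F, eval isEmptyElim (subF x (rename σ (f j))) ≠ 0 := fun h => hx (h2.1 h)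
      rw [if_neg h4]
      unfold EC.ind
      rw [if_neg hx]
      simp
  have e1 := hP F f
  have e2 := hP F (fun j => rename σ (f j))
  rw [NC_rename hNC] at e2
  have e3 : EC.EI 2 (fibNF f) = EC.EI 2 (fibNF (fun j => rename σ (f j))) := by
    have := e1.symm.trans e2
    simpa using this
  have e4 : fibNF f = EC.ind (EC.U F) := funext hind
  have e5 : fibNF (fun j => rename σ (f j)) = fun x => EC.ind (EC.U F) (x ∘ Equiv.swap 0 1) :=
    funext hind'
  rw [e4, e5, EC.EI_two, EC.EI_two] at e3
  rw [e3]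
  congr 1
  ext s
  congr 1
  ext t
  congr 1
  ext i
  fin_cases i <;> rfl

end Pool.EU
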