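import Pool.Agent.EC.Plane2

/-!
# Collinear triples and permutations of the points
-/

namespace EC

open MvPolynomial Classical

variable {K : Type*} [Field K] {m : ℕ}

/-- The coordinates and zero. -/
def extL (K : Type*) [Field K] {m : ℕ} (i : Fin (m + 1)) : (Fin m → K) →ₗ[K] K where
  toFun q := (Fin.cons 0 q : Fin (m + 1) → K) i
  map_add' x y := by
    refine Fin.cases ?_ (fun i => ?_) i
    · simp
    · simp
  map_smul' c x := by
    refine Fin.cases ?_ (fun i => ?_) i
    · simp
    · simp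

lemma extL_zero (q : Fin m → K) : extL K 0 q = 0 := rfl

lemma extL_succ (q : Fin m → K) (i : Fin m) : extL K i.succ q = q i := rfl

lemma extL_row (A : Fin 2 × Fin m → K) (a : Fin 2) (i : Fin (m + 1)) :
    extL K i (row A a) = PA' A i a := by
  refine Fin.cases ?_ (fun i => ?_) i
  · rfl
  · rfl

/-- Dependence of three coordinates. -/
def Dep (L : Submodule K (Fin m → K)) (i j k : Fin (m + 1)) : Prop :=
  ∃ α β γ : K, (α ≠ 0 ∨ β ≠ 0 ∨ γ ≠ 0) ∧ α + β + γ = 0 ∧
    ∀ q ∈ L, α * extL K i q + β * extL K j q + γ * extL K k q = 0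

lemma tri_iff {p q r : Fin 2 → K} : tri p q r = 0 ↔
    ∃ α β γ : K, (α ≠ 0 ∨ β ≠ 0 ∨ γ ≠ 0) ∧ α + β + γ = 0 ∧
      ∀ a, α * p a + β * q a + γ * r a = 0 := by
  unfold tri
  constructor
  · intro h
    by_cases h0 : q 0 = p 0
    · by_cases h1 : q 1 = p 1
      · refine ⟨1, -1, 0, Or.inl one_ne_zero, by ring, fun a => ?_⟩
        fin_cases a
        · show 1 * p 0 + -1 * q 0 + 0 * r 0 = 0
          rw [h0]
          ring
        · show 1 * p 1 + -1 * q 1 + 0 * r 1 = 0
          rw [h1]
          ring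
      · refine ⟨(r 1 - p 1) - (q 1 - p 1), -(r 1 - p 1), q 1 - p 1,
          Or.inr (Or.inr (sub_ne_zero.2 h1)), by ring, fun a => ?_⟩
        fin_cases a
        · show ((r 1 - p 1) - (q 1 - p 1)) * p 0 + -(r 1 - p 1) * q 0 + (q 1 - p 1) * r 0 = 0
          linear_combination -h
        · show ((r 1 - p 1) - (q 1 - p 1)) * p 1 + -(r 1 - p 1) * q 1 + (q 1 - p 1) * r 1 = 0
          ring
    · refine ⟨(r 0 - p 0) - (q 0 - p 0), -(r 0 - p 0), q 0 - p 0,
        Or.inr (Or.inr (sub_ne_zero.2 h0)), by ring, fun a => ?_⟩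
      fin_cases a
      · show ((r 0 - p 0) - (q 0 - p 0)) * p 0 + -(r 0 - p 0) * q 0 + (q 0 - p 0) * r 0 = 0
        ring
      · show ((r 0 - p 0) - (q 0 - p 0)) * p 1 + -(r 0 - p 0) * q 1 + (q 0 - p 0) * r 1 = 0
        linear_combination h
  · rintro ⟨α, β, γ, h, hs, hc⟩
    have h0 := hc 0
    have h1 := hc 1
    have e0 : β * (q 0 - p 0) + γ * (r 0 - p 0) = 0 := by linear_combination h0 - p 0 * hs
    have e1 : β * (q 1 - p 1) + γ * (r 1 - p 1) = 0 := by linear_combination h1 - p 1 * hs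
    have hbc : β ≠ 0 ∨ γ ≠ 0 := by
      by_contra hn
      push Not at hn
      rw [hn.1, hn.2, add_zero, add_zero] at hs
      simp [hs, hn.1, hn.2] at h
    rcases hbc with hb | hc
    · refine (mul_eq_zero.1 (?_ : β * _ = 0)).resolve_left hb
      linear_combination (r 1 - p 1) * e0 - (r 0 - p 0) * e1
    · refine (mul_eq_zero.1 (?_ : γ * _ = 0)).resolve_left hc
      linear_combination (q 0 - p 0) * e1 - (q 1 - p 1) * e0

lemma dep_rspan {A : Fin 2 × Fin m → K} {i j k : Fin (m + 1)} :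
    Dep (rspan A) i j k ↔ tri (PA' A i) (PA' A j) (PA' A k) = 0 := by
  rw [tri_iff]
  unfold Dep
  refine exists_congr fun α => exists_congr fun β => exists_congr fun γ => and_congr_right fun _ =>
    and_congr_right fun _ => ?_
  constructor
  · intro h a
    have h1 := h (row A a) (Submodule.subset_span ⟨a, rfl⟩)
    rwa [extL_row, extL_row, extL_row] at h1
  · intro h q hq
    have h1 : rspan A ≤ LinearMap.ker (α • extL K i + β • extL K j + γ • extL K k) := by
      unfold rspan
      rw [Submodule.span_le]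
      rintro _ ⟨a, rfl⟩
      show α * extL K i (row A a) + β * extL K j (row A a) + γ * extL K k (row A a) = 0
      rw [extL_row, extL_row, extL_row]
      exact h a
    exact h1 hq

/-- Collinearity of a set of coordinates. -/
def ColL (L : Submodule K (Fin m → K)) (τ : Finset (Fin (m + 1))) : Prop :=
  ∀ i ∈ τ, ∀ j ∈ τ, ∀ k ∈ τ, Dep L i j k

lemma colL_rspan {A : Fin 2 × Fin m → K} {τ : Finset (Fin (m + 1))} :
    ColL (rspan A) τ ↔ ColS A τ := by
  unfold ColL ColS
  simp only [dep_rspan]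

/-- The linear map of a permutation. -/
def phi (K : Type*) [Field K] {m : ℕ} (σ : Equiv.Perm (Fin (m + 1))) :
    (Fin m → K) →ₗ[K] (Fin m → K) :=
  LinearMap.pi fun i => extL K (σ i.succ) - extL K (σ 0)

lemma extL_phi (σ : Equiv.Perm (Fin (m + 1))) (i : Fin (m + 1)) (q : Fin m → K) :
    extL K i (phi K σ q) = extL K (σ i) q - extL K (σ 0) q := by
  refine Fin.cases ?_ (fun i => ?_) i
  · rw [extL_zero, sub_self]
  · rw [extL_succ]
    rfl

lemma phi_inj (σ : Equiv.Perm (Fin (m + 1))) : Function.Injective (phi K σ) := by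
  rw [← LinearMap.ker_eq_bot, LinearMap.ker_eq_bot']
  intro q hq
  have h1 : ∀ j, extL K j q = extL K (σ 0) q := by
    intro j
    have h2 := extL_phi σ (σ.symm j) q
    rw [hq, map_zero, Equiv.apply_symm_apply] at h2
    exact (sub_eq_zero.1 h2.symm)
  ext i
  have h2 := h1 i.succ
  rw [← h1 0, extL_zero, extL_succ] at h2
  exact h2

lemma phi_surj (σ : Equiv.Perm (Fin (m + 1))) : Function.Surjective (phi K σ) :=
  LinearMap.injective_iff_surjective.1 (phi_inj σ)

lemma dep_map {L : Submodule K (Fin m → K)} {σ : Equiv.Perm (Fin (m + 1))} {i j k : Fin (m + 1)} :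
    Dep (L.map (phi K σ)) i j k ↔ Dep L (σ i) (σ j) (σ k) := by
  unfold Dep
  refine exists_congr fun α => exists_congr fun β => exists_congr fun γ => and_congr_right fun _ =>
    and_congr_right fun hs => ?_
  have key : ∀ q, α * extL K i (phi K σ q) + β * extL K j (phi K σ q) +
      γ * extL K k (phi K σ q) = α * extL K (σ i) q + β * extL K (σ j) q +
      γ * extL K (σ k) q := by
    intro q
    rw [extL_phi, extL_phi, extL_phi]
    linear_combination (-extL K (σ 0) q) * hs
  constructor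
  · intro h q hq
    rw [← key]
    exact h _ (Submodule.mem_map_of_mem hq)
  · rintro h _ ⟨q, hq, rfl⟩
    rw [key]
    exact h q hq

lemma colL_map {L : Submodule K (Fin m → K)} {σ : Equiv.Perm (Fin (m + 1))}
    {τ : Finset (Fin (m + 1))} :
    ColL (L.map (phi K σ)) τ ↔ ColL L (τ.map σ.toEmbedding) := by
  unfold ColL
  simp only [dep_map, Finset.mem_map_equiv]
  constructor
  · intro h i hi j hj k hk
    have := h _ hi _ hj _ hk
    simpa using this
  · intro h i hi j hj k hk
    exact h _ (by simpa using hi) _ (by simpa using hj) _ (by simpa using hk)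

/-- The set `τ` is the only collinear triple. -/
noncomputable def gT (τ : Finset (Fin (m + 1))) (L : Submodule K (Fin m → K)) : ℤ :=
  if ∀ τ' : Finset (Fin (m + 1)), τ'.card = 3 → (ColL L τ' ↔ τ' = τ) then 1 else 0

lemma gT_rspan {A : Fin 2 × Fin m → K} {τ : Finset (Fin (m + 1))} (hτ : τ.card = 3) :
    gT τ (rspan A) = ind {A : Fin 2 × Fin m → K | TT A = {τ}} A := by
  unfold gT ind
  congr 1
  apply propext
  rw [Set.mem_setOf_eq, Finset.ext_iff]
  simp only [colL_rspan, mem_TT, Finset.mem_singleton]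
  constructor
  · intro h a
    constructor
    · rintro ⟨h1, h2⟩
      exact (h a h1).1 h2
    · rintro rfl
      exact ⟨hτ, (h a hτ).2 rfl⟩
  · intro h a ha
    rw [← h a]
    exact ⟨fun h1 => ⟨ha, h1⟩, fun h1 => h1.2⟩

lemma gT_map {L : Submodule K (Fin m → K)} {σ : Equiv.Perm (Fin (m + 1))}
    {τ : Finset (Fin (m + 1))} : gT τ (L.map (phi K σ)) = gT (τ.map σ.toEmbedding) L := by
  unfold gT
  congr 1
  apply propext
  simp only [colL_map]
  constructor
  · intro h τ' hτ'
    have h1 := h (τ'.map σ.symm.toEmbedding) (by rw [Finset.card_map]; exact hτ')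
    have h2 : (τ'.map σ.symm.toEmbedding).map σ.toEmbedding = τ' := by
      ext a
      simp [Finset.mem_map_equiv]
    rw [h2] at h1
    rw [h1]
    constructor
    · rintro rfl
      exact h2.symm
    · rintro rfl
      ext a
      simp [Finset.mem_map_equiv]
  · intro h τ' hτ'
    rw [h (τ'.map σ.toEmbedding) (by rw [Finset.card_map]; exact hτ'), Finset.map_inj]

lemma cons_ColS (τ : Finset (Fin (m + 1))) : Cons {A : Fin 2 × Fin m → K | ColS A τ} := by
  set P : Fin (m + 1) → Fin 2 → MvPolynomial (Fin 2 × Fin m) K :=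
    Fin.cons (fun _ => 0) (fun i a => X (a, i)) with hP
  have hev : ∀ (A : Fin 2 × Fin m → K) (i : Fin (m + 1)) (a : Fin 2), eval A (P i a) = PA' A i a := by
    intro A i a
    refine Fin.cases ?_ (fun i => ?_) i
    · simp [hP, PA'_zero]
    · simp [hP, PA'_succ, col]
  have h : {A : Fin 2 × Fin m → K | ColS A τ} = ⋂ i ∈ τ, ⋂ j ∈ τ, ⋂ k ∈ τ,
      {A | eval A ((P j 0 - P i 0) * (P k 1 - P i 1) - (P j 1 - P i 1) * (P k 0 - P i 0)) = 0} := by
    ext A
    simp only [Set.mem_setOf_eq, Set.mem_iInter, map_sub, map_mul, hev]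
    rfl
  rw [h]
  exact Cons.biInter _ fun i _ => Cons.biInter _ fun j _ => Cons.biInter _ fun k _ => Cons.zero _

lemma cons_TT (F : Finset (Finset (Fin (m + 1)))) : Cons {A : Fin 2 × Fin m → K | TT A = F} := by
  have h : {A : Fin 2 × Fin m → K | TT A = F} =
      ⋂ τ : Finset (Fin (m + 1)), {A | (τ.card = 3 ∧ ColS A τ) ↔ τ ∈ F} := by
    ext A
    simp only [Set.mem_setOf_eq, Set.mem_iInter, Finset.ext_iff, mem_TT]
  rw [h]
  refine Cons.iInter fun τ => ?_
  by_cases hc : τ.card = 3 <;> by_cases hF : τ ∈ F <;> simp only [hc, hF, true_and, false_and,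
    iff_true, iff_false, not_true, not_false_eq_true]
  · exact cons_ColS τ
  · exact (cons_ColS τ).compl
  · exact Cons.empty
  · exact Cons.univ

lemma ind_inter {α : Type*} (S T : Set α) (x : α) : ind S x * ind T x = ind (S ∩ T) x :=
  (ind_mul_of Iff.rfl).symm

lemma gcf_gT {τ : Finset (Fin (m + 1))} (hτ : τ.card = 3) : GCF 2 m (gT (K := K) τ) := by
  unfold GCF
  simp only [gT_rspan hτ, ind_inter]
  exact CF.of_cons (cons_RE.inter (cons_TT _))

/-- The Euler characteristic of the set of planes with one collinear triple. -/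
noncomputable def NT (K : Type*) [Field K] {m : ℕ} (τ : Finset (Fin (m + 1))) : ℤ :=
  E (fun A : Fin 2 × Fin m → K => ind (RE K 2 m) A * ind {A | TT A = {τ}} A)

theorem NT_eq [IsAlgClosed K] (h2 : Swap2 K) {τ τ' : Finset (Fin (m + 1))} (hτ : τ.card = 3)
    (hτ' : τ'.card = 3) : NT K τ = NT K τ' := by
  have h1 : ∀ τ : Finset (Fin (m + 1)), τ.card = 3 → NT K τ = GI 2 m (gT (K := K) τ) := by
    intro τ hτ
    unfold NT GI
    simp only [gT_rspan hτ]
  rw [h1 τ hτ, h1 τ' hτ']
  -- a permutation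
  set e := Finset.equivOfCardEq (hτ'.trans hτ.symm) with he
  obtain ⟨σ, hσ⟩ : ∃ σ : Equiv.Perm (Fin (m + 1)), τ'.map σ.toEmbedding = τ := by
    refine ⟨e.extendSubtype, Finset.eq_of_subset_of_card_le ?_ (by rw [Finset.card_map, hτ, hτ'])⟩
    intro a ha
    obtain ⟨b, hb, rfl⟩ := Finset.mem_map.1 ha
    exact e.extendSubtype_mem b hb
  have hker : LinearMap.ker (phi K σ) = ⊥ := LinearMap.ker_eq_bot.2 (phi_inj σ)
  have h3 := (GI_map h2 (d := 2) (d' := 2) (phi K σ) (phi_surj σ) (by rw [hker]; simp)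
    (gcf_gT (K := K) hτ')).2
  rw [← h3]
  congr 1
  ext L
  rw [if_pos (by rw [hker]; exact bot_le), gT_map, hσ]

end EC
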